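import Pool.Agent.Lib.TFW.Blue

/-! Block DEC: exact exponential decay of the radial solution. -/

open MeasureTheory Filter Topology Set Real

namespace Pool.Agent.Lib.TFW

namespace T35

theorem tail (f f' : ℝ → ℝ) (a L γ : ℝ) (hγ : 0 < γ)
    (hd : ∀ r, a ≤ r → HasDerivAt f (f' r) r) (hb : ∀ r, a ≤ r → |f' r| ≤ L * exp (-γ * r)) :
    ∃ m, Tendsto f atTop (𝓝 m) ∧ |m - f a| ≤ L / γ * exp (-γ * a) := by
  have hi : IntegrableOn (fun r => L * exp (-γ * r)) (Ioi a) :=
    (integrableOn_exp_mul_Ioi (by linarith) a).const_mul L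
  have hm : AEStronglyMeasurable f' (volume.restrict (Ioi a)) := by
    refine (measurable_deriv f).aestronglyMeasurable.congr ?_
    filter_upwards [ae_restrict_mem measurableSet_Ioi] with r hr
    exact (hd r (le_of_lt hr)).deriv
  have hle : ∀ᵐ r ∂(volume.restrict (Ioi a)), ‖f' r‖ ≤ L * exp (-γ * r) := by
    filter_upwards [ae_restrict_mem measurableSet_Ioi] with r hr
    exact hb r (le_of_lt hr)
  have hf : IntegrableOn f' (Ioi a) := hi.mono' hm hle
  have ht := tendsto_limUnder_of_hasDerivAt_of_integrableOn_Ioi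
    (fun r hr => hd r (le_of_lt hr)) hf
  refine ⟨_, ht, ?_⟩
  rw [← integral_Ioi_of_hasDerivAt_of_tendsto' (fun r hr => hd r hr) hf ht]
  have := norm_integral_le_of_norm_le hi hle
  rw [integral_const_mul, integral_exp_mul_Ioi (by linarith)] at this
  refine le_trans this (le_of_eq ?_)
  field_simp

theorem exp_lim (γ : ℝ) (hγ : 0 < γ) : Tendsto (fun r => exp (-γ * r)) atTop (𝓝 0) :=
  tendsto_exp_atBot.comp (tendsto_id.const_mul_atTop_of_neg (by linarith))

theorem dexp (γ r : ℝ) : HasDerivAt (fun r => exp (γ * r)) (γ * exp (γ * r)) r := by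
  have := ((hasDerivAt_id r).const_mul γ).exp
  simpa [mul_comm] using this

theorem small {y : ℝ → ℝ} (h : Cl y) (ε : ℝ) (hε : 0 < ε) : ∀ᶠ r in atTop, y r ≤ ε * r := by
  obtain ⟨M, hM⟩ := h.sq
  filter_upwards [eventually_ge_atTop (0 : ℝ), eventually_ge_atTop (M / ε ^ 2)] with r h0 h1
  have h2 : M ≤ ε ^ 2 * r := by rwa [div_le_iff₀ (by positivity), mul_comm] at h1
  have h3 : y r ^ 2 ≤ (ε * r) ^ 2 := by
    have := hM r h0
    nlinarith [mul_le_mul_of_nonneg_right h2 h0]
  exact le_trans (le_abs_self _) (abs_le_of_sq_le_sq' h3 (by positivity) |> abs_le.2)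

/-- The asymptotics of a positive solution of a perturbed equation. -/
theorem asym (κ a K D β : ℝ) (y y' θ : ℝ → ℝ) (hκ : 0 < κ) (hβ : 0 < β) (ha : 0 ≤ a)
    (hD : 0 ≤ D) (pos : ∀ r, a ≤ r → 0 < y r) (d1 : ∀ r, a ≤ r → HasDerivAt y (y' r) r)
    (d2 : ∀ r, a ≤ r → HasDerivAt y' ((κ ^ 2 + θ r) * y r) r)
    (hθ : ∀ r, a ≤ r → |θ r| ≤ D * exp (-β * r))
    (hK : ∀ r, a ≤ r → y r ≤ K * exp (-(κ / 2) * r))
    (anti : ∀ s r, a ≤ s → s ≤ r → y r ≤ y s) :
    ∃ c, 0 < c ∧ Tendsto (fun r => exp (κ * r) * y r) atTop (𝓝 c) ∧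
      Tendsto (fun r => exp (κ * r) * y' r) atTop (𝓝 (-(κ * c))) := by
  have e1 : ∀ r, a ≤ r → exp (-β * r) ≤ 1 := fun r hr =>
    exp_le_one_iff.2 (by nlinarith)
  obtain ⟨m', hm', -⟩ := tail y' (fun r => (κ ^ 2 + θ r) * y r) a ((κ ^ 2 + D) * K) (κ / 2)
    (by linarith) d2 (fun r hr => by
      rw [abs_mul, abs_of_pos (pos r hr), mul_assoc]
      refine mul_le_mul ?_ (hK r hr) (pos r hr).le (by positivity)
      have h1 := hθ r hr
      have h2 := mul_le_mul_of_nonneg_left (e1 r hr) hD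
      have h3 := abs_add_le (κ ^ 2) (θ r)
      rw [abs_of_nonneg (sq_nonneg κ)] at h3
      linarith)
  have hy0 : Tendsto y atTop (𝓝 0) := by
    have h1 := (exp_lim (κ / 2) (by linarith)).const_mul K
    rw [mul_zero] at h1
    refine squeeze_zero' ?_ ?_ h1
    · filter_upwards [eventually_ge_atTop a] with r hr using (pos r hr).le
    · filter_upwards [eventually_ge_atTop a] with r hr using hK r hr
  have hF : Tendsto (fun r => (y' r + κ * y r) * exp (-κ * r)) atTop (𝓝 0) := by
    have := (hm'.add (hy0.const_mul κ)).mul (exp_lim κ hκ)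
    simpa using this
  have hp : ∀ s, a ≤ s → |y' s + κ * y s| ≤ D / (κ + β) * exp (-β * s) * y s := by
    intro s hs
    obtain ⟨m, hm, hb⟩ := tail (fun r => (y' r + κ * y r) * exp (-κ * r))
      (fun r => θ r * y r * exp (-κ * r)) s (D * y s) (κ + β) (by linarith)
      (fun r hr => by
        have h1 := ((d2 r (hs.trans hr)).add ((d1 r (hs.trans hr)).const_mul κ)).mul
          (dexp (-κ) r)
        refine HasDerivAt.congr_deriv h1 ?_
        simp only [Pi.add_apply]; ring)
      (fun r hr => by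
        have hr' := hs.trans hr
        rw [abs_mul, abs_mul, abs_of_pos (pos r hr'), abs_of_pos (exp_pos _),
          show -(κ + β) * r = -β * r + -κ * r by ring, exp_add]
        have h1 : |θ r| * y r ≤ D * exp (-β * r) * y s :=
          mul_le_mul (hθ r hr') (anti s r hs hr) (pos r hr').le (by positivity)
        have h2 := mul_le_mul_of_nonneg_right h1 (exp_pos (-κ * r)).le
        linarith)
    rw [tendsto_nhds_unique hm hF, zero_sub, abs_neg, abs_mul, abs_of_pos (exp_pos _),
      show -(κ + β) * s = -β * s + -κ * s by ring, exp_add] at hb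
    refine le_of_mul_le_mul_right (hb.trans (le_of_eq ?_)) (exp_pos (-κ * s))
    ring
  obtain ⟨l, hl, -⟩ := tail (fun r => log (y r) + κ * r) (fun r => y' r / y r + κ) a
    (D / (κ + β)) β hβ
    (fun r hr => by
      have h1 := ((d1 r hr).log (pos r hr).ne').add ((hasDerivAt_id r).const_mul κ)
      refine HasDerivAt.congr_deriv h1 ?_
      simp)
    (fun r hr => by
      have h0 := pos r hr
      rw [show y' r / y r + κ = (y' r + κ * y r) / y r by field_simp, abs_div, abs_of_pos h0,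
        div_le_iff₀ h0]
      exact hp r hr)
  have hc : Tendsto (fun r => exp (κ * r) * y r) atTop (𝓝 (exp l)) := by
    refine ((continuous_exp.tendsto l).comp hl).congr' ?_
    filter_upwards [eventually_ge_atTop a] with r hr
    simp only [Function.comp, exp_add, exp_log (pos r hr)]; ring
  refine ⟨exp l, exp_pos l, hc, ?_⟩
  have h0 : Tendsto (fun r => exp (κ * r) * (y' r + κ * y r)) atTop (𝓝 0) := by
    have h1 := ((exp_lim β hβ).const_mul (D / (κ + β))).mul hc
    rw [mul_zero, zero_mul] at h1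
    refine squeeze_zero_norm' ?_ h1
    filter_upwards [eventually_ge_atTop a] with r hr
    rw [norm_mul, norm_eq_abs, norm_eq_abs, abs_of_pos (exp_pos _)]
    have := mul_le_mul_of_nonneg_left (hp r hr) (exp_pos (κ * r)).le
    linarith
  have h2 := h0.sub (hc.const_mul κ)
  rw [zero_sub] at h2
  refine h2.congr fun r => by ring

end T35

open T35

theorem st_DEC (h2 : St_B2) (hM : St_MP) : St_DEC := by
  intro z κ y y' hz hκ H hm
  have hA := A_pos
  obtain ⟨-, -, -, -, -, hW⟩ := h2 y H.cl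
  have hμ : 0 < A * κ ^ 2 := by positivity
  obtain ⟨a, ha1, ha2⟩ : ∃ a : ℝ, 1 ≤ a ∧ 4 * z / (3 * (A * κ ^ 2)) ≤ a :=
    ⟨max 1 _, le_max_left _ _, le_max_right _ _⟩
  have hp : ∀ r, a ≤ r → 0 < r := fun r hr => by linarith
  have hq : ∀ r, a ≤ r → A * κ ^ 2 / 4 ≤ qq z (A * κ ^ 2) y r := by
    intro r hr
    have h0 := hp r hr
    have h1 : z / r ≤ 3 / 4 * (A * κ ^ 2) := by
      have := ha2.trans hr
      rw [div_le_iff₀ (by positivity)] at this
      rw [div_le_iff₀ h0]; linarith
    have h3 : 0 ≤ (|y r| / r) ^ (4 / 3 : ℝ) := by positivity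
    have h4 : 0 ≤ 4 * π * Wp y r := mul_nonneg (by positivity) (hW r h0).1
    unfold qq ph; linarith
  have hyy : ∀ r, a ≤ r → κ ^ 2 / 4 * y r ≤ qq z (A * κ ^ 2) y r * y r / A := by
    intro r hr
    rw [le_div_iff₀ hA]
    have := mul_le_mul_of_nonneg_right (hq r hr) (H.pos r (hp r hr)).le
    linarith
  obtain ⟨K, hK0, hKa⟩ : ∃ K, 0 < K ∧ y a = K * exp (-(κ / 2) * a) :=
    ⟨y a / exp (-(κ / 2) * a), div_pos (H.pos a (hp a le_rfl)) (exp_pos _), by field_simp⟩
  have hK : ∀ r, a ≤ r → y r ≤ K * exp (-(κ / 2) * r) := by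
    intro r hr
    have := hM a (fun r => y r - K * exp (-(κ / 2) * r))
      (fun r => y' r - K * (-(κ / 2) * exp (-(κ / 2) * r)))
      (fun r => qq z (A * κ ^ 2) y r * y r / A
        - K * (-(κ / 2) * (-(κ / 2) * exp (-(κ / 2) * r))))
      (fun r hr => (H.d1 r (hp r hr)).sub ((dexp _ r).const_mul K))
      (fun r hr => (H.d2 r (hp r hr)).sub (((dexp _ r).const_mul _).const_mul K))
      (by simp only [hKa, sub_self, le_refl])
      (fun r hr hw => by
        have h1 := hyy r hr
        have h3 := mul_pos (show 0 < κ ^ 2 / 4 by positivity) hw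
        linarith)
      (fun ε hε => by
        filter_upwards [small H.cl ε hε] with r hr
        have := mul_pos hK0 (exp_pos (-(κ / 2) * r))
        linarith) r hr
    linarith
  have anti : ∀ s r, a ≤ s → s ≤ r → y r ≤ y s := by
    intro s r hs hr
    have := hM s (fun r => y r - y s) y' (fun r => qq z (A * κ ^ 2) y r * y r / A)
      (fun r hr => (H.d1 r (hp r (hs.trans hr))).sub_const _)
      (fun r hr => H.d2 r (hp r (hs.trans hr))) (by simp)
      (fun r hr _ => le_trans (mul_pos (by positivity) (H.pos r (hp r (hs.trans hr)))).le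
        (hyy r (hs.trans hr)))
      (fun ε hε => by
        filter_upwards [small H.cl ε hε] with r hr
        have := H.pos s (hp s hs)
        linarith) r hr
    linarith
  refine asym κ a K ((K ^ (4 / 3 : ℝ) + 4 * π * (K ^ 2 / κ)) / A) (2 / 3 * κ) y y'
    (fun r => (qq z (A * κ ^ 2) y r - A * κ ^ 2) / A) hκ (by positivity) (by linarith)
    (by positivity) (fun r hr => H.pos r (hp r hr)) (fun r hr => H.d1 r (hp r hr))
    (fun r hr => ?_) (fun r hr => ?_) hK anti
  · convert H.d2 r (hp r hr) using 1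
    field_simp; ring
  · have h0 := hp r hr
    have hy := H.pos r h0
    have hr1 : 1 ≤ r := ha1.trans hr
    obtain ⟨-, -, w1, w2⟩ := hW r h0
    rw [hm] at w1 w2
    have i1 : ∫ s in Ioi r, y s ^ 2 ≤ K ^ 2 / κ * exp (-κ * r) := by
      have hi : IntegrableOn (fun s => K ^ 2 * exp (-κ * s)) (Ioi r) :=
        (integrableOn_exp_mul_Ioi (by linarith) r).const_mul _
      have := setIntegral_mono_on (H.cl.int.mono_set (Ioi_subset_Ioi h0.le)) hi measurableSet_Ioi
        (fun s hs => by
          have hs' : a ≤ s := hr.trans (le_of_lt hs)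
          have h1 := pow_le_pow_left₀ (H.pos s (hp s hs')).le (hK s hs') 2
          rwa [mul_pow, ← exp_nat_mul, show ((2 : ℕ) : ℝ) * (-(κ / 2) * s) = -κ * s by
            push_cast; ring] at h1)
      rw [integral_const_mul, integral_exp_mul_Ioi (by linarith)] at this
      refine this.trans (le_of_eq ?_)
      field_simp
    have i0 : 0 ≤ ∫ s in Ioi r, y s ^ 2 := integral_nonneg fun s => sq_nonneg _
    have i2 : 4 * π / r * (∫ s in Ioi r, y s ^ 2)
        ≤ 4 * π * (K ^ 2 / κ) * exp (-(2 / 3 * κ) * r) := by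
      have h1 : 4 * π / r ≤ 4 * π := div_le_self (by positivity) hr1
      have h3 : exp (-κ * r) ≤ exp (-(2 / 3 * κ) * r) := exp_le_exp.2 (by nlinarith)
      have h4 := mul_le_mul_of_nonneg_left h3 (show 0 ≤ K ^ 2 / κ by positivity)
      have h5 := mul_le_mul h1 (i1.trans h4) i0 (by positivity)
      linarith
    have i3 : (|y r| / r) ^ (4 / 3 : ℝ) ≤ K ^ (4 / 3 : ℝ) * exp (-(2 / 3 * κ) * r) := by
      have h1 : |y r| / r ≤ K * exp (-(κ / 2) * r) := by
        rw [abs_of_pos hy]; exact (div_le_self hy.le hr1).trans (hK r hr)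
      have h3 := rpow_le_rpow (by positivity) h1 (show (0 : ℝ) ≤ 4 / 3 by norm_num)
      rwa [mul_rpow hK0.le (exp_pos _).le, ← exp_mul,
        show -(κ / 2) * r * (4 / 3) = -(2 / 3 * κ) * r by ring] at h3
    have i4 : 0 ≤ (|y r| / r) ^ (4 / 3 : ℝ) := by positivity
    have i5 : 0 ≤ K ^ (4 / 3 : ℝ) * exp (-(2 / 3 * κ) * r) := by positivity
    have i6 : 0 ≤ 4 * π * (K ^ 2 / κ) * exp (-(2 / 3 * κ) * r) := by positivity
    rw [abs_div, abs_of_pos hA, div_mul_eq_mul_div, div_le_div_iff_of_pos_right hA, abs_le]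
    unfold qq ph
    constructor <;> linarith

end Pool.Agent.Lib.TFW
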