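import Pool.Agent.Lib.TFW.Basic
import Pool.Agent.Lib.TFW.B_DEC
import Pool.Agent.Lib.ION.NEWTON

/-! Block ATOM: the data of the neutral atom in space. -/

open MeasureTheory Filter Topology Set Real

namespace Pool.Agent.Lib.TFW

open Pool.Agent.Lib.MP_689e73_mp (psi)

namespace T35

/-- extension by zero -/
noncomputable def ext0 (f : ℝ → ℝ) (r : ℝ) : ℝ := if 0 < r then f r else 0

theorem ext0_pos (f : ℝ → ℝ) {r : ℝ} (h : 0 < r) : ext0 f r = f r := if_pos h

theorem ext0_meas {f : ℝ → ℝ} (hf : ContinuousOn f (Ioi 0)) : Measurable (ext0 f) := by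
  classical
  have := ContinuousOn.measurable_piecewise (g := fun _ => (0 : ℝ)) hf continuousOn_const
    measurableSet_Ioi
  convert this using 1
  funext r
  by_cases h : 0 < r
  · rw [ext0_pos f h, piecewise_eq_of_mem _ _ _ (mem_Ioi.2 h)]
  · rw [piecewise_eq_of_notMem _ _ _ (fun h' => h (mem_Ioi.1 h'))]; exact if_neg h

theorem ext0_ev (f : ℝ → ℝ) {r : ℝ} (h : 0 < r) : ext0 f =ᶠ[𝓝 r] f := by
  filter_upwards [Ioi_mem_nhds h] with s hs using ext0_pos f hs

theorem bdd1 {f : ℝ → ℝ} {c : ℝ} (hf : ContinuousOn f (Ici 1)) (hc : Tendsto f atTop (𝓝 c)) :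
    ∃ M, 0 ≤ M ∧ ∀ r, 1 ≤ r → |f r| ≤ M := by
  obtain ⟨R, hR⟩ := eventually_atTop.1 (hc.abs.eventually (gt_mem_nhds (lt_add_one |c|)))
  obtain ⟨C, hC⟩ := (isCompact_Icc (a := (1 : ℝ)) (b := R)).exists_bound_of_continuousOn
    (hf.mono Icc_subset_Ici_self)
  refine ⟨max C (|c| + 1), le_max_of_le_right (by positivity), fun r hr => ?_⟩
  rcases le_total r R with h | h
  · exact le_max_of_le_left (hC r ⟨hr, h⟩)
  · exact le_max_of_le_right (hR r h).le

end T35

open T35

theorem st_ATOM (h2 : St_B2) (hP : St_POS) (hMU : St_MU) (hD : St_DEC) (hZ : St_ZERO) :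
    St_ATOM := by
  intro z hz
  have hA := A_pos
  obtain ⟨μ, y, y', H⟩ := hP z hz
  obtain ⟨hμ, hm⟩ := hMU z μ y y' hz H
  obtain ⟨κ, hκ, rfl⟩ : ∃ κ, 0 < κ ∧ μ = A * κ ^ 2 :=
    ⟨√(μ / A), sqrt_pos.2 (by positivity), by rw [sq_sqrt (by positivity)]; field_simp⟩
  obtain ⟨c, hc, l1, l2⟩ := hD z κ y y' hz hκ H hm
  obtain ⟨K0, hK0⟩ := hZ z _ y y' hz H
  obtain ⟨-, -, -, cW, -, hW⟩ := h2 y H.cl
  have cy : ContinuousOn y (Ioi 0) := fun r hr => (H.d1 r hr).continuousAt.continuousWithinAt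
  have cy' : ContinuousOn y' (Ioi 0) := fun r hr => (H.d2 r hr).continuousAt.continuousWithinAt
  have cp : ContinuousOn (ph z y) (Ioi 0) :=
    (continuousOn_const.div continuousOn_id fun r hr => ne_of_gt hr).sub
      (continuousOn_const.mul cW)
  have sub : Ici (1 : ℝ) ⊆ Ioi 0 := Ici_subset_Ioi.2 one_pos
  have ce : ContinuousOn (fun r => exp (κ * r)) (Ici 1) := by fun_prop
  obtain ⟨M1, p1, hM1⟩ := bdd1 (ce.mul (cy.mono sub)) l1
  obtain ⟨M3, p3, hM3⟩ := bdd1 (ce.mul (cy'.mono sub)) l2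
  obtain ⟨M2, p2, hM2⟩ := bdd1 ((ce.mul (cy.mono sub)).inv₀ fun r hr =>
    (mul_pos (exp_pos _) (H.pos r (sub hr))).ne') (l1.inv₀ hc.ne')
  have p0 : 0 ≤ K0 := by
    have h1 := (hK0 1 one_pos le_rfl).1
    have := H.pos 1 one_pos
    linarith
  have inv : ∀ r, exp (κ * r) * exp (-(κ * r)) = 1 := fun r => by rw [← exp_add]; simp
  have b1 : ∀ r, 1 ≤ r → y r ≤ M1 * exp (-(κ * r)) := fun r hr => by
    have h1 := mul_le_mul_of_nonneg_right ((le_abs_self _).trans (hM1 r hr))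
      (exp_pos (-(κ * r))).le
    simp only [Pi.mul_apply] at h1
    rwa [mul_right_comm, inv, one_mul] at h1
  have b3 : ∀ r, 1 ≤ r → |y' r| ≤ M3 * exp (-(κ * r)) := fun r hr => by
    have h1 := mul_le_mul_of_nonneg_right (hM3 r hr) (exp_pos (-(κ * r))).le
    simp only [Pi.mul_apply] at h1
    rwa [abs_mul, abs_of_pos (exp_pos _), mul_right_comm, inv, one_mul] at h1
  have b2 : ∀ r, 1 ≤ r → exp (-(κ * r)) ≤ M2 * y r := fun r hr => by
    have h0 := H.pos r (sub hr)
    have h1 := (le_abs_self _).trans (hM2 r hr)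
    simp only [Pi.mul_apply, Pi.inv_apply] at h1
    rwa [mul_inv, ← exp_neg, ← div_eq_mul_inv, div_le_iff₀ h0] at h1
  have b0 : ∀ r, r ≤ 1 → 1 ≤ exp κ * exp (-(κ * r)) := fun r hr => by
    rw [← exp_add]; exact one_le_exp (by nlinarith)
  have eκ := exp_pos κ
  obtain ⟨M4, hM4⟩ : ∃ M4, M4 = M1 + K0 * exp κ := ⟨_, rfl⟩
  have p4 : 0 ≤ M4 := by rw [hM4]; positivity
  have q1 : M1 ≤ M4 := by rw [hM4]; have := mul_nonneg p0 eκ.le; linarith
  have q0 : ∀ r, r ≤ 1 → K0 ≤ M4 * exp (-(κ * r)) := fun r hr => by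
    have h1 := mul_le_mul_of_nonneg_left (b0 r hr) p0
    have h3 := mul_nonneg p1 (exp_pos (-(κ * r))).le
    rw [hM4]; linarith
  have b4 : ∀ r, 0 < r → y r ≤ M4 * exp (-(κ * r)) := fun r hr => by
    rcases le_total 1 r with h | h
    · exact (b1 r h).trans (mul_le_mul_of_nonneg_right q1 (exp_pos _).le)
    · exact ((hK0 r hr h).1.trans (mul_le_of_le_one_right p0 h)).trans (q0 r h)
  have up : ∀ r, 0 < r → y r / r ≤ 2 * M4 * exp (-(κ * r)) / (1 + r) := fun r hr => by
    rw [div_le_div_iff₀ hr (by linarith)]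
    have hE := mul_nonneg p4 (exp_pos (-(κ * r))).le
    rcases le_total 1 r with h | h
    · have h1 := mul_le_mul (b4 r hr) (show 1 + r ≤ 2 * r by linarith) (by linarith) hE
      linarith
    · have h1 := (hK0 r hr h).1.trans (mul_le_mul_of_nonneg_right (q0 r h) hr.le)
      have h3 := mul_le_mul h1 (show 1 + r ≤ 2 by linarith) (by linarith) (by positivity)
      linarith
  have lo : ∀ r, 0 < r → exp (-(κ * r)) / (1 + r) ≤ (M2 + K0) * (y r / r) := fun r hr => by
    have hy := H.pos r hr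
    have hu := div_pos hy hr
    rcases le_total 1 r with h | h
    · have h1 : exp (-(κ * r)) / (1 + r) ≤ M2 * y r / r :=
        div_le_div₀ (by positivity) (b2 r h) hr (by linarith)
      rw [mul_div_assoc] at h1
      have := mul_nonneg p0 hu.le
      linarith
    · have h1 : exp (-(κ * r)) / (1 + r) ≤ 1 := by
        rw [div_le_one (by linarith)]
        have : exp (-(κ * r)) ≤ 1 := exp_le_one_iff.2 (by nlinarith)
        linarith
      have h3 : 1 ≤ K0 * (y r / r) := by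
        rw [← mul_div_assoc, one_le_div hr]; exact (hK0 r hr h).2.1
      have := mul_nonneg p2 hu.le
      linarith
  have pp : ∀ r, 0 < r →
      0 ≤ ph z y r ∧ ph z y r ≤ 4 * π * (M4 ^ 2 / (2 * κ)) * exp (-(κ * r)) ^ 2 / r := by
    intro r hr
    obtain ⟨-, -, w1, w2⟩ := hW r hr
    rw [hm] at w1 w2
    have e2 : ∀ s, exp (-(κ * s)) ^ 2 = exp (-(2 * κ) * s) := fun s => by
      rw [← exp_nat_mul]; congr 1; push_cast; ring
    have hi : IntegrableOn (fun s => M4 ^ 2 * exp (-(2 * κ) * s)) (Ioi r) :=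
      (integrableOn_exp_mul_Ioi (by linarith) r).const_mul _
    have i1 := setIntegral_mono_on (H.cl.int.mono_set (Ioi_subset_Ioi hr.le)) hi measurableSet_Ioi
      (fun s hs => by
        have hs' : 0 < s := hr.trans hs
        have h1 := pow_le_pow_left₀ (H.pos s hs').le (b4 s hs') 2
        rwa [mul_pow, e2] at h1)
    rw [integral_const_mul, integral_exp_mul_Ioi (by linarith), ← e2] at i1
    have i2 := mul_le_mul_of_nonneg_left i1 (show 0 ≤ 4 * π / r by positivity)
    have i3 : 4 * π / r * (M4 ^ 2 * (-exp (-(κ * r)) ^ 2 / -(2 * κ)))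
        = 4 * π * (M4 ^ 2 / (2 * κ)) * exp (-(κ * r)) ^ 2 / r := by field_simp
    unfold ph
    constructor <;> linarith
  have dv : ∀ r, 0 < r →
      |(r * y' r - y r) / r ^ 2| ≤ (M3 * M2 + 1 + K0 ^ 2) * (y r / r) := fun r hr => by
    have hy := H.pos r hr
    have hu := div_pos hy hr
    rw [abs_div, abs_of_pos (pow_pos hr 2), div_le_iff₀ (pow_pos hr 2),
      show (M3 * M2 + 1 + K0 ^ 2) * (y r / r) * r ^ 2 = (M3 * M2 + 1 + K0 ^ 2) * (y r * r) by
        field_simp]
    have hyr := mul_pos hy hr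
    rcases le_total 1 r with h | h
    · have h1 := abs_sub (r * y' r) (y r)
      rw [abs_mul, abs_of_pos hr, abs_of_pos hy] at h1
      have h3 := (b3 r h).trans (mul_le_mul_of_nonneg_left (b2 r h) p3)
      have h4 := mul_le_mul_of_nonneg_left h3 hr.le
      have h5 : y r ≤ y r * r := le_mul_of_one_le_right hy.le h
      have := mul_nonneg (sq_nonneg K0) hyr.le
      linarith
    · obtain ⟨-, h1, h3⟩ := hK0 r hr h
      have h4 := mul_le_mul_of_nonneg_left h1 (mul_nonneg p0 hr.le)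
      have := mul_nonneg (mul_nonneg p3 p2) hyr.le
      nlinarith
  obtain ⟨K, hK⟩ : ∃ K, K = 2 * M4 + (M2 + K0) + 4 * π * (M4 ^ 2 / (2 * κ))
    + (M3 * M2 + 1 + K0 ^ 2) := ⟨_, rfl⟩
  have k1 : 0 ≤ 4 * π * (M4 ^ 2 / (2 * κ)) := by positivity
  have k2 : 0 ≤ M3 * M2 := by positivity
  have k3 := sq_nonneg K0
  have mu : Measurable (ext0 fun r => y r / r) :=
    ext0_meas (cy.div continuousOn_id fun r hr => ne_of_gt hr)
  have sq : ∀ r, 0 < r → r ^ 2 * ext0 (fun r => y r / r) r ^ 2 = y r ^ 2 := fun r hr => by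
    rw [ext0_pos _ hr]; field_simp
  refine ⟨⟨z, κ, c, ext0 fun r => y r / r, ext0 fun r => (r * y' r - y r) / r ^ 2,
    ext0 (ph z y)⟩, K, rfl, hz, hκ, hc, by rw [hK]; linarith, mu, ?_, ext0_meas cp, ?_, ?_, ?_, ?_,
    ?_, ?_, ?_, ?_, ?_, ?_⟩
  · exact ext0_meas (((continuousOn_id.mul cy').sub cy).div (continuousOn_id.pow 2)
      fun r hr => pow_ne_zero 2 (ne_of_gt hr))
  · intro r
    by_cases h : 0 < r
    · simp only [ext0_pos _ h]; exact (div_pos (H.pos r h) h).le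
    · simp only [ext0, if_neg h, le_refl]
  · intro r hr
    refine HasDerivAt.congr_of_eventuallyEq ?_ (ext0_ev _ hr)
    refine HasDerivAt.congr_deriv ((H.d1 r hr).div (hasDerivAt_id r) hr.ne') ?_
    simp only [ext0_pos _ hr, id]; ring
  · intro r hr
    refine HasDerivAt.congr_of_eventuallyEq ?_ (ext0_ev _ hr)
    refine HasDerivAt.congr_deriv (((((hasDerivAt_id r).mul (H.d2 r hr)).sub (H.d1 r hr)).div
      (hasDerivAt_pow 2 r) (pow_ne_zero 2 hr.ne'))) ?_
    simp only [At.FL, ext0_pos _ hr, id, qq, abs_of_pos (H.pos r hr), Pi.sub_apply, Pi.mul_apply]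
    field_simp
    ring
  · exact cp.congr fun r hr => ext0_pos _ hr
  · intro b x hx
    have hr : 0 < ‖x - b‖ := norm_pos_iff.2 (sub_ne_zero.2 hx)
    have h1 := Pool.Agent.Lib.ION.newton_nn (γ := fun r => ext0 (fun r => y r / r) r ^ 2)
      (mu.pow_const 2) (fun t => sq_nonneg _) b x
    have h3 := rad_integral fun r => ext0 (fun r => y r / r) r ^ 2 * (max ‖x - b‖ r)⁻¹
    have h4 : ∫ r in Ioi (0 : ℝ), r ^ 2 * (ext0 (fun r => y r / r) r ^ 2 * (max ‖x - b‖ r)⁻¹)
        = Wp y ‖x - b‖ :=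
      setIntegral_congr_fun measurableSet_Ioi fun r hr => by
        beta_reduce
        rw [← mul_assoc, sq r hr, ← div_eq_mul_inv]
    rw [h4, ← h1] at h3
    simp only [ext0_pos _ hr, ph, ← h3]
    rfl
  · have h3 := rad_integral fun r => ext0 (fun r => y r / r) r ^ 2
    rw [setIntegral_congr_fun (g := fun r => y r ^ 2) measurableSet_Ioi fun r hr => sq r hr] at h3
    exact h3.trans hm
  · intro r hr
    have hE := exp_pos (-(κ * r))
    have hu := div_pos (H.pos r hr) hr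
    simp only [ext0_pos _ hr]
    refine ⟨hr, (up r hr).trans ?_, (lo r hr).trans ?_, (pp r hr).1, (pp r hr).2.trans ?_⟩
    · gcongr; rw [hK]; linarith
    · gcongr; rw [hK]; linarith
    · gcongr; rw [hK]; linarith
  · intro r hr
    have hu := div_pos (H.pos r hr) hr
    simp only [ext0_pos _ hr]
    refine (dv r hr).trans ?_
    gcongr; rw [hK]; linarith
  · refine l1.congr' ?_
    filter_upwards [eventually_gt_atTop (0 : ℝ)] with r hr
    simp only [ext0_pos _ hr]; field_simp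
  · have h1 := l2.sub (l1.mul tendsto_inv_atTop_zero)
    rw [mul_zero, sub_zero] at h1
    refine h1.congr' ?_
    filter_upwards [eventually_gt_atTop (0 : ℝ)] with r hr
    simp only [ext0_pos _ hr]; field_simp

end Pool.Agent.Lib.TFW
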