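import Pool.Agent.Lib.TFW.Blue

/-! tfw block B1: primitives of square integrable functions. -/

open MeasureTheory Filter Topology Set Real

namespace Pool.Agent.Lib.TFW

namespace T45

theorem int_Ioc {g : ℝ → ℝ} (hg : MemLp g 2 (volume.restrict (Ioi 0))) (b : ℝ) :
    IntegrableOn g (Ioc 0 b) := by
  have h : MemLp g 2 (volume.restrict (Ioc 0 b)) :=
    hg.mono_measure (Measure.restrict_mono Ioc_subset_Ioi_self le_rfl)
  exact h.integrable one_le_two

theorem ii {g : ℝ → ℝ} (hg : MemLp g 2 (volume.restrict (Ioi 0))) (a b : ℝ) (ha : 0 ≤ a)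
    (hb : 0 ≤ b) : IntervalIntegrable g volume a b :=
  ⟨(int_Ioc hg b).mono_set (Ioc_subset_Ioc_left ha),
    (int_Ioc hg a).mono_set (Ioc_subset_Ioc_left hb)⟩

theorem cs {g : ℝ → ℝ} {r : ℝ} (hr : 0 < r) (h1 : IntervalIntegrable g volume 0 r)
    (h2 : IntervalIntegrable (fun s => g s ^ 2) volume 0 r) :
    (∫ s in (0 : ℝ)..r, g s) ^ 2 ≤ (∫ s in (0 : ℝ)..r, g s ^ 2) * r := by
  set I := ∫ s in (0 : ℝ)..r, g s with hI
  have h0 : 0 ≤ ∫ s in (0 : ℝ)..r, (g s ^ 2 - 2 * (I / r) * g s + (I / r) ^ 2) :=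
    intervalIntegral.integral_nonneg hr.le fun s _ => by nlinarith [sq_nonneg (g s - I / r)]
  rw [intervalIntegral.integral_add (h2.sub (h1.const_mul _)) intervalIntegrable_const,
    intervalIntegral.integral_sub h2 (h1.const_mul _), intervalIntegral.integral_const_mul,
    intervalIntegral.integral_const, ← hI, sub_zero, smul_eq_mul] at h0
  have h3 : I ^ 2 = (2 * (I / r) * I - r * (I / r) ^ 2) * r := by
    field_simp
    ring
  rw [h3]
  exact mul_le_mul_of_nonneg_right (by linarith) hr.le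

end T45

theorem st_B1 : St_B1 := by
  intro g hg
  refine ⟨T45.ii hg, fun r hr => ?_, fun r hr => ?_⟩
  · have hr' : (0 : ℝ) ≤ r + 1 := by linarith [mem_Ici.mp hr]
    have h := intervalIntegral.continuousOn_primitive_interval' (T45.ii hg 0 (r + 1) le_rfl hr')
      (left_mem_uIcc (a := 0) (b := r + 1))
    rw [uIcc_of_le hr'] at h
    refine (h r ⟨hr, by linarith⟩).mono_of_mem_nhdsWithin ?_
    rw [← Ici_inter_Iic]
    exact inter_mem_nhdsWithin _ (Iic_mem_nhds (by linarith))
  · rcases hr.eq_or_lt with rfl | hr0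
    · simp [Y]
    have h2 : IntegrableOn (fun s => g s ^ 2) (Ioi 0) := hg.integrable_sq
    have h3 : IntervalIntegrable (fun s => g s ^ 2) volume 0 r :=
      (intervalIntegrable_iff_integrableOn_Ioc_of_le hr).mpr (h2.mono_set Ioc_subset_Ioi_self)
    refine (T45.cs hr0 (T45.ii hg 0 r le_rfl hr) h3).trans (mul_le_mul_of_nonneg_right ?_ hr)
    rw [intervalIntegral.integral_of_le hr]
    exact setIntegral_mono_set h2 (Eventually.of_forall fun s => sq_nonneg _)
      (LE.le.eventuallyLE Ioc_subset_Ioi_self)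

end Pool.Agent.Lib.TFW
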