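import Pool.Agent.Lib.TFW.Blue

open MeasureTheory Filter Topology Set Real

namespace Pool.Agent.Lib.TFW

namespace T40

theorem meas_y {y : ℝ → ℝ} (hy : Cl y) : AEStronglyMeasurable y (volume.restrict (Ioi 0)) :=
  (hy.cont.mono Ioi_subset_Ici_self).aestronglyMeasurable measurableSet_Ioi

theorem int_div {y : ℝ → ℝ} (hy : Cl y) : IntegrableOn (fun r => y r ^ 2 / r) (Ioi 0) := by
  obtain ⟨M, hM⟩ := hy.sq
  have hM0 : 0 ≤ M := by
    have h := hM 1 zero_le_one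
    nlinarith [sq_nonneg (y 1)]
  have hi : Integrable (indicator (Ioc (0 : ℝ) 1) (fun _ => M)) volume := by
    rw [integrable_indicator_iff measurableSet_Ioc]
    exact integrableOn_const (by simp)
  have hb : IntegrableOn (fun r => indicator (Ioc (0 : ℝ) 1) (fun _ => M) r + y r ^ 2) (Ioi 0) :=
    hi.integrableOn.add hy.int
  refine Integrable.mono' hb ?_ ?_
  · exact (((meas_y hy).aemeasurable.pow_const 2).div measurable_id.aemeasurable).aestronglyMeasurable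
  · refine (ae_restrict_iff' measurableSet_Ioi).2 (Eventually.of_forall fun r hr => ?_)
    have hr0 : (0 : ℝ) < r := hr
    rw [Real.norm_eq_abs, abs_of_nonneg (div_nonneg (sq_nonneg _) hr0.le)]
    by_cases h1 : r ≤ 1
    · rw [indicator_of_mem (show r ∈ Ioc (0 : ℝ) 1 from ⟨hr0, h1⟩)]
      have h2 : y r ^ 2 / r ≤ M := by
        rw [div_le_iff₀ hr0]
        exact hM r hr0.le
      nlinarith [sq_nonneg (y r)]
    · rw [indicator_of_notMem (fun h => h1 h.2), zero_add]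
      exact div_le_self (sq_nonneg _) (le_of_lt (not_le.1 h1))

theorem rpow_le {r : ℝ} (hr : 0 < r) : r ^ (-(2 / 3) : ℝ) ≤ 1 + 1 / r := by
  have h0 : 0 < 1 / r := by positivity
  by_cases h1 : 1 ≤ r
  · have := Real.rpow_le_one_of_one_le_of_nonpos h1 (show (-(2 / 3) : ℝ) ≤ 0 by norm_num)
    linarith
  · have h2 := Real.rpow_le_rpow_of_exponent_ge hr (le_of_lt (not_le.1 h1))
      (show (-1 : ℝ) ≤ -(2 / 3) by norm_num)
    rw [Real.rpow_neg_one] at h2
    rw [one_div]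
    linarith

theorem int_rpow {y : ℝ → ℝ} (hy : Cl y) :
    IntegrableOn (fun r => |y r| ^ (10 / 3 : ℝ) * r ^ (-(4 / 3) : ℝ)) (Ioi 0) := by
  obtain ⟨M, hM⟩ := hy.sq
  have hM0 : 0 ≤ M := by
    have h := hM 1 zero_le_one
    nlinarith [sq_nonneg (y 1)]
  have hb : IntegrableOn (fun r => M ^ (2 / 3 : ℝ) * (y r ^ 2 + y r ^ 2 / r)) (Ioi 0) :=
    (hy.int.add (int_div hy)).const_mul _
  refine Integrable.mono' hb ?_ ?_
  · exact (((continuous_abs.measurable.comp_aemeasurable (meas_y hy).aemeasurable).pow_const _).mul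
      (measurable_id.pow_const _).aemeasurable).aestronglyMeasurable
  · refine (ae_restrict_iff' measurableSet_Ioi).2 (Eventually.of_forall fun r hr => ?_)
    have hr0 : (0 : ℝ) < r := hr
    rw [Real.norm_eq_abs, abs_of_nonneg (by positivity)]
    have e1 : |y r| ^ (10 / 3 : ℝ) = y r ^ 2 * (y r ^ 2) ^ (2 / 3 : ℝ) := by
      rw [← sq_abs (y r), ← Real.rpow_natCast, ← Real.rpow_mul (abs_nonneg _),
        ← Real.rpow_add' (abs_nonneg _) (by norm_num)]
      norm_num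
    have e2 : (y r ^ 2) ^ (2 / 3 : ℝ) ≤ M ^ (2 / 3 : ℝ) * r ^ (2 / 3 : ℝ) := by
      rw [← Real.mul_rpow hM0 hr0.le]
      exact Real.rpow_le_rpow (sq_nonneg _) (hM r hr0.le) (by norm_num)
    have e3 : r ^ (2 / 3 : ℝ) * r ^ (-(4 / 3) : ℝ) = r ^ (-(2 / 3) : ℝ) := by
      rw [← Real.rpow_add hr0]
      norm_num
    have e4 := rpow_le hr0
    have p1 : 0 ≤ r ^ (-(4 / 3) : ℝ) := by positivity
    have p2 : 0 ≤ M ^ (2 / 3 : ℝ) := by positivity
    calc |y r| ^ (10 / 3 : ℝ) * r ^ (-(4 / 3) : ℝ)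
        = y r ^ 2 * ((y r ^ 2) ^ (2 / 3 : ℝ) * r ^ (-(4 / 3) : ℝ)) := by rw [e1]; ring
      _ ≤ y r ^ 2 * (M ^ (2 / 3 : ℝ) * r ^ (2 / 3 : ℝ) * r ^ (-(4 / 3) : ℝ)) :=
          mul_le_mul_of_nonneg_left (mul_le_mul_of_nonneg_right e2 p1) (sq_nonneg _)
      _ = y r ^ 2 * (M ^ (2 / 3 : ℝ) * r ^ (-(2 / 3) : ℝ)) := by rw [mul_assoc, e3]
      _ ≤ y r ^ 2 * (M ^ (2 / 3 : ℝ) * (1 + 1 / r)) :=
          mul_le_mul_of_nonneg_left (mul_le_mul_of_nonneg_left e4 p2) (sq_nonneg _)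
      _ = M ^ (2 / 3 : ℝ) * (y r ^ 2 + y r ^ 2 / r) := by ring

theorem max_le {y : ℝ → ℝ} (r : ℝ) {s : ℝ} (hs : 0 < s) : y s ^ 2 / max r s ≤ y s ^ 2 / s :=
  div_le_div_of_nonneg_left (sq_nonneg _) hs (le_max_right _ _)

theorem max_nonneg {y : ℝ → ℝ} (r : ℝ) {s : ℝ} (hs : 0 < s) : 0 ≤ y s ^ 2 / max r s :=
  div_nonneg (sq_nonneg _) (hs.le.trans (le_max_right _ _))

theorem meas_max {y : ℝ → ℝ} (hy : Cl y) (r : ℝ) :
    AEStronglyMeasurable (fun s => y s ^ 2 / max r s) (volume.restrict (Ioi 0)) :=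
  (((meas_y hy).aemeasurable.pow_const 2).div
    (measurable_const.max measurable_id).aemeasurable).aestronglyMeasurable

theorem bd_max (y : ℝ → ℝ) (r : ℝ) :
    ∀ᵐ s ∂(volume.restrict (Ioi (0 : ℝ))), ‖y s ^ 2 / max r s‖ ≤ y s ^ 2 / s := by
  refine (ae_restrict_iff' measurableSet_Ioi).2 (Eventually.of_forall fun s hs => ?_)
  rw [Real.norm_eq_abs, abs_of_nonneg (max_nonneg r hs)]
  exact max_le r hs

theorem int_max {y : ℝ → ℝ} (hy : Cl y) (r : ℝ) :
    IntegrableOn (fun s => y s ^ 2 / max r s) (Ioi 0) :=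
  Integrable.mono' (int_div hy) (meas_max hy r) (bd_max y r)

theorem cont_Wp {y : ℝ → ℝ} (hy : Cl y) : Continuous (Wp y) := by
  refine continuous_of_dominated (meas_max hy) (bd_max y) (int_div hy) ?_
  refine (ae_restrict_iff' measurableSet_Ioi).2 (Eventually.of_forall fun s hs => ?_)
  have hs0 : (0 : ℝ) < s := hs
  exact continuous_const.div (continuous_id.max continuous_const)
    fun r => ne_of_gt (hs0.trans_le (le_max_right _ _))

theorem Wp_nonneg (y : ℝ → ℝ) (r : ℝ) : 0 ≤ Wp y r :=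
  setIntegral_nonneg measurableSet_Ioi fun _ hs => max_nonneg r hs

theorem Wp_le {y : ℝ → ℝ} (hy : Cl y) (r : ℝ) : Wp y r ≤ ∫ s in Ioi (0 : ℝ), y s ^ 2 / s :=
  setIntegral_mono_on (int_max hy r) (int_div hy) measurableSet_Ioi fun _ hs => max_le r hs

theorem Wp_le' {y : ℝ → ℝ} (hy : Cl y) {r : ℝ} (hr : 0 < r) :
    Wp y r ≤ (∫ s in Ioi (0 : ℝ), y s ^ 2) / r := by
  rw [← integral_div]
  exact setIntegral_mono_on (int_max hy r) (hy.int.div_const r) measurableSet_Ioi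
    fun s _ => div_le_div_of_nonneg_left (sq_nonneg _) hr (le_max_left _ _)

theorem Wp_ge {y : ℝ → ℝ} (hy : Cl y) {r : ℝ} (hr : 0 < r) :
    ((∫ s in Ioi (0 : ℝ), y s ^ 2) - ∫ s in Ioi r, y s ^ 2) / r ≤ Wp y r := by
  have hd : Disjoint (Ioc (0 : ℝ) r) (Ioi r) := Ioc_disjoint_Ioi le_rfl
  have hu : Ioc (0 : ℝ) r ∪ Ioi r = Ioi 0 := Ioc_union_Ioi_eq_Ioi hr.le
  have s1 : Ioc (0 : ℝ) r ⊆ Ioi 0 := Ioc_subset_Ioi_self
  have s2 : Ioi r ⊆ Ioi (0 : ℝ) := Ioi_subset_Ioi hr.le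
  have e1 := setIntegral_union hd measurableSet_Ioi (hy.int.mono_set s1) (hy.int.mono_set s2)
  have e2 := setIntegral_union hd measurableSet_Ioi ((int_max hy r).mono_set s1)
    ((int_max hy r).mono_set s2)
  rw [hu] at e1 e2
  have e3 : ∫ s in Ioc (0 : ℝ) r, y s ^ 2 / max r s = (∫ s in Ioc (0 : ℝ) r, y s ^ 2) / r := by
    rw [← integral_div]
    refine setIntegral_congr_fun measurableSet_Ioc fun s hs => ?_
    show y s ^ 2 / max r s = y s ^ 2 / r
    rw [max_eq_left hs.2]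
  have e4 : 0 ≤ ∫ s in Ioi r, y s ^ 2 / max r s :=
    setIntegral_nonneg measurableSet_Ioi fun s hs => max_nonneg r (hr.trans hs)
  unfold Wp
  rw [e2, e3, e1, add_sub_cancel_right]
  linarith

end T40

theorem st_B2 : St_B2 := by
  intro y hy
  refine ⟨T40.int_div hy, T40.int_rpow hy, T40.int_max hy, (T40.cont_Wp hy).continuousOn, ?_, ?_⟩
  · refine Integrable.mono' (hy.int.mul_const (∫ s in Ioi (0 : ℝ), y s ^ 2 / s)) ?_ ?_
    · exact ((T40.meas_y hy).pow 2).mul (T40.cont_Wp hy).aestronglyMeasurable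
    · refine Eventually.of_forall fun r => ?_
      rw [Real.norm_eq_abs, abs_of_nonneg (mul_nonneg (sq_nonneg _) (T40.Wp_nonneg y r))]
      exact mul_le_mul_of_nonneg_left (T40.Wp_le hy r) (sq_nonneg _)
  · intro r hr
    have hp : 0 ≤ 4 * π := by positivity
    refine ⟨T40.Wp_nonneg y r, T40.Wp_le hy r, ?_, ?_⟩
    · have h := mul_le_mul_of_nonneg_left (T40.Wp_le' hy hr) hp
      unfold mass
      rw [mul_div_assoc]
      exact h
    · have h := mul_le_mul_of_nonneg_left (T40.Wp_ge hy hr) hp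
      unfold mass
      refine le_trans (le_of_eq ?_) h
      ring

end Pool.Agent.Lib.TFW
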