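import Pool.Agent.Lib.TFW.Basic

open MeasureTheory Filter Topology Set Real

namespace Pool.Agent.Lib.TFW

namespace T8

lemma exists_lt {H : ℝ → ℝ} {m : ℝ} (h : HasDerivAt H m 0) (hm : m ≠ 0) {p : ℝ → Prop}
    (hp : ∀ᶠ s in 𝓝 (0 : ℝ), p s) : ∃ s, p s ∧ H s < H 0 := by
  by_contra hn
  have : IsLocalMin H 0 := by
    filter_upwards [hp] with s hs
    by_contra hlt
    exact hn ⟨s, hs, not_le.1 hlt⟩
  exact hm (this.hasDerivAt_eq_zero h)

end T8

theorem st_CB (hC : St_CB1) : St_CB := by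
  intro P Q K hP hQ hne
  have z1 := hP.hz
  have z2 := hQ.hz
  have d1 : HasDerivAt (fun s => P.G (1 + s / P.z)) (-(A * P.κ ^ 2)) 0 := by
    have h1 : HasDerivAt P.G (-(A * P.κ ^ 2 * P.z)) (1 + 0 / P.z) := by
      rw [zero_div, add_zero]; exact P.G_deriv
    refine (h1.comp 0 (((hasDerivAt_id (0 : ℝ)).div_const P.z).const_add 1)).congr_deriv ?_
    field_simp
  have d2 : HasDerivAt (fun s => Q.G (1 - s / Q.z)) (A * Q.κ ^ 2) 0 := by
    have h1 : HasDerivAt Q.G (-(A * Q.κ ^ 2 * Q.z)) (1 - 0 / Q.z) := by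
      rw [zero_div, sub_zero]; exact Q.G_deriv
    refine (h1.comp 0 (((hasDerivAt_id (0 : ℝ)).div_const Q.z).const_sub 1)).congr_deriv ?_
    field_simp
  have hm : -(A * P.κ ^ 2) + A * Q.κ ^ 2 ≠ 0 := by
    intro h
    have h2 : A * P.κ ^ 2 = A * Q.κ ^ 2 := by linarith
    exact hne ((pow_left_inj₀ hP.hκ.le hQ.hκ.le two_ne_zero).1 (mul_left_cancel₀ A_pos.ne' h2))
  have hp : ∀ᶠ s in 𝓝 (0 : ℝ), s ∈ Ioo (-P.z) Q.z := Ioo_mem_nhds (by linarith) z2
  obtain ⟨s, hs, hlt⟩ := T8.exists_lt (d1.add d2) hm hp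
  simp only [Pi.add_apply, zero_div, add_zero, sub_zero, At.G_one] at hlt
  have a1 : 0 < 1 + s / P.z := by
    have : -1 < s / P.z := by rw [lt_div_iff₀ z1]; linarith [hs.1]
    linarith
  have a2 : 0 < 1 - s / Q.z := by
    have : s / Q.z < 1 := by rw [div_lt_iff₀ z2]; linarith [hs.2]
    linarith
  refine ⟨(P.e + Q.e - (P.G (1 + s / P.z) + Q.G (1 - s / Q.z))) / 2, by linarith, ?_⟩
  have := hC P Q K √(1 + s / P.z) √(1 - s / Q.z)
    ((P.e + Q.e - (P.G (1 + s / P.z) + Q.G (1 - s / Q.z))) / 2) hP hQ (Real.sqrt_pos.2 a1)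
    (Real.sqrt_pos.2 a2) (by rw [Real.sq_sqrt a1.le, Real.sq_sqrt a2.le]; field_simp; ring)
    (by linarith)
  rw [Real.sq_sqrt a1.le, Real.sq_sqrt a2.le] at this
  filter_upwards [this] with R hR
  linarith

theorem st_MAIN (hA : St_ATOM) (hE : St_ATE) (hL : St_LOWA) (hU : St_UPA) (hM : St_LIM)
    (hC : St_CB) : St_MAIN := by
  have : ∀ z : ℝ, ∃ (P : At) (K : ℝ), 0 < z → P.z = z ∧ P.Ok K := fun z => by
    by_cases hz : 0 < z
    · obtain ⟨P, K, h⟩ := hA z hz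
      exact ⟨P, K, fun _ => h⟩
    · exact ⟨⟨0, 0, 0, 0, 0, 0⟩, 0, fun h => absurd h hz⟩
  choose P K hPK using this
  refine ⟨fun z => A * (P z).κ ^ 2, fun z => (P z).c, fun z hz => ?_, fun z₁ z₂ h1 h2 => ?_⟩
  · obtain ⟨e, h⟩ := hPK z hz
    have := (hE _ _ h).2
    rwa [e] at this
  obtain ⟨e1, o1⟩ := hPK z₁ h1
  obtain ⟨e2, o2⟩ := hPK z₂ h2
  have p1 := o1.mono (le_max_left (K z₁) (K z₂))
  have p2 := o2.mono (le_max_right (K z₁) (K z₂))
  have E1 := (hE _ _ o1).1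
  have E2 := (hE _ _ o2).1
  rw [e1] at E1
  rw [e2] at E2
  rw [E1, E2]
  refine ⟨fun hμ => ?_, fun hμ => ?_⟩
  · have hκ : (P z₁).κ = (P z₂).κ :=
      (pow_left_inj₀ o1.hκ.le o2.hκ.le two_ne_zero).1 (mul_left_cancel₀ A_pos.ne' hμ)
    obtain ⟨C1, c1⟩ := hL _ _ _ p1 p2 hκ
    obtain ⟨C2, c2⟩ := hU _ _ _ p1 p2 hκ
    have lim := (hM _ _ _ p1 p2 hκ).neg
    rw [e1, e2] at c1 c2
    have hs : √(A * (P z₁).κ ^ 2 / A) = (P z₁).κ := by
      rw [mul_div_cancel_left₀ _ A_pos.ne', Real.sqrt_sq o1.hκ.le]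
    simp only [hs]
    set κ := (P z₁).κ
    have hκ0 : 0 < κ := o1.hκ
    have z0 : Tendsto (fun R : ℝ => R * exp (-(κ / 3 * R))) atTop (𝓝 0) := by
      have := tendsto_rpow_mul_exp_neg_mul_atTop_nhds_zero 1 (κ / 3) (by positivity)
      simpa only [Real.rpow_one, neg_mul] using this
    have ex : ∀ R : ℝ, exp (κ * R) * exp (-(4 / 3 * κ * R)) = exp (-(κ / 3 * R)) := fun R => by
      rw [← Real.exp_add]; congr 1; ring
    have l1 := lim.sub (z0.const_mul C1)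
    have l2 := lim.add (z0.const_mul C2)
    rw [mul_zero, sub_zero] at l1
    rw [mul_zero, add_zero] at l2
    refine tendsto_of_tendsto_of_tendsto_of_le_of_le' l1 l2 ?_ ?_
    · filter_upwards [eventually_ge_atTop 1] with R hR
      have := mul_le_mul_of_nonneg_left (c1 R hR)
        (show 0 ≤ R * exp (κ * R) from mul_nonneg (by linarith) (Real.exp_pos _).le)
      rw [← ex]; linarith
    · filter_upwards [eventually_ge_atTop 1] with R hR
      have := mul_le_mul_of_nonneg_left (c2 R hR)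
        (show 0 ≤ R * exp (κ * R) from mul_nonneg (by linarith) (Real.exp_pos _).le)
      rw [← ex]; linarith
  · have hκ : (P z₁).κ ≠ (P z₂).κ := fun h => hμ (by simp only [h])
    have := hC _ _ _ p1 p2 hκ
    rwa [e1, e2] at this

end Pool.Agent.Lib.TFW
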