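import Pool.Agent.Lib.TFW.Blue

open MeasureTheory Filter Topology Set Real

namespace Pool.Agent.Lib.TFW

open Pool.Agent.Lib.MP_689e73_mp (psi DD LL HI e0 ae_ne)

namespace T52

lemma int_exp {κ : ℝ} (hκ : 0 < κ) (b : E3) : Integrable fun x : E3 => exp (-(κ * ‖x - b‖)) := by
  refine Integrable.comp_sub_right (f := fun x : E3 => exp (-(κ * ‖x‖))) ?_ b
  refine Integrable.mono' ((integrable_one_add_norm (E := E3) (μ := volume) (r := 4)
    (by rw [MP_689e73_mp.finrank_E3]; norm_num)).const_mul ((1 + 4 / κ) ^ 4))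
    (by fun_prop) (Eventually.of_forall fun x => ?_)
  have h0 := norm_nonneg x
  have h1 : 1 + ‖x‖ ≤ (1 + 4 / κ) * exp (κ * ‖x‖ / 4) := by
    have e : 4 / κ * (κ * ‖x‖ / 4) = ‖x‖ := by field_simp
    have := add_one_le_exp (κ * ‖x‖ / 4)
    have p1 : 0 ≤ 4 / κ := by positivity
    have p2 : 0 ≤ κ * ‖x‖ / 4 := by positivity
    nlinarith
  have h2 := pow_le_pow_left₀ (by positivity) h1 4
  rw [mul_pow, ← exp_nat_mul] at h2
  rw [Real.norm_of_nonneg (exp_pos _).le, rpow_neg (by positivity), exp_neg,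
    show (4 : ℝ) = ((4 : ℕ) : ℝ) by norm_num, rpow_natCast, ← div_eq_mul_inv, inv_eq_one_div,
    div_le_div_iff₀ (exp_pos _) (by positivity), one_mul]
  rwa [show ((4 : ℕ) : ℝ) * (κ * ‖x‖ / 4) = κ * ‖x‖ by push_cast; ring] at h2

lemma LL_of {f : E3 → ℝ} (hm : Measurable f) {C κ : ℝ} (hκ : 0 < κ) (b : E3)
    (h : ∀ᵐ x, |f x| ≤ C * exp (-(κ * ‖x - b‖))) : LL f := by
  have hi : Integrable f := Integrable.mono' ((int_exp hκ b).const_mul C) hm.aestronglyMeasurable h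
  refine ⟨hm, hi, (MP_689e73_mp.memLp_iff hm.aestronglyMeasurable).2 (Integrable.mono'
    (hi.abs.const_mul (|C| ^ (2 / 3 : ℝ))) (hm.abs.pow_const _).aestronglyMeasurable (h.mono fun x hx => ?_))⟩
  have e : exp (-(κ * ‖x - b‖)) ≤ 1 := exp_le_one_iff.2 (neg_nonpos.2 (by positivity))
  rw [Real.norm_of_nonneg (by positivity), show (5 / 3 : ℝ) = 2 / 3 + 1 by norm_num,
    rpow_add' (abs_nonneg _) (by norm_num), rpow_one]
  refine mul_le_mul_of_nonneg_right (rpow_le_rpow (abs_nonneg _) ?_ (by norm_num)) (abs_nonneg _)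
  nlinarith [le_abs_self C, exp_pos (-(κ * ‖x - b‖)), abs_nonneg C]

lemma tend {F w : ℝ → ℝ} (hF : Integrable fun x : E3 => F ‖x - 0‖) (hw : Measurable w) {K : ℝ}
    (hb : ∀ r, 0 < r → |w r| ≤ K) (h0 : Tendsto w atTop (𝓝 0)) {b c : ℝ → E3}
    (hc : Tendsto (fun R => ‖c R - b R‖) atTop atTop) :
    Tendsto (fun R => ∫ x : E3, F ‖x - b R‖ * w ‖x - c R‖) atTop (𝓝 0) := by
  have e : ∀ R, ∫ x : E3, F ‖x - b R‖ * w ‖x - c R‖ = ∫ x : E3, F ‖x - 0‖ * w ‖x - (c R - b R)‖ := by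
    intro R
    rw [← integral_sub_right_eq_self (fun x : E3 => F ‖x - 0‖ * w ‖x - (c R - b R)‖) (b R)]
    simp
  simp only [e]
  have := tendsto_integral_filter_of_dominated_convergence (μ := (volume : Measure E3)) (l := atTop)
    (F := fun R x => F ‖x - 0‖ * w ‖x - (c R - b R)‖) (f := fun _ => (0 : ℝ))
    (fun x => |F ‖x - 0‖| * K) (Eventually.of_forall fun R =>
      hF.1.mul (hw.comp (by fun_prop)).aestronglyMeasurable) (Eventually.of_forall fun R =>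
      (ae_ne (c R - b R)).mono fun x hx => by
        rw [norm_mul]
        exact mul_le_mul_of_nonneg_left (hb _ (norm_pos_iff.2 (sub_ne_zero.2 hx))) (norm_nonneg _))
    (hF.abs.mul_const K) (Eventually.of_forall fun x => by
      have t : Tendsto (fun R => ‖x - (c R - b R)‖) atTop atTop :=
        tendsto_atTop_mono (fun R => by
          have := norm_sub_norm_le (c R - b R) x
          rw [norm_sub_rev _ x] at this
          exact this) (tendsto_atTop_add_const_right _ (-‖x‖) hc)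
      simpa using (h0.comp t).const_mul (F ‖x - 0‖))
  simpa using this

lemma pow53 {x y L : ℝ} (hx : 0 ≤ x) (hy : 0 ≤ y) (h1 : x ≤ L) (h2 : y ≤ L) :
    ((x + y) ^ 2) ^ (5 / 3 : ℝ) ≤ (x ^ 2) ^ (5 / 3 : ℝ) + (y ^ 2) ^ (5 / 3 : ℝ) +
      10 * (3 * L ^ 2) ^ (2 / 3 : ℝ) * (x * y) := by
  wlog h : y ≤ x generalizing x y
  · have := this hy hx h2 h1 (le_of_not_ge h)
    rw [add_comm y x, mul_comm y x] at this
    linarith
  have t := (abs_le.1 (MP_689e73_mp.taylor53 (a := x ^ 2) (b := (x + y) ^ 2) (by positivity)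
    (by positivity))).2
  have d0 : 0 ≤ (x + y) ^ 2 - x ^ 2 := by nlinarith
  have d1 : (x + y) ^ 2 - x ^ 2 ≤ 3 * (x * y) := by nlinarith
  have d2 : x * y ≤ L ^ 2 := by nlinarith
  rw [abs_of_nonneg d0, show (5 / 3 : ℝ) = 2 / 3 + 1 by norm_num,
    rpow_add' d0 (by norm_num), rpow_one, show (2 / 3 + 1 : ℝ) = 5 / 3 by norm_num] at t
  have a1 : (x ^ 2) ^ (2 / 3 : ℝ) ≤ (3 * L ^ 2) ^ (2 / 3 : ℝ) :=
    rpow_le_rpow (by positivity) (by nlinarith) (by norm_num)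
  have a2 : ((x + y) ^ 2 - x ^ 2) ^ (2 / 3 : ℝ) ≤ (3 * L ^ 2) ^ (2 / 3 : ℝ) :=
    rpow_le_rpow d0 (by linarith) (by norm_num)
  have a3 := mul_le_mul a1 d1 d0 (by positivity)
  have a4 := mul_le_mul a2 d1 d0 (by positivity)
  have a5 : 0 ≤ (y ^ 2) ^ (5 / 3 : ℝ) := by positivity
  linarith

section
variable {P : At} {K : ℝ} (h : P.Ok K)
include h

lemma u_le {r : ℝ} (hr : 0 < r) : P.u r ≤ K * exp (-(P.κ * r)) :=
  (h.pt r hr).up.trans (div_le_self (by have := h.hK; positivity) (by linarith))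

lemma u_le' {r : ℝ} (hr : 0 < r) : P.u r ≤ K :=
  (u_le h hr).trans (mul_le_of_le_one_right (by linarith [h.hK])
    (exp_le_one_iff.2 (neg_nonpos.2 (mul_pos h.hκ hr).le)))

lemma u_lim : Tendsto P.u atTop (𝓝 0) := by
  have t : Tendsto (fun r => K * exp (-(P.κ * r))) atTop (𝓝 (K * 0)) :=
    (tendsto_exp_neg_atTop_nhds_zero.comp (tendsto_id.const_mul_atTop h.hκ)).const_mul K
  rw [mul_zero] at t
  exact squeeze_zero' (Eventually.of_forall h.nn)
    ((eventually_gt_atTop 0).mono fun r hr => u_le h hr) t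

lemma mu' (b : E3) : Measurable fun x : E3 => P.u ‖x - b‖ := h.mu.comp (by fun_prop)

lemma LL_mul (b : E3) {g : E3 → ℝ} (hg : Measurable g) {C : ℝ} (hb : ∀ᵐ x, |g x| ≤ C) :
    LL fun x => P.u ‖x - b‖ * g x := by
  refine LL_of ((mu' h b).mul hg) (C := K * C) h.hκ b ?_
  filter_upwards [hb, ae_ne b] with x h1 h2
  rw [abs_mul, abs_of_nonneg (h.nn _), mul_right_comm]
  exact mul_le_mul (u_le h (norm_pos_iff.2 (sub_ne_zero.2 h2))) h1 (abs_nonneg _)
    (by have := h.hK; positivity)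

lemma u_ae (b : E3) : ∀ᵐ x : E3, |P.u ‖x - b‖| ≤ K := (ae_ne b).mono fun x hx => by
  rw [abs_of_nonneg (h.nn _)]; exact u_le' h (norm_pos_iff.2 (sub_ne_zero.2 hx))

lemma LL_rho (b : E3) : LL (P.ρ b) := by
  convert LL_mul h b (mu' h b) (u_ae h b) using 2
  exact sq _

lemma HI_rho (b : E3) : HI (P.ρ b) P.z :=
  ⟨(LL_rho h b).int, (integral_sub_right_eq_self (fun x : E3 => P.u ‖x‖ ^ 2) b).trans h.mass⟩

lemma rho53 (b x : E3) : P.ρ b x ^ (5 / 3 : ℝ) = P.u ‖x - b‖ ^ (10 / 3 : ℝ) := by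
  rw [At.ρ, ← rpow_natCast, ← rpow_mul (h.nn _)]; norm_num

lemma HI_k (b : E3) : HI (fun x => P.u ‖x - b‖ ^ (10 / 3 : ℝ)) P.k :=
  ⟨(((LL_rho h b).HK' fun _ => sq_nonneg _).congr (Eventually.of_forall (rho53 h b))).1,
    integral_sub_right_eq_self (fun x : E3 => P.u ‖x‖ ^ (10 / 3 : ℝ)) b⟩

lemma psi_ae (b : E3) : ∀ᵐ x : E3, psi (P.ρ b) x = P.z / ‖x - b‖ - P.φ ‖x - b‖ :=
  (ae_ne b).mono fun x hx => by rw [h.newton b x hx]; ring

lemma DD_rho (b : E3) : DD (P.ρ b) (P.ρ b) = P.D := by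
  have e : ∀ b, DD (P.ρ b) (P.ρ b) = ∫ x : E3, P.u ‖x‖ ^ 2 * (P.z / ‖x‖ - P.φ ‖x‖) := fun b => by
    rw [← integral_sub_right_eq_self (fun x : E3 => P.u ‖x‖ ^ 2 * (P.z / ‖x‖ - P.φ ‖x‖)) b]
    exact integral_congr_ae ((psi_ae h b).mono fun x hx => by beta_reduce; rw [hx]; rfl)
  rw [At.D, e, e]

lemma w_bd : ∃ M, ∀ r, 0 < r → 0 ≤ P.z / r - P.φ r ∧ P.z / r - P.φ r ≤ M := by
  obtain ⟨M, hM⟩ := (LL_rho h 0).psi_bdd
  refine ⟨M, fun r hr => ?_⟩
  have e : ‖r • e0 - 0‖ = r := by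
    rw [sub_zero, norm_smul, MP_689e73_mp.norm_e0, mul_one, Real.norm_of_nonneg hr.le]
  have := h.newton 0 (r • e0) (sub_ne_zero.1 (norm_pos_iff.1 (by rwa [e])))
  rw [e] at this
  rw [this, sub_sub_cancel]
  exact ⟨MP_689e73_mp.psi_nonneg (fun _ => sq_nonneg _) _,
    (le_abs_self _).trans ((MP_689e73_mp.abs_psi_le_psi_abs _ _).trans (hM _))⟩

lemma int_phi {f : E3 → ℝ} (hf : LL f) (b : E3) : Integrable fun x => f x * P.φ ‖x - b‖ := by
  refine (((hf.psi_int b).const_mul P.z).sub (LL.int_mul_psi hf.int (LL_rho h b))).congr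
    ((psi_ae h b).mono fun x hx => ?_)
  simp only [Pi.sub_apply, hx, norm_sub_rev b x]
  ring

end

lemma main {P Q : At} {K α β : ℝ} (hK : St_KIN) (hB : St_BDD) (hP : P.Ok K) (hQ : Q.Ok K)
    (hα : 0 < α) (hβ : 0 < β) (hN : α ^ 2 * P.z + β ^ 2 * Q.z = P.z + Q.z) :
    ∃ C, ∀ b c : E3, EV (Vm P.z Q.z b c) (P.z + Q.z) ≤ P.G (α ^ 2) + Q.G (β ^ 2) +
      (C * (∫ x : E3, P.u ‖x - b‖ * Q.u ‖x - c‖) +
        α * β * (∫ x : E3, P.u ‖x - b‖ * P.φ ‖x - b‖ * Q.u ‖x - c‖) +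
        α * β * (∫ x : E3, Q.u ‖x - c‖ * Q.φ ‖x - c‖ * P.u ‖x - b‖) +
        α ^ 2 * β ^ 2 * ∫ x : E3, Q.u ‖x - c‖ ^ 2 * (P.z / ‖x - b‖ - P.φ ‖x - b‖)) := by
  obtain ⟨M1, m1⟩ := w_bd hP
  obtain ⟨M2, m2⟩ := w_bd hQ
  set B := α ^ 2 * (P.k + A * P.κ ^ 2 * P.z + P.D) + β ^ 2 * (Q.k + A * Q.κ ^ 2 * Q.z + Q.D) with hBd
  set C1 := 10 * (3 * ((α + β) * K) ^ 2) ^ (2 / 3 : ℝ) with hC1
  have z1 := hP.hz
  have z2 := hQ.hz
  refine ⟨2 * α * β * |B| / (P.z + Q.z) + 3 / 5 * C1 * (α * β) +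
    2 * α * β * (α ^ 2 * M1 + β ^ 2 * M2) + α ^ 2 * β ^ 2 * (M1 + M2), fun b c => ?_⟩
  have lσ := LL_mul hP b (mu' hQ c) (u_ae hQ c)
  have l1 := LL_rho hP b
  have l2 := LL_rho hQ c
  have lτ := (l1.const_mul (α ^ 2)).add (l2.const_mul (β ^ 2))
  have eP : ∀ x, Ps P Q α β b c x ^ 2 = α ^ 2 * P.ρ b x + β ^ 2 * Q.ρ c x +
      2 * α * β * (P.u ‖x - b‖ * Q.u ‖x - c‖) := fun x => by simp only [Ps, At.ρ]; ring
  set S := ∫ x : E3, P.u ‖x - b‖ * Q.u ‖x - c‖ with hS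
  have σ0 : ∀ x, 0 ≤ P.u ‖x - b‖ * Q.u ‖x - c‖ := fun x => mul_nonneg (hP.nn _) (hQ.nn _)
  have S0 : 0 ≤ S := integral_nonneg σ0
  have iS : HI (fun x => P.u ‖x - b‖ * Q.u ‖x - c‖) S := HI.of lσ.int
  have eM : ∫ x, Ps P Q α β b c x ^ 2 = P.z + Q.z + 2 * α * β * S := by
    simp only [eP]
    rw [← hN]
    exact ((((HI_rho hP b).const_mul _).add ((HI_rho hQ c).const_mul _)).add (iS.const_mul _)).2
  set t := (P.z + Q.z) / (P.z + Q.z + 2 * α * β * S) with ht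
  have p0 : 0 ≤ 2 * α * β * S := by positivity
  have t0 : 0 < t := by positivity
  have t1 : t ≤ 1 := (div_le_one (by positivity)).2 (by linarith)
  have t2 : t * (P.z + Q.z + 2 * α * β * S) = P.z + Q.z := div_mul_cancel₀ _ (by positivity)
  obtain ⟨g, g1, g2⟩ := (hK P Q K α β b c hP hQ hα hβ.le).2 t t0
  rw [eM, t2] at g1
  refine (csInf_le (hB P.z Q.z _ b c z1.le z2.le) ⟨_, g, g1, rfl⟩).trans ?_
  have lρ : LL fun x => t * Ps P Q α β b c x ^ 2 := by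
    simp only [eP]
    exact (lτ.add (lσ.const_mul _)).const_mul t
  -- Coulomb term
  have pσ : ∀ x, psi (fun x => P.u ‖x - b‖ * Q.u ‖x - c‖) x ≤
      1 / 2 * psi (P.ρ b) x + 1 / 2 * psi (Q.ρ c) x := fun x =>
    (lσ.Hpsi x).le (((l1.Hpsi x).const_mul _).add ((l2.Hpsi x).const_mul _))
      (Eventually.of_forall fun y => by
        have := mul_nonneg (inv_nonneg.2 (norm_nonneg (x - y)))
          (sq_nonneg (P.u ‖y - b‖ - Q.u ‖y - c‖))
        simp only [At.ρ]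
        nlinarith)
  have w1 : ∀ᵐ x, psi (P.ρ b) x ≤ M1 := by
    filter_upwards [psi_ae hP b, ae_ne b] with x e1 e2
    exact e1 ▸ (m1 _ (norm_pos_iff.2 (sub_ne_zero.2 e2))).2
  have w2 : ∀ᵐ x, psi (Q.ρ c) x ≤ M2 := by
    filter_upwards [psi_ae hQ c, ae_ne c] with x e1 e2
    exact e1 ▸ (m2 _ (norm_pos_iff.2 (sub_ne_zero.2 e2))).2
  have d1 : DD (fun x => P.u ‖x - b‖ * Q.u ‖x - c‖) (fun x => P.u ‖x - b‖ * Q.u ‖x - c‖) ≤
      (M1 + M2) / 2 * S := (lσ.HD lσ).le (iS.const_mul _) (by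
    filter_upwards [w1, w2] with x e1 e2
    rw [mul_comm ((M1 + M2) / 2)]
    exact mul_le_mul_of_nonneg_left ((pσ x).trans (by linarith)) (σ0 x))
  have d2 : DD (fun x => P.u ‖x - b‖ * Q.u ‖x - c‖)
      (fun x => α ^ 2 * P.ρ b x + β ^ 2 * Q.ρ c x) ≤ (α ^ 2 * M1 + β ^ 2 * M2) * S :=
    (lσ.HD lτ).le (iS.const_mul _) (by
      filter_upwards [w1, w2] with x e1 e2
      rw [mul_comm (α ^ 2 * M1 + β ^ 2 * M2), MP_689e73_mp.psi_comb (l1.const_mul _) l2,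
        MP_689e73_mp.psi_const_mul]
      exact mul_le_mul_of_nonneg_left (by gcongr) (σ0 x))
  have sm : ∀ {f : E3 → ℝ}, LL f → ∀ s : ℝ, DD (fun x => s * f x) (fun x => s * f x) =
      s ^ 2 * DD f f := fun hf s => by
    rw [MP_689e73_mp.DD_smul_left hf (hf.const_mul s), MP_689e73_mp.DD_symm hf (hf.const_mul s),
      MP_689e73_mp.DD_smul_left hf hf]
    ring
  have d3 : DD (Q.ρ c) (fun x => α ^ 2 * P.ρ b x) =
      α ^ 2 * ∫ x : E3, Q.u ‖x - c‖ ^ 2 * (P.z / ‖x - b‖ - P.φ ‖x - b‖) := by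
    rw [← integral_const_mul]
    exact integral_congr_ae ((psi_ae hP b).mono fun x hx => by
      beta_reduce; rw [MP_689e73_mp.psi_const_mul, hx, At.ρ]; ring)
  have d4 : ∫ x, ∫ y, t * Ps P Q α β b c x ^ 2 * (t * Ps P Q α β b c y ^ 2) / ‖x - y‖ ≤
      DD (fun x => Ps P Q α β b c x ^ 2) fun x => Ps P Q α β b c x ^ 2 := by
    have := MP_689e73_mp.coulomb_eq fun x => t * Ps P Q α β b c x ^ 2
    simp only [MP_689e73_mp.coulomb, ← div_eq_mul_inv] at this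
    rw [this, sm (by simp only [eP]; exact lτ.add (lσ.const_mul _))]
    exact mul_le_of_le_one_left (MP_689e73_mp.DD_nonneg (fun _ => sq_nonneg _) fun _ => sq_nonneg _)
      (pow_le_one₀ t0.le t1)
  rw [funext eP, MP_689e73_mp.DD_expand lτ lσ, MP_689e73_mp.DD_expand (l1.const_mul _) l2, sm l1,
    d3, DD_rho hP, DD_rho hQ] at d4
  -- Thomas-Fermi term
  have k1 : ∫ x, (t * Ps P Q α β b c x ^ 2) ^ (5 / 3 : ℝ) ≤
      (α ^ 2) ^ (5 / 3 : ℝ) * P.k + (β ^ 2) ^ (5 / 3 : ℝ) * Q.k + C1 * (α * β) * S := by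
    refine (HI.of (lρ.HK' fun _ => by positivity).1).le ((((HI_k hP b).const_mul _).add
      ((HI_k hQ c).const_mul _)).add (iS.const_mul _)) ?_
    filter_upwards [u_ae hP b, u_ae hQ c] with x e1 e2
    have := pow53 (L := (α + β) * K) (mul_nonneg hα.le (hP.nn ‖x - b‖))
      (mul_nonneg hβ.le (hQ.nn ‖x - c‖))
      (mul_le_mul (by linarith) (le_of_abs_le e1) (hP.nn _) (by positivity))
      (mul_le_mul (by linarith) (le_of_abs_le e2) (hQ.nn _) (by positivity))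
    rw [mul_pow α, mul_pow β, mul_rpow (sq_nonneg α) (sq_nonneg _),
      mul_rpow (sq_nonneg β) (sq_nonneg _)] at this
    rw [← rho53 hP, ← rho53 hQ]
    refine (rpow_le_rpow (by positivity) (mul_le_of_le_one_left (sq_nonneg _) t1)
      (by norm_num)).trans (this.trans (le_of_eq ?_))
    simp only [At.ρ, hC1]
    ring
  -- kinetic and attraction terms
  have iV : Integrable fun x => Vm P.z Q.z b c x * (t * Ps P Q α β b c x ^ 2) := by
    refine (((lρ.psi_int b).const_mul P.z).add ((lρ.psi_int c).const_mul Q.z)).congr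
      (Eventually.of_forall fun x => ?_)
    simp only [Pi.add_apply, Vm, norm_sub_rev b x, norm_sub_rev c x]
    ring
  have iL := ((hK P Q K α β b c hP hQ hα hβ.le).1 _ _ _ g1).1
  have j1 := HI.of ((int_phi hP lσ b).congr (g := fun x => P.u ‖x - b‖ * P.φ ‖x - b‖ * Q.u ‖x - c‖)
    (Eventually.of_forall fun x => by ring))
  have j2 := HI.of ((int_phi hQ lσ c).congr (g := fun x => Q.u ‖x - c‖ * Q.φ ‖x - c‖ * P.u ‖x - b‖)
    (Eventually.of_forall fun x => by ring))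
  have k2 := (((HI.of iL).const_mul (-1)).sub (HI.of iV)).le
    ((((((HI_k hP b).add ((HI_rho hP b).const_mul (A * P.κ ^ 2))).add (l1.HD l1)).const_mul
      (α ^ 2)).add ((((HI_k hQ c).add ((HI_rho hQ c).const_mul (A * Q.κ ^ 2))).add
        (l2.HD l2)).const_mul (β ^ 2))).const_mul (-t) |>.add
      ((j1.const_mul (α * β)).add (j2.const_mul (α * β)))) (by
    filter_upwards [psi_ae hP b, psi_ae hQ c, ae_ne b, ae_ne c] with x e1 e2 e3 e4
    have r1 := norm_pos_iff.2 (sub_ne_zero.2 e3)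
    have r2 := norm_pos_iff.2 (sub_ne_zero.2 e4)
    have e5 : ∀ s l : ℝ, t * s ^ 2 * (l / s) = t * (s * l) := fun s l => by
      rcases eq_or_ne s 0 with rfl | e
      · simp
      · field_simp
    have e6 : ∀ a : ℝ, 0 ≤ a → a ^ (10 / 3 : ℝ) = a ^ (4 / 3 : ℝ) * a ^ 2 := fun a ha => by
      rw [← rpow_natCast, ← rpow_add' ha (by norm_num)]; norm_num
    rw [e5, e1, e2, e6 _ (hP.nn _), e6 _ (hQ.nn _)]
    simp only [Ps, La, At.FL, At.ρ, Vm]
    have a0 := hP.nn ‖x - b‖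
    have b0 := hQ.nn ‖x - c‖
    have p0 := (hP.pt _ r1).p0
    have q0 := (hQ.pt _ r2).p0
    have v1 : 0 ≤ P.z / ‖x - b‖ := by positivity
    have v2 : 0 ≤ Q.z / ‖x - c‖ := by positivity
    have s1 : 0 ≤ P.u ‖x - b‖ ^ (4 / 3 : ℝ) := by positivity
    have s2 : 0 ≤ Q.u ‖x - c‖ ^ (4 / 3 : ℝ) := by positivity
    have n1 : 0 ≤ A * P.κ ^ 2 := by have := A_pos; positivity
    have n2 : 0 ≤ A * Q.κ ^ 2 := by have := A_pos; positivity
    generalize P.u ‖x - b‖ ^ (4 / 3 : ℝ) = s at *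
    generalize Q.u ‖x - c‖ ^ (4 / 3 : ℝ) = s' at *
    generalize P.u ‖x - b‖ = a at *
    generalize Q.u ‖x - c‖ = a' at *
    generalize P.φ ‖x - b‖ = p at *
    generalize Q.φ ‖x - c‖ = q at *
    generalize P.z / ‖x - b‖ = v at *
    generalize Q.z / ‖x - c‖ = v' at *
    generalize A * P.κ ^ 2 = n at *
    generalize A * Q.κ ^ 2 = n' at *
    have f1 : 0 ≤ (1 - t) * (α * β * (a * a') * (p + q)) :=
      mul_nonneg (by linarith) (by positivity)
    have f2 : 0 ≤ t * (α * β * (a * a') * (s + s' + n + n' + 2 * v + 2 * v') +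
      α ^ 2 * a ^ 2 * v' + β ^ 2 * a' ^ 2 * v) := by positivity
    nlinarith)
  rw [DD_rho hP, DD_rho hQ, ← hBd] at k2
  have k3 : -t * B ≤ -B + 2 * α * β * |B| / (P.z + Q.z) * S := by
    have e : 1 - t ≤ 2 * α * β * S / (P.z + Q.z) := by
      rw [le_div_iff₀ (by positivity)]
      nlinarith
    have := mul_le_mul e (le_abs_self B) 
    rcases le_total 0 B with h | h
    · have := this h (by positivity)
      rw [show 2 * α * β * |B| / (P.z + Q.z) * S = 2 * α * β * S / (P.z + Q.z) * |B| by ring]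
      linarith
    · have : 0 ≤ 2 * α * β * |B| / (P.z + Q.z) * S := by positivity
      nlinarith
  have d5 := mul_le_mul_of_nonneg_left d2 (show 0 ≤ 2 * α * β by positivity)
  have d6 := mul_le_mul_of_nonneg_left d1 (show 0 ≤ 2 * α ^ 2 * β ^ 2 by positivity)
  unfold xi At.G
  rw [g2]
  simp only [eP] at d4 k1 k2 ⊢
  nlinarith

end T52

theorem st_CB1 (hK : St_KIN) (hB : St_BDD) : St_CB1 := by
  intro P Q K α β η hP hQ hα hβ hN hη
  obtain ⟨C, hC⟩ := T52.main hK hB hP hQ hα hβ hN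
  obtain ⟨M, m⟩ := T52.w_bd hP
  have c1 : Tendsto (fun R : ℝ => ‖(EuclideanSpace.single 0 R : E3) - 0‖) atTop atTop := by
    simpa using tendsto_abs_atTop_atTop
  have c2 : Tendsto (fun R : ℝ => ‖0 - (EuclideanSpace.single 0 R : E3)‖) atTop atTop := by
    simpa using tendsto_abs_atTop_atTop
  have bd : ∀ {P : At}, P.Ok K → ∀ r, 0 < r → |P.u r| ≤ K := fun h r hr => by
    rw [abs_of_nonneg (h.nn _)]; exact T52.u_le' h hr
  have lu : ∀ {P : At}, P.Ok K → LL fun x : E3 => P.u ‖x - 0‖ := fun h => by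
    simpa using T52.LL_mul h 0 (g := fun _ => 1) (C := 1) measurable_const (by simp)
  have t1 := T52.tend (lu hP).int hQ.mu (bd hQ) (T52.u_lim hQ) c1
  have t2 := T52.tend (F := fun r => P.u r * P.φ r) (T52.int_phi hP (lu hP) 0) hQ.mu (bd hQ)
    (T52.u_lim hQ) c1
  have t3 := T52.tend (F := fun r => Q.u r * Q.φ r) (T52.int_phi hQ (lu hQ) 0) hP.mu (bd hP)
    (T52.u_lim hP) c2
  have t4 := T52.tend (F := fun r => Q.u r ^ 2) (w := fun r => P.z / r - P.φ r) (K := M)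
    (T52.LL_rho hQ 0).int ((measurable_const.div measurable_id).sub hP.mφ)
    (fun r hr => by rw [abs_of_nonneg (m r hr).1]; exact (m r hr).2)
    (squeeze_zero' ((eventually_gt_atTop 0).mono fun r hr => (m r hr).1)
      ((eventually_gt_atTop 0).mono fun r hr => sub_le_self _ (hP.pt r hr).p0)
      (tendsto_const_nhds.div_atTop tendsto_id)) c2
  have t5 := ((((t1.const_mul C).add (t2.const_mul (α * β))).add (t3.const_mul (α * β))).add
    (t4.const_mul (α ^ 2 * β ^ 2))).add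
      ((tendsto_const_nhds (x := P.z * Q.z)).div_atTop tendsto_id)
  simp only [mul_zero, add_zero] at t5
  filter_upwards [t5.eventually (gt_mem_nhds hη)] with R hR
  have := hC 0 (EuclideanSpace.single 0 R)
  have e : Vm P.z Q.z 0 (EuclideanSpace.single 0 R) =
      fun x => P.z / ‖x‖ + Q.z / ‖x - EuclideanSpace.single 0 R‖ := by
    funext x; simp [Vm]
  rw [e] at this
  simp only [id] at hR
  unfold Emol
  linarith

end Pool.Agent.Lib.TFW
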