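import Pool.Agent.Lib.TFW.Basic

open MeasureTheory Filter Topology Set Real

namespace Pool.Agent.Lib.TFW

open Pool.Agent.Lib.MP_689e73_mp (psi DD LL HI KK N1 good_rep psi_congr DD_amgm DD_expand
  young_sharp DD_nonneg Ib)

namespace T8

lemma rep {lam : ℝ} {ρ : E3 → ℝ} {g : Fin 3 → E3 → ℝ} (h : Adm lam ρ g) :
    ∃ σ : E3 → ℝ, LL σ ∧ (∀ x, 0 ≤ σ x) ∧ ρ =ᵐ[volume] σ ∧ HI σ lam := by
  obtain ⟨σ, hσ, he⟩ := good_rep (lam := lam) ⟨h.nonneg, h.lp, h.int, h.mass⟩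
  exact ⟨σ, hσ.ll, hσ.nn, he, hσ.ll.int, by rw [← h.mass]; exact (integral_congr_ae he).symm⟩

lemma xi_rep {ρ σ : E3 → ℝ} (hσ : LL σ) (h0 : ∀ x, 0 ≤ σ x) (he : ρ =ᵐ[volume] σ)
    (z₁ z₂ : ℝ) (b₁ b₂ : E3) (g : Fin 3 → E3 → ℝ) :
    xi (Vm z₁ z₂ b₁ b₂) ρ g = A * (∑ i, ∫ x, g i x ^ 2) + 3 / 5 * KK σ
      - (z₁ * psi σ b₁ + z₂ * psi σ b₂) + 1 / 2 * DD σ σ := by
  have h1 : ∫ x, ρ x ^ (5 / 3 : ℝ) = KK σ := by
    rw [← (hσ.HK' h0).2]
    refine integral_congr_ae ?_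
    filter_upwards [he] with x hx
    rw [hx]
  have h2 : ∫ x, Vm z₁ z₂ b₁ b₂ x * ρ x = z₁ * psi σ b₁ + z₂ * psi σ b₂ := by
    rw [← ((HI_nuc hσ z₁ b₁).add (HI_nuc hσ z₂ b₂)).2]
    refine integral_congr_ae ?_
    filter_upwards [he] with x hx
    rw [hx, Vm]; ring
  have h3 : DD ρ ρ = DD σ σ := by
    unfold DD
    rw [psi_congr he]
    refine integral_congr_ae ?_
    filter_upwards [he] with x hx
    rw [hx]
  rw [xi_eq, h1, h2, h3]

end T8

open T8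

theorem st_DUAL : St_DUAL := by
  intro z₁ z₂ μ lam b₁ b₂ W s τ ρ g hτ hτ0 hsm hs0 hsi hW hA
  obtain ⟨σ, hσ, h0, he, hm⟩ := rep hA
  have hy : ∀ᵐ x, σ x * s x ≤ 3 / 5 * σ x ^ (5 / 3 : ℝ) + 2 / 5 * s x ^ (5 / 2 : ℝ) := by
    filter_upwards [hs0] with x hx
    have := young_sharp one_pos (h0 x) hx
    rwa [Real.one_rpow, mul_one, mul_one] at this
  have hR := ((hσ.HK' h0).const_mul (3 / 5)).add ((HI.of hsi).const_mul (2 / 5))
  have hi : Integrable fun x => σ x * s x := by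
    refine Integrable.mono' hR.1 (hσ.meas.mul hsm).aestronglyMeasurable ?_
    filter_upwards [hy, hs0] with x hx hx0
    rwa [Real.norm_of_nonneg (mul_nonneg (h0 x) hx0)]
  have hle := (HI.of hi).le hR hy
  have hWi : ∫ x, ρ x * W x = (∫ x, σ x * s x) + μ * lam - (z₁ * psi σ b₁ + z₂ * psi σ b₂)
      + DD σ τ := by
    rw [← ((((HI.of hi).add (hm.const_mul μ)).sub
      ((HI_nuc hσ z₁ b₁).add (HI_nuc hσ z₂ b₂))).add (hσ.HD hτ)).2]
    refine integral_congr_ae ?_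
    filter_upwards [he, hW] with x hx hx'
    rw [hx, hx', Vm]; ring
  have hx := xi_rep hσ h0 he z₁ z₂ b₁ b₂ g
  refine ⟨fun hk => ?_, fun hρ hk => ?_⟩
  · have := DD_amgm hσ hτ h0 hτ0
    rw [hx]; linarith
  · have e1 : (fun x => s x * ρ x) =ᵐ[volume] fun x => σ x * s x := by
      filter_upwards [he] with x hx
      rw [hx, mul_comm]
    refine ⟨hi.congr e1.symm, ?_⟩
    have e2 : ∫ x, ρ x ^ (5 / 3 : ℝ) = KK σ := by
      rw [← (hσ.HK' h0).2]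
      refine integral_congr_ae ?_
      filter_upwards [he] with x hx
      rw [hx]
    have e4 : DD (fun x => ρ x - τ x) (fun x => ρ x - τ x) = DD σ σ - 2 * DD σ τ + DD τ τ := by
      have e5 : (fun x => ρ x - τ x) =ᵐ[volume] fun x => σ x + (-1) * τ x := by
        filter_upwards [he] with x hx
        rw [hx]; ring
      have e6 := DD_expand hσ hτ (-1)
      have e7 := MP_689e73_mp.DD_symm hσ hτ
      have e8 : DD (fun x => ρ x - τ x) (fun x => ρ x - τ x) =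
          DD (fun x => σ x + (-1) * τ x) (fun x => σ x + (-1) * τ x) := by
        unfold DD
        rw [psi_congr e5]
        refine integral_congr_ae ?_
        filter_upwards [e5] with x hx
        rw [hx]
      rw [e8, e6, e7]; ring
    rw [hx, hk, hWi, integral_congr_ae e1, e2, e4]; ring

theorem st_BDD : St_BDD := by
  intro z₁ z₂ lam b₁ b₂ h1 h2
  set θ : ℝ := 3 / 5 / (z₁ + z₂ + 1) with hθ
  have hθ0 : 0 < θ := by positivity
  refine ⟨-((z₁ + z₂) * (θ ^ (-(3 / 2) : ℝ) * Ib 1 + lam)), ?_⟩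
  rintro _ ⟨ρ, g, hA, rfl⟩
  obtain ⟨σ, hσ, h0, he, hm⟩ := rep hA
  rw [xi_rep hσ h0 he]
  have hN : N1 σ = lam := (hσ.HN' h0).unique hm
  have hp : ∀ b, psi σ b ≤ θ * KK σ + (θ ^ (-(3 / 2) : ℝ) * Ib 1 + lam) := fun b => by
    have := (le_abs_self _).trans (hσ.abs_psi_le hθ0 one_pos b)
    rw [hN, inv_one, one_mul] at this
    linarith
  have hK := MP_689e73_mp.KK_nonneg σ
  have hD := DD_nonneg h0 h0
  have hg : 0 ≤ A * ∑ i, ∫ x, g i x ^ 2 :=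
    mul_nonneg A_pos.le (Finset.sum_nonneg fun i _ => integral_nonneg fun x => sq_nonneg _)
  have hz : (z₁ + z₂) * θ ≤ 3 / 5 := by
    rw [hθ, ← mul_div_assoc, div_le_iff₀ (by positivity)]; linarith
  have a1 := mul_le_mul_of_nonneg_left (hp b₁) h1
  have a2 := mul_le_mul_of_nonneg_left (hp b₂) h2
  have a3 := mul_le_mul_of_nonneg_right hz hK
  nlinarith

end Pool.Agent.Lib.TFW
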