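import Pool.Agent.Lib.TFW.Blue

open MeasureTheory Filter Topology Set Real

namespace Pool.Agent.Lib.TFW

namespace T11

theorem ci {a b : ℝ} (hab : a ≤ b) {f g : ℝ → ℝ} (h : ∀ x ∈ Ioc a b, f x = g x)
    (hg : IntervalIntegrable g volume a b) :
    IntervalIntegrable f volume a b ∧ ∫ x in a..b, f x = ∫ x in a..b, g x := by
  refine ⟨?_, ?_⟩
  · rw [intervalIntegrable_iff_integrableOn_Ioc_of_le hab] at hg ⊢
    exact hg.congr_fun (fun x hx => (h x hx).symm) measurableSet_Ioc
  · rw [intervalIntegral.integral_of_le hab, intervalIntegral.integral_of_le hab]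
    exact setIntegral_congr_fun measurableSet_Ioc h

theorem prim {F : ℝ → ℝ} (hF : ContinuousOn F (Ioi 0)) {r : ℝ} (hr : 0 < r) :
    HasDerivAt (fun u => ∫ s in (1 : ℝ)..u, F s) (F r) r := by
  refine intervalIntegral.integral_hasDerivAt_right ?_ ?_ (hF.continuousAt (Ioi_mem_nhds hr))
  · refine (hF.mono fun x hx => ?_).intervalIntegrable
    exact lt_of_lt_of_le (lt_min one_pos hr) hx.1
  · exact hF.stronglyMeasurableAtFilter isOpen_Ioi r hr

/-- The two-step test direction. -/
noncomputable def tent (a c b : ℝ) : ℝ → ℝ :=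
  (Ioc a c).indicator (fun _ => b - c) - (Ioc c b).indicator (fun _ => c - a)

theorem tent_l {a c b x : ℝ} (hx : x ∈ Ioc a c) : tent a c b x = b - c := by
  have : x ∉ Ioc c b := fun h => absurd hx.2 (not_le.2 h.1)
  simp [tent, indicator_of_mem hx, indicator_of_notMem this]

theorem tent_r {a c b x : ℝ} (hx : x ∈ Ioc c b) : tent a c b x = -(c - a) := by
  have : x ∉ Ioc a c := fun h => absurd h.2 (not_le.2 hx.1)
  simp [tent, indicator_of_mem hx, indicator_of_notMem this]

theorem tent_o {a c b x : ℝ} (h1 : a ≤ c) (h2 : c ≤ b) (hx : x ∉ Ioc a b) : tent a c b x = 0 := by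
  have e1 : x ∉ Ioc a c := fun h => hx ⟨h.1, h.2.trans h2⟩
  have e2 : x ∉ Ioc c b := fun h => hx ⟨h1.trans_lt h.1, h.2⟩
  simp [tent, indicator_of_notMem e1, indicator_of_notMem e2]

theorem Y_l {a c b r : ℝ} (ha : 0 < a) (h1 : a ≤ c) (h2 : c ≤ b) (hr : r ∈ Icc a c) :
    IntervalIntegrable (tent a c b) volume 0 r ∧ Y (tent a c b) r = (b - c) * (r - a) := by
  have e1 := ci (f := tent a c b) (g := fun _ => 0) ha.le
    (fun x hx => tent_o h1 h2 fun h => absurd hx.2 (not_le.2 h.1)) intervalIntegrable_const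
  have e2 := ci (f := tent a c b) (g := fun _ => b - c) hr.1
    (fun x hx => tent_l ⟨hx.1, hx.2.trans hr.2⟩) intervalIntegrable_const
  refine ⟨e1.1.trans e2.1, ?_⟩
  rw [Y, ← intervalIntegral.integral_add_adjacent_intervals e1.1 e2.1, e1.2, e2.2]
  simp only [intervalIntegral.integral_const, smul_eq_mul]
  ring

theorem Y_r {a c b r : ℝ} (ha : 0 < a) (h1 : a ≤ c) (h2 : c ≤ b) (hr : r ∈ Icc c b) :
    Y (tent a c b) r = (c - a) * (b - r) := by
  have e1 := Y_l ha h1 h2 (r := c) ⟨h1, le_rfl⟩
  have e2 := ci (f := tent a c b) (g := fun _ => -(c - a)) hr.1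
    (fun x hx => tent_r ⟨hx.1, hx.2.trans hr.2⟩) intervalIntegrable_const
  have e3 := e1.2
  rw [Y] at e3
  rw [Y, ← intervalIntegral.integral_add_adjacent_intervals e1.1 e2.1, e3, e2.2]
  simp only [intervalIntegral.integral_const, smul_eq_mul]
  ring

theorem dir {a c b : ℝ} (ha : 0 < a) (h1 : a < c) (h2 : c < b) : Dir a b (tent a c b) := by
  refine ⟨ha, h1.trans h2, ?_, fun r hr => tent_o h1.le h2.le hr, ?_⟩
  · refine MemLp.sub (memLp_indicator_const 2 measurableSet_Ioc _ (Or.inr ?_))
      (memLp_indicator_const 2 measurableSet_Ioc _ (Or.inr ?_)) <;>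
    exact ((Measure.restrict_le_self _).trans_lt measure_Ioc_lt_top).ne
  · have e1 := ci (f := tent a c b) (g := fun _ => b - c) h1.le (fun x hx => tent_l hx)
      intervalIntegrable_const
    have e2 := ci (f := tent a c b) (g := fun _ => -(c - a)) h2.le (fun x hx => tent_r hx)
      intervalIntegrable_const
    rw [← intervalIntegral.integral_add_adjacent_intervals e1.1 e2.1, e1.2, e2.2]
    simp only [intervalIntegral.integral_const, smul_eq_mul]
    ring

theorem parts {F G H : ℝ → ℝ} (hF : ContinuousOn F (Ioi 0))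
    (hG : ∀ r, 0 < r → HasDerivAt G (F r) r) (hH : ∀ r, 0 < r → HasDerivAt H (G r) r)
    {s t : ℝ} (hs : 0 < s) (hst : s ≤ t) (p q : ℝ) :
    IntervalIntegrable (fun r => F r * (p * r + q)) volume s t ∧
      ∫ r in s..t, F r * (p * r + q) =
        (G t * (p * t + q) - p * H t) - (G s * (p * s + q) - p * H s) := by
  have hsub : uIcc s t ⊆ Ioi 0 := fun x hx => by
    rw [uIcc_of_le hst] at hx
    exact hs.trans_le hx.1
  have hi : IntervalIntegrable (fun r => F r * (p * r + q)) volume s t :=
    ((hF.mono hsub).mul (by fun_prop)).intervalIntegrable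
  refine ⟨hi, intervalIntegral.integral_eq_sub_of_hasDerivAt
    (f := fun r => G r * (p * r + q) - p * H r) (fun x hx => ?_) hi⟩
  have e := ((hG x (hsub hx)).mul (((hasDerivAt_id x).const_mul p).add_const q)).sub
    ((hH x (hsub hx)).const_mul p)
  refine e.congr_deriv ?_
  simp only [id]
  ring

end T11

open T11 in
theorem st_EL2 (h1 : St_B1) : St_EL2 := by
  intro g F hg hF hE
  obtain ⟨hi, -, -⟩ := h1 g hg
  set G : ℝ → ℝ := fun u => ∫ s in (1 : ℝ)..u, F s with hGd
  have hG : ∀ r, 0 < r → HasDerivAt G (F r) r := fun r hr => prim hF hr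
  have hGc : ContinuousOn G (Ioi 0) := fun r hr => (hG r hr).continuousAt.continuousWithinAt
  set H : ℝ → ℝ := fun u => ∫ s in (1 : ℝ)..u, G s with hHd
  have hH : ∀ r, 0 < r → HasDerivAt H (G r) r := fun r hr => prim hGc hr
  have hY : ∀ s t, 0 ≤ s → 0 ≤ t → ∫ r in s..t, g r = Y g t - Y g s := fun s t hs ht => by
    rw [Y, Y, intervalIntegral.integral_interval_sub_left (hi 0 t le_rfl ht) (hi 0 s le_rfl hs)]
  have key : ∀ a c b, 0 < a → a < c → c < b →
      (b - c) * ((Y g c - H c) - (Y g a - H a)) = (c - a) * ((Y g b - H b) - (Y g c - H c)) := by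
    intro a c b ha hac hcb
    have hc : 0 < c := ha.trans hac
    have e := hE a b _ (dir ha hac hcb)
    have a1 := ci (f := fun r => g r * tent a c b r) (g := fun r => (b - c) * g r) hac.le
      (fun x hx => by rw [tent_l hx, mul_comm]) ((hi a c ha.le hc.le).const_mul _)
    have a2 := ci (f := fun r => g r * tent a c b r) (g := fun r => -(c - a) * g r) hcb.le
      (fun x hx => by rw [tent_r hx, mul_comm]) ((hi c b hc.le (hc.trans hcb).le).const_mul _)
    have p1 := parts hF hG hH ha hac.le (b - c) (-((b - c) * a))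
    have p2 := parts hF hG hH hc hcb.le (-(c - a)) ((c - a) * b)
    have b1 := ci (f := fun r => F r * Y (tent a c b) r) hac.le
      (fun x hx => by rw [(Y_l ha hac.le hcb.le ⟨hx.1.le, hx.2⟩).2]; ring) p1.1
    have b2 := ci (f := fun r => F r * Y (tent a c b) r) hcb.le
      (fun x hx => by rw [Y_r ha hac.le hcb.le ⟨hx.1.le, hx.2⟩]; ring) p2.1
    rw [← intervalIntegral.integral_add_adjacent_intervals a1.1 a2.1,
      ← intervalIntegral.integral_add_adjacent_intervals b1.1 b2.1, a1.2, a2.2, b1.2, b2.2,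
      p1.2, p2.2, intervalIntegral.integral_const_mul, intervalIntegral.integral_const_mul,
      hY a c ha.le hc.le, hY c b hc.le (hc.trans hcb).le] at e
    linear_combination e
  set m : ℝ := (Y g 2 - H 2) - (Y g 1 - H 1) with hm
  have aff : ∀ r, 0 < r → Y g r = H r + ((Y g 1 - H 1) + m * (r - 1)) := by
    intro r hr
    rcases lt_trichotomy r 1 with h | rfl | h
    · linear_combination -key r 1 2 hr h one_lt_two
    · ring
    rcases lt_trichotomy r 2 with h' | rfl | h'
    · linear_combination key 1 r 2 one_pos h h'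
    · rw [hm]; ring
    · linear_combination -key 1 2 r one_pos one_lt_two h'
  refine ⟨fun r => G r + m, fun r hr => ⟨?_, (hG r hr).add_const m⟩⟩
  have e := (hH r hr).add ((((hasDerivAt_id r).sub_const 1).const_mul m).const_add (Y g 1 - H 1))
  refine (e.congr_deriv (by simp)).congr_of_eventuallyEq ?_
  filter_upwards [Ioi_mem_nhds hr] with x hx
  exact aff x hx

end Pool.Agent.Lib.TFW
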