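import Pool.Agent.Lib.TFW.Blue

open MeasureTheory Filter Topology Set Real

namespace Pool.Agent.Lib.TFW

namespace BEX

theorem weak_sub {H : Type} [NormedAddCommGroup H] [InnerProductSpace ℝ H] [CompleteSpace H]
    [TopologicalSpace.SeparableSpace H] (u : ℕ → H) (R : ℝ) (hu : ∀ n, ‖u n‖ ≤ R) :
    ∃ (g : H) (φ : ℕ → ℕ), StrictMono φ ∧
      ∀ v, Tendsto (fun n => inner ℝ (u (φ n)) v) atTop (𝓝 (inner ℝ g v)) := by
  obtain ⟨L, -, φ, h1, h2⟩ := WeakDual.isSeqCompact_closedBall ℝ H 0 R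
    (x := fun n => StrongDual.toWeakDual (InnerProductSpace.toDual ℝ H (u n)))
    fun n => by simpa using hu n
  refine ⟨(InnerProductSpace.toDual ℝ H).symm (WeakDual.toStrongDual L), φ, h1, fun v => ?_⟩
  rw [InnerProductSpace.toDual_symm_apply]
  exact ((WeakDual.eval_continuous v).tendsto L).comp h2

/-- The lower limit of `a` is at least `x`. -/
def Lo (a : ℕ → ℝ) (x : ℝ) : Prop := ∃ b : ℕ → ℝ, (∀ n, b n ≤ a n) ∧ Tendsto b atTop (𝓝 x)

variable {a a' : ℕ → ℝ} {x x' : ℝ}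

theorem Lo.min (h : Lo a x) : Tendsto (fun n => min (a n) x) atTop (𝓝 x) := by
  obtain ⟨b, h1, h2⟩ := h
  have := h2.min (tendsto_const_nhds (x := x))
  rw [min_self] at this
  exact tendsto_of_tendsto_of_tendsto_of_le_of_le this tendsto_const_nhds
    (fun n => min_le_min_right _ (h1 n)) fun n => min_le_right _ _

theorem lo_of (h : ∀ c < x, ∀ᶠ n in atTop, c < a n) : Lo a x :=
  ⟨fun n => min (a n) x, fun _ => min_le_left _ _, tendsto_order.2
    ⟨fun c hc => (h c hc).mono fun _ k => lt_min k hc,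
      fun _ hc => Eventually.of_forall fun _ => (min_le_right _ _).trans_lt hc⟩⟩

theorem lo_lim (h : Tendsto a atTop (𝓝 x)) : Lo a x := ⟨a, fun _ => le_rfl, h⟩

theorem Lo.add (h : Lo a x) (h' : Lo a' x') : Lo (fun n => a n + a' n) (x + x') :=
  let ⟨_, h1, h2⟩ := h
  let ⟨_, h3, h4⟩ := h'
  ⟨_, fun n => add_le_add (h1 n) (h3 n), h2.add h4⟩

theorem Lo.mul (h : Lo a x) (h0 : ∀ n, 0 ≤ a' n) (h' : Tendsto a' atTop (𝓝 x')) :
    Lo (fun n => a' n * a n) (x' * x) :=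
  let ⟨_, h1, h2⟩ := h
  ⟨_, fun n => mul_le_mul_of_nonneg_left (h1 n) (h0 n), h'.mul h2⟩

theorem Lo.cmul (h : Lo a x) {c : ℝ} (h0 : 0 ≤ c) : Lo (fun n => c * a n) (c * x) :=
  h.mul (fun _ => h0) tendsto_const_nhds

theorem Lo.le (h : Lo a x) (h' : Tendsto a' atTop (𝓝 x')) (k : ∀ n, a n ≤ a' n) : x ≤ x' :=
  let ⟨_, h1, h2⟩ := h
  le_of_tendsto_of_tendsto' h2 h' fun n => (h1 n).trans (k n)

theorem fatou {f : ℕ → ℝ → ℝ} {g : ℝ → ℝ} (hf : ∀ n, IntegrableOn (f n) (Ioi 0))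
    (hg : IntegrableOn g (Ioi 0)) (f0 : ∀ n r, 0 < r → 0 ≤ f n r) (g0 : ∀ r, 0 < r → 0 ≤ g r)
    (h : ∀ r, 0 < r → Lo (fun n => f n r) (g r)) :
    Lo (fun n => ∫ r in Ioi (0 : ℝ), f n r) (∫ r in Ioi (0 : ℝ), g r) := by
  have m := ae_restrict_mem (μ := volume) (measurableSet_Ioi (a := (0 : ℝ)))
  refine ⟨fun n => ∫ r in Ioi (0 : ℝ), min (f n r) (g r),
    fun n => integral_mono ((hf n).inf hg) (hf n) fun r => min_le_left _ _,
    tendsto_integral_of_dominated_convergence g (fun n => ((hf n).inf hg).1) hg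
      (fun n => m.mono fun r hr => ?_) (m.mono fun r hr => (h r hr).min)⟩
  rw [Real.norm_of_nonneg (le_min (f0 n r hr) (g0 r hr))]
  exact min_le_right _ _

theorem split {y : ℝ → ℝ} (h1 : IntegrableOn (fun r => y r ^ 2) (Ioi 0))
    (h2 : IntegrableOn (fun r => y r ^ 2 / r) (Ioi 0)) {T : ℝ} (hT : 0 < T) :
    ∫ r in Ioi (0 : ℝ), y r ^ 2 / r ≤
      (∫ r in Ioc (0 : ℝ) T, y r ^ 2 / r) + mass y / (4 * π) / T := by
  have e : mass y / (4 * π) / T = ∫ r in Ioi (0 : ℝ), y r ^ 2 / T := by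
    rw [mass, integral_div, mul_div_cancel_left₀ _ (by positivity)]
  rw [e, ← Ioc_union_Ioi_eq_Ioi hT.le, setIntegral_union Ioc_disjoint_Ioi_same measurableSet_Ioi
    (h2.mono_set Ioc_subset_Ioi_self) (h2.mono_set (Ioi_subset_Ioi hT.le)),
    Ioc_union_Ioi_eq_Ioi hT.le]
  refine add_le_add le_rfl ((setIntegral_mono_on (h2.mono_set (Ioi_subset_Ioi hT.le))
    (IntegrableOn.mono_set (h1.div_const T) (Ioi_subset_Ioi hT.le)) measurableSet_Ioi fun r hr =>
      div_le_div_of_nonneg_left (sq_nonneg _) hT (le_of_lt hr)).trans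
    (setIntegral_mono_set (h1.div_const T) (Eventually.of_forall fun r => by positivity)
      (Ioi_subset_Ioi hT.le).eventuallyLE))

theorem cl (h1 : St_B1) {z : ℝ} {g : ℝ → ℝ} (h : K1 z g) : Cl (Y g) :=
  ⟨(h1 g h.l2).2.1, ⟨_, (h1 g h.l2).2.2⟩, h.int⟩

theorem coer (h1 : St_B1) (h2 : St_B2) {z : ℝ} (hz : 0 < z) : ∃ C, ∀ g, K1 z g →
    A / 2 * ∫ r in Ioi (0 : ℝ), g r ^ 2 ≤ J z g + C := by
  have hA := A_pos
  have d0 : 0 < A / (2 * z) := by positivity
  refine ⟨z * (z / (4 * π) / (A / (2 * z))), fun g hg => ?_⟩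
  obtain ⟨b1, -, -, -, -, b2⟩ := h2 _ (cl h1 hg)
  have k1 := split hg.int b1 d0
  have k2 : ∫ r in Ioc (0 : ℝ) (A / (2 * z)), Y g r ^ 2 / r ≤
      A / (2 * z) * ∫ r in Ioi (0 : ℝ), g r ^ 2 := by
    refine (setIntegral_mono_on (b1.mono_set Ioc_subset_Ioi_self)
      (integrableOn_const (by simp)) measurableSet_Ioc fun r hr =>
        (div_le_iff₀ hr.1).2 ((h1 g hg.l2).2.2 r hr.1.le)).trans_eq ?_
    simp [d0.le]
  have k3 : mass (Y g) / (4 * π) / (A / (2 * z)) ≤ z / (4 * π) / (A / (2 * z)) := by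
    gcongr
    exact hg.le
  have k4 : 0 ≤ ∫ r in Ioi (0 : ℝ), |Y g r| ^ (10 / 3 : ℝ) * r ^ (-(4 / 3) : ℝ) :=
    setIntegral_nonneg measurableSet_Ioi fun r hr => by
      have : 0 < r := hr
      positivity
  have k5 : 0 ≤ 2 * π * ∫ r in Ioi (0 : ℝ), Y g r ^ 2 * Wp (Y g) r :=
    mul_nonneg (by positivity) (setIntegral_nonneg measurableSet_Ioi fun r hr =>
      mul_nonneg (sq_nonneg _) (b2 r hr).1)
  have k6 := mul_le_mul_of_nonneg_left (k1.trans (add_le_add k2 k3)) hz.le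
  have k7 : z * (A / (2 * z) * ∫ r in Ioi (0 : ℝ), g r ^ 2) =
      A / 2 * ∫ r in Ioi (0 : ℝ), g r ^ 2 := by field_simp
  rw [mul_add, k7] at k6
  rw [J]
  linarith

theorem Y_eq {g : ℝ → ℝ} {u : Lp ℝ 2 (volume.restrict (Ioi (0 : ℝ)))}
    (h : u =ᵐ[volume.restrict (Ioi 0)] g) {r : ℝ} (hr : 0 ≤ r) :
    Y g r = inner ℝ u (indicatorConstLp 2 (measurableSet_Ioc (a := 0) (b := r))
      ((Measure.restrict_apply_le _ _).trans_lt measure_Ioc_lt_top).ne (1 : ℝ)) := by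
  rw [real_inner_comm, L2.inner_indicatorConstLp_one, integral_congr_ae (ae_restrict_of_ae h),
    Measure.restrict_restrict measurableSet_Ioc, inter_eq_left.2 Ioc_subset_Ioi_self, Y,
    intervalIntegral.integral_of_le hr]

theorem sq_eq {g : ℝ → ℝ} {u : Lp ℝ 2 (volume.restrict (Ioi (0 : ℝ)))}
    (h : u =ᵐ[volume.restrict (Ioi 0)] g) : ∫ r in Ioi (0 : ℝ), g r ^ 2 = inner ℝ u u := by
  rw [L2.inner_def]
  refine integral_congr_ae (h.mono fun r hr => ?_)
  simp [hr]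

theorem dom {f : ℕ → ℝ → ℝ} {g : ℝ → ℝ} {T M : ℝ} (hf : ∀ n, IntegrableOn (f n) (Ioi 0))
    (hb : ∀ n r, r ∈ Ioc 0 T → |f n r| ≤ M)
    (h : ∀ r, 0 < r → Tendsto (fun n => f n r) atTop (𝓝 (g r))) :
    Tendsto (fun n => ∫ r in Ioc (0 : ℝ) T, f n r) atTop (𝓝 (∫ r in Ioc (0 : ℝ) T, g r)) := by
  have m := ae_restrict_mem (μ := volume) (measurableSet_Ioc (a := (0 : ℝ)) (b := T))
  exact tendsto_integral_of_dominated_convergence (fun _ => M)
    (fun n => ((hf n).mono_set Ioc_subset_Ioi_self).1) (integrableOn_const (by simp))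
    (fun n => m.mono fun r hr => hb n r hr) (m.mono fun r hr => h r hr.1)

end BEX

open BEX in
theorem st_EX (h1 : St_B1) (h2 : St_B2) : St_EX := by
  intro z hz
  have hA := A_pos
  obtain ⟨C, hC⟩ := coer h1 h2 hz
  have n0 : ∀ g : ℝ → ℝ, 0 ≤ ∫ r in Ioi (0 : ℝ), g r ^ 2 := fun g =>
    integral_nonneg fun r => sq_nonneg _
  have bd : BddBelow (J z '' {g | K1 z g}) := ⟨-C, by
    rintro _ ⟨g, hg, rfl⟩
    nlinarith [hC g hg, n0 g]⟩
  obtain ⟨e, e1, e2, e3⟩ := exists_seq_tendsto_sInf (S := J z '' {g | K1 z g})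
    ⟨_, 0, ⟨MemLp.zero, by simp [Y], by simp [Y, mass, hz.le]⟩, rfl⟩ bd
  choose G hG hJ using e3
  obtain ⟨M, hM⟩ : ∃ M, ∀ n, ∫ r in Ioi (0 : ℝ), G n r ^ 2 ≤ M := ⟨(e 0 + C) / (A / 2), fun n => by
    rw [le_div_iff₀' (half_pos hA)]
    linarith [hC _ (hG n), hJ n, e1 (Nat.zero_le n)]⟩
  have : Fact ((2 : ENNReal) ≠ ⊤) := ⟨by simp⟩
  obtain ⟨g, φ, p1, p2⟩ := weak_sub (fun n => (hG n).l2.toLp (G n)) √M fun n =>
    Real.le_sqrt_of_sq_le (by
      rw [← real_inner_self_eq_norm_sq, ← sq_eq (hG n).l2.coeFn_toLp]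
      exact hM n)
  have k := fun n => hG (φ n)
  have b := fun n => h2 _ (cl h1 (k n))
  have t : ∀ r, 0 < r → Tendsto (fun n => Y (G (φ n)) r) atTop (𝓝 (Y g r)) := fun r hr => by
    simp only [fun n => Y_eq (k n).l2.coeFn_toLp hr.le, Y_eq (u := g) EventuallyEq.rfl hr.le]
    exact p2 _
  have q : ∀ n r, 0 < r → Y (G (φ n)) r ^ 2 ≤ M * r := fun n r hr =>
    ((h1 _ (k n).l2).2.2 r hr.le).trans (mul_le_mul_of_nonneg_right (hM _) hr.le)
  obtain ⟨-, c1, c2⟩ := h1 g (Lp.memLp g)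
  have i1 : IntegrableOn (fun r => Y g r ^ 2) (Ioi 0) := by
    refine integrableOn_Ioi_of_intervalIntegral_norm_bounded (z / (4 * π)) 0 (b := fun T => T)
      (l := atTop) (fun T => (((c1.pow 2).mono Icc_subset_Ici_self).integrableOn_compact
        isCompact_Icc).mono_set Ioc_subset_Icc_self) tendsto_id ?_
    filter_upwards [eventually_gt_atTop 0] with T hT
    simp only [intervalIntegral.integral_of_le hT.le, Real.norm_of_nonneg (sq_nonneg _)]
    refine le_of_tendsto' (dom (M := M * T) (fun n => (k n).int) (fun n r hr => ?_)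
      fun r hr => (t r hr).pow 2) fun n => ?_
    · rw [abs_of_nonneg (sq_nonneg _)]
      exact (q n r hr.1).trans (mul_le_mul_of_nonneg_left hr.2 ((n0 _).trans (hM 0)))
    · refine (setIntegral_mono_set (k n).int (Eventually.of_forall fun r => sq_nonneg _)
        Ioc_subset_Ioi_self.eventuallyLE).trans ?_
      rw [le_div_iff₀' (by positivity)]
      exact (k n).le
  have kg : K1 z g := ⟨Lp.memLp g, i1, ((fatou (fun n => (k n).int) i1 (fun _ _ _ => sq_nonneg _)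
    (fun _ _ => sq_nonneg _) fun r hr => lo_lim ((t r hr).pow 2)).cmul (by positivity)).le
      tendsto_const_nhds fun n => (k n).le⟩
  obtain ⟨d1, d2, d3, -, d4, d5⟩ := h2 _ (cl h1 kg)
  have l1 : Lo (fun n => ∫ r in Ioi (0 : ℝ), G (φ n) r ^ 2) (∫ r in Ioi (0 : ℝ), g r ^ 2) := by
    refine ⟨fun n => 2 * inner ℝ ((k n).l2.toLp _) g - inner ℝ g g, fun n => ?_, ?_⟩
    · have := real_inner_self_nonneg (x := (k n).l2.toLp _ - g)
      rw [real_inner_sub_sub_self] at this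
      simp only [sq_eq (k n).l2.coeFn_toLp]
      linarith
    · rw [sq_eq (u := g) EventuallyEq.rfl]
      convert ((p2 g).const_mul 2).sub_const (inner ℝ g g) using 2
      ring
  have l2 := fatou (fun n => (b n).2.1) d2
    (fun _ r hr => by positivity) (fun r hr => by positivity) fun r hr =>
      lo_lim (((t r hr).abs.rpow_const (Or.inr (by norm_num))).mul_const _)
  have l3 : Lo (fun n => -∫ r in Ioi (0 : ℝ), Y (G (φ n)) r ^ 2 / r)
      (-∫ r in Ioi (0 : ℝ), Y g r ^ 2 / r) := lo_of fun c hc => by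
    obtain ⟨T, T0, T1⟩ := ((eventually_gt_atTop 0).and ((tendsto_const_nhds.div_atTop
      (tendsto_id (α := ℝ)) (a := z / (4 * π))).eventually (gt_mem_nhds (sub_pos.2 hc)))).exists
    have m := setIntegral_mono_set d1 ((ae_restrict_mem measurableSet_Ioi).mono fun r hr =>
      div_nonneg (sq_nonneg _) (le_of_lt hr)) (Ioc_subset_Ioi_self (a := T)).eventuallyLE
    filter_upwards [(dom (M := M) (T := T) (fun n => (b n).1) (fun n r hr => by
      rw [abs_of_nonneg (div_nonneg (sq_nonneg _) hr.1.le), div_le_iff₀ hr.1]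
      exact q n r hr.1) fun r hr => ((t r hr).pow 2).div_const r).eventually
        (gt_mem_nhds (show _ < -c - z / (4 * π) / T by
          simp only [id] at T1
          linarith))] with n hn
    have s1 := split (k n).int (b n).1 T0
    have s2 : mass (Y (G (φ n))) / (4 * π) / T ≤ z / (4 * π) / T := by
      gcongr
      exact (k n).le
    linarith
  have l4 := fatou (fun n => (b n).2.2.2.2.1) d4
    (fun n r hr => mul_nonneg (sq_nonneg _) ((b n).2.2.2.2.2 r hr).1)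
    (fun r hr => mul_nonneg (sq_nonneg _) (d5 r hr).1) fun r hr =>
      (fatou (fun n => (b n).2.2.1 r) (d3 r) (fun _ s hs => by positivity)
        (fun s hs => by positivity) fun s hs => lo_lim (((t s hs).pow 2).div_const _)).mul
          (fun _ => sq_nonneg _) ((t r hr).pow 2)
  refine ⟨g, kg, fun h hh => le_trans ?_ (csInf_le bd ⟨h, hh, rfl⟩)⟩
  have l := ((((l1.cmul hA.le).add (l2.cmul (c := 3 / 5) (by norm_num))).add (l3.cmul hz.le)).add
    (l4.cmul (c := 2 * π) (by positivity))).le (e2.comp p1.tendsto_atTop) fun n => by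
      rw [Function.comp, ← hJ, J]
      linarith
  rw [J]
  linarith

end Pool.Agent.Lib.TFW
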