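import Pool.Agent.Lib.TFW.Basic

open MeasureTheory Filter Topology Set Real

namespace Pool.Agent.Lib.TFW

open Pool.Agent.Lib.MP_689e73_mp (psi DD LL HI e0 good_rep ae_ne)
open Pool.Agent.Lib.MP_6c3a95_mp (WD bv Test)

namespace T48

lemma sq_ae {lam : ℝ} {ρ : E3 → ℝ} {g : Fin 3 → E3 → ℝ} (h : Adm lam ρ g) :
    (fun x => √(ρ x) ^ 2) =ᵐ[volume] ρ :=
  h.nonneg.mono fun _ hx => Real.sq_sqrt hx

lemma sqrt_l2 {lam : ℝ} {ρ : E3 → ℝ} {g : Fin 3 → E3 → ℝ} (h : Adm lam ρ g) :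
    MemLp (fun x => √(ρ x)) 2 := by
  have hm : AEStronglyMeasurable (fun x => √(ρ x)) volume :=
    Real.continuous_sqrt.comp_aestronglyMeasurable h.int.aestronglyMeasurable
  exact (memLp_two_iff_integrable_sq hm).2 (h.int.congr (sq_ae h).symm)

lemma wt_one {lam : ℝ} {ρ : E3 → ℝ} {g : Fin 3 → E3 → ℝ} (h : Adm lam ρ g) (b : E3) :
    Integrable fun x => ρ x * ‖x - b‖⁻¹ := by
  obtain ⟨σ, hσ, he⟩ := good_rep ⟨h.nonneg, h.lp, h.int, h.mass⟩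
  refine (hσ.ll.psi_int b).congr ?_
  filter_upwards [he] with x hx
  rw [hx, norm_sub_rev, mul_comm]

lemma wt {lam : ℝ} {ρ : E3 → ℝ} {g : Fin 3 → E3 → ℝ} (h : Adm lam ρ g) (b₁ b₂ : E3) :
    Integrable fun x => √(ρ x) ^ 2 * (1 + ‖x - b₁‖⁻¹ + ‖x - b₂‖⁻¹) := by
  refine ((h.int.add (wt_one h b₁)).add (wt_one h b₂)).congr ?_
  filter_upwards [sq_ae h] with x hx
  simp only [Pi.add_apply]
  rw [hx]; ring

lemma pic (hP : St_PIC) {P Q : At} {K α β : ℝ} (b₁ b₂ : E3) (h1 : P.Ok K) (h2 : Q.Ok K)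
    (hα : 0 < α) (hβ : 0 ≤ β) {lam : ℝ} {ρ : E3 → ℝ} {g : Fin 3 → E3 → ℝ} (h : Adm lam ρ g) :
    Integrable (fun x => ρ x * (La P Q α β b₁ b₂ x / Ps P Q α β b₁ b₂ x)) ∧
      A * (∑ i, ∫ x, g i x ^ 2) + ∫ x, ρ x * (La P Q α β b₁ b₂ x / Ps P Q α β b₁ b₂ x) =
        A * ∑ i, ∫ x, (g i x - √(ρ x) * (Gr P Q α β b₁ b₂ i x / Ps P Q α β b₁ b₂ x)) ^ 2 := by
  obtain ⟨ha, hb⟩ := hP P Q K α β b₁ b₂ (fun x => √(ρ x)) g h1 h2 hα hβ (sqrt_l2 h) h.l2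
    (fun i φ hφ => h.weak i φ hφ.smooth hφ.cpt) (wt h b₁ b₂)
  have he : (fun x => √(ρ x) ^ 2 * (La P Q α β b₁ b₂ x / Ps P Q α β b₁ b₂ x)) =ᵐ[volume]
      fun x => ρ x * (La P Q α β b₁ b₂ x / Ps P Q α β b₁ b₂ x) := by
    filter_upwards [sq_ae h] with x hx
    rw [hx]
  exact ⟨ha.congr he, by rw [← integral_congr_ae he]; exact hb⟩

lemma wd_lin {u v g k : E3 → ℝ} {w : E3} (hu : MemLp u 2) (hv : MemLp v 2) (hg : MemLp g 2)
    (hk : MemLp k 2) (h1 : WD volume u g w) (h2 : WD volume v k w) (a b : ℝ) :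
    WD volume (fun x => a * u x + b * v x) (fun x => a * g x + b * k x) w := by
  intro φ hφ
  have hd : MemLp (fun x => fderiv ℝ φ x w) 2 := (hφ.dd w).memLp
  have h0 : MemLp φ 2 := hφ.memLp
  have i1 : Integrable fun x => u x * fderiv ℝ φ x w := hu.integrable_mul hd
  have i2 : Integrable fun x => v x * fderiv ℝ φ x w := hv.integrable_mul hd
  have i3 : Integrable fun x => g x * φ x := hg.integrable_mul h0
  have i4 : Integrable fun x => k x * φ x := hk.integrable_mul h0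
  simp only [add_mul, mul_assoc]
  rw [integral_add (i1.const_mul a) (i2.const_mul b), integral_add (i3.const_mul a) (i4.const_mul b),
    integral_const_mul, integral_const_mul, integral_const_mul, integral_const_mul, h1 φ hφ, h2 φ hφ]
  ring

lemma adm (hT : St_TRI) {P Q : At} {K α β : ℝ} (b₁ b₂ : E3) (h1 : P.Ok K) (h2 : Q.Ok K)
    (hα : 0 < α) (hβ : 0 ≤ β) {t : ℝ} (ht : 0 < t) :
    Adm (t * ∫ x, Ps P Q α β b₁ b₂ x ^ 2) (fun x => t * Ps P Q α β b₁ b₂ x ^ 2)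
      fun i x => √t * Gr P Q α β b₁ b₂ i x := by
  have hn : ∀ x, 0 ≤ Ps P Q α β b₁ b₂ x := fun x =>
    add_nonneg (mul_nonneg hα.le (h1.nn _)) (mul_nonneg hβ (h2.nn _))
  have hm : Measurable (Ps P Q α β b₁ b₂) :=
    ((h1.mux b₁).const_mul α).add ((h2.mux b₂).const_mul β)
  have hl : MemLp (Ps P Q α β b₁ b₂) 2 :=
    ((hT P K b₁ 0 h1).1.const_mul α).add ((hT Q K b₂ 0 h2).1.const_mul β)
  have hi : Integrable fun x => t * Ps P Q α β b₁ b₂ x ^ 2 := hl.integrable_sq.const_mul t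
  have hL : LL fun x => t * Ps P Q α β b₁ b₂ x ^ 2 := by
    refine LL_of_bdd (M := t * (α * K + β * K) ^ 2) ((hm.pow_const 2).const_mul t) hi ?_
    filter_upwards [ae_ne b₁, ae_ne b₂] with x hx hx'
    rw [abs_of_nonneg (by positivity)]
    refine mul_le_mul_of_nonneg_left (pow_le_pow_left₀ (hn x) ?_ 2) ht.le
    exact add_le_add (mul_le_mul_of_nonneg_left (h1.le_K (h1.ptx hx).r0) hα.le)
      (mul_le_mul_of_nonneg_left (h2.le_K (h2.ptx hx').r0) hβ)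
  refine ⟨Eventually.of_forall fun x => by positivity, hi, hL.lp, fun i => ?_, fun i φ hs hc => ?_,
    integral_const_mul _ _⟩
  · exact (((hT P K b₁ i h1).2.1.const_mul α).add ((hT Q K b₂ i h2).2.1.const_mul β)).const_mul √t
  · have hw := wd_lin (hT P K b₁ i h1).1 (hT Q K b₂ i h2).1 (hT P K b₁ i h1).2.1
      (hT Q K b₂ i h2).2.1 (hT P K b₁ i h1).2.2 (hT Q K b₂ i h2).2.2 α β φ ⟨hs, hc⟩
    simp only [Real.sqrt_mul ht.le, Real.sqrt_sq (hn _), mul_assoc]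
    rw [integral_const_mul, integral_const_mul, ← mul_neg]
    exact congrArg (fun s => √t * s) hw

end T48

theorem st_KIN (hP : St_PIC) (hT : St_TRI) : St_KIN := by
  intro P Q K α β b₁ b₂ h1 h2 hα hβ
  refine ⟨fun lam ρ g h => ?_, fun t ht => ⟨_, T48.adm hT b₁ b₂ h1 h2 hα hβ ht, ?_⟩⟩
  · obtain ⟨ha, hb⟩ := T48.pic hP b₁ b₂ h1 h2 hα hβ h
    refine ⟨ha, ?_⟩
    have h0 : 0 ≤ A * ∑ i, ∫ x,
        (g i x - √(ρ x) * (Gr P Q α β b₁ b₂ i x / Ps P Q α β b₁ b₂ x)) ^ 2 :=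
      mul_nonneg A_pos.le (Finset.sum_nonneg fun i _ => integral_nonneg fun x => sq_nonneg _)
    linarith
  · obtain ⟨-, hb⟩ := T48.pic hP b₁ b₂ h1 h2 hα hβ (T48.adm hT b₁ b₂ h1 h2 hα hβ ht)
    have h0 : ∀ i, ∫ x, (√t * Gr P Q α β b₁ b₂ i x - √(t * Ps P Q α β b₁ b₂ x ^ 2) *
        (Gr P Q α β b₁ b₂ i x / Ps P Q α β b₁ b₂ x)) ^ 2 = 0 := by
      intro i
      refine integral_eq_zero_of_ae ?_
      filter_upwards [ae_ne b₁] with x hx
      have hp : 0 < Ps P Q α β b₁ b₂ x :=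
        add_pos_of_pos_of_nonneg (mul_pos hα (h1.pos (h1.ptx hx).r0)) (mul_nonneg hβ (h2.nn _))
      rw [Real.sqrt_mul ht.le, Real.sqrt_sq hp.le, mul_assoc, mul_div_cancel₀ _ hp.ne', sub_self]
      simp
    simp only [h0, Finset.sum_const_zero, mul_zero] at hb
    linarith

end Pool.Agent.Lib.TFW
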