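import Pool.Agent.Lib.TFW.Blue

open MeasureTheory Filter Topology Set Real

namespace Pool.Agent.Lib.TFW

open Pool.Agent.Lib.MP_689e73_mp (e0 norm_e0)

namespace T67

lemma int_rad {s b : ℝ} (hs : -3 < s) (hb : 0 < b) :
    Integrable fun x : E3 => ‖x‖ ^ s * exp (-b * ‖x‖) := by
  refine (integrable_fun_norm_addHaar (volume : Measure E3)
    (f := fun r => r ^ s * exp (-b * r))).mpr ?_
  have h := integrableOn_rpow_mul_exp_neg_mul_rpow (s := s + 2) (p := 1) (by linarith) one_pos hb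
  refine h.congr_fun (fun r hr => ?_) measurableSet_Ioi
  have hr' : (0 : ℝ) < r := hr
  simp only [rpow_one, finrank_euclideanSpace, Fintype.card_fin, smul_eq_mul]
  rw [rpow_add hr', rpow_two]
  ring

lemma norm_Re0 {R : ℝ} (hR : 0 ≤ R) : ‖R • e0‖ = R := by
  rw [norm_smul, norm_e0, mul_one, Real.norm_of_nonneg hR]

lemma lim_d (x : E3) : Tendsto (fun R : ℝ => ‖x - R • e0‖ - R) atTop (𝓝 (-x 0)) := by
  have h0 : Tendsto (fun R : ℝ => -x 0 + ‖x‖ ^ 2 / 2 * R⁻¹) atTop (𝓝 (-x 0)) := by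
    simpa using (tendsto_inv_atTop_zero.const_mul (‖x‖ ^ 2 / 2)).const_add (-x 0)
  have key : ∀ R : ℝ, 0 < R → 2 * R * (‖x - R • e0‖ - R + x 0) =
      ‖x‖ ^ 2 - (‖x - R • e0‖ - R) ^ 2 ∧ (‖x - R • e0‖ - R) ^ 2 ≤ ‖x‖ ^ 2 := by
    intro R hR
    have h1 : ‖x - R • e0‖ ^ 2 = ‖x‖ ^ 2 - 2 * (R * x 0) + R ^ 2 := by
      rw [@norm_sub_sq_real, norm_Re0 hR.le, real_inner_smul_right]
      simp [e0, EuclideanSpace.inner_single_right]
    refine ⟨by linear_combination h1, ?_⟩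
    have h2 := abs_norm_sub_norm_le (R • e0 - x) (R • e0)
    rw [norm_Re0 hR.le, norm_sub_rev, sub_sub_cancel_left, norm_neg] at h2
    exact sq_le_sq' (abs_le.mp h2).1 (abs_le.mp h2).2
  refine tendsto_of_tendsto_of_tendsto_of_le_of_le' tendsto_const_nhds h0 ?_ ?_
  · filter_upwards [eventually_gt_atTop 0] with R hR
    obtain ⟨h1, h2⟩ := key R hR
    have : 0 ≤ ‖x - R • e0‖ - R + x 0 :=
      (mul_nonneg_iff_of_pos_left (by positivity : 0 < 2 * R)).mp (by linarith)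
    linarith
  · filter_upwards [eventually_gt_atTop 0] with R hR
    obtain ⟨h1, -⟩ := key R hR
    have : ‖x - R • e0‖ - R + x 0 ≤ ‖x‖ ^ 2 / (2 * R) := by
      rw [le_div_iff₀ (by positivity)]
      nlinarith [sq_nonneg (‖x - R • e0‖ - R)]
    have e : ‖x‖ ^ 2 / (2 * R) = ‖x‖ ^ 2 / 2 * R⁻¹ := by field_simp
    linarith

lemma lim_pt {Q : At} {K : ℝ} (hQ : Q.Ok K) (x : E3) :
    Tendsto (fun R : ℝ => R * exp (Q.κ * R) * Q.u ‖x - R • e0‖) atTop
      (𝓝 (Q.c * exp (Q.κ * x 0))) := by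
  have h1 := lim_d x
  have h2 : Tendsto (fun R : ℝ => ‖x - R • e0‖) atTop atTop := by
    simpa using h1.add_atTop tendsto_id
  have h3 := hQ.lim.comp h2
  have h4 := (h1.mul h2.inv_tendsto_atTop).const_sub 1
  have h5 := (continuous_exp.tendsto _).comp (h1.const_mul (-Q.κ))
  have h6 := (h3.mul h5).mul h4
  simp only [mul_zero, sub_zero, mul_one, neg_mul_neg] at h6
  refine h6.congr' ?_
  filter_upwards [h2.eventually_gt_atTop 0] with R hR
  simp only [Function.comp, Pi.inv_apply]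
  have e : exp (Q.κ * R) = exp (Q.κ * ‖x - R • e0‖) * exp (-Q.κ * (‖x - R • e0‖ - R)) := by
    rw [← exp_add]
    congr 1
    ring
  rw [e]
  field_simp
  ring

/-- the source term of an atom -/
noncomputable def src (P : At) (x : E3) : ℝ := P.u ‖x‖ * (P.φ ‖x‖ - P.u ‖x‖ ^ (4 / 3 : ℝ))

lemma bound {P Q : At} {K : ℝ} (hP : P.Ok K) (hQ : Q.Ok K) (hκ : P.κ = Q.κ) {R : ℝ} (hR : 0 ≤ R)
    {x : E3} (hx : x ≠ 0) (hx' : x ≠ R • e0) :
    ‖R * exp (P.κ * R) * Q.u ‖x - R • e0‖ * src P x‖ ≤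
      K * K * (K * (‖x‖ ^ (-1 : ℝ) * exp (-(2 * P.κ) * ‖x‖)) +
        K ^ (4 / 3 : ℝ) * (‖x‖ ^ (0 : ℝ) * exp (-(4 / 3 * P.κ) * ‖x‖))) := by
  have hr : 0 < ‖x‖ := norm_pos_iff.mpr hx
  have hρ : 0 < ‖x - R • e0‖ := norm_pos_iff.mpr (sub_ne_zero.mpr hx')
  have htri : R ≤ ‖x - R • e0‖ + ‖x‖ := by
    have := norm_sub_le x (x - R • e0)
    rw [sub_sub_cancel, norm_Re0 hR] at this
    linarith
  unfold src
  generalize ‖x - R • e0‖ = ρ at hρ htri ⊢
  generalize ‖x‖ = r at hr htri ⊢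
  have hK : 0 < K := zero_lt_one.trans_le hP.hK
  have hk := hP.hκ
  have p := hP.pt r hr
  have q := (hQ.pt ρ hρ).up
  rw [← hκ] at q
  have hu := hP.nn r
  have h1 : R * exp (P.κ * R) * Q.u ρ ≤ K * ((1 + r) * exp (P.κ * r)) := by
    have a1 : R ≤ (1 + ρ) * (1 + r) := by nlinarith [mul_pos hρ hr]
    have a2 : exp (P.κ * R) ≤ exp (P.κ * ρ) * exp (P.κ * r) := by
      rw [← exp_add, ← mul_add]
      exact exp_le_exp.mpr (mul_le_mul_of_nonneg_left htri hk.le)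
    calc _ ≤ (1 + ρ) * (1 + r) * (exp (P.κ * ρ) * exp (P.κ * r)) *
          (K * exp (-(P.κ * ρ)) / (1 + ρ)) :=
          mul_le_mul (mul_le_mul a1 a2 (exp_pos _).le (by positivity)) q (hQ.nn ρ) (by positivity)
      _ = _ := by
          rw [exp_neg]
          field_simp
  have h2 : P.u r ^ (4 / 3 : ℝ) ≤ K ^ (4 / 3 : ℝ) * (r ^ (0 : ℝ) * exp (-(4 / 3 * P.κ) * r)) := by
    have a1 : P.u r ≤ K * exp (-(P.κ * r)) :=
      p.up.trans (div_le_self (by positivity) (by linarith))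
    refine (rpow_le_rpow hu a1 (by norm_num)).trans (le_of_eq ?_)
    rw [mul_rpow hK.le (exp_pos _).le, rpow_zero, one_mul, ← exp_mul]
    congr 2
    ring
  have h3 : P.φ r ≤ K * (r ^ (-1 : ℝ) * exp (-(2 * P.κ) * r)) := by
    refine p.p1.trans (le_of_eq ?_)
    rw [rpow_neg_one, ← exp_nat_mul, show ((2 : ℕ) : ℝ) * -(P.κ * r) = -(2 * P.κ) * r by
      push_cast; ring]
    ring
  have h4 : |P.φ r - P.u r ^ (4 / 3 : ℝ)| ≤ K * (r ^ (-1 : ℝ) * exp (-(2 * P.κ) * r)) +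
      K ^ (4 / 3 : ℝ) * (r ^ (0 : ℝ) * exp (-(4 / 3 * P.κ) * r)) := by
    have a1 := p.p0
    have a2 := rpow_nonneg hu (4 / 3 : ℝ)
    rw [abs_le]
    constructor <;> linarith
  have h5 : R * exp (P.κ * R) * Q.u ρ * P.u r ≤ K * K := by
    refine (mul_le_mul h1 p.up hu (by positivity)).trans (le_of_eq ?_)
    rw [exp_neg]
    field_simp
  have h6 : 0 ≤ R * exp (P.κ * R) * Q.u ρ * P.u r :=
    mul_nonneg (mul_nonneg (by positivity) (hQ.nn ρ)) hu
  rw [← mul_assoc, Real.norm_eq_abs, abs_mul, abs_of_nonneg h6]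
  exact mul_le_mul h5 h4 (abs_nonneg _) (by positivity)

lemma half (hS : St_SPH) {P Q : At} {K : ℝ} (hP : P.Ok K) (hQ : Q.Ok K) (hκ : P.κ = Q.κ) :
    (∀ R : ℝ, 0 ≤ R →
      Integrable fun x : E3 => R * exp (P.κ * R) * Q.u ‖x - R • e0‖ * src P x) ∧
    Tendsto (fun R : ℝ => ∫ x : E3, R * exp (P.κ * R) * Q.u ‖x - R • e0‖ * src P x) atTop
      (𝓝 (Q.c * (4 * π * A * P.c))) := by
  have hk := hP.hκ
  have hm : ∀ R : ℝ, AEStronglyMeasurable
      (fun x : E3 => R * exp (P.κ * R) * Q.u ‖x - R • e0‖ * src P x) volume := by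
    intro R
    have m1 := hP.mu.comp (measurable_norm (α := E3))
    have m2 := hP.mφ.comp (measurable_norm (α := E3))
    have m3 := hQ.mu.comp ((measurable_id.sub_const (R • e0 : E3)).norm)
    exact ((m3.const_mul _).mul (m1.mul (m2.sub (m1.pow_const _)))).aestronglyMeasurable
  have hi := (((int_rad (s := -1) (b := 2 * P.κ) (by norm_num) (by positivity)).const_mul K).add
    ((int_rad (s := 0) (b := 4 / 3 * P.κ) (by norm_num) (by positivity)).const_mul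
      (K ^ (4 / 3 : ℝ)))).const_mul (K * K)
  have hb : ∀ R : ℝ, 0 ≤ R → ∀ᵐ x : E3, ‖R * exp (P.κ * R) * Q.u ‖x - R • e0‖ * src P x‖ ≤
      K * K * (K * (‖x‖ ^ (-1 : ℝ) * exp (-(2 * P.κ) * ‖x‖)) +
        K ^ (4 / 3 : ℝ) * (‖x‖ ^ (0 : ℝ) * exp (-(4 / 3 * P.κ) * ‖x‖))) := by
    intro R hR
    filter_upwards [Measure.ae_ne volume (0 : E3), Measure.ae_ne volume (R • e0 : E3)]
      with x h1 h2 using bound hP hQ hκ hR h1 h2
  refine ⟨fun R hR => hi.mono' (hm R) (hb R hR), ?_⟩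
  have h := tendsto_integral_filter_of_dominated_convergence _ (Eventually.of_forall hm)
    ((eventually_ge_atTop 0).mono hb) hi (Eventually.of_forall fun x => by
      rw [hκ]
      exact (lim_pt hQ x).mul_const (src P x))
  rw [← hS P K hP, ← integral_const_mul]
  have e : (fun x : E3 => Q.c * (P.u ‖x‖ * (P.φ ‖x‖ - P.u ‖x‖ ^ (4 / 3 : ℝ)) * exp (P.κ * x 0))) =
      fun x : E3 => Q.c * exp (Q.κ * x 0) * src P x := by
    funext x
    rw [hκ, src]
    ring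
  rwa [e]

end T67

open T67 in
theorem st_LIM (hS : St_SPH) : St_LIM := by
  intro P Q K hP hQ hκ
  obtain ⟨i1, t1⟩ := half hS hP hQ hκ
  obtain ⟨i2, t2⟩ := half hS hQ hP hκ.symm
  have t := t1.add t2
  rw [show Q.c * (4 * π * A * P.c) + P.c * (4 * π * A * Q.c) = 8 * π * A * P.c * Q.c by ring] at t
  refine t.congr' ?_
  filter_upwards [eventually_ge_atTop 0] with R hR
  rw [← integral_sub_left_eq_self
    (fun x : E3 => R * exp (Q.κ * R) * P.u ‖x - R • e0‖ * src Q x) volume (R • e0),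
    ← integral_add (i1 R hR) ((i2 R hR).comp_sub_left (R • e0)), IT, ← integral_const_mul]
  refine integral_congr_ae (Eventually.of_forall fun x => ?_)
  simp only [src, TT, sub_zero, sub_sub_cancel_left, norm_neg, norm_sub_rev (R • e0 : E3) x, hκ]
  ring

end Pool.Agent.Lib.TFW
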