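import Pool.Agent.Lib.TFW.Blue

open Real

namespace Pool.Agent.Lib.TFW

namespace T66

/-- second order remainder of the power `5 / 2`, in terms of square roots -/
theorem tay {σ t : ℝ} (hσ : 0 ≤ σ) (ht : 0 ≤ t) :
    2 / 5 * (σ ^ 5 - t ^ 5) ≤ t ^ 3 * (σ ^ 2 - t ^ 2) + (σ ^ 2 - t ^ 2) ^ 2 * (σ + t) := by
  have h : t ^ 3 * (σ ^ 2 - t ^ 2) + (σ ^ 2 - t ^ 2) ^ 2 * (σ + t) - 2 / 5 * (σ ^ 5 - t ^ 5) =
      (σ - t) ^ 2 * (3 / 5 * σ ^ 3 + 11 / 5 * (σ ^ 2 * t) + 9 / 5 * (σ * t ^ 2) + 2 / 5 * t ^ 3) := by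
    ring
  have h2 : 0 ≤ (σ - t) ^ 2 *
      (3 / 5 * σ ^ 3 + 11 / 5 * (σ ^ 2 * t) + 9 / 5 * (σ * t ^ 2) + 2 / 5 * t ^ 3) := by positivity
  linarith

theorem core {K e f w x y p q σ l : ℝ} (hK : 1 ≤ K) (hf : 0 < f) (hfe : f ≤ e) (he : e ≤ 1)
    (hw : 1 ≤ w) (hx : 0 < x) (hy : 0 < y) (xe : x ≤ K * e) (yf : y ≤ K * f) (p0 : 0 ≤ p)
    (p1 : p ≤ K * e ^ 6 * w ^ 2) (q0 : 0 ≤ q) (q1 : q ≤ K * f ^ 6 * w ^ 2) (hσ : 0 ≤ σ)
    (l0 : 0 ≤ l) (hl : l * (x ^ 3 + y ^ 3) = y ^ 3) (le : l * e ^ 3 ≤ K ^ 2 * f ^ 3)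
    (hs : σ ^ 2 = (x ^ 4 + q) * (1 - l) + (y ^ 4 + p) * l) :
    2 / 5 * (σ ^ 5 - x ^ 10 - y ^ 10) ≤
      x ^ 3 * y ^ 3 * (p + q - x ^ 4 - y ^ 4) + 68 * K ^ 15 * (e ^ 6 * f ^ 4 * w ^ 5) := by
  have e0 : 0 < e := hf.trans_le hfe
  have K0 : 0 < K := one_pos.trans_le hK
  have w0 : 0 < w := one_pos.trans_le hw
  have f1 : f ≤ 1 := hfe.trans he
  have x3 : 0 < x ^ 3 := by positivity
  have y3 : 0 < y ^ 3 := by positivity
  have lx : l * x ^ 3 ≤ y ^ 3 := by nlinarith [mul_nonneg l0 y3.le]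
  have l1 : l ≤ 1 := by
    by_contra! h
    nlinarith
  have Kp : ∀ m n : ℕ, m ≤ n → K ^ m ≤ K ^ n := fun m n h => pow_le_pow_right₀ hK h
  have wp : ∀ m n : ℕ, m ≤ n → w ^ m ≤ w ^ n := fun m n h => pow_le_pow_right₀ hw h
  have ep : ∀ m n : ℕ, m ≤ n → e ^ n ≤ e ^ m := fun m n h => pow_le_pow_of_le_one e0.le he h
  have fp : ∀ m n : ℕ, m ≤ n → f ^ n ≤ f ^ m := fun m n h => pow_le_pow_of_le_one hf.le f1 h
  have fe : ∀ n : ℕ, f ^ n ≤ e ^ n := fun n => pow_le_pow_left₀ hf.le hfe n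
  have x4 : x ^ 4 ≤ K ^ 4 * e ^ 4 * w ^ 2 := by
    calc x ^ 4 ≤ (K * e) ^ 4 * w ^ 0 := by rw [pow_zero, mul_one]; gcongr
      _ ≤ (K * e) ^ 4 * w ^ 2 := by gcongr ?_ * ?_; exact wp _ _ (by norm_num)
      _ = _ := by ring
  have y4 : y ^ 4 ≤ K ^ 4 * e ^ 4 * w ^ 2 := by
    calc y ^ 4 ≤ (K * e) ^ 4 * w ^ 0 := by
          rw [pow_zero, mul_one]; gcongr; exact yf.trans (by gcongr)
      _ ≤ (K * e) ^ 4 * w ^ 2 := by gcongr ?_ * ?_; exact wp _ _ (by norm_num)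
      _ = _ := by ring
  have p4 : p ≤ K ^ 4 * e ^ 4 * w ^ 2 := by
    refine p1.trans ?_
    gcongr ?_ * ?_ * _
    · simpa using Kp 1 4 (by norm_num)
    · exact ep _ _ (by norm_num)
  obtain ⟨D, hD⟩ : ∃ D, D = K ^ 6 * (e * f ^ 3) * w ^ 2 := ⟨_, rfl⟩
  have D0 : 0 ≤ D := by rw [hD]; positivity
  have qD : q ≤ D := by
    rw [hD]
    refine q1.trans ?_
    gcongr ?_ * ?_ * _
    · simpa using Kp 1 6 (by norm_num)
    · calc f ^ 6 = f ^ 3 * f ^ 3 := by ring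
        _ ≤ e * f ^ 3 := by
          gcongr
          exact (fe 3).trans (by simpa using ep 1 3 (by norm_num))
  have lD : K ^ 4 * e ^ 4 * w ^ 2 * l ≤ D := by
    calc K ^ 4 * e ^ 4 * w ^ 2 * l = K ^ 4 * e * w ^ 2 * (l * e ^ 3) := by ring
      _ ≤ K ^ 4 * e * w ^ 2 * (K ^ 2 * f ^ 3) := by gcongr
      _ = D := by rw [hD]; ring
  have xl : x ^ 4 * l ≤ D := le_trans (by gcongr) lD
  have yl : y ^ 4 * l ≤ D := le_trans (by gcongr) lD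
  have pl : p * l ≤ D := le_trans (by gcongr) lD
  have n1 : 0 ≤ x ^ 4 * l := by positivity
  have n2 : 0 ≤ y ^ 4 * l := by positivity
  have n3 : 0 ≤ p * l := by positivity
  have n4 : 0 ≤ q * l := by positivity
  have n5 : q * l ≤ q := by nlinarith
  have hd : σ ^ 2 - (x ^ 2) ^ 2 = q - q * l + y ^ 4 * l + p * l - x ^ 4 * l := by rw [hs]; ring
  have d2 : (σ ^ 2 - (x ^ 2) ^ 2) ^ 2 ≤ (3 * D) ^ 2 :=
    sq_le_sq' (by rw [hd]; linarith) (by rw [hd]; linarith)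
  have De : D ≤ K ^ 6 * e ^ 4 * w ^ 2 := by
    rw [hD]
    gcongr
    calc e * f ^ 3 ≤ e * e ^ 3 := by gcongr
      _ = _ := by ring
  have x6 : K ^ 4 * e ^ 4 * w ^ 2 ≤ K ^ 6 * e ^ 4 * w ^ 2 := by
    gcongr ?_ * _ * _
    exact Kp _ _ (by norm_num)
  have σ1 : σ ≤ 2 * (K ^ 3 * e ^ 2 * w) := by
    refine le_of_pow_le_pow_left₀ two_ne_zero (by positivity) ?_
    have : (2 * (K ^ 3 * e ^ 2 * w)) ^ 2 = 4 * (K ^ 6 * e ^ 4 * w ^ 2) := by ring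
    have h4 : (x ^ 2) ^ 2 = x ^ 4 := by ring
    linarith
  have t1 : x ^ 2 ≤ K ^ 3 * e ^ 2 * w := by
    refine le_of_pow_le_pow_left₀ two_ne_zero (by positivity) ?_
    have : (K ^ 3 * e ^ 2 * w) ^ 2 = K ^ 6 * e ^ 4 * w ^ 2 := by ring
    have h4 : (x ^ 2) ^ 2 = x ^ 4 := by ring
    linarith
  obtain ⟨B, hB⟩ : ∃ B, B = K ^ 15 * (e ^ 6 * f ^ 4 * w ^ 5) := ⟨_, rfl⟩
  have B0 : 0 ≤ B := by rw [hB]; positivity
  have r1 : (σ ^ 2 - (x ^ 2) ^ 2) ^ 2 * (σ + x ^ 2) ≤ 27 * B := by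
    calc _ ≤ (3 * D) ^ 2 * (3 * (K ^ 3 * e ^ 2 * w)) :=
          mul_le_mul d2 (by linarith) (by positivity) (by positivity)
      _ = 27 * (K ^ 15 * (e ^ 4 * f ^ 4 * w ^ 5) * f ^ 2) := by rw [hD]; ring
      _ ≤ 27 * (K ^ 15 * (e ^ 4 * f ^ 4 * w ^ 5) * e ^ 2) := by gcongr
      _ = _ := by rw [hB]; ring
  have r2 : x ^ 6 * q ≤ B := by
    calc x ^ 6 * q ≤ (K * e) ^ 6 * (K * f ^ 6 * w ^ 2) := by gcongr
      _ = K ^ 7 * (e ^ 6 * f ^ 6 * w ^ 2) := by ring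
      _ ≤ B := by
        rw [hB]
        gcongr ?_ * (_ * ?_ * ?_)
        · exact Kp _ _ (by norm_num)
        · exact fp _ _ (by norm_num)
        · exact wp _ _ (by norm_num)
  have r3 : x ^ 3 * y ^ 7 ≤ B := by
    calc x ^ 3 * y ^ 7 ≤ (K * e) ^ 3 * (K * f) ^ 7 := by gcongr
      _ = K ^ 10 * (e ^ 3 * f ^ 3 * f ^ 4 * w ^ 0) := by ring
      _ ≤ K ^ 15 * (e ^ 3 * e ^ 3 * f ^ 4 * w ^ 5) := by
        gcongr ?_ * (_ * ?_ * _ * ?_)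
        · exact Kp _ _ (by norm_num)
        · exact fe 3
        · exact wp _ _ (by norm_num)
      _ = B := by rw [hB]; ring
  have r4 : x ^ 4 * y ^ 6 ≤ B := by
    calc x ^ 4 * y ^ 6 ≤ (K * e) ^ 4 * (K * f) ^ 6 := by gcongr
      _ = K ^ 10 * (e ^ 4 * f ^ 2 * f ^ 4 * w ^ 0) := by ring
      _ ≤ K ^ 15 * (e ^ 4 * e ^ 2 * f ^ 4 * w ^ 5) := by
        gcongr ?_ * (_ * ?_ * _ * ?_)
        · exact Kp _ _ (by norm_num)
        · exact fe 2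
        · exact wp _ _ (by norm_num)
      _ = B := by rw [hB]; ring
  have id1 : (x ^ 2) ^ 3 * (σ ^ 2 - (x ^ 2) ^ 2) = x ^ 3 * y ^ 3 * (p + q - x ^ 4 - y ^ 4)
      + x ^ 6 * q - x ^ 6 * (q * l) + 2 * (x ^ 3 * y ^ 7) - x ^ 3 * y ^ 3 * q
      - x ^ 3 * y ^ 3 * (y ^ 4 * l) - x ^ 3 * y ^ 3 * (p * l) + x ^ 4 * y ^ 3 * (l * x ^ 3) := by
    rw [hd]
    linear_combination (x ^ 3 * (y ^ 4 + p - x ^ 4)) * hl
  have m1 : 0 ≤ x ^ 6 * (q * l) := by positivity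
  have m2 : 0 ≤ x ^ 3 * y ^ 3 * q := by positivity
  have m3 : 0 ≤ x ^ 3 * y ^ 3 * (y ^ 4 * l) := by positivity
  have m4 : 0 ≤ x ^ 3 * y ^ 3 * (p * l) := by positivity
  have m5 : x ^ 4 * y ^ 3 * (l * x ^ 3) ≤ x ^ 4 * y ^ 6 := by
    calc _ ≤ x ^ 4 * y ^ 3 * y ^ 3 := by gcongr
      _ = _ := by ring
  have m6 : 0 ≤ y ^ 10 := by positivity
  have ty := tay hσ (sq_nonneg x)
  have h10 : (x ^ 2) ^ 5 = x ^ 10 := by ring
  have hB' : 68 * K ^ 15 * (e ^ 6 * f ^ 4 * w ^ 5) = 68 * B := by rw [hB]; ring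
  rw [hB']
  linarith

theorem third (a : ℝ) (ha : 0 < a) : ∃ x, 0 < x ∧ a = x ^ 3 ∧ a ^ (4 / 3 : ℝ) = x ^ 4 ∧
    a ^ (10 / 3 : ℝ) = x ^ 10 := by
  refine ⟨a ^ (1 / 3 : ℝ), rpow_pos_of_pos ha _, ?_, ?_, ?_⟩ <;>
    rw [← rpow_natCast, ← rpow_mul ha.le] <;> norm_num

theorem half (s : ℝ) (hs : 0 ≤ s) : ∃ σ, 0 ≤ σ ∧ σ ^ 2 = s ∧ s ^ (5 / 2 : ℝ) = σ ^ 5 := by
  refine ⟨s ^ (1 / 2 : ℝ), rpow_nonneg hs _, ?_, ?_⟩ <;>
    rw [← rpow_natCast, ← rpow_mul hs] <;> norm_num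

theorem ex3 (κ r c : ℝ) (n : ℕ) (h : c = n / 3) : exp (-(c * κ * r)) = exp (-(κ * r / 3)) ^ n := by
  rw [← exp_nat_mul, h]
  congr 1
  ring

theorem ordered {κ K r₁ r₂ a b p q : ℝ} (hκ : 0 < κ) (hK : 1 ≤ K) (P : Pt κ K r₁ a p)
    (Q : Pt κ K r₂ b q) (h : r₁ ≤ r₂) :
    2 / 5 * (ss a b p q ^ (5 / 2 : ℝ) - a ^ (10 / 3 : ℝ) - b ^ (10 / 3 : ℝ)) ≤
      TT a b p q + 68 * K ^ 15 * exp (-(4 / 3 * κ * (r₁ + r₂))) * hw κ r₁ := by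
  obtain ⟨r1, au, al, p0, p1⟩ := P
  obtain ⟨r2, bu, bl, q0, q1⟩ := Q
  have K0 : 0 < K := one_pos.trans_le hK
  have E : ∀ r, exp (-(κ * r)) = exp (-(κ * r / 3)) ^ 3 := fun r => by
    simpa using ex3 κ r 1 3 (by norm_num)
  have E4 : exp (-(4 / 3 * κ * (r₁ + r₂))) = exp (-(κ * r₁ / 3)) ^ 4 * exp (-(κ * r₂ / 3)) ^ 4 := by
    rw [← ex3 κ r₁ (4 / 3) 4 (by norm_num), ← ex3 κ r₂ (4 / 3) 4 (by norm_num), ← exp_add]
    congr 1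
    ring
  have E2 := ex3 κ r₁ (2 / 3) 2 (by norm_num)
  have hfe : exp (-(κ * r₂ / 3)) ≤ exp (-(κ * r₁ / 3)) := exp_le_exp.2 (by nlinarith)
  have he : exp (-(κ * r₁ / 3)) ≤ 1 := exp_le_one_iff.2 (by nlinarith)
  have hf : 0 < exp (-(κ * r₂ / 3)) := exp_pos _
  rw [E] at au al p1 bu bl q1
  unfold hw
  rw [E4, E2]
  generalize exp (-(κ * r₁ / 3)) = e at *
  generalize exp (-(κ * r₂ / 3)) = f at *
  have e0 : 0 < e := hf.trans_le hfe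
  have a0 : 0 < a := (mul_pos_iff_of_pos_left K0).1 (lt_of_lt_of_le (by positivity) al)
  have b0 : 0 < b := (mul_pos_iff_of_pos_left K0).1 (lt_of_lt_of_le (by positivity) bl)
  obtain ⟨w, w0, w2, w5⟩ := half (1 + r₁⁻¹) (by positivity)
  have i1 : 0 < r₁⁻¹ := by positivity
  have w1 : 1 ≤ w := by
    by_contra! hh
    nlinarith
  have s0 : 0 ≤ ss a b p q := by unfold ss; positivity
  obtain ⟨σ, σ0, σ2, σ5⟩ := half _ s0
  obtain ⟨x, x0, x3, x4, x10⟩ := third a a0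
  obtain ⟨y, y0, y3, y4, y10⟩ := third b b0
  have K3 : K ≤ K ^ 3 := by simpa using pow_le_pow_right₀ hK (show 1 ≤ 3 by norm_num)
  have cu : ∀ {c z g r : ℝ}, 0 < r → 0 < g → c = z ^ 3 → c ≤ K * g ^ 3 / (1 + r) → z ≤ K * g := by
    intro c z g r hr hg h3 hc
    refine le_of_pow_le_pow_left₀ three_ne_zero (by positivity) ?_
    calc z ^ 3 = c := h3.symm
      _ ≤ K * g ^ 3 := hc.trans (div_le_self (by positivity) (by linarith))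
      _ ≤ K ^ 3 * g ^ 3 := by gcongr
      _ = _ := by ring
  have ab : 0 < a + b := by positivity
  have key := core (l := b / (a + b)) hK hf hfe he w1 x0 y0 (cu r1 e0 x3 au) (cu r2 hf y3 bu) p0
    (p1.trans (by
      rw [div_eq_mul_inv, ← pow_mul, w2]
      gcongr
      linarith)) q0
    (q1.trans (by
      rw [div_eq_mul_inv, ← pow_mul, w2]
      gcongr
      exact (inv_anti₀ r1 h).trans (by linarith))) σ0 (by positivity)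
    (by rw [← x3, ← y3]; field_simp)
    (by
      rw [div_le_iff₀ (by positivity)] at al
      rw [le_div_iff₀ (by positivity)] at bu
      rw [div_mul_eq_mul_div, div_le_iff₀ ab]
      calc b * e ^ 3 ≤ b * (K * a * (1 + r₂)) := by
            gcongr
            exact al.trans (by gcongr)
        _ = K * a * (b * (1 + r₂)) := by ring
        _ ≤ K * (a + b) * (K * f ^ 3) := by gcongr; linarith
        _ = _ := by ring)
    (by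
      rw [σ2, ss, x4, y4]
      field_simp
      ring)
  rw [σ5, x10, y10, w5, TT, x4, y4]
  rw [← x3, ← y3] at key
  linarith

end T66

theorem st_LOWP : St_LOWP := by
  intro κ K hκ hK
  have K0 : 0 < K := one_pos.trans_le hK
  refine ⟨68 * K ^ 15, by positivity, fun r₁ r₂ a b p q P Q => ?_⟩
  have h0 : ∀ r, 0 < r → 0 ≤ 68 * K ^ 15 * exp (-(4 / 3 * κ * (r₁ + r₂))) * hw κ r := by
    intro r hr
    unfold hw
    positivity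
  rw [mul_add]
  rcases le_total r₁ r₂ with h | h
  · linarith [T66.ordered hκ hK P Q h, h0 r₂ Q.r0]
  · have k := T66.ordered hκ hK Q P h
    have e1 : ss b a q p = ss a b p q := by unfold ss; ring
    have e2 : TT b a q p = TT a b p q := by unfold TT; ring
    rw [e1, e2, add_comm r₂ r₁] at k
    linarith [h0 r₁ P.r0]

end Pool.Agent.Lib.TFW
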