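import Pool.Agent.Lib.TFW.Blue

open MeasureTheory Filter Topology Set Real

namespace Pool.Agent.Lib.TFW

namespace T42

theorem mono_of {f f' : ℝ → ℝ} {p q : ℝ} (h : ∀ r ∈ Icc p q, HasDerivAt f (f' r) r)
    (h0 : ∀ r ∈ Icc p q, 0 ≤ f' r) : MonotoneOn f (Icc p q) :=
  monotoneOn_of_deriv_nonneg (convex_Icc p q)
    (fun r hr => (h r hr).continuousAt.continuousWithinAt)
    (fun r hr => (h r (interior_subset hr)).differentiableAt.differentiableWithinAt)
    (fun r hr => by rw [(h r (interior_subset hr)).deriv]; exact h0 r (interior_subset hr))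

end T42

theorem st_MP : St_MP := by
  intro a w w' w'' h1 h2 ha hc hs r1 hr1
  by_contra hpos
  push Not at hpos
  obtain ⟨δ, hδ, hδ1⟩ : ∃ δ, 0 < δ ∧ δ * (r1 - a) < w r1 := by
    refine ⟨w r1 / (r1 - a + 1), div_pos hpos (by linarith), ?_⟩
    rw [div_mul_eq_mul_div, div_lt_iff₀ (by linarith)]
    nlinarith
  obtain ⟨R, hR1, hR2, hR3⟩ : ∃ R, w R ≤ δ / 2 * R ∧ r1 ≤ R ∧ 2 * a ≤ R :=
    ((hs (δ / 2) (by positivity)).and ((eventually_ge_atTop r1).and
      (eventually_ge_atTop (2 * a)))).exists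
  let v : ℝ → ℝ := fun r => w r - δ * (r - a)
  have hv : ∀ r, a ≤ r → HasDerivAt v (w' r - δ) r := fun r hr => by
    simpa using (h1 r hr).fun_sub (((hasDerivAt_id r).sub_const a).const_mul δ)
  have hvc : ContinuousOn v (Icc a R) := fun r hr => (hv r hr.1).continuousAt.continuousWithinAt
  obtain ⟨m, hm, hmax⟩ := isCompact_Icc.exists_isMaxOn ⟨r1, hr1, hR2⟩ hvc
  have hS : IsCompact (Icc a R ∩ v ⁻¹' {v m}) :=
    isCompact_Icc.of_isClosed_subset
      (hvc.preimage_isClosed_of_isClosed isClosed_Icc isClosed_singleton) inter_subset_left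
  obtain ⟨s, ⟨hs1, hs2⟩, hs3⟩ := hS.exists_isGreatest ⟨m, hm, rfl⟩
  have hs2' : v s = v m := hs2
  have hvp : 0 < v s := by
    have : v r1 ≤ v m := hmax ⟨hr1, hR2⟩
    have h3 : 0 < v r1 := sub_pos.2 hδ1
    linarith
  have hsa : a < s := lt_of_le_of_ne hs1.1 fun h => by
    rw [← h] at hvp
    simp only [v, sub_self, mul_zero, sub_zero] at hvp
    linarith
  have hsR : s < R := lt_of_le_of_ne hs1.2 fun h => by
    rw [h] at hvp
    simp only [v] at hvp
    nlinarith
  have hd : w' s - δ = 0 := by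
    refine IsLocalMax.hasDerivAt_eq_zero ?_ (hv s hsa.le)
    refine Filter.mem_of_superset (Icc_mem_nhds hsa hsR) fun x hx => ?_
    have : v x ≤ v m := hmax hx
    change v x ≤ v s
    linarith
  have hws : 0 < w s := by
    have : 0 < δ * (s - a) := mul_pos hδ (sub_pos.2 hsa)
    simp only [v] at hvp
    linarith
  obtain ⟨t, ht1, ht2⟩ := mem_nhdsGE_iff_exists_Icc_subset.1 (mem_nhdsWithin_of_mem_nhds
    (t := Ici s) (Filter.inter_mem ((h1 s hsa.le).continuousAt.eventually (lt_mem_nhds hws))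
      (Iio_mem_nhds hsR)))
  have k1 := T42.mono_of (p := s) (q := t) (fun r hr => h2 r (hsa.le.trans hr.1))
    (fun r hr => hc r (hsa.le.trans hr.1) (ht2 hr).1)
  have k2 := T42.mono_of (p := s) (q := t) (fun r hr => hv r (hsa.le.trans hr.1))
    (fun r hr => by
      have := k1 (left_mem_Icc.2 ht1.le) hr hr.1
      linarith)
  have k3 := k2 (left_mem_Icc.2 ht1.le) (right_mem_Icc.2 ht1.le) ht1.le
  have k4 : t ∈ Icc a R := ⟨hsa.le.trans ht1.le, le_of_lt (ht2 (right_mem_Icc.2 ht1.le)).2⟩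
  have k5 : v t ≤ v m := hmax k4
  exact absurd (hs3 ⟨k4, show v t = v m by linarith⟩) (not_le.2 ht1)

end Pool.Agent.Lib.TFW
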