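import Pool.Agent.Lib.TFW.Blue

open MeasureTheory Filter Topology Set Real

namespace Pool.Agent.Lib.TFW

namespace T7

lemma ph_nonneg (h2 : St_B2) {z μ : ℝ} {y y' : ℝ → ℝ} (h : Rad0 z μ y y') {r : ℝ} (hr : 0 < r) :
    0 ≤ ph z y r := by
  have h1 := ((h2 y h.cl).2.2.2.2.2 r hr).2.2.1
  have h3 : mass y / r ≤ z / r := div_le_div_of_nonneg_right h.le hr.le
  unfold ph
  linarith

lemma cmp_pow {c r : ℝ} (hc : 0 ≤ c) (hr : 0 < r) :
    (c * r ^ (-(1 / 2) : ℝ) / r) ^ (4 / 3 : ℝ) * (c * r ^ (-(1 / 2) : ℝ)) =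
      c ^ (4 / 3 : ℝ) * (c * r ^ (-(5 / 2) : ℝ)) := by
  have h1 : c * r ^ (-(1 / 2) : ℝ) / r = c * r ^ (-(3 / 2) : ℝ) := by
    rw [mul_div_assoc, ← Real.rpow_sub_one hr.ne']
    norm_num
  have h2 : r ^ (-(5 / 2) : ℝ) = (r ^ (-(3 / 2) : ℝ)) ^ (4 / 3 : ℝ) * r ^ (-(1 / 2) : ℝ) := by
    rw [← Real.rpow_mul hr.le, ← Real.rpow_add hr]
    norm_num
  rw [h1, Real.mul_rpow hc (Real.rpow_nonneg hr.le _), h2]
  ring

lemma lower_of_nonpos (h2 : St_B2) (hM : St_MP) {z μ : ℝ} {y y' : ℝ → ℝ} (h : Rad0 z μ y y')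
    (hμ : μ ≤ 0) : ∃ c, 0 < c ∧ ∀ r, 1 ≤ r → c * r ^ (-(1 / 2) : ℝ) ≤ y r := by
  have hA := A_pos
  have hy1 := h.pos 1 one_pos
  obtain ⟨c, hc0, hc1, hcA, hcy⟩ : ∃ c : ℝ, 0 < c ∧ c ≤ 1 ∧ c ≤ 3 / 4 * A ∧ c ≤ y 1 :=
    ⟨min 1 (min (3 / 4 * A) (y 1)), by positivity, min_le_left _ _,
      (min_le_right _ _).trans (min_le_left _ _), (min_le_right _ _).trans (min_le_right _ _)⟩
  have hc43 : c ^ (4 / 3 : ℝ) ≤ 3 / 4 * A := by
    refine le_trans ?_ hcA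
    conv_rhs => rw [← Real.rpow_one c]
    exact Real.rpow_le_rpow_of_exponent_ge hc0 hc1 (by norm_num)
  refine ⟨c, hc0, fun r hr => ?_⟩
  have key := hM 1 (fun r => c * r ^ (-(1 / 2) : ℝ) - y r)
    (fun r => c * (-(1 / 2) * r ^ (-(3 / 2) : ℝ)) - y' r)
    (fun r => c * (-(1 / 2) * (-(3 / 2) * r ^ (-(5 / 2) : ℝ))) - qq z μ y r * y r / A)
    ?_ ?_ ?_ ?_ ?_ r hr
  · linarith
  · intro s hs
    have hs0 : 0 < s := by linarith
    have h1 := Real.hasDerivAt_rpow_const (x := s) (p := -(1 / 2)) (Or.inl hs0.ne')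
    rw [show (-(1 / 2) - 1 : ℝ) = -(3 / 2) by norm_num] at h1
    exact (h1.const_mul c).sub (h.d1 s hs0)
  · intro s hs
    have hs0 : 0 < s := by linarith
    have h1 := Real.hasDerivAt_rpow_const (x := s) (p := -(3 / 2)) (Or.inl hs0.ne')
    rw [show (-(3 / 2) - 1 : ℝ) = -(5 / 2) by norm_num] at h1
    exact ((h1.const_mul (-(1 / 2))).const_mul c).sub (h.d2 s hs0)
  · simp only [Real.one_rpow]
    linarith
  · intro s hs hw
    have hs0 : 0 < s := by linarith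
    have hy := h.pos s hs0
    have hlt : y s ≤ c * s ^ (-(1 / 2) : ℝ) := by linarith
    have hq : qq z μ y s ≤ (c * s ^ (-(1 / 2) : ℝ) / s) ^ (4 / 3 : ℝ) := by
      have h3 : (|y s| / s) ^ (4 / 3 : ℝ) ≤ (c * s ^ (-(1 / 2) : ℝ) / s) ^ (4 / 3 : ℝ) := by
        rw [abs_of_pos hy]
        exact Real.rpow_le_rpow (by positivity) (div_le_div_of_nonneg_right hlt hs0.le)
          (by norm_num)
      have h4 := ph_nonneg h2 h hs0
      unfold qq
      linarith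
    have h5 : qq z μ y s * y s ≤ 3 / 4 * A * (c * s ^ (-(5 / 2) : ℝ)) := by
      calc qq z μ y s * y s
          ≤ (c * s ^ (-(1 / 2) : ℝ) / s) ^ (4 / 3 : ℝ) * y s :=
            mul_le_mul_of_nonneg_right hq hy.le
        _ ≤ (c * s ^ (-(1 / 2) : ℝ) / s) ^ (4 / 3 : ℝ) * (c * s ^ (-(1 / 2) : ℝ)) :=
            mul_le_mul_of_nonneg_left hlt (by positivity)
        _ = c ^ (4 / 3 : ℝ) * (c * s ^ (-(5 / 2) : ℝ)) := cmp_pow hc0.le hs0
        _ ≤ _ := mul_le_mul_of_nonneg_right hc43 (by positivity)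
    have h6 : qq z μ y s * y s / A ≤ 3 / 4 * (c * s ^ (-(5 / 2) : ℝ)) := by
      rw [div_le_iff₀ hA]
      linarith
    linarith
  · intro ε hε
    filter_upwards [eventually_ge_atTop (1 : ℝ), eventually_ge_atTop (c / ε)] with s hs hs'
    have hs0 : 0 < s := by linarith
    have h1 : s ^ (-(1 / 2) : ℝ) ≤ 1 := Real.rpow_le_one_of_one_le_of_nonpos hs (by norm_num)
    have h3 : c ≤ ε * s := by rwa [div_le_iff₀' hε] at hs'
    have h4 := h.pos s hs0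
    nlinarith

end T7

theorem st_MU (h2 : St_B2) (hM : St_MP) : St_MU := by
  intro z μ y y' _ h
  have hμ : 0 < μ := by
    by_contra hn
    obtain ⟨c, hc, hl⟩ := T7.lower_of_nonpos h2 hM h (not_lt.1 hn)
    have hi : IntegrableOn (fun r => y r ^ 2) (Ioi 1) :=
      h.cl.int.mono_set (Ioi_subset_Ioi zero_le_one)
    refine not_integrableOn_Ioi_inv (a := 1) ?_
    refine Integrable.mono' (hi.const_mul (c ^ 2)⁻¹) measurable_inv.aestronglyMeasurable ?_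
    filter_upwards [ae_restrict_mem measurableSet_Ioi] with r hr
    have hr1 : (1 : ℝ) < r := hr
    have hr0 : 0 < r := by linarith
    have h1 : (c * r ^ (-(1 / 2) : ℝ)) ^ 2 ≤ y r ^ 2 :=
      pow_le_pow_left₀ (by positivity) (hl r hr1.le) 2
    have h3 : (r ^ (-(1 / 2) : ℝ)) ^ 2 = r⁻¹ := by
      rw [← Real.rpow_natCast, ← Real.rpow_mul hr0.le, ← Real.rpow_neg_one]
      norm_num
    rw [mul_pow, h3] at h1
    rw [Real.norm_of_nonneg (inv_nonneg.2 hr0.le), ← div_eq_inv_mul, le_div_iff₀ (by positivity)]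
    linarith
  refine ⟨hμ, le_antisymm h.le (not_lt.1 fun hlt => hμ.ne' (h.compl hlt))⟩

end Pool.Agent.Lib.TFW
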