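import Pool.Agent.Lib.TFW.Blue

/-! Block NEG: the one-dimensional atomic functional takes a negative value. -/

open MeasureTheory Filter Topology Set Real

namespace Pool.Agent.Lib.TFW

namespace T82

lemma poly_exp {c : ℝ} (hc : 0 < c) (α β γ : ℝ) {f : ℝ → ℝ}
    (hf : ∀ r, 0 < r → f r = (c * (α + β * r + γ * r ^ 2) - β - 2 * γ * r) * exp (-(c * r)))
    (h0 : ∀ r, 0 < r → 0 ≤ f r) : IntegrableOn f (Ioi 0) ∧ ∫ r in Ioi (0 : ℝ), f r = α := by
  have hd : ∀ r : ℝ, HasDerivAt (fun r => -((α + β * r + γ * r ^ 2) * exp (-(c * r))))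
      ((c * (α + β * r + γ * r ^ 2) - β - 2 * γ * r) * exp (-(c * r))) r := fun r => by
    have h1 : HasDerivAt (fun r : ℝ => α + β * r + γ * r ^ 2) (β + γ * (2 * r)) r := by
      exact ((((hasDerivAt_id r).const_mul β).const_add α).add
        ((hasDerivAt_pow 2 r).const_mul γ)).congr_deriv (by norm_num)
    have h2 : HasDerivAt (fun r : ℝ => exp (-(c * r))) (exp (-(c * r)) * -c) r := by
      simpa using ((hasDerivAt_id r).const_mul c).neg.exp
    exact (h1.mul h2).neg.congr_deriv (by ring)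
  have ht : ∀ n : ℕ, Tendsto (fun r : ℝ => r ^ n * exp (-(c * r))) atTop (𝓝 0) := fun n => by
    have := tendsto_rpow_mul_exp_neg_mul_atTop_nhds_zero n c hc
    simpa [neg_mul] using this
  have hl : Tendsto (fun r => -((α + β * r + γ * r ^ 2) * exp (-(c * r)))) atTop (𝓝 0) := by
    have := ((((ht 0).const_mul α).add ((ht 1).const_mul β)).add ((ht 2).const_mul γ)).neg
    simp only [mul_zero, add_zero, neg_zero] at this
    exact this.congr fun r => by ring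
  have hp : ∀ r ∈ Ioi (0 : ℝ),
      0 ≤ (c * (α + β * r + γ * r ^ 2) - β - 2 * γ * r) * exp (-(c * r)) := fun r hr =>
    hf r hr ▸ h0 r hr
  refine ⟨(integrableOn_Ioi_deriv_of_nonneg' (fun r _ => hd r) hp hl).congr_fun
    (fun r hr => (hf r hr).symm) measurableSet_Ioi, ?_⟩
  rw [setIntegral_congr_fun measurableSet_Ioi fun r hr => hf r hr,
    integral_Ioi_of_hasDerivAt_of_nonneg' (fun r _ => hd r) hp hl]
  simp

lemma Y_smul (ε : ℝ) (g : ℝ → ℝ) (r : ℝ) : Y (fun s => ε * g s) r = ε * Y g r :=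
  intervalIntegral.integral_const_mul _ _

lemma J_smul (z : ℝ) {ε : ℝ} (hε : 0 < ε) (g : ℝ → ℝ) :
    J z (fun s => ε * g s) = ε ^ 2 * (A * (∫ r in Ioi (0 : ℝ), g r ^ 2)
      - z * (∫ r in Ioi (0 : ℝ), Y g r ^ 2 / r)
      + ε ^ (4 / 3 : ℝ) * (3 / 5 * ∫ r in Ioi (0 : ℝ), |Y g r| ^ (10 / 3 : ℝ) * r ^ (-(4 / 3) : ℝ))
      + ε ^ 2 * (2 * π * ∫ r in Ioi (0 : ℝ), Y g r ^ 2 * Wp (Y g) r)) := by
  have hW : ∀ r, Wp (Y fun s => ε * g s) r = ε ^ 2 * Wp (Y g) r := fun r => by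
    simp only [Wp, Y_smul, mul_pow, mul_div_assoc, integral_const_mul]
  have he : ε ^ (10 / 3 : ℝ) = ε ^ 2 * ε ^ (4 / 3 : ℝ) := by
    rw [← rpow_natCast, ← rpow_add hε]; norm_num
  have h2 : ∀ r, |ε * Y g r| ^ (10 / 3 : ℝ) * r ^ (-(4 / 3) : ℝ) =
      ε ^ 2 * ε ^ (4 / 3 : ℝ) * (|Y g r| ^ (10 / 3 : ℝ) * r ^ (-(4 / 3) : ℝ)) := fun r => by
    rw [abs_mul, abs_of_pos hε, mul_rpow hε.le (abs_nonneg _), he, mul_assoc]
  have h4 : ∀ r, (ε * Y g r) ^ 2 * (ε ^ 2 * Wp (Y g) r) =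
      ε ^ 2 * ε ^ 2 * (Y g r ^ 2 * Wp (Y g) r) := fun r => by ring
  have h3 : ∀ r, (ε * Y g r) ^ 2 / r = ε ^ 2 * (Y g r ^ 2 / r) := fun r => by ring
  simp only [J, hW, Y_smul, h2, h3, h4, integral_const_mul]
  simp only [mul_pow, integral_const_mul]
  ring

end T82

theorem st_NEG (_h1 : St_B1) (_h2 : St_B2) : St_NEG := by
  intro z hz
  have hA := A_pos
  obtain ⟨a, ha, haz⟩ : ∃ a : ℝ, 0 < a ∧ z = 2 * A * a :=
    ⟨z / (2 * A), by positivity, by field_simp⟩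
  let g : ℝ → ℝ := fun r => (1 - a * r) * exp (-(a * r))
  have hg : Continuous g := by fun_prop
  have hY : ∀ r, Y g r = r * exp (-(a * r)) := fun r => by
    have hd : ∀ s : ℝ, HasDerivAt (fun s => s * exp (-(a * s))) (g s) s := fun s => by
      have h2 : HasDerivAt (fun r : ℝ => exp (-(a * r))) (exp (-(a * s)) * -a) s := by
        simpa using ((hasDerivAt_id s).const_mul a).neg.exp
      exact ((hasDerivAt_id s).mul h2).congr_deriv (by simp only [g, id]; ring)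
    rw [Y, intervalIntegral.integral_eq_sub_of_hasDerivAt (fun s _ => hd s)
      (hg.intervalIntegrable _ _)]
    simp
  have he : ∀ r, exp (-(a * r)) ^ 2 = exp (-(2 * a * r)) := fun r => by
    rw [← exp_nat_mul]; congr 1; push_cast; ring
  have hc : 0 < 2 * a := by positivity
  obtain ⟨i1, q1⟩ := T82.poly_exp hc (1 / (4 * a)) (-(1 / 2)) (a / 2) (f := fun r => g r ^ 2)
    (fun r _ => by simp only [g, mul_pow, he]; congr 1; field_simp; ring) fun r _ => sq_nonneg _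
  obtain ⟨-, q3⟩ := T82.poly_exp hc (1 / (4 * a ^ 2)) (1 / (2 * a)) 0
    (f := fun r => Y g r ^ 2 / r)
    (fun r hr => by simp only [hY, mul_pow, he]; field_simp; ring)
    fun r hr => div_nonneg (sq_nonneg _) hr.le
  obtain ⟨i2, -⟩ := T82.poly_exp hc (1 / (4 * a ^ 3)) (1 / (2 * a ^ 2)) (1 / (2 * a))
    (f := fun r => Y g r ^ 2)
    (fun r _ => by simp only [hY, mul_pow, he]; congr 1; field_simp; ring) fun r _ => sq_nonneg _
  have hneg : A * (∫ r in Ioi (0 : ℝ), g r ^ 2) - z * (∫ r in Ioi (0 : ℝ), Y g r ^ 2 / r) < 0 := by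
    rw [q1, q3, haz]
    have : A * (1 / (4 * a)) - 2 * A * a * (1 / (4 * a ^ 2)) = -(A / (4 * a)) := by
      field_simp; ring
    rw [this, neg_lt_zero]; positivity
  have t1 : Tendsto (fun ε : ℝ => ε ^ (4 / 3 : ℝ)) (𝓝 0) (𝓝 0) := by
    have := (continuous_rpow_const (q := 4 / 3) (by norm_num)).tendsto 0
    rwa [zero_rpow (by norm_num)] at this
  have t2 : Tendsto (fun ε : ℝ => ε ^ 2) (𝓝 0) (𝓝 0) := by
    simpa using (continuous_pow 2).tendsto (0 : ℝ)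
  have t3 := ((t1.mul_const
    (3 / 5 * ∫ r in Ioi (0 : ℝ), |Y g r| ^ (10 / 3 : ℝ) * r ^ (-(4 / 3) : ℝ))).const_add
    (A * (∫ r in Ioi (0 : ℝ), g r ^ 2) - z * (∫ r in Ioi (0 : ℝ), Y g r ^ 2 / r))).add
    (t2.mul_const (2 * π * ∫ r in Ioi (0 : ℝ), Y g r ^ 2 * Wp (Y g) r))
  have t4 := t2.mul_const (mass (Y g))
  simp only [zero_mul, add_zero] at t3 t4
  obtain ⟨ε, ⟨e1, e2⟩, hε⟩ := ((((t3.eventually_lt_const hneg).and
    (t4.eventually_lt_const hz)).filter_mono (nhdsWithin_le_nhds (s := Ioi 0))).and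
    self_mem_nhdsWithin).exists
  refine ⟨fun s => ε * g s, ⟨?_, ?_, ?_⟩, ?_⟩
  · exact ((memLp_two_iff_integrable_sq hg.aestronglyMeasurable).2 i1).const_mul ε
  · simp only [T82.Y_smul, mul_pow]
    exact i2.const_mul _
  · refine le_of_eq_of_le ?_ e2.le
    simp only [mass, T82.Y_smul, mul_pow, integral_const_mul]
    ring
  · rw [T82.J_smul z hε]
    exact mul_neg_of_pos_of_neg (pow_pos hε 2) e1

end Pool.Agent.Lib.TFW
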