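import Pool.Agent.Lib.TFW.Blue

/-! Row PIC: the Picone identity for the two-centre comparison function. -/

open MeasureTheory Filter Topology Set Real

namespace Pool.Agent.Lib.TFW

open Pool.Agent.Lib.MP_6c3a95_mp (WD bv LD Good Tri sL eta)
open Pool.Agent.Lib.MP_6c3a95_mp

noncomputable section

namespace T28

/-- regularised gradient component -/
def gF (P : At) (s t : ℝ) : ℝ := P.v s * (t / s)

/-- regularised second derivative -/
def hF (P : At) (s t : ℝ) : ℝ :=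
  (P.FL s / A - 2 * P.v s / s) * (t / s) * (t / s) + P.v s * (1 / s - t / s * (t / s) / s)

/-- the constant in the bound for `hF` -/
def cst (κ K : ℝ) : ℝ := (K ^ (4 / 3 : ℝ) + K + A * κ ^ 2) / A + 3 * K

variable {P Q : At} {K : ℝ}

lemma u_pos (h : P.Ok K) {s : ℝ} (hs : 0 < s) : 0 < P.u s := by
  have h1 := (h.pt s hs).lo
  have h2 : 0 < exp (-(P.κ * s)) / (1 + s) := by positivity
  have h3 := h.hK
  by_contra hn
  nlinarith [not_lt.1 hn]

lemma exp_le (h : P.Ok K) {s : ℝ} (hs : 0 < s) : exp (-(P.κ * s)) ≤ 1 :=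
  exp_le_one_iff.2 (by have := h.hκ; nlinarith)

lemma u_le (h : P.Ok K) {s : ℝ} (hs : 0 < s) : P.u s ≤ K := by
  refine (h.pt s hs).up.trans ?_
  have := exp_le h hs
  have := h.hK
  rw [div_le_iff₀ (by positivity)]
  nlinarith

lemma phi_le (h : P.Ok K) {s : ℝ} (hs : 0 < s) : P.φ s ≤ K / s := by
  refine (h.pt s hs).p1.trans ?_
  have h1 := exp_le h hs
  have := h.hK
  have h2 : exp (-(P.κ * s)) ^ 2 ≤ 1 := pow_le_one₀ (exp_pos _).le h1
  gcongr
  nlinarith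

lemma ratio {s t : ℝ} (hs : 0 < s) (ht : |t| ≤ s) : |t / s| ≤ 1 := by
  rw [abs_div, abs_of_pos hs, div_le_one hs]; exact ht

lemma gF_le (h : P.Ok K) {s t : ℝ} (hs : 0 < s) (ht : |t| ≤ s) : |gF P s t| ≤ K * P.u s := by
  rw [gF, abs_mul]
  exact (mul_le_of_le_one_right (abs_nonneg _) (ratio hs ht)).trans (h.dv s hs)

lemma cst_pos (h : P.Ok K) : 0 ≤ cst P.κ K := by
  have := h.hK; have := A_pos; unfold cst; positivity

lemma FL_le (h : P.Ok K) {s : ℝ} (hs : 0 < s) :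
    |P.FL s| ≤ (K ^ (4 / 3 : ℝ) + K + A * P.κ ^ 2) * (1 + s⁻¹) * P.u s := by
  have h0 := h.nn s
  have hK := h.hK
  have hA := A_pos
  have h1 : P.u s ^ (4 / 3 : ℝ) ≤ K ^ (4 / 3 : ℝ) := rpow_le_rpow h0 (u_le h hs) (by norm_num)
  have h2 : 0 ≤ P.u s ^ (4 / 3 : ℝ) := by positivity
  have h3 := phi_le h hs
  have h4 := (h.pt s hs).p0
  have h5 : 0 ≤ A * P.κ ^ 2 := by positivity
  have h6 : 0 < s⁻¹ := inv_pos.2 hs
  rw [div_eq_mul_inv] at h3
  rw [At.FL, abs_mul, abs_of_nonneg h0]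
  refine mul_le_mul_of_nonneg_right (abs_le.2 ⟨?_, ?_⟩) h0 <;>
    nlinarith [mul_nonneg (h2.trans h1) h6.le, mul_nonneg h5 h6.le]

lemma hF_le (h : P.Ok K) {s t : ℝ} (hs : 0 < s) (ht : |t| ≤ s) :
    |hF P s t| ≤ cst P.κ K * (1 + s⁻¹) * P.u s := by
  have hA := A_pos
  have hr := ratio hs ht
  have h0 := h.nn s
  have hK := h.hK
  have h6 : 0 < s⁻¹ := inv_pos.2 hs
  have hv := h.dv s hs
  have hq : t / s * (t / s) ≤ 1 := by nlinarith [abs_le.1 hr]
  have hq0 : 0 ≤ t / s * (t / s) := mul_self_nonneg _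
  have e : hF P s t = P.FL s / A * (t / s * (t / s)) + P.v s * s⁻¹ * (1 - 3 * (t / s * (t / s))) := by
    unfold hF; ring
  have h1 : |P.FL s / A * (t / s * (t / s))| ≤
      (K ^ (4 / 3 : ℝ) + K + A * P.κ ^ 2) / A * (1 + s⁻¹) * P.u s := by
    rw [abs_mul, abs_of_nonneg hq0, abs_div, abs_of_pos hA]
    refine (mul_le_of_le_one_right (by positivity) hq).trans ?_
    refine (div_le_div_of_nonneg_right (FL_le h hs) hA.le).trans (le_of_eq (by ring))
  have h2 : |P.v s * s⁻¹ * (1 - 3 * (t / s * (t / s)))| ≤ 3 * K * (1 + s⁻¹) * P.u s := by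
    rw [abs_mul, abs_mul, abs_of_pos h6]
    have h3 : |1 - 3 * (t / s * (t / s))| ≤ 3 := abs_le.2 ⟨by linarith, by linarith⟩
    calc _ ≤ K * P.u s * s⁻¹ * 3 := by gcongr
      _ ≤ _ := by nlinarith [mul_nonneg (zero_le_one.trans hK) h0]
  rw [e, cst]
  refine (abs_add_le _ _).trans (le_trans (add_le_add h1 h2) (le_of_eq (by ring)))

lemma m_gF (h : P.Ok K) {s t : E3 → ℝ} (hs : Measurable s) (ht : Measurable t) :
    Measurable fun x => gF P (s x) (t x) := (h.mv.comp hs).mul (ht.div hs)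

lemma m_hF (h : P.Ok K) {s t : E3 → ℝ} (hs : Measurable s) (ht : Measurable t) :
    Measurable fun x => hF P (s x) (t x) := by
  have h1 := h.mu.comp hs
  have h2 := h.mv.comp hs
  have h3 := h.mφ.comp hs
  have h4 : Measurable fun x => P.FL (s x) :=
    (((h1.pow_const _).sub h3).add_const _).mul h1
  exact ((((h4.div_const _).sub ((h2.const_mul _).div hs)).mul (ht.div hs)).mul (ht.div hs)).add
    (h2.mul ((measurable_const.div hs).sub (((ht.div hs).mul (ht.div hs)).div hs)))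

section lim

variable {σ : ℕ → ℝ} {s : ℝ}

lemma t_u (h : P.Ok K) (hs : 0 < s) (hσ : Tendsto σ atTop (𝓝 s)) :
    Tendsto (fun n => P.u (σ n)) atTop (𝓝 (P.u s)) := (h.d1 s hs).continuousAt.tendsto.comp hσ

lemma t_gF (h : P.Ok K) (hs : 0 < s) (hσ : Tendsto σ atTop (𝓝 s)) (t : ℝ) :
    Tendsto (fun n => gF P (σ n) t) atTop (𝓝 (gF P s t)) :=
  ((h.d2 s hs).continuousAt.tendsto.comp hσ).mul (tendsto_const_nhds.div hσ hs.ne')

lemma t_hF (h : P.Ok K) (hs : 0 < s) (hσ : Tendsto σ atTop (𝓝 s)) (t : ℝ) :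
    Tendsto (fun n => hF P (σ n) t) atTop (𝓝 (hF P s t)) := by
  have h1 := t_u h hs hσ
  have h2 := (h.d2 s hs).continuousAt.tendsto.comp hσ
  have h3 := (h.cφ.continuousAt (Ioi_mem_nhds hs)).tendsto.comp hσ
  have h4 : Tendsto (fun n => P.FL (σ n)) atTop (𝓝 (P.FL s)) :=
    (((h1.rpow_const (Or.inr (by norm_num))).sub h3).add_const _).mul h1
  have h5 : Tendsto (fun n => t / σ n) atTop (𝓝 (t / s)) := tendsto_const_nhds.div hσ hs.ne'
  exact ((((h4.div_const _).sub ((h2.const_mul _).div hσ hs.ne')).mul h5).mul h5).add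
    (h2.mul ((tendsto_const_nhds.div hσ hs.ne').sub ((h5.mul h5).div hσ hs.ne')))

end lim

lemma ld_s {ε : ℝ} (hε : 0 < ε) (b : E3) (i : Fin 3) :
    LD (fun x : E3 => sL ε (x - b)) (fun x => (x - b) i / sL ε (x - b)) (bv i) := fun x => by
  have := LD_sL (ContinuousLinearMap.id ℝ E3) hε (bv i) (x - b)
  simp only [ContinuousLinearMap.id_apply, inner_bv] at this
  simpa only [add_sub_right_comm] using this

lemma ld_t (b : E3) (i : Fin 3) : LD (fun x : E3 => (x - b) i) (fun _ => 1) (bv i) := fun x => by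
  have := ((hasDerivAt_id' (0 : ℝ)).const_add ((x - b) i))
  simpa [bv_apply, add_sub_right_comm] using this

lemma ld_u (h : P.Ok K) {ε : ℝ} (hε : 0 < ε) (b : E3) (i : Fin 3) :
    LD (fun x : E3 => P.u (sL ε (x - b))) (fun x => gF P (sL ε (x - b)) ((x - b) i)) (bv i) :=
  (ld_s hε b i).comp fun _ => h.d1 _ (sL_pos hε _)

lemma ld_g (h : P.Ok K) {ε : ℝ} (hε : 0 < ε) (b : E3) (i : Fin 3) :
    LD (fun x : E3 => gF P (sL ε (x - b)) ((x - b) i))
      (fun x => hF P (sL ε (x - b)) ((x - b) i)) (bv i) := by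
  have h1 := (ld_s hε b i).comp (F' := fun s => P.FL s / A - 2 * P.v s / s)
    fun x => h.d2 _ (sL_pos hε (x - b))
  have h2 := (ld_s hε b i).comp (F := fun s => s⁻¹) (F' := fun s => -(s ^ 2)⁻¹)
    fun x => hasDerivAt_inv (sL_pos hε (x - b)).ne'
  have h3 := h1.mul ((ld_t b i).mul h2)
  simp only [gF, div_eq_mul_inv]
  refine h3.congr fun x => ?_
  have := (sL_pos hε (x - b)).ne'
  unfold hF
  field_simp
  ring

lemma abs_coord (y : E3) (i : Fin 3) : |y i| ≤ ‖y‖ := by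
  simpa using PiLp.norm_apply_le y i

variable (P Q) (α β : ℝ)

/-- logarithmic derivative -/
def cc (s₁ t₁ s₂ t₂ : ℝ) : ℝ := (α * gF P s₁ t₁ + β * gF Q s₂ t₂) / (α * P.u s₁ + β * Q.u s₂)

/-- second derivative over the function -/
def hh (s₁ t₁ s₂ t₂ : ℝ) : ℝ := (α * hF P s₁ t₁ + β * hF Q s₂ t₂) / (α * P.u s₁ + β * Q.u s₂)

variable {P Q α β}

lemma den_pos (hP : P.Ok K) (hQ : Q.Ok K) (hα : 0 < α) (hβ : 0 ≤ β) {s₁ : ℝ} (h1 : 0 < s₁)
    (s₂ : ℝ) : 0 < α * P.u s₁ + β * Q.u s₂ := by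
  have := u_pos hP h1
  have := hQ.nn s₂
  positivity

lemma quot_le {a b p q c : ℝ} (hα : 0 < α) (hβ : 0 ≤ β) (hd : 0 < α * a + β * b)
    (hp : |p| ≤ c * a) (hq : |q| ≤ c * b) : |(α * p + β * q) / (α * a + β * b)| ≤ c := by
  rw [abs_div, abs_of_pos hd, div_le_iff₀ hd]
  refine (abs_add_le _ _).trans ?_
  rw [abs_mul, abs_mul, abs_of_pos hα, abs_of_nonneg hβ]
  nlinarith [mul_le_mul_of_nonneg_left hp hα.le, mul_le_mul_of_nonneg_left hq hβ]

lemma cc_le (hP : P.Ok K) (hQ : Q.Ok K) (hα : 0 < α) (hβ : 0 ≤ β) {s₁ t₁ s₂ t₂ : ℝ} (h1 : 0 < s₁)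
    (h2 : 0 < s₂) (h3 : |t₁| ≤ s₁) (h4 : |t₂| ≤ s₂) : |cc P Q α β s₁ t₁ s₂ t₂| ≤ K :=
  quot_le hα hβ (den_pos hP hQ hα hβ h1 _) (gF_le hP h1 h3) (gF_le hQ h2 h4)

lemma hh_le (hP : P.Ok K) (hQ : Q.Ok K) (hα : 0 < α) (hβ : 0 ≤ β) {s₁ t₁ s₂ t₂ r₁ r₂ : ℝ}
    (h1 : 0 < r₁) (h2 : 0 < r₂) (h1' : r₁ ≤ s₁) (h2' : r₂ ≤ s₂) (h3 : |t₁| ≤ s₁) (h4 : |t₂| ≤ s₂) :
    |hh P Q α β s₁ t₁ s₂ t₂| ≤ (cst P.κ K + cst Q.κ K) * (1 + r₁⁻¹ + r₂⁻¹) := by
  have k1 := cst_pos hP
  have k2 := cst_pos hQ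
  have i1 : s₁⁻¹ ≤ r₁⁻¹ := inv_anti₀ h1 h1'
  have i2 : s₂⁻¹ ≤ r₂⁻¹ := inv_anti₀ h2 h2'
  have j1 := inv_pos.2 h1
  have j2 := inv_pos.2 h2
  have j3 := inv_pos.2 (h1.trans_le h1')
  have j4 := inv_pos.2 (h2.trans_le h2')
  refine quot_le hα hβ (den_pos hP hQ hα hβ (h1.trans_le h1') _)
    ((hF_le hP (h1.trans_le h1') h3).trans (mul_le_mul_of_nonneg_right ?_ (hP.nn _)))
    ((hF_le hQ (h2.trans_le h2') h4).trans (mul_le_mul_of_nonneg_right ?_ (hQ.nn _))) <;>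
  exact mul_le_mul (by linarith) (by linarith) (by positivity) (by positivity)

lemma m_cc (hP : P.Ok K) (hQ : Q.Ok K) {s₁ t₁ s₂ t₂ : E3 → ℝ} (h1 : Measurable s₁)
    (h2 : Measurable t₁) (h3 : Measurable s₂) (h4 : Measurable t₂) :
    Measurable fun x => cc P Q α β (s₁ x) (t₁ x) (s₂ x) (t₂ x) :=
  (((m_gF hP h1 h2).const_mul _).add ((m_gF hQ h3 h4).const_mul _)).div
    (((hP.mu.comp h1).const_mul _).add ((hQ.mu.comp h3).const_mul _))

lemma m_hh (hP : P.Ok K) (hQ : Q.Ok K) {s₁ t₁ s₂ t₂ : E3 → ℝ} (h1 : Measurable s₁)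
    (h2 : Measurable t₁) (h3 : Measurable s₂) (h4 : Measurable t₂) :
    Measurable fun x => hh P Q α β (s₁ x) (t₁ x) (s₂ x) (t₂ x) :=
  (((m_hF hP h1 h2).const_mul _).add ((m_hF hQ h3 h4).const_mul _)).div
    (((hP.mu.comp h1).const_mul _).add ((hQ.mu.comp h3).const_mul _))

lemma m_s (ε : ℝ) (b : E3) : Measurable fun x : E3 => sL ε (x - b) :=
  ((sL_cont ε).comp (continuous_id.sub continuous_const)).measurable

lemma m_t (b : E3) (i : Fin 3) : Measurable fun x : E3 => (x - b) i := by fun_prop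

lemma m_n (b : E3) : Measurable fun x : E3 => ‖x - b‖ := by fun_prop

lemma good (hP : P.Ok K) (hQ : Q.Ok K) (hα : 0 < α) (hβ : 0 ≤ β) {ε : ℝ} (hε : 0 < ε)
    (b₁ b₂ : E3) (i : Fin 3) :
    Good volume (fun x : E3 => cc P Q α β (sL ε (x - b₁)) ((x - b₁) i) (sL ε (x - b₂)) ((x - b₂) i))
      (fun x => hh P Q α β (sL ε (x - b₁)) ((x - b₁) i) (sL ε (x - b₂)) ((x - b₂) i) -
        cc P Q α β (sL ε (x - b₁)) ((x - b₁) i) (sL ε (x - b₂)) ((x - b₂) i) ^ 2) (bv i) := by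
  have hc := fun x : E3 => cc_le hP hQ hα hβ (sL_pos hε (x - b₁)) (sL_pos hε (x - b₂))
    ((abs_coord _ i).trans (norm_le_sL ε _)) ((abs_coord _ i).trans (norm_le_sL ε _))
  have hh' := fun x : E3 => hh_le hP hQ hα hβ hε hε (le_sL ε (x - b₁)) (le_sL ε (x - b₂))
    ((abs_coord _ i).trans (norm_le_sL ε _)) ((abs_coord _ i).trans (norm_le_sL ε _))
  have m1 := m_cc (α := α) (β := β) hP hQ (m_s ε b₁) (m_t b₁ i) (m_s ε b₂) (m_t b₂ i)
  have m2 := m_hh (α := α) (β := β) hP hQ (m_s ε b₁) (m_t b₁ i) (m_s ε b₂) (m_t b₂ i)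
  refine ⟨memLp_top_of_bound m1.aestronglyMeasurable K (Eventually.of_forall hc),
    (memLp_top_of_bound m2.aestronglyMeasurable _ (Eventually.of_forall hh')).sub
      (memLp_top_of_bound (m1.pow_const 2).aestronglyMeasurable (K ^ 2)
        (Eventually.of_forall fun x => ?_)), fun x => ?_⟩
  · rw [norm_pow]
    exact pow_le_pow_left₀ (norm_nonneg _) (hc x) 2
  · have hd := (den_pos hP hQ hα hβ (sL_pos hε (x - b₁)) (sL ε (x - b₂))).ne'
    have h := (((ld_g hP hε b₁ i x).const_mul α).fun_add ((ld_g hQ hε b₂ i x).const_mul β)).fun_div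
      (((ld_u hP hε b₁ i x).const_mul α).fun_add ((ld_u hQ hε b₂ i x).const_mul β))
      (by simpa using hd)
    refine h.congr_deriv ?_
    simp only [zero_smul, add_zero, cc, hh]
    field_simp

lemma sum_hF {y : E3} (hy : y ≠ 0) : ∑ i, hF P ‖y‖ (y i) = P.FL ‖y‖ / A := by
  have h := norm_sq3 y
  have h0 := norm_ne_zero_iff.2 hy
  have hA := A_pos.ne'
  have e : y 0 / ‖y‖ * (y 0 / ‖y‖) + y 1 / ‖y‖ * (y 1 / ‖y‖) + y 2 / ‖y‖ * (y 2 / ‖y‖) = 1 := by
    field_simp; linarith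
  simp only [Fin.sum_univ_three, hF]
  linear_combination (P.FL ‖y‖ / A - 3 * P.v ‖y‖ / ‖y‖) * e

end T28

open T28 in
theorem st_PIC : St_PIC := by
  intro P Q K α β b₁ b₂ f g hP hQ hα hβ hf hg hw hI
  have hae : ∀ᵐ x : E3, 0 < ‖x - b₁‖ ∧ 0 < ‖x - b₂‖ := by
    filter_upwards [Measure.ae_ne volume b₁, Measure.ae_ne volume b₂] with x h1 h2
    exact ⟨norm_pos_iff.2 (sub_ne_zero.2 h1), norm_pos_iff.2 (sub_ne_zero.2 h2)⟩
  set C := cst P.κ K + cst Q.κ K with hC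
  set X : Fin 3 → E3 → ℝ := fun i x => cc P Q α β ‖x - b₁‖ ((x - b₁) i) ‖x - b₂‖ ((x - b₂) i)
    with hX
  set H : Fin 3 → E3 → ℝ := fun i x => hh P Q α β ‖x - b₁‖ ((x - b₁) i) ‖x - b₂‖ ((x - b₂) i)
    with hH
  have hXm : ∀ i, MemLp (X i) ⊤ volume := fun i =>
    memLp_top_of_bound (m_cc hP hQ (m_n b₁) (m_t b₁ i) (m_n b₂) (m_t b₂ i)).aestronglyMeasurable K
      (by filter_upwards [hae] with x hx
          exact cc_le hP hQ hα hβ hx.1 hx.2 (abs_coord _ i) (abs_coord _ i))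
  have hf2 : AEStronglyMeasurable (fun x => f x * f x) volume := hf.1.mul hf.1
  have hHi : ∀ i, Integrable fun x => H i x * (f x * f x) := fun i => by
    refine (hI.const_mul C).mono' ((m_hh hP hQ (m_n b₁) (m_t b₁ i) (m_n b₂)
      (m_t b₂ i)).aestronglyMeasurable.mul hf2) ?_
    filter_upwards [hae] with x hx
    have := hh_le hP hQ hα hβ hx.1 hx.2 le_rfl le_rfl (abs_coord _ i) (abs_coord _ i)
    rw [Real.norm_eq_abs, abs_mul, abs_mul_self]
    nlinarith [mul_le_mul_of_nonneg_right this (mul_self_nonneg (f x))]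
  have tc : ∀ i, ∀ᵐ x : E3, Tendsto (fun n => cc P Q α β (sL (eta n) (x - b₁)) ((x - b₁) i)
      (sL (eta n) (x - b₂)) ((x - b₂) i)) atTop (𝓝 (X i x)) ∧
      Tendsto (fun n => hh P Q α β (sL (eta n) (x - b₁)) ((x - b₁) i)
      (sL (eta n) (x - b₂)) ((x - b₂) i)) atTop (𝓝 (H i x)) := fun i => by
    filter_upwards [hae] with x hx
    have s1 := sL_tendsto eta_tendsto (x - b₁)
    have s2 := sL_tendsto eta_tendsto (x - b₂)
    have hd := ((t_u hP hx.1 s1).const_mul α).add ((t_u hQ hx.2 s2).const_mul β)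
    have h0 := (den_pos hP hQ hα hβ hx.1 ‖x - b₂‖).ne'
    exact ⟨(((t_gF hP hx.1 s1 _).const_mul α).add ((t_gF hQ hx.2 s2 _).const_mul β)).div hd h0,
      (((t_hF hP hx.1 s1 _).const_mul α).add ((t_hF hQ hx.2 s2 _).const_mul β)).div hd h0⟩
  have hK0 : 0 ≤ K := zero_le_one.trans hP.hK
  have key : ∀ i, (∫ x, (H i x - X i x ^ 2) * f x * f x) + 2 * ∫ x, X i x * f x * g i x = 0 := by
    intro i
    have hc := fun (n : ℕ) (x : E3) => cc_le hP hQ hα hβ (sL_pos (eta_pos n) (x - b₁))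
      (sL_pos (eta_pos n) (x - b₂)) ((abs_coord _ i).trans (norm_le_sL _ _))
      ((abs_coord _ i).trans (norm_le_sL _ _))
    have gd := fun n => good hP hQ hα hβ (eta_pos n) b₁ b₂ i
    have l1 := tendsto_integral_of_dominated_convergence
      (fun x => C * (f x ^ 2 * (1 + ‖x - b₁‖⁻¹ + ‖x - b₂‖⁻¹)) + K ^ 2 * f x ^ 2)
      (fun n => (Tri_int (gd n).bd' hf hf).1) ((hI.const_mul C).add (hf.integrable_sq.const_mul _))
      (fun n => by
        filter_upwards [hae] with x hx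
        have h1 := hh_le hP hQ hα hβ hx.1 hx.2 (norm_le_sL (eta n) _) (norm_le_sL (eta n) _)
          ((abs_coord _ i).trans (norm_le_sL _ _)) ((abs_coord _ i).trans (norm_le_sL _ _))
        have h2 := sq_le_sq' (abs_le.1 (hc n x)).1 (abs_le.1 (hc n x)).2
        rw [Real.norm_eq_abs, mul_assoc, abs_mul, abs_mul_self]
        have h3 := (abs_sub _ _).trans (add_le_add h1 ((abs_of_nonneg (sq_nonneg _)).le.trans h2))
        nlinarith [mul_le_mul_of_nonneg_right h3 (mul_self_nonneg (f x))])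
      (f := fun x => (H i x - X i x ^ 2) * f x * f x)
      (by
        filter_upwards [tc i] with x hx
        exact ((hx.2.sub (hx.1.pow 2)).mul_const _).mul_const _)
    have l2 := tendsto_integral_of_dominated_convergence (fun x => K * ‖f x * g i x‖)
      (fun n => (Tri_int (gd n).bd hf (hg i)).1)
      ((MemLp.integrable_mul hf (hg i)).norm.const_mul K)
      (fun n => Eventually.of_forall fun x => by
        rw [mul_assoc, norm_mul]
        exact mul_le_mul_of_nonneg_right (hc n x) (norm_nonneg _))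
      (f := fun x => X i x * f x * g i x)
      (by
        filter_upwards [tc i] with x hx
        exact (hx.1.mul_const _).mul_const _)
    have l3 := l1.add (l2.const_mul 2)
    have e : ∀ n, _ := fun n => ibpW (gd n) hf (hg i) (hw i)
    simp only [Tri] at e
    simp only [e] at l3
    exact (tendsto_nhds_unique tendsto_const_nhds l3).symm
  have hsum : (fun x => A * ∑ i, H i x * (f x * f x)) =ᵐ[volume]
      fun x => f x ^ 2 * (La P Q α β b₁ b₂ x / Ps P Q α β b₁ b₂ x) := by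
    filter_upwards [hae] with x hx
    have hA := A_pos.ne'
    rw [← Finset.sum_mul]
    simp only [hH, hh, ← Finset.sum_div, Finset.sum_add_distrib, ← Finset.mul_sum,
      sum_hF (norm_pos_iff.1 hx.1), sum_hF (norm_pos_iff.1 hx.2), La, Ps]
    have h0 := (den_pos hP hQ hα hβ hx.1 ‖x - b₂‖).ne'
    field_simp
  have hint := integrable_finsetSum Finset.univ fun i _ => hHi i
  refine ⟨(hint.const_mul A).congr hsum, ?_⟩
  rw [← integral_congr_ae hsum, integral_const_mul, integral_finsetSum _ fun i _ => hHi i,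
    ← mul_add, ← Finset.sum_add_distrib]
  congr 1
  refine Finset.sum_congr rfl fun i _ => ?_
  have j1 := Tri_int (hXm i) hf (hg i)
  have j2 := Tri_int ((hXm i).mul' (hXm i)) hf hf
  have k1 := (((HI.of (hg i).integrable_sq).sub ((HI.of j1).const_mul 2)).add (HI.of j2)).eq
  have k2 := ((HI.of (hHi i)).sub (HI.of j2)).eq
  have e1 : (∫ x, (g i x - f x * (Gr P Q α β b₁ b₂ i x / Ps P Q α β b₁ b₂ x)) ^ 2) =
      ∫ x, (g i x ^ 2 - 2 * (X i x * f x * g i x) + X i x * X i x * f x * f x) :=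
    integral_congr_ae (Eventually.of_forall fun x => by
      change (g i x - f x * X i x) ^ 2 = _
      ring)
  have e2 : (∫ x, (H i x - X i x ^ 2) * f x * f x) =
      ∫ x, (H i x * (f x * f x) - X i x * X i x * f x * f x) :=
    integral_congr_ae (Eventually.of_forall fun x => by ring)
  have := key i
  rw [e1, k1]
  rw [e2, k2] at this
  linarith

end

end Pool.Agent.Lib.TFW
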