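import Pool.Agent.Lib.TFW.Blue

open MeasureTheory Filter Topology Set Real

namespace Pool.Agent.Lib.TFW

namespace T58

/-- The one-dimensional problem sees only the squares of `g` and of its primitive. -/
lemma min1_congr {z : ℝ} {g h : ℝ → ℝ} (hg : Min1 z g)
    (hm : MemLp h 2 (volume.restrict (Ioi 0))) (hsq : ∀ r, h r ^ 2 = g r ^ 2)
    (hY : ∀ r, 0 < r → Y h r ^ 2 = Y g r ^ 2) : Min1 z h := by
  have hW : ∀ r, Wp (Y h) r = Wp (Y g) r := fun r =>
    setIntegral_congr_fun measurableSet_Ioi (fun s hs => by simp only [hY s hs])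
  have hJ : J z h = J z g := by
    unfold J
    have e1 : (∫ r in Ioi (0 : ℝ), h r ^ 2) = ∫ r in Ioi (0 : ℝ), g r ^ 2 := by
      simp only [hsq]
    have e2 : (∫ r in Ioi (0 : ℝ), |Y h r| ^ (10 / 3 : ℝ) * r ^ (-(4 / 3) : ℝ)) =
        ∫ r in Ioi (0 : ℝ), |Y g r| ^ (10 / 3 : ℝ) * r ^ (-(4 / 3) : ℝ) :=
      setIntegral_congr_fun measurableSet_Ioi (fun s hs => by
        simp only [(sq_eq_sq_iff_abs_eq_abs _ _).1 (hY s hs)])
    have e3 : (∫ r in Ioi (0 : ℝ), Y h r ^ 2 / r) = ∫ r in Ioi (0 : ℝ), Y g r ^ 2 / r :=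
      setIntegral_congr_fun measurableSet_Ioi (fun s hs => by simp only [hY s hs])
    have e4 : (∫ r in Ioi (0 : ℝ), Y h r ^ 2 * Wp (Y h) r) =
        ∫ r in Ioi (0 : ℝ), Y g r ^ 2 * Wp (Y g) r :=
      setIntegral_congr_fun measurableSet_Ioi (fun s hs => by simp only [hY s hs, hW])
    rw [e1, e2, e3, e4]
  have hmass : mass (Y h) = mass (Y g) := by
    unfold mass
    rw [setIntegral_congr_fun measurableSet_Ioi (g := fun r => Y g r ^ 2)
      (fun s hs => by simp only [hY s hs])]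
  refine ⟨⟨hm, ?_, hmass ▸ hg.1.le⟩, fun k hk => hJ ▸ hg.2 k hk⟩
  exact hg.1.int.congr_fun (fun s hs => by simp only [hY s hs]) measurableSet_Ioi

lemma cl_of_K1 (h1 : St_B1) {z : ℝ} {g : ℝ → ℝ} (hg : K1 z g) : Cl (Y g) :=
  ⟨(h1 g hg.l2).2.1, ⟨_, (h1 g hg.l2).2.2⟩, hg.int⟩

lemma qq_contOn (h2 : St_B2) (z μ : ℝ) {y : ℝ → ℝ} (hy : Cl y) :
    ContinuousOn (qq z μ y) (Ioi 0) := by
  have hc : ContinuousOn y (Ioi 0) := hy.cont.mono Ioi_subset_Ici_self
  have hW := (h2 y hy).2.2.2.1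
  have hne : ∀ r ∈ Ioi (0 : ℝ), r ≠ 0 := fun r hr => ne_of_gt hr
  unfold qq ph
  refine ContinuousOn.add (ContinuousOn.sub ?_ ?_) continuousOn_const
  · exact (hc.abs.div continuousOn_id hne).rpow_const (fun _ _ => Or.inr (by norm_num))
  · exact (continuousOn_const.div continuousOn_id hne).sub (continuousOn_const.mul hW)

/-- A minimiser solves the radial equation. -/
lemma el (h1 : St_B1) (h2 : St_B2) (hL1 : St_EL1) (hL2 : St_EL2) {z : ℝ} {g : ℝ → ℝ}
    (hz : 0 < z) (hg : Min1 z g) :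
    ∃ (μ : ℝ) (y' : ℝ → ℝ), (mass (Y g) < z → μ = 0) ∧ ∀ r, 0 < r →
      HasDerivAt (Y g) (y' r) r ∧ HasDerivAt y' (qq z μ (Y g) r * Y g r / A) r := by
  obtain ⟨μ, hμ, hE⟩ := hL1 z g hz hg
  have hcl := cl_of_K1 h1 hg.1
  have hF : ContinuousOn (fun r => qq z μ (Y g) r * Y g r / A) (Ioi 0) :=
    ((qq_contOn h2 z μ hcl).mul (hcl.cont.mono Ioi_subset_Ici_self)).div_const A
  obtain ⟨y', hy'⟩ := hL2 g _ hg.1.l2 hF (fun a b h hd => by
    have h0 := hE a b h hd
    have e : (∫ r in a..b, qq z μ (Y g) r * Y g r / A * Y h r) =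
        (∫ r in a..b, qq z μ (Y g) r * Y g r * Y h r) / A := by
      rw [← intervalIntegral.integral_div]
      congr 1
      ext r
      ring
    rw [e]
    have hA := A_pos
    field_simp
    linarith)
  exact ⟨μ, y', hμ, hy'⟩

/-- Uniqueness for a scalar differential inequality on the half line. -/
lemma zero_of_deriv_le {W W' L : ℝ → ℝ} {r₀ : ℝ} (h0 : 0 < r₀)
    (hW : ∀ r, 0 < r → HasDerivAt W (W' r) r) (hL : ContinuousOn L (Ioi 0))
    (hb : ∀ r, 0 < r → |W' r| ≤ L r * |W r|) (hz : W r₀ = 0) : ∀ r, 0 < r → W r = 0 := by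
  have bound : ∀ a b : ℝ, 0 < a → ∃ K, ∀ x ∈ Icc a b, |W' x| ≤ K * |W x| := by
    intro a b ha
    obtain ⟨K, hK⟩ := (isCompact_Icc (a := a) (b := b)).bddAbove_image
      (hL.mono (fun x hx => lt_of_lt_of_le ha hx.1))
    refine ⟨K, fun x hx => (hb x (lt_of_lt_of_le ha hx.1)).trans ?_⟩
    exact mul_le_mul_of_nonneg_right (hK ⟨x, hx, rfl⟩) (abs_nonneg _)
  intro r hr
  rcases le_total r₀ r with h | h
  · obtain ⟨K, hK⟩ := bound r₀ r h0
    refine eq_zero_of_abs_deriv_le_mul_abs_self_of_eq_zero_right (f := W) (f' := W') (K := K)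
      (a := r₀) (b := r) ?_ ?_ hz ?_ r ⟨h, le_rfl⟩
    · exact fun x hx => (hW x (lt_of_lt_of_le h0 hx.1)).continuousAt.continuousWithinAt
    · exact fun x hx => (hW x (lt_of_lt_of_le h0 hx.1)).hasDerivWithinAt
    · exact fun x hx => hK x ⟨hx.1, hx.2.le⟩
  · obtain ⟨K, hK⟩ := bound r r₀ hr
    have hd : ∀ x ∈ Icc (-r₀) (-r), HasDerivAt (fun x => W (-x)) (-W' (-x)) x := by
      intro x hx
      have hx' : 0 < -x := by linarith [hx.2]
      have := (hW (-x) hx').comp x (hasDerivAt_neg x)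
      simpa [Function.comp_def] using this
    have := eq_zero_of_abs_deriv_le_mul_abs_self_of_eq_zero_right (f := fun x => W (-x))
      (f' := fun x => -W' (-x)) (K := K) (a := -r₀) (b := -r)
      (fun x hx => (hd x hx).continuousAt.continuousWithinAt)
      (fun x hx => (hd x ⟨hx.1, hx.2.le⟩).hasDerivWithinAt) (by simpa using hz)
      (fun x hx => by
        simpa using hK (-x) ⟨by linarith [hx.2], by linarith [hx.1]⟩)
      (-r) ⟨by linarith, le_rfl⟩
    simpa using this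

/-- A solution of a linear second-order equation with a double zero vanishes. -/
lemma ode_zero {y y' q : ℝ → ℝ} {r₀ : ℝ} (h0 : 0 < r₀)
    (hy : ∀ r, 0 < r → HasDerivAt y (y' r) r ∧ HasDerivAt y' (q r * y r) r)
    (hq : ContinuousOn q (Ioi 0)) (hz : y r₀ = 0) (hz' : y' r₀ = 0) :
    ∀ r, 0 < r → y r = 0 := by
  have key := zero_of_deriv_le (W := fun r => y r ^ 2 + y' r ^ 2)
    (W' := fun r => (1 + q r) * (2 * y r * y' r)) (L := fun r => |1 + q r|) h0
    (fun r hr => by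
      have a := ((hy r hr).1.pow 2).add ((hy r hr).2.pow 2)
      refine a.congr_deriv ?_
      norm_num
      ring)
    (continuousOn_const.add hq).abs
    (fun r _ => by
      rw [abs_mul]
      refine mul_le_mul_of_nonneg_left ?_ (abs_nonneg _)
      rw [abs_of_nonneg (by positivity : 0 ≤ y r ^ 2 + y' r ^ 2), abs_le]
      constructor <;> nlinarith [sq_nonneg (y r + y' r), sq_nonneg (y r - y' r)])
    (by simp [hz, hz'])
  intro r hr
  have := key r hr
  have h2 : y r ^ 2 = 0 := by nlinarith [sq_nonneg (y r), sq_nonneg (y' r)]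
  exact pow_eq_zero_iff (two_ne_zero) |>.1 h2

/-- The primitive of a minimiser has no zero on the open half line. -/
lemma no_zero (h1 : St_B1) (h2 : St_B2) (hN : St_NEG) (hL1 : St_EL1) (hL2 : St_EL2) {z : ℝ}
    {g : ℝ → ℝ} (hz : 0 < z) (hg : Min1 z g) {r₀ : ℝ} (h0 : 0 < r₀) : Y g r₀ ≠ 0 := by
  intro hzero
  classical
  set σ : ℝ → ℝ := fun s => if s ≤ r₀ then 1 else -1 with hσ
  have hσm : Measurable σ := Measurable.ite measurableSet_Iic measurable_const measurable_const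
  have hσ2 : ∀ s, σ s ^ 2 = 1 := fun s => by
    simp only [hσ]
    split_ifs <;> norm_num
  have hσa : ∀ s, |σ s| = 1 := fun s => by
    simp only [hσ]
    split_ifs <;> norm_num
  set h : ℝ → ℝ := fun s => σ s * g s with hh
  have hm : MemLp h 2 (volume.restrict (Ioi 0)) :=
    hg.1.l2.of_le (hσm.aestronglyMeasurable.mul hg.1.l2.1)
      (Eventually.of_forall fun s => by
        simp only [hh, norm_mul, Real.norm_eq_abs, hσa, one_mul, le_refl])
  have hleft : ∀ r ∈ Icc 0 r₀, Y h r = Y g r := by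
    intro r hr
    unfold Y
    refine intervalIntegral.integral_congr (fun s hs => ?_)
    rw [uIcc_of_le hr.1] at hs
    simp only [hh, hσ, if_pos (hs.2.trans hr.2), one_mul]
  have hright : ∀ r ∈ Ici r₀, Y h r = -Y g r := by
    intro r hr
    have hr0 : 0 ≤ r := h0.le.trans hr
    have a1 := intervalIntegral.integral_add_adjacent_intervals
      ((h1 h hm).1 0 r₀ le_rfl h0.le) ((h1 h hm).1 r₀ r h0.le hr0)
    have a2 := intervalIntegral.integral_add_adjacent_intervals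
      ((h1 g hg.1.l2).1 0 r₀ le_rfl h0.le) ((h1 g hg.1.l2).1 r₀ r h0.le hr0)
    have a3 : (∫ s in r₀..r, h s) = -∫ s in r₀..r, g s := by
      rw [← intervalIntegral.integral_neg]
      refine intervalIntegral.integral_congr_ae (Eventually.of_forall fun s hs => ?_)
      rw [uIoc_of_le hr] at hs
      simp only [hh, hσ, if_neg (not_le.2 hs.1), neg_mul, one_mul]
    have a4 := hleft r₀ ⟨h0.le, le_rfl⟩
    unfold Y at a4 hzero ⊢
    linarith
  have hmin : Min1 z h := by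
    refine min1_congr hg hm (fun r => by simp only [hh, mul_pow, hσ2, one_mul]) (fun r hr => ?_)
    rcases le_total r r₀ with hr' | hr'
    · rw [hleft r ⟨hr.le, hr'⟩]
    · rw [hright r hr', neg_sq]
  obtain ⟨μ, y', -, hy⟩ := el h1 h2 hL1 hL2 hz hg
  obtain ⟨ν, w', -, hw⟩ := el h1 h2 hL1 hL2 hz hmin
  have d1 : w' r₀ = y' r₀ := by
    have hmem : r₀ ∈ Icc 0 r₀ := ⟨h0.le, le_rfl⟩
    refine (uniqueDiffOn_Icc h0 r₀ hmem).eq_deriv _ (hw r₀ h0).1.hasDerivWithinAt ?_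
    exact (hy r₀ h0).1.hasDerivWithinAt.congr hleft (hleft r₀ hmem)
  have d2 : w' r₀ = -y' r₀ := by
    refine (uniqueDiffWithinAt_Ici r₀).eq_deriv _ (hw r₀ h0).1.hasDerivWithinAt ?_
    exact (hy r₀ h0).1.neg.hasDerivWithinAt.congr hright (hright r₀ self_mem_Ici)
  have d0 : y' r₀ = 0 := by linarith
  have hY0 : ∀ r, 0 < r → Y g r = 0 := by
    refine ode_zero (y' := y') (q := fun r => qq z μ (Y g) r / A) h0 (fun r hr => ⟨(hy r hr).1, ?_⟩)
      ((qq_contOn h2 z μ (cl_of_K1 h1 hg.1)).div_const A) hzero d0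
    convert (hy r hr).2 using 1
    ring
  obtain ⟨k, hk, hJ⟩ := hN z hz
  have hJ0 : 0 ≤ J z g := by
    unfold J
    have e2 : (∫ r in Ioi (0 : ℝ), |Y g r| ^ (10 / 3 : ℝ) * r ^ (-(4 / 3) : ℝ)) = 0 :=
      setIntegral_eq_zero_of_forall_eq_zero (fun s hs => by
        rw [hY0 s hs, abs_zero, zero_rpow (by norm_num), zero_mul])
    have e3 : (∫ r in Ioi (0 : ℝ), Y g r ^ 2 / r) = 0 :=
      setIntegral_eq_zero_of_forall_eq_zero (fun s hs => by rw [hY0 s hs]; simp)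
    have e4 : (∫ r in Ioi (0 : ℝ), Y g r ^ 2 * Wp (Y g) r) = 0 :=
      setIntegral_eq_zero_of_forall_eq_zero (fun s hs => by rw [hY0 s hs]; simp)
    have e1 : 0 ≤ ∫ r in Ioi (0 : ℝ), g r ^ 2 := integral_nonneg (fun r => sq_nonneg _)
    rw [e2, e3, e4]
    have := mul_nonneg A_pos.le e1
    linarith
  linarith [hg.2 k hk]

lemma rad_of_pos (h1 : St_B1) (h2 : St_B2) (hN : St_NEG) (hL1 : St_EL1) (hL2 : St_EL2) {z : ℝ}
    {g : ℝ → ℝ} (hz : 0 < z) (hg : Min1 z g) (hp : 0 < Y g 1) : ∃ μ y y', Rad0 z μ y y' := by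
  obtain ⟨μ, y', hμ, hy⟩ := el h1 h2 hL1 hL2 hz hg
  have hcl := cl_of_K1 h1 hg.1
  refine ⟨μ, Y g, y', hcl, fun r hr => ?_, fun r hr => (hy r hr).1, fun r hr => (hy r hr).2,
    hg.1.le, hμ⟩
  by_contra hle
  have hsub := isPreconnected_Ioi.intermediate_value (a := r) (b := (1 : ℝ)) hr
    (mem_Ioi.2 one_pos) (hcl.cont.mono Ioi_subset_Ici_self)
  obtain ⟨s, hs, hs0⟩ := hsub (show (0 : ℝ) ∈ Icc (Y g r) (Y g 1) from ⟨not_lt.1 hle, hp.le⟩)
  exact no_zero h1 h2 hN hL1 hL2 hz hg hs hs0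

end T58

theorem st_POS (h1 : St_B1) (h2 : St_B2) (hE : St_EX) (hN : St_NEG) (hL1 : St_EL1)
    (hL2 : St_EL2) : St_POS := by
  intro z hz
  obtain ⟨g, hg⟩ := hE z hz
  rcases lt_or_gt_of_ne (T58.no_zero h1 h2 hN hL1 hL2 hz hg one_pos) with h | h
  · have hY : ∀ r, Y (fun s => -g s) r = -Y g r := fun r => by
      unfold Y
      exact intervalIntegral.integral_neg
    have hmin : Min1 z (fun s => -g s) :=
      T58.min1_congr hg hg.1.l2.neg (fun r => neg_sq _) (fun r _ => by rw [hY, neg_sq])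
    exact T58.rad_of_pos h1 h2 hN hL1 hL2 hz hmin (by rw [hY]; linarith)
  · exact T58.rad_of_pos h1 h2 hN hL1 hL2 hz hg h

end Pool.Agent.Lib.TFW
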