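import Pool.Agent.Lib.TFW.B_UPP

open Real

namespace Pool.Agent.Lib.TFW

namespace T20

theorem p_le' {κ K r a p : ℝ} (hK : 1 ≤ K) (h : Pt κ K r a p) :
    p ≤ K * exp (-(κ * r) / 3) ^ 6 * (1 + r⁻¹) := by
  have e3 : exp (-(κ * r)) = exp (-(κ * r) / 3) ^ 3 := by
    rw [← exp_nat_mul]
    congr 1
    push_cast
    ring
  refine h.p1.trans ?_
  rw [e3, ← pow_mul, div_eq_mul_inv]
  exact mul_le_mul_of_nonneg_left (by linarith) (by positivity)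

theorem exp_two (κ r : ℝ) : exp (-(2 / 3 * κ * r)) = exp (-(κ * r) / 3) ^ 2 := by
  rw [← exp_nat_mul]
  congr 1
  push_cast
  ring

theorem one_pt {K x p e u : ℝ} (hK : 1 ≤ K) (hx : 0 ≤ x) (he : 0 < e) (he1 : e ≤ 1) (hu : 1 ≤ u)
    (x1 : x ≤ K * e) (hp : p ≤ K * e ^ 6 * u) : x ^ 4 + p ≤ 2 * K ^ 4 * (e ^ 2 * u) := by
  have h1 : e ^ 4 ≤ e ^ 2 := pow_le_pow_of_le_one he.le he1 (by norm_num)
  have h2 : e ^ 6 ≤ e ^ 2 := pow_le_pow_of_le_one he.le he1 (by norm_num)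
  have h3 : K ≤ K ^ 4 := le_self_pow₀ hK (by norm_num)
  have h4 : x ^ 4 ≤ K ^ 4 * (e ^ 2 * u) :=
    calc x ^ 4 ≤ (K * e) ^ 4 := pow_le_pow_left₀ hx x1 4
      _ = K ^ 4 * (e ^ 4 * 1) := by ring
      _ ≤ _ := by gcongr
  have h5 : p ≤ K ^ 4 * (e ^ 2 * u) :=
    calc p ≤ K * e ^ 6 * u := hp
      _ ≤ K ^ 4 * e ^ 2 * u := by gcongr
      _ = _ := by ring
  linarith

theorem pow_52 {M e u s : ℝ} (hM : 1 ≤ M) (he : 0 < e) (he1 : e ≤ 1) (hu : 1 ≤ u) (hs : 0 ≤ s)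
    (h : s ≤ M * (e ^ 2 * u)) : s ^ (5 / 2 : ℝ) ≤ M ^ 3 * (e ^ 2 * u ^ (5 / 2 : ℝ)) := by
  refine (rpow_le_rpow hs h (by norm_num)).trans ?_
  rw [mul_rpow (by positivity) (by positivity), mul_rpow (by positivity) (by positivity)]
  have h1 : M ^ (5 / 2 : ℝ) ≤ M ^ 3 := by
    rw [← rpow_natCast]
    exact rpow_le_rpow_of_exponent_le hM (by norm_num)
  have h2 : (e ^ 2) ^ (5 / 2 : ℝ) ≤ e ^ 2 := by
    conv_rhs => rw [← rpow_one (e ^ 2)]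
    exact rpow_le_rpow_of_exponent_ge (by positivity) (pow_le_one₀ he.le he1) (by norm_num)
  gcongr

end T20

open T20 in
theorem st_PT : St_PT := by
  intro κ K hκ hK
  refine ⟨(4 * K ^ 4) ^ 3, by positivity, fun r₁ r₂ a b p q h₁ h₂ => ?_⟩
  have pos : ∀ {r a p : ℝ}, Pt κ K r a p → 0 < a := fun {r a p} h => by
    have h1 : 0 < K * a := lt_of_lt_of_le (div_pos (exp_pos _) (by linarith [h.r0])) h.lo
    exact (mul_pos_iff_of_pos_left (by linarith)).mp h1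
  have ha := pos h₁
  have hb := pos h₂
  obtain ⟨x, hx, rfl⟩ := cube_root ha.le
  obtain ⟨y, hy, rfl⟩ := cube_root hb.le
  obtain ⟨e, ω, he, hh, e0, e1, ω1, x1, x3, p6⟩ := size hκ hK h₁
  obtain ⟨f, ν, hf, hh', f0, f1, ν1, y1, y3, q6⟩ := size hκ hK h₂
  have E4 : exp (-(4 / 3 * κ * (r₁ + r₂))) = e ^ 4 * f ^ 4 := by
    rw [he, hf, ← exp_nat_mul, ← exp_nat_mul, ← exp_add]
    congr 1
    push_cast
    ring
  have E2 : exp (-(2 / 3 * κ * (r₁ + r₂))) = e ^ 2 * f ^ 2 := by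
    rw [he, hf, ← exp_nat_mul, ← exp_nat_mul, ← exp_add]
    congr 1
    push_cast
    ring
  have hK0 : 0 < K := by linarith
  have hC : ∀ n, n ≤ 12 → 2 * K ^ n ≤ (4 * K ^ 4) ^ 3 := fun n hn => by
    have h1 : K ^ n ≤ K ^ 12 := pow_le_pow_right₀ hK hn
    have h2 : 0 < K ^ 12 := by positivity
    linarith [show (4 * K ^ 4) ^ 3 = 64 * K ^ 12 by ring]
  have p0 := h₁.p0
  have q0 := h₂.p0
  have s0 : 0 ≤ ss (x ^ 3) (y ^ 3) p q := by
    unfold ss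
    positivity
  have s1 : ss (x ^ 3) (y ^ 3) p q ≤ (x ^ 4 + p) + (y ^ 4 + q) := by
    rw [ss, cube_rpow hx 4 (by norm_num), cube_rpow hy 4 (by norm_num), div_le_iff₀ (add_pos ha hb)]
    have : 0 ≤ (y ^ 4 + p) * x ^ 3 + (x ^ 4 + q) * y ^ 3 := by positivity
    linarith
  refine ⟨?_, ?_, s0, ?_, ?_⟩
  · rw [E2, exp_two, exp_two, ← he, ← hf]
    have h1 : e * f ≤ e ^ 2 + f ^ 2 := by nlinarith [sq_nonneg (e - f), mul_pos e0 f0]
    have h2 := hC 2 (by norm_num)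
    calc x ^ 3 * y ^ 3 ≤ (K * e ^ 3) * (K * f ^ 3) := by gcongr
      _ = K ^ 2 * (e ^ 2 * f ^ 2) * (e * f) := by ring
      _ ≤ _ := by
          gcongr
          linarith [pow_pos hK0 2]
  · rw [E4, hh]
    have h1 : f ^ 6 ≤ f ^ 4 := pow_le_pow_of_le_one f0.le f1 (by norm_num)
    have h2 : K ^ 3 ≤ (4 * K ^ 4) ^ 3 := by linarith [hC 3 (by norm_num), pow_pos hK0 3]
    calc (y ^ 3) ^ 2 * p ≤ (K * f ^ 3) ^ 2 * (K * e ^ 6 * ω) := by gcongr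
      _ = K ^ 3 * (e ^ 4 * f ^ 6) * (e ^ 2 * ω) := by ring
      _ ≤ _ := mul_le_mul_of_nonneg_right (mul_le_mul h2
          (mul_le_mul_of_nonneg_left h1 (by positivity)) (by positivity) (by positivity))
          (by positivity)
  · have u1 : 1 ≤ 1 + r₁⁻¹ := by linarith [inv_pos.mpr h₁.r0]
    have v1 : 1 ≤ 1 + r₂⁻¹ := by linarith [inv_pos.mpr h₂.r0]
    have h1 := one_pt hK hx e0 e1 u1 x1 (he ▸ p_le' hK h₁)
    have h2 := one_pt hK hy f0 f1 v1 y1 (hf ▸ p_le' hK h₂)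
    have hM : 1 ≤ 4 * K ^ 4 := by linarith [one_le_pow₀ hK (n := 4)]
    have hK4 : 0 ≤ K ^ 4 := by positivity
    rw [hw, hw, exp_two, exp_two, ← he, ← hf]
    rcases le_total (e ^ 2 * (1 + r₁⁻¹)) (f ^ 2 * (1 + r₂⁻¹)) with h | h
    · have h3 := mul_le_mul_of_nonneg_left h hK4
      refine (pow_52 hM f0 f1 v1 s0 (by linarith)).trans ?_
      gcongr
      exact le_add_of_nonneg_left (by positivity)
    · have h3 := mul_le_mul_of_nonneg_left h hK4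
      refine (pow_52 hM e0 e1 u1 s0 (by linarith)).trans ?_
      gcongr
      exact le_add_of_nonneg_right (by positivity)
  · have h1 := one_pt hK hx e0 e1 ω1 x1 p6
    have h2 := one_pt hK hy f0 f1 ν1 y1 q6
    have h3 : x ^ 3 ≤ K := x3.trans (mul_le_of_le_one_right hK0.le (pow_le_one₀ e0.le e1))
    have h4 : y ^ 3 ≤ K := y3.trans (mul_le_of_le_one_right hK0.le (pow_le_one₀ f0.le f1))
    have h5 : |p + q - x ^ 4 - y ^ 4| ≤ 2 * K ^ 4 * (e ^ 2 * ω + f ^ 2 * ν) := by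
      have : 0 ≤ x ^ 4 := by positivity
      have : 0 ≤ y ^ 4 := by positivity
      rw [abs_le]
      constructor <;> linarith
    have h6 := hC 6 (by norm_num)
    rw [TT, cube_rpow (e := 4 / 3) hx 4 (by norm_num), cube_rpow (e := 4 / 3) hy 4 (by norm_num),
      hh, hh', abs_mul, abs_of_pos (mul_pos ha hb)]
    calc _ ≤ (K * K) * (2 * K ^ 4 * (e ^ 2 * ω + f ^ 2 * ν)) := by gcongr
      _ = 2 * K ^ 6 * (e ^ 2 * ω + f ^ 2 * ν) := by ring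
      _ ≤ _ := by gcongr

end Pool.Agent.Lib.TFW
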