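import Pool.Agent.Lib.TFW.Blue

/-! Block SPH: the spherical average of the source term against an exponential. -/

open MeasureTheory Filter Topology Set Real
open scoped ENNReal

namespace Pool.Agent.Lib.TFW

open Pool.Agent.Lib.MP_689e73_mp (spherical)

namespace T65

theorem ang {a : ℝ} (ha : 0 < a) :
    ∫⁻ θ in Ioo (-π) π, ENNReal.ofReal (sin θ * exp (a * cos θ)) =
      ENNReal.ofReal (2 * sinh a / a) := by
  have hc : Continuous (fun θ : ℝ => sin θ * exp (a * cos θ)) := by fun_prop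
  have hu : Ioo (-π) π = Ioc (-π) 0 ∪ Ioo 0 π :=
    (Ioc_union_Ioo_eq_Ioo (by linarith [pi_pos]) pi_pos).symm
  rw [hu, lintegral_union measurableSet_Ioo (by
    rw [Set.disjoint_left]; intro a h1 h2; exact absurd h2.1 (not_lt.2 h1.2))]
  have z : ∫⁻ θ in Ioc (-π) 0, ENNReal.ofReal (sin θ * exp (a * cos θ)) = 0 := by
    rw [setLIntegral_congr_fun measurableSet_Ioc (g := fun _ => 0) fun θ hθ =>
      ENNReal.ofReal_of_nonpos (mul_nonpos_of_nonpos_of_nonneg
        (sin_nonpos_of_nonpos_of_neg_pi_le hθ.2 hθ.1.le) (by positivity))]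
    simp
  rw [z, zero_add, ← ofReal_integral_eq_lintegral_ofReal
    ((hc.integrableOn_Icc (a := 0) (b := π)).mono_set Ioo_subset_Icc_self)
    ((ae_restrict_iff' measurableSet_Ioo).2 (Eventually.of_forall fun θ hθ =>
      mul_nonneg (sin_nonneg_of_nonneg_of_le_pi hθ.1.le hθ.2.le) (by positivity))),
    ← integral_Ioc_eq_integral_Ioo, ← intervalIntegral.integral_of_le pi_pos.le]
  congr 1
  have hd : ∀ θ ∈ uIcc 0 π, HasDerivAt (fun θ : ℝ => -a⁻¹ * exp (a * cos θ))
      (sin θ * exp (a * cos θ)) θ := by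
    intro θ _
    have h1 := (((hasDerivAt_cos θ).const_mul a).exp).const_mul (-a⁻¹)
    refine h1.congr_deriv ?_
    field_simp
  rw [intervalIntegral.integral_eq_sub_of_hasDerivAt hd (hc.intervalIntegrable _ _), cos_pi,
    cos_zero, sinh_eq, mul_neg, mul_one]
  field_simp
  ring

theorem lrad {κ : ℝ} (hκ : 0 < κ) {f : ℝ → ℝ} (hm : Measurable f) (hf : ∀ r, 0 < r → 0 ≤ f r) :
    ∫⁻ x : E3, ENNReal.ofReal (f ‖x‖ * exp (κ * x 0)) =
      ∫⁻ r in Ioi (0 : ℝ), ENNReal.ofReal (4 * π / κ * (f r * r * sinh (κ * r))) := by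
  have hG : Measurable (fun p : ℝ × ℝ => ENNReal.ofReal (f p.2 * exp (κ * p.1))) :=
    ((hm.comp measurable_snd).mul (measurable_fst.const_mul κ).exp).ennreal_ofReal
  rw [spherical hG]
  refine setLIntegral_congr_fun measurableSet_Ioi fun r hr => ?_
  have hr0 : 0 < r := hr
  have hp := hf r hr0
  have hpi := pi_pos
  have e : ∀ θ : ℝ, ENNReal.ofReal r * (ENNReal.ofReal (2 * π) * (ENNReal.ofReal (r * sin θ) *
      ENNReal.ofReal (f r * exp (κ * (r * cos θ))))) =
      ENNReal.ofReal (r * (2 * π) * (r * f r)) *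
        ENNReal.ofReal (sin θ * exp (κ * r * cos θ)) := by
    intro θ
    rw [← ENNReal.ofReal_mul' (by positivity), ← ENNReal.ofReal_mul (by positivity),
      ← ENNReal.ofReal_mul (by positivity), ← ENNReal.ofReal_mul (by positivity), mul_assoc κ]
    congr 1; ring
  simp only [e]
  rw [lintegral_const_mul' _ _ ENNReal.ofReal_ne_top, ang (mul_pos hκ hr0),
    ← ENNReal.ofReal_mul (by positivity)]
  congr 1
  field_simp
  ring

theorem rad {κ : ℝ} (hκ : 0 < κ) {f : ℝ → ℝ} (hm : Measurable f) (hf : ∀ r, 0 < r → 0 ≤ f r)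
    (hi : IntegrableOn (fun r => f r * r * sinh (κ * r)) (Ioi 0)) :
    Integrable (fun x : E3 => f ‖x‖ * exp (κ * x 0)) ∧
      ∫ x : E3, f ‖x‖ * exp (κ * x 0) =
        4 * π / κ * ∫ r in Ioi (0 : ℝ), f r * r * sinh (κ * r) := by
  have hpi := pi_pos
  have h0 : ∀ᵐ x : E3, x ≠ 0 := compl_mem_ae_iff.2 (measure_singleton 0)
  have hn : 0 ≤ᵐ[volume] fun x : E3 => f ‖x‖ * exp (κ * x 0) := by
    filter_upwards [h0] with x hx
    exact mul_nonneg (hf _ (norm_pos_iff.2 hx)) (exp_pos _).le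
  have hn' : 0 ≤ᵐ[volume.restrict (Ioi (0 : ℝ))] fun r => 4 * π / κ * (f r * r * sinh (κ * r)) :=
    (ae_restrict_iff' measurableSet_Ioi).2 (Eventually.of_forall fun r hr => by
      have hr0 : 0 < r := hr
      have h1 := hf r hr0
      have h2 : 0 ≤ sinh (κ * r) := sinh_nonneg_iff.2 (by positivity)
      positivity)
  have hms : Measurable fun x : E3 => f ‖x‖ * exp (κ * x 0) :=
    (hm.comp measurable_norm).mul (by fun_prop)
  have hl := lrad hκ hm hf
  rw [← ofReal_integral_eq_lintegral_ofReal (hi.const_mul _) hn'] at hl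
  have hI : Integrable (fun x : E3 => f ‖x‖ * exp (κ * x 0)) :=
    ⟨hms.aestronglyMeasurable, (hasFiniteIntegral_iff_ofReal hn).2 (by
      rw [hl]; exact ENNReal.ofReal_lt_top)⟩
  refine ⟨hI, ?_⟩
  rw [← ofReal_integral_eq_lintegral_ofReal hI hn, ENNReal.ofReal_eq_ofReal_iff
    (integral_nonneg_of_ae hn) (integral_nonneg_of_ae hn'), integral_const_mul] at hl
  exact hl

theorem sinh_le (t : ℝ) : sinh t ≤ exp t := by
  rw [sinh_eq]
  have := exp_pos t
  have := exp_pos (-t)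
  linarith

variable {P : At} {K : ℝ}

theorem u_le (h : P.Ok K) {r : ℝ} (hr : 0 < r) : P.u r ≤ K * exp (-(P.κ * r)) := by
  refine (h.pt r hr).up.trans (div_le_self ?_ (by linarith))
  have := h.hK
  positivity

theorem u_le' (h : P.Ok K) {r : ℝ} (hr : 0 < r) : P.u r ≤ K := by
  have h1 : exp (-(P.κ * r)) ≤ 1 := exp_le_one_iff.2 (by have := mul_pos h.hκ hr; linarith)
  have := h.hK
  exact (u_le h hr).trans (mul_le_of_le_one_right (by linarith) h1)

theorem us_le (h : P.Ok K) {r : ℝ} (hr : 0 < r) : P.u r * (1 + r) * sinh (P.κ * r) ≤ K := by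
  have h1 : P.u r * (1 + r) ≤ K * exp (-(P.κ * r)) :=
    (le_div_iff₀ (by linarith)).1 (h.pt r hr).up
  have h2 : 0 ≤ sinh (P.κ * r) := sinh_nonneg_iff.2 (mul_pos h.hκ hr).le
  have hK := h.hK
  calc _ ≤ K * exp (-(P.κ * r)) * exp (P.κ * r) :=
        mul_le_mul h1 (sinh_le _) h2 (by positivity)
    _ = K := by rw [mul_assoc, ← exp_add]; simp

theorem int1 (h : P.Ok K) :
    IntegrableOn (fun r => P.u r * P.φ r * r * sinh (P.κ * r)) (Ioi 0) := by
  have hκ := h.hκ
  have hK := h.hK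
  refine Integrable.mono' ((exp_neg_integrableOn_Ioi 0 (b := 2 * P.κ) (by positivity)).const_mul
    (K * K)) (((h.mu.mul h.mφ).mul measurable_id).mul (by fun_prop)).aestronglyMeasurable
    ((ae_restrict_iff' measurableSet_Ioi).2 (Eventually.of_forall fun r hr => ?_))
  have hr0 : 0 < r := hr
  have h1 := h.nn r
  have h2 := (h.pt r hr0).p0
  have h3 : 0 ≤ sinh (P.κ * r) := sinh_nonneg_iff.2 (by positivity)
  have h4 : P.φ r * r ≤ K * exp (-(P.κ * r)) ^ 2 := (le_div_iff₀ hr0).1 (h.pt r hr0).p1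
  have h5 : P.u r * sinh (P.κ * r) ≤ K := by
    refine le_trans ?_ (us_le h hr0)
    have : 0 ≤ P.u r * r * sinh (P.κ * r) := by positivity
    linarith
  rw [Real.norm_of_nonneg (by positivity)]
  calc _ = (P.u r * sinh (P.κ * r)) * (P.φ r * r) := by ring
    _ ≤ K * (K * exp (-(P.κ * r)) ^ 2) := mul_le_mul h5 h4 (by positivity) (by positivity)
    _ = _ := by rw [← exp_nat_mul, ← mul_assoc]; congr 2; push_cast; ring

theorem int2 (h : P.Ok K) :
    IntegrableOn (fun r => P.u r * P.u r ^ (4 / 3 : ℝ) * r * sinh (P.κ * r)) (Ioi 0) := by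
  have hκ := h.hκ
  have hK := h.hK
  refine Integrable.mono' ((exp_neg_integrableOn_Ioi 0 (b := 4 / 3 * P.κ)
    (by positivity)).const_mul (K * K ^ (4 / 3 : ℝ)))
    (((h.mu.mul (h.mu.pow_const _)).mul measurable_id).mul (by fun_prop)).aestronglyMeasurable
    ((ae_restrict_iff' measurableSet_Ioi).2 (Eventually.of_forall fun r hr => ?_))
  have hr0 : 0 < r := hr
  have h1 := h.nn r
  have h3 : 0 ≤ sinh (P.κ * r) := sinh_nonneg_iff.2 (by positivity)
  have h4 : P.u r ^ (4 / 3 : ℝ) ≤ (K * exp (-(P.κ * r))) ^ (4 / 3 : ℝ) :=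
    rpow_le_rpow h1 (u_le h hr0) (by norm_num)
  have h5 : P.u r * r * sinh (P.κ * r) ≤ K := by
    refine le_trans ?_ (us_le h hr0)
    have : 0 ≤ P.u r * sinh (P.κ * r) := by positivity
    linarith
  rw [Real.norm_of_nonneg (by positivity)]
  calc _ = (P.u r * r * sinh (P.κ * r)) * P.u r ^ (4 / 3 : ℝ) := by ring
    _ ≤ K * (K * exp (-(P.κ * r))) ^ (4 / 3 : ℝ) :=
        mul_le_mul h5 h4 (by positivity) (by positivity)
    _ = _ := by
        rw [mul_rpow (by positivity) (by positivity), ← exp_mul, ← mul_assoc]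
        congr 2; ring

/-- the Wronskian of `r u` and `sinh (κ r)` -/
noncomputable def HH (P : At) (r : ℝ) : ℝ :=
  P.κ * (r * P.u r) * cosh (P.κ * r) - (P.u r + r * P.v r) * sinh (P.κ * r)

theorem HH_deriv (h : P.Ok K) {r : ℝ} (hr : 0 < r) : HasDerivAt (HH P)
    (A⁻¹ * (P.u r * P.φ r * r * sinh (P.κ * r) -
      P.u r * P.u r ^ (4 / 3 : ℝ) * r * sinh (P.κ * r))) r := by
  have h0 : HasDerivAt (fun r => P.κ * r) P.κ r := by
    simpa using (hasDerivAt_id r).const_mul P.κ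
  have h1 := ((((hasDerivAt_id' r).fun_mul (h.d1 r hr)).const_mul P.κ).fun_mul h0.cosh).fun_sub
    (((h.d1 r hr).fun_add ((hasDerivAt_id' r).fun_mul (h.d2 r hr))).fun_mul h0.sinh)
  refine h1.congr_deriv ?_
  have := A_pos
  unfold At.FL
  field_simp
  ring

theorem HH_zero (h : P.Ok K) : ContinuousWithinAt (HH P) (Ici 0) 0 := by
  have hκ := h.hκ
  have hK := h.hK
  rw [← continuousWithinAt_Ioi_iff_Ici]
  have e : HH P 0 = 0 := by simp [HH]
  unfold ContinuousWithinAt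
  rw [e]
  have hc : Continuous fun r : ℝ =>
      P.κ * (r * K) * cosh (P.κ * r) + (K + r * (K * K)) * sinh (P.κ * r) := by fun_prop
  have hc0 := (hc.tendsto 0).mono_left (nhdsWithin_le_nhds (s := Ioi 0))
  simp only [zero_mul, mul_zero, sinh_zero, add_zero] at hc0
  refine squeeze_zero_norm' ?_ hc0
  filter_upwards [self_mem_nhdsWithin] with r hr
  have hr0 : 0 < r := hr
  have h1 := h.nn r
  have h2 := u_le' h hr0
  have h3 : 0 ≤ sinh (P.κ * r) := sinh_nonneg_iff.2 (by positivity)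
  have h4 := cosh_pos (P.κ * r)
  have h5 : |P.v r| ≤ K * K := (h.dv r hr0).trans (mul_le_mul_of_nonneg_left h2 (by linarith))
  have h6 : |P.u r + r * P.v r| ≤ K + r * (K * K) := by
    refine (abs_add_le _ _).trans (add_le_add (by rwa [abs_of_nonneg h1]) ?_)
    rw [abs_mul, abs_of_pos hr0]
    exact mul_le_mul_of_nonneg_left h5 hr0.le
  refine (norm_sub_le _ _).trans (add_le_add ?_ ?_)
  · rw [Real.norm_of_nonneg (by positivity)]
    gcongr
  · rw [Real.norm_eq_abs, abs_mul, abs_of_nonneg h3]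
    exact mul_le_mul_of_nonneg_right h6 h3

theorem HH_top (h : P.Ok K) : Tendsto (HH P) atTop (𝓝 (P.κ * P.c)) := by
  have hκ := h.hκ
  have hE : Tendsto (fun r => exp (-(2 * P.κ * r))) atTop (𝓝 0) :=
    tendsto_exp_neg_atTop_nhds_zero.comp (tendsto_id.const_mul_atTop (by positivity))
  have h1 := ((h.lim.const_mul P.κ).mul ((hE.const_add 1).div_const 2)).sub
    (((h.lim.mul tendsto_inv_atTop_zero).add h.lim').mul ((hE.const_sub 1).div_const 2))
  have e : P.κ * P.c * ((1 + 0) / 2) - (P.c * 0 + -(P.κ * P.c)) * ((1 - 0) / 2) = P.κ * P.c := by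
    ring
  rw [e] at h1
  refine h1.congr' ?_
  filter_upwards [eventually_gt_atTop 0] with r hr
  have h2 : exp (-(P.κ * r)) = exp (P.κ * r) * exp (-(2 * P.κ * r)) := by
    rw [← exp_add]; congr 1; ring
  unfold HH
  rw [cosh_eq, sinh_eq, h2]
  field_simp

end T65

theorem st_SPH : St_SPH := by
  intro P K h
  obtain ⟨i1, e1⟩ := T65.rad h.hκ (f := fun r => P.u r * P.φ r) (h.mu.mul h.mφ)
    (fun r hr => mul_nonneg (h.nn r) (h.pt r hr).p0) (T65.int1 h)
  obtain ⟨i2, e2⟩ := T65.rad h.hκ (f := fun r => P.u r * P.u r ^ (4 / 3 : ℝ))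
    (h.mu.mul (h.mu.pow_const _)) (fun r _ => mul_nonneg (h.nn r) (rpow_nonneg (h.nn r) _))
    (T65.int2 h)
  have h3 := integral_Ioi_of_hasDerivAt_of_tendsto (T65.HH_zero h)
    (fun r hr => T65.HH_deriv h hr) (((T65.int1 h).sub (T65.int2 h)).const_mul A⁻¹) (T65.HH_top h)
  have e0 : T65.HH P 0 = 0 := by simp [T65.HH]
  rw [integral_const_mul, integral_sub (T65.int1 h) (T65.int2 h), e0, sub_zero] at h3
  have e : ∀ x : E3, P.u ‖x‖ * (P.φ ‖x‖ - P.u ‖x‖ ^ (4 / 3 : ℝ)) * exp (P.κ * x 0) =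
      P.u ‖x‖ * P.φ ‖x‖ * exp (P.κ * x 0) - P.u ‖x‖ * P.u ‖x‖ ^ (4 / 3 : ℝ) * exp (P.κ * x 0) :=
    fun x => by ring
  simp only [e]
  rw [integral_sub i1 i2, e1, e2, ← mul_sub, (inv_mul_eq_iff_eq_mul₀ A_pos.ne').1 h3]
  have := h.hκ
  field_simp

end Pool.Agent.Lib.TFW
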