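import Pool.Agent.Lib.TFW.Blue

open MeasureTheory Filter Topology Set Real

namespace Pool.Agent.Lib.TFW

open Pool.Agent.Lib.MP_6c3a95_mp

namespace T12

lemma tri_lim {F : ℕ → E3 → ℝ} {G ψ : E3 → ℝ} {C : ℝ} (hm : ∀ n, Measurable (F n))
    (hb : ∀ n x, |F n x| ≤ C) (hl : ∀ᵐ x, Tendsto (fun n => F n x) atTop (𝓝 (G x)))
    (hψ : Integrable ψ) :
    Tendsto (fun n => ∫ x, F n x * ψ x) atTop (𝓝 (∫ x, G x * ψ x)) := by
  refine tendsto_integral_of_dominated_convergence (fun x => C * ‖ψ x‖)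
    (fun n => (hm n).aestronglyMeasurable.mul hψ.aestronglyMeasurable) (hψ.norm.const_mul C)
    (fun n => Eventually.of_forall fun x => ?_) (hl.mono fun x hx => hx.mul_const _)
  rw [norm_mul]
  exact mul_le_mul_of_nonneg_right (hb n x) (norm_nonneg _)

lemma tri_u {P : At} {K : ℝ} (h : P.Ok K) {r : ℝ} (hr : 0 < r) : |P.u r| ≤ K := by
  rw [abs_of_nonneg (h.nn r)]
  refine (h.pt r hr).up.trans ?_
  have h1 : exp (-(P.κ * r)) ≤ 1 := exp_le_one_iff.2 (by have := h.hκ; nlinarith)
  have h2 := h.hK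
  rw [div_le_iff₀ (by linarith)]
  nlinarith

lemma tri_dir {y : E3} {s : ℝ} (hs : ‖y‖ ≤ s) (i : Fin 3) : |y i / s| ≤ 1 := by
  rw [abs_div, abs_of_nonneg ((norm_nonneg y).trans hs)]
  refine div_le_one_of_le₀ (le_trans ?_ hs) ((norm_nonneg y).trans hs)
  exact PiLp.norm_apply_le y i

lemma tri_v {P : At} {K : ℝ} (h : P.Ok K) {y : E3} {s : ℝ} (hs : ‖y‖ ≤ s) (i : Fin 3) :
    |P.v s * (y i / s)| ≤ K * P.u s := by
  have hK : 0 ≤ K := zero_le_one.trans h.hK
  rcases ((norm_nonneg y).trans hs).eq_or_lt with h0 | h0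
  · rw [← h0, div_zero, mul_zero, abs_zero]
    exact mul_nonneg hK (h.nn _)
  · rw [abs_mul]
    calc |P.v s| * |y i / s| ≤ K * P.u s * 1 :=
          mul_le_mul (h.dv s h0) (tri_dir hs i) (abs_nonneg _) (mul_nonneg hK (h.nn _))
      _ = K * P.u s := mul_one _

lemma tri_ld {P : At} {K : ℝ} (h : P.Ok K) {ε : ℝ} (hε : 0 < ε) (b : E3) (i : Fin 3) :
    LD (fun x : E3 => P.u (sL ε (x - b)))
      (fun x => P.v (sL ε (x - b)) * ((x - b) i / sL ε (x - b))) (bv i) := by
  have h1 : LD (fun x : E3 => sL ε (x - b)) (fun x => (x - b) i / sL ε (x - b)) (bv i) := by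
    intro x
    have h2 := LD_sL (ContinuousLinearMap.id ℝ E3) hε (bv i) (x - b)
    simp only [ContinuousLinearMap.id_apply, inner_bv] at h2
    have e : (fun t : ℝ => sL ε (x + t • bv i - b)) = fun t : ℝ => sL ε (x - b + t • bv i) := by
      funext t
      rw [add_sub_right_comm]
    show HasDerivAt (fun t : ℝ => sL ε (x + t • bv i - b)) _ 0
    rw [e]
    exact h2
  exact h1.comp fun x => h.d1 _ (sL_pos hε _)

end T12

open T12 in
theorem st_TRI : St_TRI := by
  intro P K b i h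
  have hK : 0 ≤ K := zero_le_one.trans h.hK
  have mu := h.mu
  have mv := h.mv
  have m1 : Measurable fun x : E3 => P.u ‖x - b‖ := by fun_prop
  have m2 : Measurable (P.gr b i) := by unfold At.gr; fun_prop
  have i1 : Integrable fun x : E3 => P.u ‖x‖ ^ 2 :=
    Integrable.of_integral_ne_zero (by rw [h.mass]; exact h.hz.ne')
  have l1 : MemLp (fun x : E3 => P.u ‖x - b‖) 2 :=
    (memLp_two_iff_integrable_sq m1.aestronglyMeasurable).2 (i1.comp_sub_right b)
  refine ⟨l1, ?_, fun φ hφ => ?_⟩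
  · refine l1.of_le_mul (c := K) m2.aestronglyMeasurable (Eventually.of_forall fun x => ?_)
    rw [Real.norm_eq_abs, Real.norm_eq_abs, abs_of_nonneg (h.nn _)]
    exact tri_v h le_rfl i
  · have iφ : Integrable φ := hφ.smooth.continuous.integrable_of_hasCompactSupport hφ.cpt
    have iφ' : Integrable (dd φ (bv i)) :=
      (hφ.dd _).smooth.continuous.integrable_of_hasCompactSupport (hφ.dd _).cpt
    let η : ℕ → ℝ := fun n => 1 / ((n : ℝ) + 1)
    have η0 : ∀ n, 0 < η n := fun n => by positivity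
    have ηl : Tendsto η atTop (𝓝 0) := tendsto_one_div_add_atTop_nhds_zero_nat
    have ms : ∀ n, Measurable (sL (η n)) := fun n => (sL_cont _).measurable
    let F : ℕ → E3 → ℝ := fun n x => P.u (sL (η n) (x - b))
    let F' : ℕ → E3 → ℝ := fun n x => P.v (sL (η n) (x - b)) * ((x - b) i / sL (η n) (x - b))
    have mF : ∀ n, Measurable (F n) := fun n => by have := ms n; fun_prop
    have mF' : ∀ n, Measurable (F' n) := fun n => by have := ms n; fun_prop
    have bF : ∀ n x, |F n x| ≤ K := fun n x => tri_u h (sL_pos (η0 n) _)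
    have bF' : ∀ n x, |F' n x| ≤ K * K := fun n x =>
      (tri_v h (norm_le_sL _ _) i).trans
        (mul_le_mul_of_nonneg_left ((le_abs_self _).trans (bF n x)) hK)
    have hne : ∀ᵐ x : E3, 0 < ‖x - b‖ := by
      have : ∀ᵐ x : E3, x ∉ ({b} : Set E3) := compl_mem_ae_iff.2 (measure_singleton b)
      exact this.mono fun x hx => norm_pos_iff.2 (sub_ne_zero.2 hx)
    have t1 := tri_lim (G := fun x => P.u ‖x - b‖) mF bF (hne.mono fun x hx =>
      (h.d1 _ hx).continuousAt.tendsto.comp (sL_tendsto ηl (x - b))) iφ'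
    have t2 := tri_lim (G := P.gr b i) mF' bF' (hne.mono fun x hx =>
      ((h.d2 _ hx).continuousAt.tendsto.comp (sL_tendsto ηl (x - b))).mul
        (tendsto_const_nhds.div (sL_tendsto ηl (x - b)) hx.ne')) iφ
    have key : ∀ n, ∫ x, F n x * dd φ (bv i) x = -∫ x, F' n x * φ x := fun n =>
      integral_bilinear_hasLineDerivAt_right_eq_neg_left_of_integrable (μ := volume)
        (f := F n) (f' := F' n) (g := φ) (g' := dd φ (bv i)) (v := bv i)
        (B := ContinuousLinearMap.mul ℝ ℝ)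
        (iφ.bdd_mul (mF' n).aestronglyMeasurable (Eventually.of_forall (bF' n)))
        (iφ'.bdd_mul (mF n).aestronglyMeasurable (Eventually.of_forall (bF n)))
        (iφ.bdd_mul (mF n).aestronglyMeasurable (Eventually.of_forall (bF n)))
        (fun x _ => tri_ld h (η0 n) b i x)
        (fun x _ => ((hφ.smooth.differentiable (by simp)) x).hasFDerivAt.hasLineDerivAt _)
    simp only [key] at t1
    exact tendsto_nhds_unique t1 t2.neg

end Pool.Agent.Lib.TFW
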