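import Pool.Agent.Lib.TFW.Basic

/-! Row UPA: the upper bound for the molecule with equal decay rates. -/

open MeasureTheory Filter Topology Set Real

namespace Pool.Agent.Lib.TFW

open Pool.Agent.Lib.MP_689e73_mp (psi DD LL HI e0 ae_ne N1 DD_symm DD_expand abs_DD_le
  abs_psi_le_psi_abs)

namespace U28

/-- the comparison weight -/
noncomputable def ee (κ : ℝ) (b x : E3) : ℝ := exp (-(2 / 3 * κ * ‖x - b‖))

lemma ee_le_hw (κ : ℝ) (b x : E3) : ee κ b x ≤ hw κ ‖x - b‖ := exp_le_hw κ (norm_nonneg _)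

lemma ee_ll {κ : ℝ} (hκ : 0 < κ) (b : E3) : LL (ee κ b) := by
  have hm : Measurable (ee κ b) := by unfold ee; fun_prop
  refine LL_of_bdd (M := 1) hm (int_of_le_hw (C := 1) hκ b hm.aestronglyMeasurable fun x _ => ?_)
    (Eventually.of_forall fun x => ?_)
  · rw [one_mul]; exact (abs_of_pos (exp_pos _)).le.trans (ee_le_hw κ b x)
  · rw [ee, abs_of_pos (exp_pos _)]
    exact exp_le_one_iff.2 (neg_nonpos.2 (by positivity))

lemma ee_psi {κ : ℝ} (hκ : 0 < κ) : ∃ C, 0 ≤ C ∧ ∀ b x, psi (ee κ b) x ≤ C := by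
  obtain ⟨C, hC⟩ := (ee_ll hκ 0).psi_bdd
  have h0 : ∀ y, |ee κ 0 y| = ee κ 0 y := fun y => abs_of_pos (exp_pos _)
  simp only [h0] at hC
  refine ⟨C, (MP_689e73_mp.psi_nonneg (fun y => (exp_pos _).le) 0).trans (hC 0), fun b x => ?_⟩
  have : ee κ b = fun y => ee κ 0 (y - b) := by funext y; simp [ee]
  rw [this, psi_shift]
  exact hC _

lemma psi_mul (c : ℝ) (σ : E3 → ℝ) (x : E3) : psi (fun y => c * σ y) x = c * psi σ x := by
  unfold psi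
  rw [← integral_const_mul]
  congr 1; ext y; ring

lemma Hhw {κ : ℝ} (hκ : 0 < κ) (b : E3) :
    HI (fun x : E3 => hw κ ‖x - b‖) (∫ x : E3, hw κ ‖x‖) := ⟨hw_int hκ b, hw_integral κ b⟩

lemma W_eq {P Q : At} {K : ℝ} (hP : P.Ok K) (hQ : Q.Ok K) (hκ : P.κ = Q.κ) (b₁ b₂ : E3) :
    ∀ᵐ x, La P Q 1 1 b₁ b₂ x / Ps P Q 1 1 b₁ b₂ x =
      ss (P.u ‖x - b₁‖) (Q.u ‖x - b₂‖) (P.φ ‖x - b₁‖) (Q.φ ‖x - b₂‖) + A * P.κ ^ 2 -
        Vm P.z Q.z b₁ b₂ x + psi (fun y => P.ρ b₁ y + Q.ρ b₂ y) x := by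
  filter_upwards [ae_ne b₁, ae_ne b₂] with x h1 h2
  have ha := hP.pos (hP.ptx h1).r0
  have hb := hQ.pos (hQ.ptx h2).r0
  have e : -Vm P.z Q.z b₁ b₂ x + psi (fun y => P.ρ b₁ y + Q.ρ b₂ y) x =
      -(P.φ ‖x - b₁‖ + Q.φ ‖x - b₂‖) := by
    rw [(hP.ll b₁).psi_add (hQ.ll b₂), hP.newton b₁ x h1, hQ.newton b₂ x h2, Vm]; ring
  rw [sub_eq_add_neg, add_assoc, e]
  simp only [La, Ps, At.FL, ss, one_mul, ← hκ]
  field_simp
  ring

end U28

open U28 in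
theorem st_UPA (hKIN : St_KIN) (hDUAL : St_DUAL) (hBDD : St_BDD) (hUPP : St_UPP) (hPT : St_PT) :
    St_UPA := by
  intro P Q K hP hQ hκ
  have hk := hP.hκ
  have hK := hP.hK
  obtain ⟨C₁, hC₁, hU⟩ := hUPP P.κ K hk hK
  obtain ⟨C₂, hC₂, hT⟩ := hPT P.κ K hk hK
  obtain ⟨B₁, hB₁, hb₁⟩ := hP.psi_bdd
  obtain ⟨B₂, hB₂, hb₂⟩ := hQ.psi_bdd
  obtain ⟨B₃, hB₃, hb₃⟩ := ee_psi hk
  set H := ∫ x : E3, hw P.κ ‖x‖ with hH
  have hH0 : 0 ≤ H := integral_nonneg fun x => hw_nonneg _ (norm_nonneg _)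
  have hz1 := hP.hz
  have hz2 := hQ.hz
  set N := P.z + Q.z with hN
  have hN0 : 0 < N := by positivity
  set c := 2 * (C₂ * (H + H)) / N with hc
  have hc0 : 0 ≤ c := by positivity
  set M := c + 2 * C₂ with hM
  have hM0 : 0 ≤ M := by positivity
  refine ⟨P.z * K + C₂ * H + M * (B₁ + B₂ + (B₃ + B₃)) * (M * (N + (H + H))) / 2 +
    C₁ * (1 + c + c ^ 2) * (H + H), fun R hR => ?_⟩
  have hR0 : 0 ≤ R := by linarith
  set b := R • e0 with hb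
  have hnb : ‖(0 : E3) - b‖ = R := by rw [zero_sub, norm_neg, norm_pos_e0 hR0]
  have hb0 : (0 : E3) ≠ b := fun h => by rw [← h] at hnb; simp at hnb; linarith
  set E := exp (-(2 / 3 * P.κ * R)) with hE
  have hE0 : 0 < E := exp_pos _
  have hE4 : exp (-(4 / 3 * P.κ * R)) = E ^ 2 := by rw [hE, ← exp_nat_mul]; congr 1; ring
  have he2 : ∀ x : E3, exp (-(2 / 3 * P.κ * (‖x - 0‖ + ‖x - b‖))) ≤ E := fun x =>
    exp_le_exp.2 (by nlinarith [tri_e0 hR0 x])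
  have he4 : ∀ x : E3, exp (-(4 / 3 * P.κ * (‖x - 0‖ + ‖x - b‖))) ≤ E ^ 2 := fun x => by
    rw [← hE4]; exact exp_le_exp.2 (by nlinarith [tri_e0 hR0 x])
  have hq : ∀ {x : E3}, x ≠ b → Pt P.κ K ‖x - b‖ (Q.u ‖x - b‖) (Q.φ ‖x - b‖) := fun hx =>
    hκ ▸ hQ.ptx hx
  have hT' := fun (x : E3) (h1 : x ≠ 0) (h2 : x ≠ b) => hT _ _ _ _ _ _ (hP.ptx h1) (hq h2)
  have Hw := (Hhw hk 0).add (Hhw hk b)
  -- the overlap
  have hab : ∀ᵐ x : E3, P.u ‖x - 0‖ * Q.u ‖x - b‖ ≤ C₂ * E * (ee P.κ 0 x + ee P.κ b x) := by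
    filter_upwards [ae_ne 0, ae_ne b] with x h1 h2
    refine (hT' x h1 h2).1.trans ?_
    unfold ee
    gcongr
    exact he2 x
  have iab := HI.of (hP.int_mul 0 (hQ.int_u b))
  set S := ∫ x : E3, P.u ‖x - 0‖ * Q.u ‖x - b‖ with hS
  have hS0 : 0 ≤ S := integral_nonneg fun x => mul_nonneg (hP.nn _) (hQ.nn _)
  have hS1 : S ≤ C₂ * E * (H + H) := by
    refine iab.le (Hw.const_mul (C₂ * E)) ?_
    filter_upwards [hab] with x hx
    exact hx.trans (mul_le_mul_of_nonneg_left (add_le_add (ee_le_hw _ _ _) (ee_le_hw _ _ _))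
      (by positivity))
  have hPs : ∀ x, Ps P Q 1 1 0 b x = P.u ‖x - 0‖ + Q.u ‖x - b‖ := fun x => by simp only [Ps, one_mul]
  have hτ := (hP.Hmass 0).add (hQ.Hmass b)
  have iPs : HI (fun x => Ps P Q 1 1 0 b x ^ 2) (N + 2 * S) :=
    (hτ.add (iab.const_mul 2)).congr (Eventually.of_forall fun x => by
      simp only [hPs, At.ρ]; ring)
  set t := N / (N + 2 * S) with ht
  have ht0 : 0 < t := by positivity
  have ht1 : t ≤ 1 := by rw [ht, div_le_one (by positivity)]; linarith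
  have htN : t * (N + 2 * S) = N := div_mul_cancel₀ _ (by positivity)
  have ht2 : 1 - t ≤ c * E := by
    have h1 : 1 - t = 2 * S / (N + 2 * S) := by rw [ht]; field_simp; ring
    have h2 : c * E = 2 * (C₂ * E * (H + H)) / N := by rw [hc]; ring
    rw [h1, h2]
    gcongr
    linarith
  obtain ⟨g, hg, hg'⟩ := (hKIN P Q K 1 1 0 b hP hQ one_pos zero_le_one).2 t ht0
  rw [iPs.2, htN] at hg
  have lτ := (hP.ll 0).add (hQ.ll b)
  have mss : Measurable fun x : E3 =>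
      ss (P.u ‖x - 0‖) (Q.u ‖x - b‖) (P.φ ‖x - 0‖) (Q.φ ‖x - b‖) :=
    (((((hP.mux 0).pow_const _).add (hQ.mφx b)).mul (hP.mux 0)).add
      ((((hQ.mux b).pow_const _).add (hP.mφx 0)).mul (hQ.mux b))).div ((hP.mux 0).add (hQ.mux b))
  have mPs : Measurable fun x => t * Ps P Q 1 1 0 b x ^ 2 := by
    simp only [hPs]; exact (((hP.mux 0).add (hQ.mux b)).pow_const 2).const_mul t
  have lρ : LL fun x => t * Ps P Q 1 1 0 b x ^ 2 := ⟨mPs, hg.int, hg.lp⟩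
  obtain ⟨is, hxi⟩ := (hDUAL P.z Q.z (A * P.κ ^ 2) N 0 b _ _ _ _ g lτ
    (fun x => add_nonneg (At.Ok.ρ_nonneg P 0 x) (At.Ok.ρ_nonneg Q b x)) mss
    (by filter_upwards [ae_ne 0, ae_ne b] with x h1 h2 using (hT' x h1 h2).2.2.1)
    (int_of_le_hw2 (C := C₂) hk hk 0 b (mss.pow_const _).aestronglyMeasurable fun x h1 h2 => by
      rw [abs_of_nonneg (rpow_nonneg (hT' x h1 h2).2.2.1 _)]; exact (hT' x h1 h2).2.2.2.1)
    (W_eq hP hQ hκ 0 b) hg).2 lρ hg'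
  have hEV : EV (Vm P.z Q.z 0 b) N ≤ xi (Vm P.z Q.z 0 b) _ g :=
    csInf_le (hBDD P.z Q.z N 0 b hz1.le hz2.le) ⟨_, g, hg, rfl⟩
  -- Coulomb terms
  have hDD : DD (fun y => P.ρ 0 y + Q.ρ b y) (fun y => P.ρ 0 y + Q.ρ b y) =
      P.D + 2 * DD (P.ρ 0) (Q.ρ b) + Q.D := by
    have := DD_expand (hP.ll 0) (hQ.ll b) 1
    simp only [one_mul, mul_one, one_pow] at this
    rw [this, At.Ok.DD_ρ, At.Ok.DD_ρ, DD_symm (hQ.ll b) (hP.ll 0)]
  have h1 : P.z * Q.z / R - DD (P.ρ 0) (Q.ρ b) ≤ (P.z * K + C₂ * H) * E ^ 2 := by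
    have e := hP.nuc hQ hb0
    rw [hnb] at e
    have j1 : Q.φ R ≤ K * E ^ 2 := by
      have := (hq hb0).p1
      rw [hnb] at this
      refine this.trans ((div_le_self (by positivity) hR).trans ?_)
      gcongr
      exact exp_le_exp.2 (by nlinarith [mul_nonneg hk.le hR0])
    have j2 : ∫ x, Q.ρ b x * P.φ ‖x - 0‖ ≤ C₂ * E ^ 2 * H := by
      refine (HI.of (hP.Hφ 0 (hQ.ll b)).1).le ((Hhw hk 0).const_mul _) ?_
      filter_upwards [ae_ne 0, ae_ne b] with x h1 h2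
      refine (hT' x h1 h2).2.1.trans ?_
      have := hw_nonneg P.κ (norm_nonneg (x - 0))
      gcongr
      exact he4 x
    rw [e]
    linarith [mul_le_mul_of_nonneg_left j1 hz1.le]
  have lδ := lρ.sub lτ
  have lω := lτ.add ((ee_ll hk 0).add (ee_ll hk b))
  have hδ : ∀ᵐ x, |t * Ps P Q 1 1 0 b x ^ 2 - (P.ρ 0 x + Q.ρ b x)| ≤
      M * E * (P.ρ 0 x + Q.ρ b x + (ee P.κ 0 x + ee P.κ b x)) := by
    filter_upwards [hab] with x hx
    have k1 := add_nonneg (At.Ok.ρ_nonneg P 0 x) (At.Ok.ρ_nonneg Q b x)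
    have k2 : 0 ≤ ee P.κ 0 x + ee P.κ b x := add_nonneg (exp_pos _).le (exp_pos _).le
    have k3 := mul_nonneg (hP.nn ‖x - 0‖) (hQ.nn ‖x - b‖)
    have e : t * Ps P Q 1 1 0 b x ^ 2 - (P.ρ 0 x + Q.ρ b x) =
        2 * t * (P.u ‖x - 0‖ * Q.u ‖x - b‖) - (1 - t) * (P.ρ 0 x + Q.ρ b x) := by
      simp only [hPs, At.ρ]; ring
    have k4 := mul_le_mul_of_nonneg_right ht2 k1
    have k5 := mul_nonneg (sub_nonneg.2 ht1) k1
    have k6 := mul_nonneg (sub_nonneg.2 ht1) k3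
    have k7 := mul_nonneg ht0.le k3
    have k8 := mul_nonneg (mul_nonneg hc0 hE0.le) k2
    have k9 := mul_nonneg (mul_nonneg hC₂ hE0.le) k1
    have k10 := mul_nonneg (mul_nonneg hC₂ hE0.le) k2
    have k11 := mul_nonneg (mul_nonneg hc0 hE0.le) k1
    have k12 := mul_le_mul_of_nonneg_left hx zero_le_two
    rw [e, hM, abs_le]
    constructor <;> linarith
  have h2 : DD (fun x => t * Ps P Q 1 1 0 b x ^ 2 - (P.ρ 0 x + Q.ρ b x))
      (fun x => t * Ps P Q 1 1 0 b x ^ 2 - (P.ρ 0 x + Q.ρ b x)) ≤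
      M * (B₁ + B₂ + (B₃ + B₃)) * (M * (N + (H + H))) * E ^ 2 := by
    have j1 := abs_DD_le lδ lδ (ε := M * E * (B₁ + B₂ + (B₃ + B₃))) fun x => by
      refine (abs_psi_le_psi_abs _ x).trans ((psi_mono lδ.abs (lω.const_mul (M * E)) hδ x).trans ?_)
      rw [psi_mul, lτ.psi_add ((ee_ll hk 0).add (ee_ll hk b)), (hP.ll 0).psi_add (hQ.ll b),
        (ee_ll hk 0).psi_add (ee_ll hk b)]
      exact mul_le_mul_of_nonneg_left (add_le_add (add_le_add (hb₁ _ _) (hb₂ _ _))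
        (add_le_add (hb₃ _ _) (hb₃ _ _))) (by positivity)
    have j2 : N1 (fun x => t * Ps P Q 1 1 0 b x ^ 2 - (P.ρ 0 x + Q.ρ b x)) ≤
        M * E * (N + (H + H)) := by
      refine lδ.HN.le ((hτ.add Hw).const_mul (M * E)) ?_
      filter_upwards [hδ] with x hx
      exact hx.trans (mul_le_mul_of_nonneg_left (add_le_add le_rfl
        (add_le_add (ee_le_hw _ _ _) (ee_le_hw _ _ _))) (by positivity))
    refine (le_abs_self _).trans (j1.trans ((mul_le_mul_of_nonneg_left j2 (by positivity)).trans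
      (le_of_eq (by ring))))
  have iT : HI (fun x : E3 => TT (P.u ‖x - 0‖) (Q.u ‖x - b‖) (P.φ ‖x - 0‖) (Q.φ ‖x - b‖))
      (IT P Q R) :=
    HI.of (int_of_le_hw2 (C := C₂) hk hk 0 b (((hP.mux 0).mul (hQ.mux b)).mul
      ((((hP.mφx 0).add (hQ.mφx b)).sub ((hP.mux 0).pow_const _)).sub
        ((hQ.mux b).pow_const _))).aestronglyMeasurable fun x h1 h2 => (hT' x h1 h2).2.2.2.2)
  have iK := HI.of (lρ.HK' fun x => by positivity).1
  have h3 := ((((iK.const_mul (3 / 5)).sub (HI.of is)).add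
    (((hP.Hk 0).add (hQ.Hk b)).const_mul (2 / 5))).add iT).le
    (Hw.const_mul (C₁ * (1 + c + c ^ 2) * E ^ 2)) (by
      filter_upwards [ae_ne 0, ae_ne b] with x h1 h2
      rw [hPs]
      refine (hU _ _ _ _ _ _ t (hP.ptx h1) (hq h2) ht0.le ht1).trans ?_
      have k1 := add_nonneg (hw_nonneg P.κ (norm_nonneg (x - 0)))
        (hw_nonneg P.κ (norm_nonneg (x - b)))
      have k2 := sub_nonneg.2 ht1
      have k3 : (1 - t) * exp (-(2 / 3 * P.κ * (‖x - 0‖ + ‖x - b‖))) ≤ c * E * E :=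
        mul_le_mul ht2 (he2 x) (exp_pos _).le (by positivity)
      have k4 : (1 - t) ^ 2 ≤ (c * E) ^ 2 := pow_le_pow_left₀ k2 ht2 2
      rw [mul_assoc C₁ _ (E ^ 2)]
      refine mul_le_mul_of_nonneg_right (mul_le_mul_of_nonneg_left ?_ hC₁) k1
      linarith [he4 x])
  rw [Emol_eq, hE4]
  rw [hxi, hDD] at hEV
  simp only [At.e, ← hκ]
  rw [← hb, ← hN]
  have : A * P.κ ^ 2 * N = A * P.κ ^ 2 * P.z + A * P.κ ^ 2 * Q.z := by rw [hN]; ring
  linarith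

end Pool.Agent.Lib.TFW
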