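import Pool.Agent.Lib.TFW.Blue

open Real

namespace Pool.Agent.Lib.TFW

namespace T20

theorem cube_root {a : ℝ} (ha : 0 ≤ a) : ∃ x, 0 ≤ x ∧ x ^ 3 = a :=
  ⟨a ^ ((3 : ℕ) : ℝ)⁻¹, rpow_nonneg ha _, rpow_inv_natCast_pow ha (by norm_num)⟩

theorem cube_rpow {x : ℝ} (hx : 0 ≤ x) (n : ℕ) {e : ℝ} (he : 3 * e = n) : (x ^ 3) ^ e = x ^ n := by
  rw [← rpow_natCast x 3, ← rpow_mul hx, ← rpow_natCast]
  congr 1

theorem le_of_cube {x y : ℝ} (hy : 0 ≤ y) (h : x ^ 3 ≤ y ^ 3) : x ≤ y :=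
  le_of_pow_le_pow_left₀ (by norm_num) hy h

/-- second order expansion, smaller second term -/
theorem tay1 {x y w : ℝ} (hy : 0 < y) (hxy : y ≤ x) (hw : w ^ 3 = x ^ 3 + y ^ 3) :
    w ^ 10 ≤ x ^ 10 + 10 / 3 * (x ^ 7 * y ^ 3) + 19 / 3 * (x ^ 4 * y ^ 6) := by
  have hx : 0 < x := hy.trans_le hxy
  obtain ⟨d, hd⟩ : ∃ d, 3 * x ^ 2 * d = y ^ 3 := ⟨y ^ 3 / (3 * x ^ 2), by field_simp⟩
  have h3 : y ^ 3 ≤ x ^ 3 := pow_le_pow_left₀ hy.le hxy 3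
  have hd0 : 0 ≤ d := by
    by_contra! h
    nlinarith [pow_pos hy 3, pow_pos hx 2]
  have hd1 : 3 * d ≤ x := by
    by_contra! h
    nlinarith [pow_pos hx 2]
  have h1 : w ≤ x + d := le_of_cube (by positivity) (by
    have : 0 ≤ 3 * x * d ^ 2 + d ^ 3 := by positivity
    nlinarith)
  have h2 : w ^ 10 ≤ (x ^ 3 + y ^ 3) ^ 3 * (x + d) := by
    rw [show w ^ 10 = (w ^ 3) ^ 3 * w by ring, hw]
    exact mul_le_mul_of_nonneg_left h1 (by positivity)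
  have h4 : (x ^ 3 + y ^ 3) ^ 3 * (x + d) = x ^ 10 + 10 / 3 * (x ^ 7 * y ^ 3) + 4 * (x ^ 4 * y ^ 6)
      + 2 * (x * y ^ 9) + y ^ 9 * d := by
    linear_combination (x ^ 7 / 3 + x ^ 4 * y ^ 3 + x * y ^ 6) * hd
  have h5 : x * y ^ 9 ≤ x ^ 4 * y ^ 6 := by
    have := mul_le_mul_of_nonneg_left h3 (show 0 ≤ x * y ^ 6 by positivity)
    linarith [show x * y ^ 6 * y ^ 3 = x * y ^ 9 by ring, show x * y ^ 6 * x ^ 3 = x ^ 4 * y ^ 6 by ring]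
  have h6 := mul_le_mul_of_nonneg_left hd1 (show 0 ≤ y ^ 9 by positivity)
  linarith

theorem tay2 {x y w : ℝ} (hx : 0 < x) (hy : 0 < y) (hw : w ^ 3 = x ^ 3 + y ^ 3) :
    3 / 5 * (w ^ 10 - x ^ 10 - y ^ 10) - 2 * (x ^ 7 * y ^ 3 + x ^ 3 * y ^ 7) ≤
      4 * (x ^ 4 * y ^ 4 * (x ^ 2 + y ^ 2)) := by
  have p1 : 0 ≤ x ^ 4 * y ^ 6 := by positivity
  have p2 : 0 ≤ x ^ 6 * y ^ 4 := by positivity
  have p3 : 0 ≤ x ^ 7 * y ^ 3 := by positivity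
  have p4 : 0 ≤ x ^ 3 * y ^ 7 := by positivity
  have p5 : 0 ≤ x ^ 10 := by positivity
  have p6 : 0 ≤ y ^ 10 := by positivity
  rcases le_total y x with h | h
  · have := tay1 hy h hw
    linarith
  · have := tay1 hx h (hw.trans (add_comm _ _))
    linarith

/-- the algebraic part -/
theorem alg {x y w τ p q : ℝ} (hx : 0 < x) (hy : 0 < y) (hw0 : 0 ≤ w) (hw : w ^ 3 = x ^ 3 + y ^ 3)
    (hτ : 0 ≤ τ) (h1 : τ ^ 3 ≤ 1) (hp : 0 ≤ p) (hq : 0 ≤ q) :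
    3 / 5 * (τ * w ^ 2) ^ 5 - τ ^ 3 * ((x ^ 3 + y ^ 3) * ((x ^ 4 + q) * x ^ 3 + (y ^ 4 + p) * y ^ 3))
      + 2 / 5 * (x ^ 10 + y ^ 10) + x ^ 3 * y ^ 3 * (p + q - x ^ 4 - y ^ 4) ≤
    4 * (x ^ 4 * y ^ 4 * (x ^ 2 + y ^ 2))
      + (1 - τ ^ 3) * ((x ^ 3 + y ^ 3) * (q * x ^ 3 + p * y ^ 3)) + (1 - τ ^ 3) ^ 2 * w ^ 10 := by
  have a1 : τ ^ 5 ≤ 2 / 3 * (τ ^ 3) ^ 2 + 1 / 3 * τ ^ 3 := by
    have : 0 ≤ τ ^ 3 * ((τ - 1) ^ 2 * (2 * τ + 1)) := by positivity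
    linarith [show τ ^ 3 * ((τ - 1) ^ 2 * (2 * τ + 1)) = 2 * (τ ^ 3) ^ 2 - 3 * τ ^ 5 + τ ^ 3 by ring]
  have hxw : x ≤ w := le_of_cube hw0 (by rw [hw]; linarith [pow_pos hy 3])
  have hyw : y ≤ w := le_of_cube hw0 (by rw [hw]; linarith [pow_pos hx 3])
  have a2 : (x ^ 3 + y ^ 3) * (x ^ 4 * x ^ 3 + y ^ 4 * y ^ 3) ≤ w ^ 10 := by
    have b1 := mul_le_mul_of_nonneg_right (pow_le_pow_left₀ hx.le hxw 4) (pow_pos hx 3).le
    have b2 := mul_le_mul_of_nonneg_right (pow_le_pow_left₀ hy.le hyw 4) (pow_pos hy 3).le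
    rw [show w ^ 10 = w ^ 3 * (w ^ 4 * w ^ 3) by ring, hw]
    exact mul_le_mul_of_nonneg_left (by linarith) (by positivity)
  have a3 := tay2 hx hy hw
  have a4 := mul_le_mul_of_nonneg_right a1 (show 0 ≤ w ^ 10 by positivity)
  have a5 := mul_le_mul_of_nonneg_left a2 (sub_nonneg.mpr h1)
  have a6 : 0 ≤ (1 - τ ^ 3) ^ 2 * w ^ 10 := by positivity
  have a7 : 0 ≤ q * x ^ 6 + p * y ^ 6 := by positivity
  generalize τ ^ 3 = t at *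
  rw [show (τ * w ^ 2) ^ 5 = τ ^ 5 * w ^ 10 by ring]
  linarith

/-- sizes at a point -/
theorem size {κ K r x p : ℝ} (hκ : 0 < κ) (hK : 1 ≤ K) (h : Pt κ K r (x ^ 3) p) :
    ∃ e ω : ℝ, e = exp (-(κ * r) / 3) ∧ hw κ r = e ^ 2 * ω ∧ 0 < e ∧ e ≤ 1 ∧ 1 ≤ ω ∧
      x ≤ K * e ∧ x ^ 3 ≤ K * e ^ 3 ∧ p ≤ K * e ^ 6 * ω := by
  have hr := h.r0
  have e3 : exp (-(κ * r)) = exp (-(κ * r) / 3) ^ 3 := by
    rw [← exp_nat_mul]
    congr 1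
    push_cast
    ring
  have e2 : exp (-(2 / 3 * κ * r)) = exp (-(κ * r) / 3) ^ 2 := by
    rw [← exp_nat_mul]
    congr 1
    push_cast
    ring
  have hi : 0 < r⁻¹ := inv_pos.mpr hr
  have hω : 1 + r⁻¹ ≤ (1 + r⁻¹) ^ (5 / 2 : ℝ) := by
    conv_lhs => rw [← rpow_one (1 + r⁻¹)]
    exact rpow_le_rpow_of_exponent_le (by linarith) (by norm_num)
  have he := exp_pos (-(κ * r) / 3)
  have h3 : x ^ 3 ≤ K * exp (-(κ * r) / 3) ^ 3 := by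
    rw [← e3]
    exact h.up.trans (div_le_self (by positivity) (by linarith))
  refine ⟨_, _, rfl, by rw [hw, e2], he, exp_le_one_iff.mpr (by
    have := mul_pos hκ hr
    linarith), by linarith, le_of_cube (by positivity) (h3.trans ?_), h3, h.p1.trans ?_⟩
  · rw [mul_pow]
    exact mul_le_mul_of_nonneg_right (le_self_pow₀ hK (by norm_num)) (by positivity)
  · rw [e3, ← pow_mul, div_eq_mul_inv]
    exact mul_le_mul_of_nonneg_left (by linarith) (by positivity)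

theorem termB {K a b q e f ω : ℝ} (hK : 1 ≤ K) (he : 0 < e) (he1 : e ≤ 1) (hf : 0 < f) (hf1 : f ≤ 1)
    (ha0 : 0 ≤ a) (hq0 : 0 ≤ q) (hω : 1 ≤ ω) (ha : a ≤ K * e ^ 3) (hb : b ≤ K * f ^ 3)
    (hq : q ≤ K * f ^ 6 * ω) : (a + b) * (q * a) ≤ 2 * K ^ 3 * (e ^ 2 * f ^ 2) * (f ^ 2 * ω) := by
  have h1 : e ^ 3 ≤ 1 := pow_le_one₀ he.le he1
  have h2 : f ^ 3 ≤ 1 := pow_le_one₀ hf.le hf1
  have h3 : a + b ≤ 2 * K := by nlinarith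
  have h4 : a ≤ K * e ^ 2 := ha.trans (mul_le_mul_of_nonneg_left
    (pow_le_pow_of_le_one he.le he1 (show 2 ≤ 3 by norm_num)) (by linarith))
  have h5 : q ≤ K * f ^ 4 * ω := hq.trans (by
    have := pow_le_pow_of_le_one hf.le hf1 (show 4 ≤ 6 by norm_num)
    gcongr)
  calc (a + b) * (q * a) ≤ (2 * K) * ((K * f ^ 4 * ω) * (K * e ^ 2)) := by gcongr
    _ = _ := by ring

end T20

open T20 in
theorem st_UPP : St_UPP := by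
  intro κ K hκ hK
  refine ⟨512 * K ^ 10, by positivity, fun r₁ r₂ a b p q t h₁ h₂ ht0 ht1 => ?_⟩
  have pos : ∀ {r a p : ℝ}, Pt κ K r a p → 0 < a := fun {r a p} h => by
    have h1 : 0 < K * a := lt_of_lt_of_le (div_pos (exp_pos _) (by linarith [h.r0])) h.lo
    exact (mul_pos_iff_of_pos_left (by linarith)).mp h1
  have ha := pos h₁
  have hb := pos h₂
  obtain ⟨x, hx, rfl⟩ := cube_root ha.le
  obtain ⟨y, hy, rfl⟩ := cube_root hb.le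
  obtain ⟨w, hw0, hw⟩ := cube_root (add_pos ha hb).le
  obtain ⟨τ, hτ, rfl⟩ := cube_root ht0
  have hx' : 0 < x := lt_of_le_of_ne hx fun h => by simp [← h] at ha
  have hy' : 0 < y := lt_of_le_of_ne hy fun h => by simp [← h] at hb
  obtain ⟨e, ω, he, hh, e0, e1, ω1, x1, x3, p6⟩ := size hκ hK h₁
  obtain ⟨f, ν, hf, hh', f0, f1, ν1, y1, y3, q6⟩ := size hκ hK h₂
  have E4 : exp (-(4 / 3 * κ * (r₁ + r₂))) = e ^ 4 * f ^ 4 := by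
    rw [he, hf, ← exp_nat_mul, ← exp_nat_mul, ← exp_add]
    congr 1
    push_cast
    ring
  have E2 : exp (-(2 / 3 * κ * (r₁ + r₂))) = e ^ 2 * f ^ 2 := by
    rw [he, hf, ← exp_nat_mul, ← exp_nat_mul, ← exp_add]
    congr 1
    push_cast
    ring
  have s1 : ss (x ^ 3) (y ^ 3) p q * (τ ^ 3 * (x ^ 3 + y ^ 3) ^ 2) =
      τ ^ 3 * ((x ^ 3 + y ^ 3) * ((x ^ 4 + q) * x ^ 3 + (y ^ 4 + p) * y ^ 3)) := by
    rw [ss, cube_rpow hx 4 (by norm_num), cube_rpow hy 4 (by norm_num)]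
    field_simp
  have s2 : (τ ^ 3 * (x ^ 3 + y ^ 3) ^ 2) ^ (5 / 3 : ℝ) = (τ * w ^ 2) ^ 5 := by
    rw [← hw, show τ ^ 3 * (w ^ 3) ^ 2 = (τ * w ^ 2) ^ 3 by ring,
      cube_rpow (by positivity) 5 (by norm_num)]
  rw [s1, s2, TT, cube_rpow (e := 4 / 3) hx 4 (by norm_num), cube_rpow (e := 4 / 3) hy 4 (by norm_num),
    cube_rpow hx 10 (by norm_num), cube_rpow hy 10 (by norm_num), E4, E2, hh, hh']
  refine (alg hx' hy' hw0 hw hτ ht1 h₁.p0 h₂.p0).trans ?_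
  have hS : e ^ 2 + f ^ 2 ≤ e ^ 2 * ω + f ^ 2 * ν :=
    add_le_add (le_mul_of_one_le_right (by positivity) ω1) (le_mul_of_one_le_right (by positivity) ν1)
  have hK0 : 0 < K := by linarith
  have tA : 4 * (x ^ 4 * y ^ 4 * (x ^ 2 + y ^ 2)) ≤
      512 * K ^ 10 * (e ^ 4 * f ^ 4) * (e ^ 2 * ω + f ^ 2 * ν) :=
    calc _ ≤ 512 * ((K * e) ^ 4 * (K * f) ^ 4 * ((K * e) ^ 2 + (K * f) ^ 2)) := by
          gcongr
          norm_num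
      _ = 512 * K ^ 10 * (e ^ 4 * f ^ 4) * (e ^ 2 + f ^ 2) := by ring
      _ ≤ _ := by gcongr
  have tB : (x ^ 3 + y ^ 3) * (q * x ^ 3 + p * y ^ 3) ≤
      512 * K ^ 10 * (e ^ 2 * f ^ 2) * (e ^ 2 * ω + f ^ 2 * ν) := by
    have b1 := termB hK e0 e1 f0 f1 ha.le h₂.p0 ν1 x3 y3 q6
    have b2 := termB hK f0 f1 e0 e1 hb.le h₁.p0 ω1 y3 x3 p6
    have b3 : K ^ 3 ≤ K ^ 10 := pow_le_pow_right₀ hK (by norm_num)
    calc _ ≤ 2 * K ^ 3 * (e ^ 2 * f ^ 2) * (e ^ 2 * ω + f ^ 2 * ν) := by linarith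
      _ ≤ _ := by
          gcongr
          norm_num
  have tC : w ^ 10 ≤ 512 * K ^ 10 * (e ^ 2 * ω + f ^ 2 * ν) := by
    have c1 : w ≤ x + y := le_of_cube (by positivity) (by
      have : 0 ≤ 3 * x ^ 2 * y + 3 * x * y ^ 2 := by positivity
      rw [hw]
      linarith [show (x + y) ^ 3 = x ^ 3 + y ^ 3 + (3 * x ^ 2 * y + 3 * x * y ^ 2) by ring])
    have c2 : w ≤ K * (e + f) := by linarith
    have c3 : w ≤ K * 2 := c2.trans (by gcongr; linarith)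
    have c4 : (e + f) ^ 2 ≤ 2 * (e ^ 2 + f ^ 2) := by nlinarith [sq_nonneg (e - f)]
    calc w ^ 10 = w ^ 8 * w ^ 2 := by ring
      _ ≤ (K * 2) ^ 8 * (K * (e + f)) ^ 2 := by gcongr
      _ = 256 * K ^ 10 * (e + f) ^ 2 := by ring
      _ ≤ 256 * K ^ 10 * (2 * (e ^ 2 * ω + f ^ 2 * ν)) := by
          gcongr
          linarith
      _ = _ := by ring
  have tB' := mul_le_mul_of_nonneg_left tB (sub_nonneg.mpr ht1)
  have tC' := mul_le_mul_of_nonneg_left tC (sq_nonneg (1 - τ ^ 3))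
  linarith

end Pool.Agent.Lib.TFW
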