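import Pool.Agent.Lib.TFW.Blue

/-! Block ZERO: behaviour of the radial solution at the origin. -/

open MeasureTheory Filter Topology Set Real

namespace Pool.Agent.Lib.TFW

namespace T99

lemma anti {f f' : ℝ → ℝ} {a b : ℝ} (hab : a ≤ b) (hc : ContinuousOn f (Icc a b))
    (hd : ∀ x, a < x → x < b → HasDerivAt f (f' x) x) (h : ∀ x, a < x → x < b → f' x ≤ 0) :
    f b ≤ f a := by
  rcases hab.eq_or_lt with e | e
  · rw [e]
  obtain ⟨c, hc1, hc2⟩ := exists_hasDerivAt_eq_slope f f' e hc fun x hx => hd x hx.1 hx.2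
  have := h c hc1.1 hc1.2
  rw [hc2, div_nonpos_iff] at this
  rcases this with h1 | h1 <;> linarith [h1.1, h1.2]

lemma lip {f f' : ℝ → ℝ} {a b C : ℝ} (hab : a ≤ b) (hc : ContinuousOn f (Icc a b))
    (hd : ∀ x, a < x → x < b → HasDerivAt f (f' x) x) (h : ∀ x, a < x → x < b → |f' x| ≤ C) :
    |f b - f a| ≤ C * (b - a) := by
  have h1 := anti (f := fun x => f x - C * x) (f' := fun x => f' x - C) hab
    (hc.sub (by fun_prop)) (fun x h1 h2 => by
      simpa using (hd x h1 h2).fun_sub ((hasDerivAt_id x).const_mul C))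
    fun x h1 h2 => by linarith [(abs_le.1 (h x h1 h2)).2]
  have h2 := anti (f := fun x => -f x - C * x) (f' := fun x => -f' x - C) hab
    (hc.neg.sub (by fun_prop)) (fun x h1 h2 => by
      simpa using (hd x h1 h2).fun_neg.fun_sub ((hasDerivAt_id x).const_mul C))
    fun x h1 h2 => by linarith [(abs_le.1 (h x h1 h2)).1]
  rw [abs_le]; constructor <;> linarith

lemma rpow43 {t : ℝ} (ht : 0 ≤ t) : t ^ (4 / 3 : ℝ) ≤ 1 + t ^ 2 := by
  rcases le_total t 1 with h | h
  · have := Real.rpow_le_one ht h (show (0 : ℝ) ≤ 4 / 3 by norm_num)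
    nlinarith [sq_nonneg t]
  · have := Real.rpow_le_rpow_of_exponent_le h (show (4 / 3 : ℝ) ≤ (2 : ℕ) by norm_num)
    rw [Real.rpow_natCast] at this
    linarith

/-- linear upper bound and the bound for `r y' - y` -/
lemma upper {y y' w : ℝ → ℝ} {M c : ℝ} (hc : 0 ≤ c) (hy : ContinuousOn y (Ici 0))
    (hsq : ∀ r, 0 ≤ r → y r ^ 2 ≤ M * r) (hp : ∀ r, 0 < r → 0 < y r)
    (d1 : ∀ r, 0 < r → HasDerivAt y (y' r) r) (d2 : ∀ r, 0 < r → HasDerivAt y' (w r) r)
    (hw : ∀ r, 0 < r → r ≤ 1 → |w r| ≤ c * (y r / r)) :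
    y 0 = 0 ∧ ContinuousOn (fun r => r * y' r - y r) (Icc 0 1) ∧
      ∃ K, ∀ r, 0 < r → r ≤ 1 → y r ≤ K * r ∧ |r * y' r - y r| ≤ K * r ^ 2 := by
  have y0 : y 0 = 0 := by
    have := hsq 0 le_rfl
    rw [mul_zero] at this
    exact pow_eq_zero_iff two_ne_zero |>.1 (le_antisymm this (sq_nonneg _))
  have c1 : ∀ a b, 0 < a → ContinuousOn y' (Icc a b) := fun a b ha x hx =>
    (d2 x (ha.trans_le hx.1)).continuousAt.continuousWithinAt
  have hM : 0 ≤ M := by nlinarith [hsq 1 zero_le_one, sq_nonneg (y 1)]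
  obtain ⟨K1, hK1⟩ : ∃ K1, K1 = y' 1 + 2 * (c * √M) := ⟨_, rfl⟩
  have s1 : ∀ r, 0 < r → r ≤ 1 → y' r ≤ K1 := by
    intro r h0 h1
    have h := anti (f := fun x => -y' x - 2 * (c * √M) * √x)
      (f' := fun x => -w x - 2 * (c * √M) * (1 / (2 * √x))) h1
      ((c1 r 1 h0).neg.sub (by fun_prop))
      (fun x hx _ => (d2 x (h0.trans hx)).fun_neg.fun_sub
        ((Real.hasDerivAt_sqrt (h0.trans hx).ne').const_mul _))
      fun x hx hx1 => by
        have hx0 := h0.trans hx
        have a1 : y x ≤ √M * √x := by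
          rw [← Real.sqrt_mul hM]; exact Real.le_sqrt_of_sq_le (hsq x hx0.le)
        have a2 : 0 < √x := Real.sqrt_pos.2 hx0
        have a3 : y x / x ≤ √M * (1 / √x) := by
          rw [div_le_iff₀ hx0]
          refine a1.trans (le_of_eq ?_)
          conv_rhs => rw [← Real.mul_self_sqrt hx0.le, Real.sqrt_mul_self a2.le]
          field_simp
        have a4 := (abs_le.1 ((hw x hx0 hx1.le).trans (mul_le_mul_of_nonneg_left a3 hc))).1
        have a5 : 2 * (c * √M) * (1 / (2 * √x)) = c * (√M * (1 / √x)) := by field_simp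
        rw [a5]; linarith
    simp only [Real.sqrt_one] at h
    have : 0 ≤ 2 * (c * √M) * √r := by positivity
    linarith
  have s2 : ∀ r, 0 < r → r ≤ 1 → y r ≤ K1 * r := by
    intro r h0 h1
    have h := anti (f := fun x => y x - K1 * x) (f' := fun x => y' x - K1) h0.le
      ((hy.mono fun x hx => hx.1).sub (by fun_prop))
      (fun x hx _ => by simpa using (d1 x hx).fun_sub ((hasDerivAt_id x).const_mul K1))
      fun x hx hx1 => by linarith [s1 x hx (hx1.le.trans h1)]
    simp only [y0] at h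
    linarith
  have hK0 : 0 ≤ K1 := by linarith [s2 1 one_pos le_rfl, hp 1 one_pos]
  have s3 : ∀ r, 0 < r → r ≤ 1 → |w r| ≤ c * K1 := fun r h0 h1 =>
    (hw r h0 h1).trans (mul_le_mul_of_nonneg_left ((div_le_iff₀ h0).2 (s2 r h0 h1)) hc)
  have hcK : 0 ≤ c * K1 := mul_nonneg hc hK0
  have s4 : ∀ r, 0 < r → r ≤ 1 → |y' r| ≤ |y' 1| + c * K1 := by
    intro r h0 h1
    have h := lip (C := c * K1) h1 (c1 r 1 h0) (fun x hx _ => d2 x (h0.trans hx))
      fun x hx hx1 => s3 x (h0.trans hx) hx1.le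
    have h2 := abs_sub_abs_le_abs_sub (y' r) (y' 1)
    rw [abs_sub_comm] at h2
    nlinarith
  have s5 : ContinuousOn (fun r => r * y' r - y r) (Icc 0 1) := by
    refine ContinuousOn.sub (fun x hx => ?_) (hy.mono fun x hx => hx.1)
    rcases hx.1.eq_or_lt with e | e
    · subst e
      unfold ContinuousWithinAt
      simp only [zero_mul]
      refine squeeze_zero_norm' (a := fun r => r * (|y' 1| + c * K1)) ?_ ?_
      · filter_upwards [self_mem_nhdsWithin] with r hr
        rw [Real.norm_eq_abs, abs_mul, abs_of_nonneg hr.1]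
        rcases hr.1.eq_or_lt with e | e
        · rw [← e]; simp
        · exact mul_le_mul_of_nonneg_left (s4 r e hr.2) hr.1
      · refine tendsto_nhdsWithin_of_tendsto_nhds ?_
        have : Continuous fun r : ℝ => r * (|y' 1| + c * K1) := by fun_prop
        simpa using this.tendsto 0
    · exact (continuousAt_id.mul (d2 x e).continuousAt).continuousWithinAt
  refine ⟨y0, s5, K1 + c * K1, fun r h0 h1 => ⟨by nlinarith [s2 r h0 h1], ?_⟩⟩
  have h := lip (f := fun r => r * y' r - y r) (f' := fun x => x * w x) (C := r * (c * K1)) h0.le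
    (s5.mono (Icc_subset_Icc_right h1))
    (fun x hx _ => by
      have := ((hasDerivAt_id x).fun_mul (d2 x hx)).fun_sub (d1 x hx)
      simpa using this)
    fun x hx hx1 => by
      rw [abs_mul, abs_of_pos hx]
      exact mul_le_mul hx1.le (s3 x hx (hx1.le.trans h1)) (abs_nonneg _) h0.le
  simp only [y0, zero_mul, sub_zero] at h
  nlinarith [mul_nonneg hK0 (sq_nonneg r)]

end T99

open T99

theorem st_ZERO (h2 : St_B2) : St_ZERO := by
  intro z μ y y' hz h
  obtain ⟨M, hM⟩ := h.cl.sq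
  have hA := A_pos
  have hM0 : 0 ≤ M := by nlinarith [hM 1 zero_le_one, sq_nonneg (y 1)]
  have hB := (h2 y h.cl).2.2.2.2.2
  obtain ⟨W, hW⟩ : ∃ W, W = 4 * π * ∫ s in Ioi (0 : ℝ), y s ^ 2 / s := ⟨_, rfl⟩
  have p0 : ∀ r, 0 < r → 0 ≤ ph z y r ∧ ph z y r ≤ z / r ∧ z / r - W ≤ ph z y r := by
    intro r hr
    obtain ⟨a1, a2, a3, -⟩ := hB r hr
    have a4 : mass y / r ≤ z / r := div_le_div_of_nonneg_right h.le hr.le
    have a5 : 0 ≤ 4 * π * Wp y r := by positivity
    have a6 := mul_le_mul_of_nonneg_left a2 (show 0 ≤ 4 * π by positivity)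
    unfold ph
    refine ⟨by linarith, by linarith, by linarith⟩
  have t0 : ∀ r, 0 < r → 0 ≤ (|y r| / r) ^ (4 / 3 : ℝ) ∧
      (|y r| / r) ^ (4 / 3 : ℝ) ≤ 1 + (y r / r) ^ 2 := fun r hr =>
    ⟨by positivity, by
      rw [abs_of_pos (h.pos r hr)]; exact rpow43 (div_pos (h.pos r hr) hr).le⟩
  obtain ⟨y0, hc, K, hK⟩ := upper (c := (1 + M + z + |μ|) / A) (by positivity) h.cl.cont hM h.pos
    h.d1 h.d2 fun r h0 h1 => by
      have a1 : (y r / r) ^ 2 ≤ M / r := by
        rw [div_pow, div_le_div_iff₀ (by positivity) h0]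
        nlinarith [mul_le_mul_of_nonneg_right (hM r h0.le) h0.le]
      have a2 : 1 ≤ 1 / r := by rw [le_div_iff₀ h0]; linarith
      have a3 : |μ| ≤ |μ| / r := by
        rw [le_div_iff₀ h0]; nlinarith [abs_nonneg μ]
      have a4 : |qq z μ y r| ≤ (1 + M + z + |μ|) / r := by
        obtain ⟨b1, b2, -⟩ := p0 r h0
        obtain ⟨b3, b4⟩ := t0 r h0
        have b5 : 0 ≤ M / r := by positivity
        unfold qq
        rw [add_div, add_div, add_div, abs_le]
        constructor <;> linarith [le_abs_self μ, neg_abs_le μ]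
      rw [abs_div, abs_mul, abs_of_pos hA, abs_of_pos (h.pos r h0)]
      calc |qq z μ y r| * y r / A ≤ (1 + M + z + |μ|) / r * y r / A := by
            have := (h.pos r h0).le
            gcongr
        _ = _ := by ring
  have hK0 : 0 ≤ K := by linarith [(hK 1 one_pos le_rfl).1, h.pos 1 one_pos]
  obtain ⟨D, hD⟩ : ∃ D, D = 1 + K ^ 2 + |W| + |μ| + z := ⟨_, rfl⟩
  have hD0 : 0 < D := by rw [hD]; positivity
  obtain ⟨r0, hr0⟩ : ∃ r0, r0 = z / D := ⟨_, rfl⟩
  have r0p : 0 < r0 := by rw [hr0]; positivity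
  have r01 : r0 ≤ 1 := by
    rw [hr0, div_le_one hD0, hD]
    nlinarith [abs_nonneg W, abs_nonneg μ, sq_nonneg K]
  have qneg : ∀ r, 0 < r → r ≤ r0 → qq z μ y r ≤ 0 := by
    intro r h0 h1
    have a1 : (y r / r) ^ 2 ≤ K ^ 2 :=
      pow_le_pow_left₀ (div_pos (h.pos r h0) h0).le
        ((div_le_iff₀ h0).2 (hK r h0 (h1.trans r01)).1) 2
    have a2 : D ≤ z / r := by
      rw [le_div_iff₀ h0]
      rw [hr0, le_div_iff₀ hD0] at h1
      linarith
    unfold qq
    linarith [(t0 r h0).2, (p0 r h0).2.2, le_abs_self W, le_abs_self μ]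
  have vneg : ∀ r, 0 < r → r ≤ r0 → r * y' r - y r ≤ 0 := by
    intro r h0 h1
    have := anti (f := fun r => r * y' r - y r) (f' := fun x => x * (qq z μ y x * y x / A)) h0.le
      (hc.mono (Icc_subset_Icc_right (h1.trans r01)))
      (fun x hx _ => by
        have := ((hasDerivAt_id x).fun_mul (h.d2 x hx)).fun_sub (h.d1 x hx)
        simpa using this)
      fun x hx hx1 => mul_nonpos_of_nonneg_of_nonpos hx.le (div_nonpos_of_nonpos_of_nonneg
        (mul_nonpos_of_nonpos_of_nonneg (qneg x hx (hx1.le.trans h1)) (h.pos x hx).le) hA.le)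
    simpa [y0] using this
  have uanti : ∀ r, 0 < r → r ≤ r0 → y r0 / r0 ≤ y r / r := by
    intro r h0 h1
    refine anti (f := fun x => y x / x) (f' := fun x => (y' x * x - y x * 1) / x ^ 2) h1
      (fun x hx => ?_) (fun x hx _ => ?_) fun x hx hx1 => ?_
    · have hx0 := h0.trans_le hx.1
      exact ((h.d1 x hx0).continuousAt.div continuousAt_id hx0.ne').continuousWithinAt
    · exact (h.d1 x (h0.trans hx)).fun_div (hasDerivAt_id x) (h0.trans hx).ne'
    · have := vneg x (h0.trans hx) hx1.le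
      exact div_nonpos_of_nonpos_of_nonneg (by linarith) (sq_nonneg _)
  obtain ⟨s, hs, hmin⟩ := isCompact_Icc.exists_isMinOn (nonempty_Icc.2 r01)
    (h.cl.cont.mono fun x hx => r0p.le.trans hx.1 : ContinuousOn y (Icc r0 1))
  have ys := h.pos s (r0p.trans_le hs.1)
  have yr0 := h.pos r0 r0p
  have n1 : 0 ≤ r0 / y r0 := by positivity
  have n2 : 0 ≤ 1 / y s := by positivity
  refine ⟨K + r0 / y r0 + 1 / y s, fun r h0 h1 => ⟨?_, ?_, ?_⟩⟩
  · nlinarith [(hK r h0 h1).1, mul_nonneg n1 h0.le, mul_nonneg n2 h0.le]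
  · have yr := h.pos r h0
    have b1 := mul_nonneg hK0 yr.le
    have b2 := mul_nonneg n1 yr.le
    have b3 := mul_nonneg n2 yr.le
    rcases le_total r r0 with e | e
    · have a1 := uanti r h0 e
      rw [div_le_div_iff₀ r0p h0] at a1
      have a2 : r ≤ r0 / y r0 * y r := by
        rw [div_mul_eq_mul_div, le_div_iff₀ yr0]; linarith
      linarith
    · have a1 : y s ≤ y r := hmin ⟨e, h1⟩
      have a2 : 1 ≤ 1 / y s * y r := by
        rw [div_mul_eq_mul_div, le_div_iff₀ ys]; linarith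
      linarith
  · nlinarith [(hK r h0 h1).2, mul_nonneg n1 (sq_nonneg r), mul_nonneg n2 (sq_nonneg r)]

end Pool.Agent.Lib.TFW
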