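import Pool.Agent.Lib.TFW.Blue

open MeasureTheory Filter Topology Set Real

namespace Pool.Agent.Lib.TFW

namespace EL1

variable {a b : ℝ}

theorem loc_eq {f : ℝ → ℝ} (ha : 0 < a) (hab : a < b) (h0 : ∀ r, r ∉ Ioc a b → f r = 0) :
    ∫ r in Ioi (0 : ℝ), f r = ∫ r in a..b, f r := by
  rw [intervalIntegral.integral_of_le hab.le]
  exact setIntegral_eq_of_subset_of_forall_sdiff_eq_zero measurableSet_Ioi
    (fun r hr => ha.trans hr.1) fun r hr => h0 r hr.2

theorem sub_Ioi (ha : 0 < a) (hab : a < b) : uIcc a b ⊆ Ioi 0 := by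
  rw [uIcc_of_le hab.le]; exact fun r hr => ha.trans_le hr.1

theorem loc_ii {f : ℝ → ℝ} (ha : 0 < a) (hab : a < b) (hc : ContinuousOn f (Ioi 0)) :
    IntervalIntegrable f volume a b := (hc.mono (sub_Ioi ha hab)).intervalIntegrable

theorem loc_int {f : ℝ → ℝ} (ha : 0 < a) (hab : a < b) (hc : ContinuousOn f (Ioi 0))
    (h0 : ∀ r, r ∉ Ioc a b → f r = 0) : IntegrableOn f (Ioi 0) :=
  (loc_ii ha hab hc).1.of_forall_sdiff_eq_zero measurableSet_Ioi fun r hr => h0 r hr.2

theorem expand {y η w : ℝ → ℝ} (ha : 0 < a) (hab : a < b) (hy : ContinuousOn y (Ioi 0))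
    (hη : ContinuousOn η (Ioi 0)) (hw : ContinuousOn w (Ioi 0)) (h0 : ∀ r, r ∉ Ioc a b → η r = 0)
    (hi : IntegrableOn (fun r => y r ^ 2 * w r) (Ioi 0)) (t : ℝ) :
    IntegrableOn (fun r => (y r + t * η r) ^ 2 * w r) (Ioi 0) ∧
      ∫ r in Ioi (0 : ℝ), (y r + t * η r) ^ 2 * w r = (∫ r in Ioi (0 : ℝ), y r ^ 2 * w r) +
        2 * t * (∫ r in a..b, y r * η r * w r) + t ^ 2 * ∫ r in a..b, η r ^ 2 * w r := by
  have z1 : ∀ r, r ∉ Ioc a b → y r * η r * w r = 0 := fun r hr => by rw [h0 r hr]; ring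
  have z2 : ∀ r, r ∉ Ioc a b → η r ^ 2 * w r = 0 := fun r hr => by rw [h0 r hr]; ring
  have i1 : IntegrableOn (fun r => 2 * t * (y r * η r * w r)) (Ioi 0) :=
    (loc_int ha hab ((hy.mul hη).mul hw) z1).const_mul (2 * t)
  have i2 : IntegrableOn (fun r => t ^ 2 * (η r ^ 2 * w r)) (Ioi 0) :=
    (loc_int ha hab ((hη.pow 2).mul hw) z2).const_mul (t ^ 2)
  have i3 : IntegrableOn (fun r => y r ^ 2 * w r + 2 * t * (y r * η r * w r)) (Ioi 0) := hi.add i1
  have e : (fun r => (y r + t * η r) ^ 2 * w r) = fun r =>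
      y r ^ 2 * w r + 2 * t * (y r * η r * w r) + t ^ 2 * (η r ^ 2 * w r) := by
    funext r; ring
  rw [e]
  refine ⟨i3.add i2, ?_⟩
  rw [integral_add i3 i2, integral_add hi i1, integral_const_mul, integral_const_mul,
    loc_eq ha hab z1, loc_eq ha hab z2]

theorem symm (h2 : St_B2) {y₁ y₂ : ℝ → ℝ} (c1 : Cl y₁) (c2 : Cl y₂) :
    ∫ r in Ioi (0 : ℝ), y₁ r ^ 2 * Wp y₂ r = ∫ r in Ioi (0 : ℝ), y₂ r ^ 2 * Wp y₁ r := by
  have hi : Integrable (Function.uncurry fun r s => y₁ r ^ 2 * y₂ s ^ 2 / max r s)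
      ((volume.restrict (Ioi (0 : ℝ))).prod (volume.restrict (Ioi (0 : ℝ)))) := by
    refine (c1.int.mul_prod (h2 y₂ c2).1).mono' ?_ ?_
    · exact ((c1.int.mul_prod c2.int).aemeasurable.div
        (measurable_fst.max measurable_snd).aemeasurable).aestronglyMeasurable
    · rw [Measure.prod_restrict, ae_restrict_iff' (measurableSet_Ioi.prod measurableSet_Ioi)]
      refine Eventually.of_forall fun p hp => ?_
      have h1 : 0 < p.2 := hp.2
      have h3 : p.2 ≤ max p.1 p.2 := le_max_right _ _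
      have h4 : 0 < max p.1 p.2 := h1.trans_le h3
      show ‖y₁ p.1 ^ 2 * y₂ p.2 ^ 2 / max p.1 p.2‖ ≤ _
      rw [Real.norm_of_nonneg (by positivity), mul_div_assoc]
      gcongr
  have := integral_integral_swap hi
  simp only [Wp, ← integral_const_mul]
  refine Eq.trans ?_ (this.trans ?_) <;>
    refine integral_congr_ae (Eventually.of_forall fun r => integral_congr_ae
      (Eventually.of_forall fun s => ?_))
  · simp only; ring
  · simp only; rw [max_comm]; ring

theorem hd (c0 c1 c2 c3 c4 : ℝ) {f : ℝ → ℝ}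
    (h : ∀ t, f t = c0 + c1 * t + c2 * t ^ 2 + c3 * t ^ 3 + c4 * t ^ 4) : HasDerivAt f c1 0 := by
  rw [funext h]
  have := ((((hasDerivAt_const (0 : ℝ) c0).add ((hasDerivAt_id' (0 : ℝ)).const_mul c1)).add
    ((hasDerivAt_pow 2 (0 : ℝ)).const_mul c2)).add ((hasDerivAt_pow 3 (0 : ℝ)).const_mul c3)).add
    ((hasDerivAt_pow 4 (0 : ℝ)).const_mul c4)
  refine HasDerivAt.congr_deriv this ?_
  simp

theorem q4 (h2 : St_B2) {y η : ℝ → ℝ} (ha : 0 < a) (hab : a < b) (hη : ContinuousOn η (Ioi 0))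
    (h0 : ∀ r, r ∉ Ioc a b → η r = 0) (cy : Cl y) (c : ∀ t, Cl fun r => y r + t * η r) :
    HasDerivAt (fun t => ∫ r in Ioi (0 : ℝ), (y r + t * η r) ^ 2 * Wp (fun r => y r + t * η r) r)
      (4 * ∫ r in a..b, y r * η r * Wp y r) 0 := by
  have hy : ContinuousOn y (Ioi 0) := cy.cont.mono Ioi_subset_Ici_self
  have w0 := (h2 y cy).2.2.2.1
  have w := fun t => (h2 _ (c t)).2.2.2.1
  have e1 : ∀ r, 0 < r → ∃ u v, ∀ t,
      Wp (fun r => y r + t * η r) r = Wp y r + 2 * t * u + t ^ 2 * v := fun r hr =>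
    ⟨_, _, fun t => by
      simpa only [Wp, div_eq_mul_inv] using (expand (w := fun s => (max r s)⁻¹) ha hab hy hη
        ((continuous_const.max continuous_id).continuousOn.inv₀ fun s _ =>
          (hr.trans_le (le_max_left _ _)).ne') h0
        (by simpa only [div_eq_mul_inv] using (h2 y cy).2.2.1 r) t).2⟩
  have e2 : ∀ φ : ℝ → ℝ, ContinuousOn φ (Ioi 0) → ∃ c1 c2, ∀ t,
      ∫ r in a..b, φ r * Wp (fun r => y r + t * η r) r =
        (∫ r in a..b, φ r * Wp y r) + t * c1 + t ^ 2 * c2 := fun φ hφ => by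
    set P := Wp fun r => y r + 1 * η r with hP
    set M := Wp fun r => y r + -1 * η r with hM
    have i0 : IntervalIntegrable (fun r => φ r * Wp y r) volume a b := loc_ii ha hab (hφ.mul w0)
    have i1 : IntervalIntegrable (fun r => φ r * ((P r - M r) / 2)) volume a b :=
      loc_ii ha hab (hφ.mul (((w 1).sub (w (-1))).div_const 2))
    have i2 : IntervalIntegrable (fun r => φ r * ((P r + M r) / 2 - Wp y r)) volume a b :=
      loc_ii ha hab (hφ.mul ((((w 1).add (w (-1))).div_const 2).sub w0))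
    refine ⟨∫ r in a..b, φ r * ((P r - M r) / 2), ∫ r in a..b, φ r * ((P r + M r) / 2 - Wp y r),
      fun t => ?_⟩
    rw [← intervalIntegral.integral_const_mul, ← intervalIntegral.integral_const_mul,
      ← intervalIntegral.integral_add i0 (i1.const_mul t),
      ← intervalIntegral.integral_add (i0.add (i1.const_mul t)) (i2.const_mul (t ^ 2))]
    refine intervalIntegral.integral_congr fun r hr => ?_
    obtain ⟨u, v, e⟩ := e1 r (sub_Ioi ha hab hr)
    simp only [hP, hM, e]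
    ring
  obtain ⟨c1, c2, e3⟩ := e2 _ (hy.mul hη)
  obtain ⟨d1, d2, e4⟩ := e2 _ (hη.pow 2)
  refine hd (∫ r in Ioi (0 : ℝ), y r ^ 2 * Wp y r) _
    (2 * (∫ r in a..b, η r ^ 2 * Wp y r) + 2 * c1) (2 * c2 + d1) d2 fun t => ?_
  have i : IntegrableOn (fun r => y r ^ 2 * Wp (fun r => y r + t * η r) r) (Ioi 0) := by
    refine cy.int.mul_bdd (c := ∫ s in Ioi (0 : ℝ), (y s + t * η s) ^ 2 / s)
      ((w t).aestronglyMeasurable measurableSet_Ioi) ?_
    refine (ae_restrict_iff' measurableSet_Ioi).2 (Eventually.of_forall fun r hr => ?_)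
    have := (h2 _ (c t)).2.2.2.2.2 r hr
    rw [Real.norm_of_nonneg this.1]
    exact this.2.1
  simp only [Pi.mul_apply, Pi.pow_apply] at e3 e4
  rw [(expand ha hab hy hη (w t) h0 i t).2, symm h2 cy (c t),
    (expand ha hab hy hη w0 h0 (h2 y cy).2.2.2.2.1 t).2, e3, e4]
  ring

theorem q2 {y η : ℝ → ℝ} (ha : 0 < a) (hab : a < b) (hy : ContinuousOn y (Ioi 0))
    (hη : ContinuousOn η (Ioi 0)) (h0 : ∀ r, r ∉ Ioc a b → η r = 0)
    (hi : ∀ t, IntegrableOn (fun r => |y r + t * η r| ^ (10 / 3 : ℝ) * r ^ (-(4 / 3) : ℝ)) (Ioi 0)) :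
    HasDerivAt (fun t => ∫ r in Ioi (0 : ℝ), |y r + t * η r| ^ (10 / 3 : ℝ) * r ^ (-(4 / 3) : ℝ))
      (10 / 3 * ∫ r in a..b, (|y r| / r) ^ (4 / 3 : ℝ) * (y r * η r)) 0 := by
  have s1 : uIoc a b ⊆ Ioi 0 := uIoc_subset_uIcc.trans (sub_Ioi ha hab)
  have cr : ContinuousOn (fun r : ℝ => r ^ (-(4 / 3) : ℝ)) (Ioi 0) :=
    continuousOn_id.rpow_const fun r hr => Or.inl (ne_of_gt hr)
  have ct : ∀ t, ContinuousOn (fun r => y r + t * η r) (Ioi 0) := fun t =>
    hy.add (continuousOn_const.mul hη)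
  have cF : ∀ t, ContinuousOn (fun r => |y r + t * η r| ^ (10 / 3 : ℝ) * r ^ (-(4 / 3) : ℝ))
      (Ioi 0) := fun t => ((ct t).abs.rpow_const fun _ _ => Or.inr (by norm_num)).mul cr
  have key := (intervalIntegral.hasDerivAt_integral_of_dominated_loc_of_deriv_le (μ := volume)
    (a := a) (b := b) (F := fun t r => |y r + t * η r| ^ (10 / 3 : ℝ) * r ^ (-(4 / 3) : ℝ))
    (F' := fun t r => 10 / 3 * |y r + t * η r| ^ (4 / 3 : ℝ) * (y r + t * η r) * η r *
      r ^ (-(4 / 3) : ℝ))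
    (bound := fun r => 10 / 3 * (|y r| + |η r|) ^ (4 / 3 : ℝ) * (|y r| + |η r|) * |η r| *
      r ^ (-(4 / 3) : ℝ))
    (Icc_mem_nhds (show (-1 : ℝ) < 0 by norm_num) zero_lt_one)
    (Eventually.of_forall fun t => ((cF t).mono s1).aestronglyMeasurable measurableSet_uIoc)
    (loc_ii ha hab (cF 0))
    ((((((continuousOn_const.mul ((ct 0).abs.rpow_const fun _ _ => Or.inr (by norm_num))).mul
      (ct 0)).mul hη).mul cr).mono s1).aestronglyMeasurable measurableSet_uIoc)
    (Eventually.of_forall fun r hr t ht => by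
      have hr0 : 0 < r := s1 hr
      have h1 : |y r + t * η r| ≤ |y r| + |η r| := by
        refine (abs_add_le _ _).trans (add_le_add_right ?_ _)
        rw [abs_mul]
        exact mul_le_of_le_one_left (abs_nonneg _) (abs_le.2 ht)
      rw [Real.norm_eq_abs, abs_mul, abs_mul, abs_mul, abs_mul,
        abs_of_nonneg (show (0 : ℝ) ≤ 10 / 3 by norm_num), abs_of_nonneg (rpow_nonneg hr0.le _),
        abs_of_nonneg (rpow_nonneg (abs_nonneg _) _)]
      gcongr)
    (loc_ii ha hab ((((continuousOn_const.mul ((hy.abs.add hη.abs).rpow_const fun _ _ =>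
      Or.inr (by norm_num))).mul (hy.abs.add hη.abs)).mul hη.abs).mul cr))
    (Eventually.of_forall fun r _ t _ => by
      have h1 := (hasDerivAt_abs_rpow (y r + t * η r) (p := 10 / 3) (by norm_num)).comp t
        (((hasDerivAt_id' t).mul_const (η r)).const_add (y r))
      rw [show (10 / 3 : ℝ) - 2 = 4 / 3 by norm_num, one_mul] at h1
      exact h1.mul_const _)).2
  have e : (fun t => ∫ r in Ioi (0 : ℝ), |y r + t * η r| ^ (10 / 3 : ℝ) * r ^ (-(4 / 3) : ℝ)) =
      fun t => (∫ r in a..b, |y r + t * η r| ^ (10 / 3 : ℝ) * r ^ (-(4 / 3) : ℝ)) +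
        ((∫ r in Ioi (0 : ℝ), |y r + 0 * η r| ^ (10 / 3 : ℝ) * r ^ (-(4 / 3) : ℝ)) -
          ∫ r in a..b, |y r + 0 * η r| ^ (10 / 3 : ℝ) * r ^ (-(4 / 3) : ℝ)) := by
    funext t
    have := loc_eq (f := fun r => |y r + t * η r| ^ (10 / 3 : ℝ) * r ^ (-(4 / 3) : ℝ) -
      |y r + 0 * η r| ^ (10 / 3 : ℝ) * r ^ (-(4 / 3) : ℝ)) ha hab fun r hr => by
        simp [h0 r hr]
    rw [integral_sub (hi t) (hi 0),
      intervalIntegral.integral_sub (loc_ii ha hab (cF t)) (loc_ii ha hab (cF 0))] at this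
    linarith
  rw [e]
  refine (key.add_const _).congr_deriv ?_
  rw [← intervalIntegral.integral_const_mul]
  refine intervalIntegral.integral_congr fun r hr => ?_
  have hr0 : 0 < r := sub_Ioi ha hab hr
  simp only [zero_mul, add_zero]
  rw [div_rpow (abs_nonneg _) hr0.le, rpow_neg hr0.le]
  ring

theorem Y_smul (s : ℝ) (f : ℝ → ℝ) : (Y fun r => s * f r) = fun r => s * Y f r :=
  funext fun _ => intervalIntegral.integral_const_mul _ _

theorem J_smul (z σ : ℝ) (hσ : 0 ≤ σ) (f : ℝ → ℝ) : J z (fun r => √σ * f r) =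
    σ * (A * ∫ r in Ioi (0 : ℝ), f r ^ 2) + 3 / 5 * (σ ^ (5 / 3 : ℝ) *
      ∫ r in Ioi (0 : ℝ), |Y f r| ^ (10 / 3 : ℝ) * r ^ (-(4 / 3) : ℝ)) -
      z * (σ * ∫ r in Ioi (0 : ℝ), Y f r ^ 2 / r) +
      2 * π * (σ ^ 2 * ∫ r in Ioi (0 : ℝ), Y f r ^ 2 * Wp (Y f) r) := by
  have e : ∀ x : ℝ, |√σ * x| ^ (10 / 3 : ℝ) = σ ^ (5 / 3 : ℝ) * |x| ^ (10 / 3 : ℝ) := fun x => by
    rw [abs_mul, mul_rpow (abs_nonneg _) (abs_nonneg _), abs_of_nonneg (sqrt_nonneg _),
      sqrt_eq_rpow, ← rpow_mul hσ]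
    norm_num
  have e2 : ∀ r, Wp (fun r => √σ * Y f r) r = σ * Wp (Y f) r := fun r => by
    simp only [Wp, mul_pow, sq_sqrt hσ, mul_div_assoc, integral_const_mul]
  have e3 : ∀ x w : ℝ, σ * x * (σ * w) = σ ^ 2 * (x * w) := fun x w => by ring
  simp only [J, Y_smul, e, e2, mul_pow, sq_sqrt hσ, e3]
  simp only [mul_div_assoc, mul_assoc, integral_const_mul]
  ring

end EL1

open EL1 in
theorem st_EL1 (h1 : St_B1) (h2 : St_B2) : St_EL1 := by
  intro z g hz hm
  have cl : ∀ f : ℝ → ℝ, MemLp f 2 (volume.restrict (Ioi 0)) →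
      IntegrableOn (fun r => Y f r ^ 2) (Ioi 0) → Cl (Y f) := fun f l i =>
    ⟨(h1 f l).2.1, ⟨_, (h1 f l).2.2⟩, i⟩
  have cy := cl g hm.1.l2 hm.1.int
  have hy : ContinuousOn (Y g) (Ioi 0) := cy.cont.mono Ioi_subset_Ici_self
  set D := A * (∫ r in Ioi (0 : ℝ), g r ^ 2) +
    (∫ r in Ioi (0 : ℝ), |Y g r| ^ (10 / 3 : ℝ) * r ^ (-(4 / 3) : ℝ)) -
    z * (∫ r in Ioi (0 : ℝ), Y g r ^ 2 / r) + 4 * π * ∫ r in Ioi (0 : ℝ), Y g r ^ 2 * Wp (Y g) r
    with hD
  have key : ∀ a b h, Dir a b h → ∃ m : ℝ → ℝ, m 0 = mass (Y g) ∧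
      HasDerivAt m (8 * π * ∫ r in a..b, Y g r * Y h r) 0 ∧ ∀ μ (σ : ℝ → ℝ) σ', HasDerivAt σ σ' 0 →
        σ 0 = 1 → (∀ᶠ t in 𝓝 0, σ t * m t ≤ z) →
        σ' * D = 2 * μ * (∫ r in a..b, Y g r * Y h r) →
        A * (∫ r in a..b, g r * h r) + ∫ r in a..b, qq z μ (Y g) r * Y g r * Y h r = 0 := by
    intro a b h hh
    have ha := hh.a0
    have hab := hh.ab
    have hb := ha.trans hab
    have hη : ContinuousOn (Y h) (Ioi 0) := (h1 h hh.l2).2.1.mono Ioi_subset_Ici_self
    have z0 : ∀ p q, (∀ r ∈ uIoc p q, r ∉ Ioc a b) → ∫ r in p..q, h r = 0 := fun p q hp =>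
      intervalIntegral.integral_zero_ae (Eventually.of_forall fun r hr => hh.supp r (hp r hr))
    have za : ∀ r, r ≤ a → Y h r = 0 := fun r hr => z0 0 r fun s hs hs' =>
      absurd (hs.2.trans (max_le ha.le hr)) (not_le.2 hs'.1)
    have h0 : ∀ r, r ∉ Ioc a b → Y h r = 0 := fun r hr => by
      by_cases hr1 : r ≤ a
      · exact za r hr1
      have hr2 : b < r := by
        by_contra hc
        exact hr ⟨not_le.1 hr1, not_lt.1 hc⟩
      have ii := (h1 h hh.l2).1
      have e1 := intervalIntegral.integral_add_adjacent_intervals (ii 0 a le_rfl ha.le)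
        (ii a b ha.le hb.le)
      have e2 := intervalIntegral.integral_add_adjacent_intervals (ii 0 b le_rfl hb.le)
        (ii b r hb.le (hb.trans hr2).le)
      have e3 := z0 b r fun s hs hs' => by
        rw [uIoc_of_le hr2.le] at hs
        exact absurd hs'.2 (not_le.2 hs.1)
      have e4 : ∫ s in (0 : ℝ)..a, h s = 0 := za a le_rfl
      have e5 := hh.mean
      unfold Y
      linarith
    have eY : ∀ t, (Y fun r => g r + t * h r) = fun r => Y g r + t * Y h r := fun t => by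
      funext r
      by_cases hr : 0 ≤ r
      · unfold Y
        rw [intervalIntegral.integral_add ((h1 g hm.1.l2).1 0 r le_rfl hr)
          (((h1 h hh.l2).1 0 r le_rfl hr).const_mul t), intervalIntegral.integral_const_mul]
      · rw [za r (by linarith), mul_zero, add_zero]
        refine intervalIntegral.integral_congr fun s hs => ?_
        rw [uIcc_of_ge (by linarith)] at hs
        rw [hh.supp s fun hs' => by linarith [hs.2, hs'.1], mul_zero, add_zero]
    have l2 : ∀ t, MemLp (fun r => g r + t * h r) 2 (volume.restrict (Ioi 0)) := fun t =>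
      hm.1.l2.add (hh.l2.const_mul t)
    have x1 := expand (w := fun _ => 1) ha hab hy hη continuousOn_const h0
      (by simpa only [mul_one] using cy.int)
    simp only [mul_one] at x1
    have ci : ContinuousOn (fun r : ℝ => r⁻¹) (Ioi 0) := continuousOn_id.inv₀ fun r hr => ne_of_gt hr
    have x3 := expand (w := fun r => r⁻¹) ha hab hy hη ci h0
      (by simpa only [div_eq_mul_inv] using (h2 _ cy).1)
    have ct : ∀ t, Cl fun r => Y g r + t * Y h r := fun t => by
      rw [← eY]; exact cl _ (l2 t) (by rw [eY]; exact (x1 t).1)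
    have d1 : HasDerivAt (fun t => ∫ r in Ioi (0 : ℝ), (g r + t * h r) ^ 2)
        (2 * ∫ r in a..b, g r * h r) 0 := by
      refine hd (∫ r in Ioi (0 : ℝ), g r ^ 2) _ (∫ r in Ioi (0 : ℝ), h r ^ 2) 0 0 fun t => ?_
      have i0 := hm.1.l2.integrable_sq
      have i1 : IntegrableOn (fun r => 2 * t * (g r * h r)) (Ioi 0) :=
        (hm.1.l2.integrable_mul hh.l2).const_mul _
      have i2 : IntegrableOn (fun r => t ^ 2 * h r ^ 2) (Ioi 0) := hh.l2.integrable_sq.const_mul _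
      have i3 : IntegrableOn (fun r => g r ^ 2 + 2 * t * (g r * h r)) (Ioi 0) := i0.add i1
      rw [show (fun r => (g r + t * h r) ^ 2) =
          fun r => g r ^ 2 + 2 * t * (g r * h r) + t ^ 2 * h r ^ 2 from funext fun r => by ring,
        integral_add i3 i2, integral_add i0 i1, integral_const_mul, integral_const_mul,
        loc_eq (f := fun r => g r * h r) ha hab fun r hr => by rw [hh.supp r hr, mul_zero]]
      ring
    have d2 := q2 ha hab hy hη h0 fun t => (h2 _ (ct t)).2.1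
    have d3 : HasDerivAt (fun t => ∫ r in Ioi (0 : ℝ), (Y g r + t * Y h r) ^ 2 / r)
        (2 * ∫ r in a..b, Y g r * Y h r * r⁻¹) 0 :=
      hd (∫ r in Ioi (0 : ℝ), Y g r ^ 2 * r⁻¹) _ (∫ r in a..b, Y h r ^ 2 * r⁻¹) 0 0 fun t => by
        simp only [div_eq_mul_inv]; rw [(x3 t).2]; ring
    have d4 := q4 h2 ha hab hη h0 cy ct
    refine ⟨fun t => mass fun r => Y g r + t * Y h r, by simp, ?_, fun μ σ σ' ds s0 hle hμ => ?_⟩
    · exact hd (mass (Y g)) _ (4 * π * ∫ r in a..b, Y h r ^ 2) 0 0 fun t => by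
        simp only [mass]; rw [(x1 t).2]; ring
    have sp : ∀ᶠ t in 𝓝 0, 0 < σ t := ds.continuousAt.eventually (lt_mem_nhds (s0 ▸ zero_lt_one))
    have d5 := ds.rpow_const (p := 5 / 3) (Or.inr (by norm_num))
    have dd := (((ds.mul (d1.const_mul A)).add ((d5.mul d2).const_mul (3 / 5))).sub
      ((ds.mul d3).const_mul z)).add (((ds.pow 2).mul d4).const_mul (2 * π))
    have e0 := IsLocalMin.hasDerivAt_eq_zero (by
      filter_upwards [sp, hle] with t t1 t2
      have k : K1 z fun r => √(σ t) * (g r + t * h r) := by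
        refine ⟨(l2 t).const_mul _, ?_, ?_⟩ <;> rw [Y_smul, eY]
        · simp only [mul_pow]
          exact (x1 t).1.const_mul (√(σ t) ^ 2)
        · refine le_trans (le_of_eq ?_) t2
          simp only [mass, mul_pow, sq_sqrt t1.le, integral_const_mul]
          ring
      have := hm.2 _ k
      rw [J_smul z _ t1.le, eY] at this
      simpa [s0, J] using this) dd
    have cq : ContinuousOn (fun r => (|Y g r| / r) ^ (4 / 3 : ℝ)) (Ioi 0) :=
      (hy.abs.div continuousOn_id fun r hr => ne_of_gt hr).rpow_const fun _ _ =>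
        Or.inr (by norm_num)
    have cyh : ContinuousOn (fun r => Y g r * Y h r) (Ioi 0) := hy.mul hη
    have j1 : IntervalIntegrable (fun r => (|Y g r| / r) ^ (4 / 3 : ℝ) * (Y g r * Y h r))
      volume a b := loc_ii ha hab (cq.mul cyh)
    have j2 : IntervalIntegrable (fun r => z * (Y g r * Y h r * r⁻¹)) volume a b :=
      (loc_ii ha hab (cyh.mul ci)).const_mul z
    have j3 : IntervalIntegrable (fun r => 4 * π * (Y g r * Y h r * Wp (Y g) r)) volume a b :=
      (loc_ii ha hab (cyh.mul (h2 _ cy).2.2.2.1)).const_mul _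
    have j4 : IntervalIntegrable (fun r => μ * (Y g r * Y h r)) volume a b :=
      (loc_ii ha hab cyh).const_mul μ
    rw [show (fun r => qq z μ (Y g) r * Y g r * Y h r) = fun r =>
        (|Y g r| / r) ^ (4 / 3 : ℝ) * (Y g r * Y h r) - z * (Y g r * Y h r * r⁻¹) +
          4 * π * (Y g r * Y h r * Wp (Y g) r) + μ * (Y g r * Y h r) from
        funext fun r => by simp only [qq, ph]; ring,
      intervalIntegral.integral_add ((j1.sub j2).add j3) j4,
      intervalIntegral.integral_add (j1.sub j2) j3, intervalIntegral.integral_sub j1 j2,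
      intervalIntegral.integral_const_mul, intervalIntegral.integral_const_mul,
      intervalIntegral.integral_const_mul]
    simp only [s0, zero_mul, add_zero, one_rpow, Pi.pow_apply, one_pow, mul_one, one_mul,
      Nat.cast_ofNat] at e0
    rw [hD] at hμ
    linarith
  rcases hm.1.le.lt_or_eq with hlt | heq
  · refine ⟨0, fun _ => rfl, fun a b h hh => ?_⟩
    obtain ⟨m, m0, dm, k⟩ := key a b h hh
    refine k 0 (fun _ => 1) 0 (hasDerivAt_const _ _) rfl ?_ (by ring)
    filter_upwards [dm.continuousAt.eventually (gt_mem_nhds (m0 ▸ hlt))] with t ht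
    linarith
  · refine ⟨-(4 * π * D / z), fun hlt => absurd heq hlt.ne, fun a b h hh => ?_⟩
    obtain ⟨m, m0, dm, k⟩ := key a b h hh
    rw [heq] at m0
    refine k _ (fun t => z / m t) _ ((hasDerivAt_const _ z).div dm (m0 ▸ hz.ne'))
      (by rw [m0, div_self hz.ne']) ?_ (by rw [m0]; field_simp; ring)
    filter_upwards [dm.continuousAt.eventually (lt_mem_nhds (m0 ▸ hz))] with t ht
    rw [div_mul_cancel₀ _ ht.ne']

end Pool.Agent.Lib.TFW
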