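import Pool.Agent.Lib.TFW.B_ATE
import Pool.Agent.Lib.TFW.B_ATOM
import Pool.Agent.Lib.TFW.B_B1
import Pool.Agent.Lib.TFW.B_B2
import Pool.Agent.Lib.TFW.B_CB
import Pool.Agent.Lib.TFW.B_CB1
import Pool.Agent.Lib.TFW.B_DEC
import Pool.Agent.Lib.TFW.B_DUAL
import Pool.Agent.Lib.TFW.EL1
import Pool.Agent.Lib.TFW.B_EL2
import Pool.Agent.Lib.TFW.B_EX
import Pool.Agent.Lib.TFW.B_KIN
import Pool.Agent.Lib.TFW.B_LIM
import Pool.Agent.Lib.TFW.B_LOWA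
import Pool.Agent.Lib.TFW.B_LOWP
import Pool.Agent.Lib.TFW.B_MP
import Pool.Agent.Lib.TFW.B_MU
import Pool.Agent.Lib.TFW.B_NEG
import Pool.Agent.Lib.TFW.B_PIC
import Pool.Agent.Lib.TFW.B_POS
import Pool.Agent.Lib.TFW.B_PT
import Pool.Agent.Lib.TFW.B_SPH
import Pool.Agent.Lib.TFW.B_TRI
import Pool.Agent.Lib.TFW.B_UPA
import Pool.Agent.Lib.TFW.B_UPP
import Pool.Agent.Lib.TFW.B_ZERO

namespace Pool.Agent.Lib.TFW

theorem all_main : St_MAIN :=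
  have hk : St_KIN := st_KIN st_PIC st_TRI
  have hp : St_POS := st_POS st_B1 st_B2 (st_EX st_B1 st_B2) (st_NEG st_B1 st_B2)
    (st_EL1 st_B1 st_B2) (st_EL2 st_B1)
  st_MAIN (st_ATOM st_B2 hp (st_MU st_B2 st_MP) (st_DEC st_B2 st_MP) (st_ZERO st_B2))
    (st_ATE hk st_DUAL st_BDD) (st_LOWA hk st_DUAL st_LOWP st_PT)
    (st_UPA hk st_DUAL st_BDD st_UPP st_PT) (st_LIM st_SPH) (st_CB (st_CB1 hk st_BDD))

end Pool.Agent.Lib.TFW
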