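import Pool.Agent.Lib.TFW.Basic

open MeasureTheory Filter Topology Set Real

namespace Pool.Agent.Lib.TFW

open Pool.Agent.Lib.MP_689e73_mp (psi DD LL HI KK N1 ae_ne DD_smul_left DD_symm)

namespace T8

lemma squeeze_deriv {f F : ℝ → ℝ} {a m : ℝ} (hF : HasDerivAt F m a) (ha : f a = F a)
    (h : ∀ᶠ x in 𝓝 a, F a + (x - a) * m ≤ f x ∧ f x ≤ F x) : HasDerivAt f m a := by
  rw [hasDerivAt_iff_isLittleO] at hF ⊢
  refine Asymptotics.IsBigO.trans_isLittleO (Asymptotics.IsBigO.of_bound 1 ?_) hF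
  filter_upwards [h] with x hx
  simp only [smul_eq_mul, Real.norm_eq_abs, one_mul]
  rw [ha, abs_of_nonneg (by linarith [hx.1]), abs_of_nonneg (by linarith [hx.1, hx.2])]
  linarith [hx.2]

lemma rp1 {a : ℝ} (ha : 0 ≤ a) : (a ^ (4 / 3 : ℝ)) ^ (5 / 2 : ℝ) = a ^ (10 / 3 : ℝ) := by
  rw [← Real.rpow_mul ha]; norm_num

lemma rp2 {a : ℝ} (ha : 0 ≤ a) : (a ^ 2) ^ (5 / 3 : ℝ) = a ^ (10 / 3 : ℝ) := by
  rw [← Real.rpow_natCast, ← Real.rpow_mul ha]; norm_num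

lemma rp3 {a : ℝ} (ha : 0 ≤ a) : a ^ (4 / 3 : ℝ) * a ^ 2 = a ^ (10 / 3 : ℝ) := by
  rw [← Real.rpow_natCast, ← Real.rpow_add' ha (by norm_num)]; norm_num

lemma sqrt_mu {κ : ℝ} (h : 0 < κ) : √(A * κ ^ 2 / A) = κ := by
  rw [mul_div_cancel_left₀ _ A_pos.ne', Real.sqrt_sq h.le]

end T8

open T8

theorem st_ATE (hK : St_KIN) (hD : St_DUAL) (hB : St_BDD) : St_ATE := by
  intro P K h
  obtain ⟨k1, k2⟩ := hK P P K 1 0 0 0 h h one_pos le_rfl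
  have hPs : ∀ x, Ps P P 1 0 0 0 x ^ 2 = P.ρ 0 x := fun x => by simp [Ps, At.ρ]
  simp only [hPs, (h.Hmass 0).2] at k2
  have hl := h.ll 0
  have hk := h.Hk 0
  have hs : (fun x : E3 => (P.u ‖x - 0‖ ^ (4 / 3 : ℝ)) ^ (5 / 2 : ℝ)) =
      fun x : E3 => P.u ‖x - 0‖ ^ (10 / 3 : ℝ) := funext fun x => rp1 (h.nn _)
  have dual := fun lam ρ g => hD P.z 0 (A * P.κ ^ 2) lam 0 0
    (fun x => La P P 1 0 0 0 x / Ps P P 1 0 0 0 x) (fun x => P.u ‖x - 0‖ ^ (4 / 3 : ℝ)) (P.ρ 0) ρ g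
    hl (At.Ok.ρ_nonneg P 0) ((h.mux 0).pow_const _)
    (Eventually.of_forall fun x => Real.rpow_nonneg (h.nn _) _) (by rw [hs]; exact hk.1) (by
      filter_upwards [ae_ne (0 : E3)] with x hx
      have hu := (h.pos (h.ptx hx).r0).ne'
      simp only [La, Ps, Vm, At.FL, one_mul, zero_mul, add_zero, zero_div]
      rw [mul_div_cancel_right₀ _ hu, h.newton 0 x hx]; ring)
  simp only [hs, hk.2, At.Ok.DD_ρ] at dual
  have low : ∀ lam ρ g, Adm lam ρ g →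
      -(A * P.κ ^ 2 * lam) - P.D / 2 - 2 / 5 * P.k ≤ xi (Vm P.z 0 0 0) ρ g :=
    fun lam ρ g hA => (dual lam ρ g hA).1 (k1 lam ρ g hA).2
  have up : ∀ t, 0 < t → ∃ g, Adm (t * P.z) (fun x => t * P.ρ 0 x) g ∧
      xi (Vm P.z 0 0 0) (fun x => t * P.ρ 0 x) g = P.G t := by
    intro t ht
    obtain ⟨g, hA, hg⟩ := k2 t ht
    refine ⟨g, hA, ?_⟩
    rw [((dual _ _ g hA).2 (hl.const_mul t) hg).2]
    have e1 : (fun x => t * P.ρ 0 x - P.ρ 0 x) = fun x => (t - 1) * P.ρ 0 x := by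
      funext x; ring
    have e2 : DD (fun x => (t - 1) * P.ρ 0 x) (fun x => (t - 1) * P.ρ 0 x) = (t - 1) ^ 2 * P.D := by
      rw [DD_smul_left hl (hl.const_mul _), DD_symm hl (hl.const_mul _), DD_smul_left hl hl]
      unfold At.D; ring
    have e3 : ∫ x, (t * P.ρ 0 x) ^ (5 / 3 : ℝ) = t ^ (5 / 3 : ℝ) * P.k := by
      rw [← (hk.const_mul _).2]
      congr 1; funext x
      rw [Real.mul_rpow ht.le (At.Ok.ρ_nonneg P 0 x), At.ρ, rp2 (h.nn _)]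
    have e4 : ∫ x, P.u ‖x - 0‖ ^ (4 / 3 : ℝ) * (t * P.ρ 0 x) = t * P.k := by
      rw [← (hk.const_mul _).2]
      congr 1; funext x
      simp only [At.ρ, ← rp3 (h.nn _)]; ring
    rw [e1, e2, e3, e4, At.G]; ring
  have both : ∀ lam, 0 < lam → -(A * P.κ ^ 2 * lam) - P.D / 2 - 2 / 5 * P.k ≤ Eat P.z lam ∧
      Eat P.z lam ≤ P.G (lam / P.z) := by
    intro lam hlam
    obtain ⟨g, hA, hg⟩ := up _ (div_pos hlam h.hz)
    rw [div_mul_cancel₀ _ h.hz.ne'] at hA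
    rw [Eat_eq]
    refine ⟨le_csInf ⟨_, _, g, hA, rfl⟩ ?_, ?_⟩
    · rintro _ ⟨ρ, g', hA', rfl⟩
      exact low lam ρ g' hA'
    · rw [← hg]
      exact csInf_le (hB P.z 0 lam 0 0 h.hz.le le_rfl) ⟨_, g, hA, rfl⟩
  have hE : Eat P.z P.z = P.e := by
    obtain ⟨a, b⟩ := both P.z h.hz
    rw [div_self h.hz.ne', P.G_one] at b
    exact le_antisymm b a
  refine ⟨hE, mul_pos A_pos (pow_pos h.hκ 2), h.hc, ?_, P.u, ?_⟩
  · have hG : HasDerivAt (fun lam => P.G (lam / P.z)) (-(A * P.κ ^ 2)) P.z := by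
      have h1 : HasDerivAt P.G (-(A * P.κ ^ 2 * P.z)) (P.z / P.z) := by
        rw [div_self h.hz.ne']; exact P.G_deriv
      have h2 : HasDerivAt (fun lam : ℝ => lam / P.z) (1 / P.z) P.z :=
        (hasDerivAt_id P.z).div_const P.z
      refine (HasDerivAt.comp (h := fun lam : ℝ => lam / P.z) P.z h1 h2).congr_deriv ?_
      have := h.hz.ne'
      field_simp
    refine squeeze_deriv hG (by rw [hE, div_self h.hz.ne', P.G_one]) ?_
    filter_upwards [Ioi_mem_nhds h.hz] with lam hlam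
    obtain ⟨a, b⟩ := both lam hlam
    refine ⟨le_trans (le_of_eq ?_) a, b⟩
    rw [div_self h.hz.ne', P.G_one, At.e]; ring
  · obtain ⟨g, hA, hg⟩ := up 1 one_pos
    have e : (fun x => 1 * P.ρ 0 x) = fun x : E3 => P.u ‖x‖ ^ 2 := by
      funext x; simp [At.ρ]
    rw [e] at hA hg
    rw [one_mul] at hA
    rw [Vm_atom, P.G_one, ← hE] at hg
    refine ⟨g, h.nn, hA, hg, ?_⟩
    rw [sqrt_mu h.hκ]
    exact h.lim

end Pool.Agent.Lib.TFW
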