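import Pool.Agent.Lib.TFW.B_UPA

/-! Row LOWA: the lower bound for the molecule with equal decay rates. -/

open MeasureTheory Filter Topology Set Real

namespace Pool.Agent.Lib.TFW

open Pool.Agent.Lib.MP_689e73_mp (psi DD LL HI e0 ae_ne DD_symm DD_expand)

open U28 in
theorem st_LOWA (hKIN : St_KIN) (hDUAL : St_DUAL) (hLOWP : St_LOWP) (hPT : St_PT) :
    St_LOWA := by
  intro P Q K hP hQ hκ
  have hk := hP.hκ
  have hK := hP.hK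
  obtain ⟨C₁, hC₁, hL⟩ := hLOWP P.κ K hk hK
  obtain ⟨C₂, hC₂, hT⟩ := hPT P.κ K hk hK
  set H := ∫ x : E3, hw P.κ ‖x‖ with hH
  have hz1 := hP.hz
  have hz2 := hQ.hz
  set N := P.z + Q.z with hN
  have hN0 : 0 < N := by positivity
  refine ⟨C₁ * (H + H), fun R hR => ?_⟩
  have hR0 : 0 ≤ R := by linarith
  set b := R • e0 with hb
  have hnb : ‖(0 : E3) - b‖ = R := by rw [zero_sub, norm_neg, norm_pos_e0 hR0]
  have hb0 : (0 : E3) ≠ b := fun h => by rw [← h] at hnb; simp at hnb; linarith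
  set E := exp (-(4 / 3 * P.κ * R)) with hE
  have he4 : ∀ x : E3, exp (-(4 / 3 * P.κ * (‖x - 0‖ + ‖x - b‖))) ≤ E := fun x =>
    exp_le_exp.2 (by nlinarith [tri_e0 hR0 x])
  have hq : ∀ {x : E3}, x ≠ b → Pt P.κ K ‖x - b‖ (Q.u ‖x - b‖) (Q.φ ‖x - b‖) := fun hx =>
    hκ ▸ hQ.ptx hx
  have hT' := fun (x : E3) (h1 : x ≠ 0) (h2 : x ≠ b) => hT _ _ _ _ _ _ (hP.ptx h1) (hq h2)
  have Hw := (Hhw hk 0).add (Hhw hk b)
  have iab := HI.of (hP.int_mul 0 (hQ.int_u b))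
  set S := ∫ x : E3, P.u ‖x - 0‖ * Q.u ‖x - b‖ with hS
  have hS0 : 0 ≤ S := integral_nonneg fun x => mul_nonneg (hP.nn _) (hQ.nn _)
  have iPs : HI (fun x => Ps P Q 1 1 0 b x ^ 2) (N + 2 * S) :=
    (((hP.Hmass 0).add (hQ.Hmass b)).add (iab.const_mul 2)).congr (Eventually.of_forall fun x => by
      simp only [Ps, one_mul, At.ρ]; ring)
  have hKK := hKIN P Q K 1 1 0 b hP hQ one_pos zero_le_one
  obtain ⟨g₀, hg₀, -⟩ := hKK.2 (N / (N + 2 * S)) (by positivity)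
  rw [iPs.2, div_mul_cancel₀ _ (by positivity)] at hg₀
  have mss : Measurable fun x : E3 =>
      ss (P.u ‖x - 0‖) (Q.u ‖x - b‖) (P.φ ‖x - 0‖) (Q.φ ‖x - b‖) :=
    (((((hP.mux 0).pow_const _).add (hQ.mφx b)).mul (hP.mux 0)).add
      ((((hQ.mux b).pow_const _).add (hP.mφx 0)).mul (hQ.mux b))).div ((hP.mux 0).add (hQ.mux b))
  have is : Integrable fun x : E3 =>
      ss (P.u ‖x - 0‖) (Q.u ‖x - b‖) (P.φ ‖x - 0‖) (Q.φ ‖x - b‖) ^ (5 / 2 : ℝ) :=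
    int_of_le_hw2 (C := C₂) hk hk 0 b (mss.pow_const _).aestronglyMeasurable fun x h1 h2 => by
      rw [abs_of_nonneg (rpow_nonneg (hT' x h1 h2).2.2.1 _)]; exact (hT' x h1 h2).2.2.2.1
  have hEV : -(A * P.κ ^ 2 * N) -
      DD (fun y => P.ρ 0 y + Q.ρ b y) (fun y => P.ρ 0 y + Q.ρ b y) / 2 - 2 / 5 * ∫ x : E3,
        ss (P.u ‖x - 0‖) (Q.u ‖x - b‖) (P.φ ‖x - 0‖) (Q.φ ‖x - b‖) ^ (5 / 2 : ℝ) ≤
      EV (Vm P.z Q.z 0 b) N := by
    refine le_csInf ⟨_, _, g₀, hg₀, rfl⟩ ?_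
    rintro _ ⟨ρ, g, hg, rfl⟩
    exact (hDUAL P.z Q.z (A * P.κ ^ 2) N 0 b _ _ _ ρ g ((hP.ll 0).add (hQ.ll b))
      (fun x => add_nonneg (At.Ok.ρ_nonneg P 0 x) (At.Ok.ρ_nonneg Q b x)) mss
      (by filter_upwards [ae_ne 0, ae_ne b] with x h1 h2 using (hT' x h1 h2).2.2.1) is
      (W_eq hP hQ hκ 0 b) hg).1 (hKK.1 N ρ g hg).2
  have hDD : DD (fun y => P.ρ 0 y + Q.ρ b y) (fun y => P.ρ 0 y + Q.ρ b y) =
      P.D + 2 * DD (P.ρ 0) (Q.ρ b) + Q.D := by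
    have := DD_expand (hP.ll 0) (hQ.ll b) 1
    simp only [one_mul, mul_one, one_pow] at this
    rw [this, At.Ok.DD_ρ, At.Ok.DD_ρ, DD_symm (hQ.ll b) (hP.ll 0)]
  have h1 := hP.DD_le hQ hb0
  rw [hnb] at h1
  have iT : HI (fun x : E3 => TT (P.u ‖x - 0‖) (Q.u ‖x - b‖) (P.φ ‖x - 0‖) (Q.φ ‖x - b‖))
      (IT P Q R) :=
    HI.of (int_of_le_hw2 (C := C₂) hk hk 0 b (((hP.mux 0).mul (hQ.mux b)).mul
      ((((hP.mφx 0).add (hQ.mφx b)).sub ((hP.mux 0).pow_const _)).sub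
        ((hQ.mux b).pow_const _))).aestronglyMeasurable fun x h1 h2 => (hT' x h1 h2).2.2.2.2)
  have h3 := ((((HI.of is).sub (hP.Hk 0)).sub (hQ.Hk b)).const_mul (2 / 5)).le
    (iT.add (Hw.const_mul (C₁ * E))) (by
      filter_upwards [ae_ne 0, ae_ne b] with x h1 h2
      refine (hL _ _ _ _ _ _ (hP.ptx h1) (hq h2)).trans (add_le_add le_rfl ?_)
      exact mul_le_mul_of_nonneg_right (mul_le_mul_of_nonneg_left (he4 x) hC₁)
        (add_nonneg (hw_nonneg P.κ (norm_nonneg (x - 0))) (hw_nonneg P.κ (norm_nonneg (x - b)))))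
  rw [Emol_eq]
  rw [hDD] at hEV
  simp only [At.e, ← hκ]
  rw [← hb, ← hN]
  have : A * P.κ ^ 2 * N = A * P.κ ^ 2 * P.z + A * P.κ ^ 2 * Q.z := by rw [hN]; ring
  linarith

end Pool.Agent.Lib.TFW
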