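import Pool.Agent.Lib.TFW.Blue

open MeasureTheory Filter Topology Set Real

namespace Pool.Agent.Lib.TFW

open Pool.Agent.Lib.MP_689e73_mp (psi DD LL HI e0 kap integrable_kap ae_ne norm_e0 coulomb_eq
  coulomb memLp_iff N1 DD_symm psi_nonneg finrank_E3)

lemma rad_integral (f : ℝ → ℝ) :
    ∫ x : E3, f ‖x‖ = 4 * π * ∫ r in Ioi (0 : ℝ), r ^ 2 * f r := by
  rw [integral_fun_norm_addHaar (volume : Measure E3) f, finrank_E3, Measure.real,
    EuclideanSpace.volume_ball_fin_three]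
  have h : (ENNReal.ofReal 1 ^ 3 * ENNReal.ofReal (π * 4 / 3)).toReal = π * 4 / 3 := by
    rw [ENNReal.ofReal_one, one_pow, one_mul, ENNReal.toReal_ofReal (by positivity)]
  rw [h]
  simp only [smul_eq_mul, nsmul_eq_mul]
  norm_num
  ring

lemma rad_integrable (f : ℝ → ℝ) :
    Integrable (fun x : E3 => f ‖x‖) ↔ IntegrableOn (fun r => r ^ 2 * f r) (Ioi (0 : ℝ)) := by
  rw [integrable_fun_norm_addHaar (volume : Measure E3) (f := f), finrank_E3]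
  simp only [smul_eq_mul]

lemma pos_eq (R : ℝ) : (EuclideanSpace.single 0 R : E3) = R • e0 := by
  ext i
  simp [e0, Pi.single_apply]

lemma norm_pos_e0 {R : ℝ} (h : 0 ≤ R) : ‖R • e0‖ = R := by
  rw [norm_smul, norm_e0, mul_one, Real.norm_of_nonneg h]

lemma tri_e0 {R : ℝ} (h : 0 ≤ R) (x : E3) : R ≤ ‖x - 0‖ + ‖x - R • e0‖ := by
  have h1 : ‖R • e0‖ ≤ ‖x - 0‖ + ‖x - R • e0‖ := by
    have : R • e0 = (x - 0) - (x - R • e0) := by simp
    calc ‖R • e0‖ = ‖(x - 0) - (x - R • e0)‖ := by rw [← this]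
      _ ≤ _ := norm_sub_le _ _
  rwa [norm_pos_e0 h] at h1

lemma Emol_eq (z₁ z₂ R : ℝ) :
    Emol z₁ z₂ R = EV (Vm z₁ z₂ 0 (R • e0)) (z₁ + z₂) + z₁ * z₂ / R := by
  unfold Emol Vm
  simp only [pos_eq, sub_zero]

lemma Vm_atom (z : ℝ) : Vm z 0 0 0 = fun x => z / ‖x‖ := by
  funext x; simp [Vm]

lemma Eat_eq (z lam : ℝ) : Eat z lam = EV (Vm z 0 0 0) lam := by
  rw [Vm_atom]; rfl

lemma xi_eq (V ρ : E3 → ℝ) (g : Fin 3 → E3 → ℝ) :
    xi V ρ g = A * (∑ i, ∫ x, g i x ^ 2) + 3 / 5 * (∫ x, ρ x ^ (5 / 3 : ℝ)) - (∫ x, V x * ρ x)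
      + 1 / 2 * DD ρ ρ := by
  rw [← coulomb_eq]
  simp only [xi, coulomb, div_eq_mul_inv]

lemma hw_nonneg (κ : ℝ) {r : ℝ} (hr : 0 ≤ r) : 0 ≤ hw κ r := by unfold hw; positivity

lemma measurable_hw (κ : ℝ) : Measurable (hw κ) := by
  unfold hw
  exact (measurable_const.mul measurable_id).neg.exp.mul
    ((measurable_const.add measurable_inv).pow_const _)

lemma pow_le_exp {c : ℝ} (hc : 0 < c) {r : ℝ} (hr : 0 ≤ r) (n : ℕ) :
    (1 + r) ^ n ≤ (1 + n / c) ^ n * exp (c * r) := by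
  rcases Nat.eq_zero_or_pos n with h | h
  · subst h; simpa using mul_nonneg hc.le hr
  have hn : (0 : ℝ) < n := by exact_mod_cast h
  have h1 : 1 + r ≤ (1 + n / c) * exp (c * r / n) := by
    have h2 := Real.add_one_le_exp (c * r / n)
    have h3 : (1 + n / c) * (c * r / n + 1) = 1 + r + (n / c + c * r / n) := by
      field_simp; ring
    have h4 : 0 ≤ n / c + c * r / n := by positivity
    have h5 := mul_le_mul_of_nonneg_left h2 (show 0 ≤ 1 + n / c by positivity)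
    linarith
  calc (1 + r) ^ n ≤ ((1 + n / c) * exp (c * r / n)) ^ n := pow_le_pow_left₀ (by linarith) h1 n
    _ = _ := by
      rw [mul_pow, ← Real.exp_nat_mul]
      congr 2
      field_simp

lemma hw_int {κ : ℝ} (hκ : 0 < κ) (b : E3) : Integrable (fun x : E3 => hw κ ‖x - b‖) := by
  have h0 : Integrable (fun x : E3 => hw κ ‖x‖) := by
    have hc : 0 < 2 / 3 * κ := by positivity
    refine Integrable.mono' (integrable_kap.const_mul ((1 + (4 : ℕ) / (2 / 3 * κ)) ^ 4))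
      ((measurable_hw κ).comp measurable_norm).aestronglyMeasurable ?_
    filter_upwards [ae_ne (0 : E3)] with x hx
    have hr : 0 < ‖x‖ := norm_pos_iff.2 hx
    rw [Real.norm_of_nonneg (hw_nonneg κ hr.le)]
    unfold hw kap
    set r := ‖x‖
    have h1 := pow_le_exp hc hr.le 4
    have h2 : (1 + r⁻¹) ^ (5 / 2 : ℝ) = (1 + r) ^ (5 / 2 : ℝ) * r ^ (-(5 / 2) : ℝ) := by
      rw [Real.rpow_neg hr.le, ← Real.inv_rpow hr.le, ← Real.mul_rpow (by positivity) (by positivity)]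
      congr 1; field_simp; ring
    have h3 : (1 + r) ^ (5 / 2 : ℝ) ≤ (1 + r) ^ 3 := by
      rw [← Real.rpow_natCast]
      exact Real.rpow_le_rpow_of_exponent_le (by linarith) (by norm_num)
    have h4 : exp (-(2 / 3 * κ * r)) * (1 + r) ^ 3 ≤
        (1 + (4 : ℕ) / (2 / 3 * κ)) ^ 4 * (1 + r)⁻¹ := by
      rw [Real.exp_neg, ← div_eq_mul_inv, le_div_iff₀ (by linarith), mul_assoc, ← pow_succ,
        inv_mul_le_iff₀ (Real.exp_pos _), mul_comm]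
      exact h1
    rw [h2]
    have h5 : 0 ≤ r ^ (-(5 / 2) : ℝ) := by positivity
    calc exp (-(2 / 3 * κ * r)) * ((1 + r) ^ (5 / 2 : ℝ) * r ^ (-(5 / 2) : ℝ))
        ≤ exp (-(2 / 3 * κ * r)) * ((1 + r) ^ 3 * r ^ (-(5 / 2) : ℝ)) := by gcongr
      _ = (exp (-(2 / 3 * κ * r)) * (1 + r) ^ 3) * r ^ (-(5 / 2) : ℝ) := by ring
      _ ≤ ((1 + (4 : ℕ) / (2 / 3 * κ)) ^ 4 * (1 + r)⁻¹) * r ^ (-(5 / 2) : ℝ) := by gcongr
      _ = _ := by ring
  exact h0.comp_sub_right b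

lemma hw_integral (κ : ℝ) (b : E3) : ∫ x : E3, hw κ ‖x - b‖ = ∫ x : E3, hw κ ‖x‖ :=
  integral_sub_right_eq_self (fun x : E3 => hw κ ‖x‖) b

lemma exp_mul_le_hw (κ : ℝ) {r : ℝ} (hr : 0 ≤ r) :
    exp (-(2 / 3 * κ * r)) * (1 + r⁻¹) ^ 2 ≤ hw κ r := by
  unfold hw
  refine mul_le_mul_of_nonneg_left ?_ (Real.exp_pos _).le
  rw [← Real.rpow_natCast]
  exact Real.rpow_le_rpow_of_exponent_le (by linarith [inv_nonneg.2 hr]) (by norm_num)

lemma exp_inv_le_hw (κ : ℝ) {r : ℝ} (hr : 0 ≤ r) :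
    exp (-(2 / 3 * κ * r)) * (1 + r⁻¹) ≤ hw κ r := by
  refine le_trans (mul_le_mul_of_nonneg_left ?_ (Real.exp_pos _).le) (exp_mul_le_hw κ hr)
  nlinarith [inv_nonneg.2 hr]

lemma exp_le_hw (κ : ℝ) {r : ℝ} (hr : 0 ≤ r) : exp (-(2 / 3 * κ * r)) ≤ hw κ r := by
  refine le_trans ?_ (exp_inv_le_hw κ hr)
  nlinarith [inv_nonneg.2 hr, Real.exp_pos (-(2 / 3 * κ * r))]

lemma int_of_le_hw {κ C : ℝ} (hκ : 0 < κ) (b : E3) {f : E3 → ℝ} (hm : AEStronglyMeasurable f)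
    (h : ∀ x, x ≠ b → |f x| ≤ C * hw κ ‖x - b‖) : Integrable f := by
  refine Integrable.mono' ((hw_int hκ b).const_mul C) hm ?_
  filter_upwards [ae_ne b] with x hx
  exact h x hx

lemma int_of_le_hw2 {κ κ' C : ℝ} (hκ : 0 < κ) (hκ' : 0 < κ') (b b' : E3) {f : E3 → ℝ}
    (hm : AEStronglyMeasurable f)
    (h : ∀ x, x ≠ b → x ≠ b' → |f x| ≤ C * (hw κ ‖x - b‖ + hw κ' ‖x - b'‖)) : Integrable f := by
  refine Integrable.mono' (((hw_int hκ b).add (hw_int hκ' b')).const_mul C) hm ?_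
  filter_upwards [ae_ne b, ae_ne b'] with x hx hx'
  exact h x hx hx'

lemma LL_of_bdd {σ : E3 → ℝ} {M : ℝ} (hm : Measurable σ) (hi : Integrable σ)
    (hb : ∀ᵐ x, |σ x| ≤ M) : LL σ := by
  refine ⟨hm, hi, (memLp_iff hm.aestronglyMeasurable).2 ?_⟩
  refine Integrable.mono' (hi.abs.const_mul (M ^ (2 / 3 : ℝ)))
    (hm.abs.pow_const _).aestronglyMeasurable ?_
  filter_upwards [hb] with x hx
  rw [Real.norm_of_nonneg (by positivity), show (5 / 3 : ℝ) = 2 / 3 + 1 by norm_num,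
    Real.rpow_add' (abs_nonneg _) (by norm_num), Real.rpow_one]
  exact mul_le_mul_of_nonneg_right (Real.rpow_le_rpow (abs_nonneg _) hx (by norm_num))
    (abs_nonneg _)

lemma psi_shift (σ : E3 → ℝ) (b x : E3) : psi (fun y => σ (y - b)) x = psi σ (x - b) := by
  unfold psi
  rw [← integral_sub_right_eq_self (fun y : E3 => ‖x - b - y‖⁻¹ * σ y) b]
  congr 1; ext y
  rw [sub_sub_sub_cancel_right]

lemma psi_mono {σ τ : E3 → ℝ} (hσ : LL σ) (hτ : LL τ) (h : ∀ᵐ y, σ y ≤ τ y) (x : E3) :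
    psi σ x ≤ psi τ x := by
  refine integral_mono_ae (hσ.psi_int x) (hτ.psi_int x) ?_
  filter_upwards [h] with y hy
  exact mul_le_mul_of_nonneg_left hy (inv_nonneg.2 (norm_nonneg _))

lemma HI_nuc {σ : E3 → ℝ} (hσ : LL σ) (z : ℝ) (b : E3) :
    HI (fun x => z / ‖x - b‖ * σ x) (z * psi σ b) := by
  refine ((hσ.Hpsi b).const_mul z).congr (Eventually.of_forall fun x => ?_)
  simp only [norm_sub_rev b x, div_eq_mul_inv]; ring

namespace Pt

variable {κ K r a p : ℝ}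

lemma pos (h : Pt κ K r a p) (hK : 1 ≤ K) : 0 < a := by
  have h1 : 0 < exp (-(κ * r)) / (1 + r) := div_pos (Real.exp_pos _) (by linarith [h.r0])
  have h2 := h1.trans_le h.lo
  by_contra hn
  nlinarith [not_lt.1 hn]

lemma le_exp (h : Pt κ K r a p) (hK : 1 ≤ K) : a ≤ K * exp (-(κ * r)) :=
  h.up.trans (div_le_self (by positivity) (by linarith [h.r0]))

lemma exp_le_one (h : Pt κ K r a p) (hκ : 0 < κ) : exp (-(κ * r)) ≤ 1 :=
  Real.exp_le_one_iff.2 (by nlinarith [h.r0])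

lemma le_K (h : Pt κ K r a p) (hκ : 0 < κ) (hK : 1 ≤ K) : a ≤ K :=
  (h.le_exp hK).trans (by nlinarith [h.exp_le_one hκ])

lemma exp_le (h : Pt κ K r a p) (hκ : 0 < κ) : exp (-(κ * r)) ≤ exp (-(2 / 3 * κ * r)) :=
  Real.exp_le_exp.2 (by nlinarith [mul_pos hκ h.r0])

lemma le_hw (h : Pt κ K r a p) (hκ : 0 < κ) (hK : 1 ≤ K) : a * (1 + r⁻¹) ≤ K * hw κ r := by
  have h1 := exp_inv_le_hw κ h.r0.le
  have h2 : a ≤ K * exp (-(2 / 3 * κ * r)) :=
    (h.le_exp hK).trans (mul_le_mul_of_nonneg_left (h.exp_le hκ) (by linarith))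
  have h3 : 0 ≤ 1 + r⁻¹ := by linarith [inv_nonneg.2 h.r0.le]
  calc a * (1 + r⁻¹) ≤ K * exp (-(2 / 3 * κ * r)) * (1 + r⁻¹) := mul_le_mul_of_nonneg_right h2 h3
    _ = K * (exp (-(2 / 3 * κ * r)) * (1 + r⁻¹)) := by ring
    _ ≤ _ := mul_le_mul_of_nonneg_left h1 (by linarith)

lemma le_hw' (h : Pt κ K r a p) (hκ : 0 < κ) (hK : 1 ≤ K) : a ≤ K * hw κ r := by
  refine le_trans ?_ (h.le_hw hκ hK)
  nlinarith [inv_nonneg.2 h.r0.le, h.pos hK]

lemma p_le (h : Pt κ K r a p) (hκ : 0 < κ) (hK : 1 ≤ K) : p ≤ K * r⁻¹ := by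
  refine h.p1.trans ?_
  rw [div_eq_mul_inv]
  refine mul_le_mul_of_nonneg_right ?_ (inv_nonneg.2 h.r0.le)
  have := pow_le_one₀ (Real.exp_pos _).le (h.exp_le_one hκ) (n := 2)
  nlinarith

lemma mono (h : Pt κ K r a p) (hK : 1 ≤ K) {K' : ℝ} (hK' : K ≤ K') : Pt κ K' r a p := by
  have h0 := h.r0
  refine ⟨h.r0, h.up.trans (by gcongr), h.lo.trans ?_, h.p0, h.p1.trans (by gcongr)⟩
  exact mul_le_mul_of_nonneg_right hK' (h.pos hK).le

end Pt

lemma rpow_le_mul {a K : ℝ} (ha : 0 ≤ a) (h : a ≤ K) {s : ℝ} (hs : 0 ≤ s) :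
    a ^ (s + 1) ≤ K ^ s * a := by
  rw [Real.rpow_add' ha (by linarith), Real.rpow_one]
  exact mul_le_mul_of_nonneg_right (Real.rpow_le_rpow ha h hs) ha

namespace At.Ok

variable {P Q : At} {K : ℝ}

lemma mono (h : P.Ok K) {K' : ℝ} (hK' : K ≤ K') : P.Ok K' :=
  { h with
    hK := h.hK.trans hK'
    pt := fun r hr => (h.pt r hr).mono h.hK hK'
    dv := fun r hr => (h.dv r hr).trans (mul_le_mul_of_nonneg_right hK' (h.nn r)) }

lemma ptx (h : P.Ok K) {b x : E3} (hx : x ≠ b) :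
    Pt P.κ K ‖x - b‖ (P.u ‖x - b‖) (P.φ ‖x - b‖) :=
  h.pt _ (norm_pos_iff.2 (sub_ne_zero.2 hx))

lemma pos (h : P.Ok K) {r : ℝ} (hr : 0 < r) : 0 < P.u r := (h.pt r hr).pos h.hK

lemma le_K (h : P.Ok K) {r : ℝ} (hr : 0 < r) : P.u r ≤ K := (h.pt r hr).le_K h.hκ h.hK

lemma mux (h : P.Ok K) (b : E3) : Measurable fun x : E3 => P.u ‖x - b‖ :=
  h.mu.comp (measurable_id.sub measurable_const).norm

lemma mφx (h : P.Ok K) (b : E3) : Measurable fun x : E3 => P.φ ‖x - b‖ :=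
  h.mφ.comp (measurable_id.sub measurable_const).norm

lemma mFL (h : P.Ok K) : Measurable P.FL :=
  (((h.mu.pow_const _).sub h.mφ).add measurable_const).mul h.mu

lemma mFLx (h : P.Ok K) (b : E3) : Measurable fun x : E3 => P.FL ‖x - b‖ :=
  h.mFL.comp (measurable_id.sub measurable_const).norm

lemma FL_le (h : P.Ok K) {r : ℝ} (hr : 0 < r) :
    |P.FL r| ≤ (K ^ (4 / 3 : ℝ) + K + A * P.κ ^ 2) * (P.u r * (1 + r⁻¹)) := by
  have hp := h.pt r hr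
  have h1 : P.u r ^ (4 / 3 : ℝ) ≤ K ^ (4 / 3 : ℝ) :=
    Real.rpow_le_rpow (h.nn r) (h.le_K hr) (by norm_num)
  have h2 : 0 ≤ P.u r ^ (4 / 3 : ℝ) := Real.rpow_nonneg (h.nn r) _
  have h3 := hp.p_le h.hκ h.hK
  have h4 : 0 ≤ A * P.κ ^ 2 := mul_nonneg A_pos.le (sq_nonneg _)
  have h5 : 0 ≤ r⁻¹ := inv_nonneg.2 hr.le
  have hK := h.hK
  unfold At.FL
  rw [abs_mul, abs_of_nonneg (h.nn r), mul_comm (P.u r), ← mul_assoc]
  refine mul_le_mul_of_nonneg_right (abs_le.2 ⟨?_, ?_⟩) (h.nn r)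
  · nlinarith [mul_nonneg (h2.trans h1) h5, mul_nonneg h4 h5]
  · nlinarith [mul_nonneg (h2.trans h1) h5, mul_nonneg h4 h5, hp.p0,
      mul_nonneg (show 0 ≤ K by linarith) h5]

lemma int_u (h : P.Ok K) (b : E3) : Integrable fun x : E3 => P.u ‖x - b‖ :=
  int_of_le_hw (C := K) h.hκ b (h.mux b).aestronglyMeasurable fun x hx => by
    rw [abs_of_nonneg (h.nn _)]; exact (h.ptx hx).le_hw' h.hκ h.hK

lemma int_uφ (h : P.Ok K) (b : E3) : Integrable fun x : E3 => P.u ‖x - b‖ * P.φ ‖x - b‖ :=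
  int_of_le_hw (C := K * K) h.hκ b ((h.mux b).mul (h.mφx b)).aestronglyMeasurable fun x hx => by
    have hp := h.ptx hx
    have h1 := hp.le_hw h.hκ h.hK
    have h2 := hp.p_le h.hκ h.hK
    have hK := h.hK
    rw [abs_of_nonneg (mul_nonneg (h.nn _) hp.p0)]
    nlinarith [mul_le_mul_of_nonneg_left h2 (h.nn ‖x - b‖), h.nn ‖x - b‖,
      mul_le_mul_of_nonneg_left h1 (show 0 ≤ K by linarith),
      mul_nonneg (show 0 ≤ K by linarith) (h.nn ‖x - b‖)]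

lemma int_FL (h : P.Ok K) (b : E3) : Integrable fun x : E3 => P.FL ‖x - b‖ :=
  int_of_le_hw (C := (K ^ (4 / 3 : ℝ) + K + A * P.κ ^ 2) * K) h.hκ b
    (h.mFLx b).aestronglyMeasurable fun x hx => by
    have hp := h.ptx hx
    refine (h.FL_le hp.r0).trans ?_
    rw [mul_assoc]
    have hK := h.hK
    have := A_pos
    exact mul_le_mul_of_nonneg_left (hp.le_hw h.hκ h.hK) (by positivity)

/-- An integrable function times an orbital is integrable. -/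
lemma int_mul (h : P.Ok K) (b : E3) {f : E3 → ℝ} (hf : Integrable f) :
    Integrable fun x => P.u ‖x - b‖ * f x := by
  refine hf.bdd_mul (c := K) (h.mux b).aestronglyMeasurable ?_
  filter_upwards [ae_ne b] with x hx
  rw [Real.norm_of_nonneg (h.nn _)]
  exact h.le_K (h.ptx hx).r0

lemma ρ_nonneg (P : At) (b x : E3) : 0 ≤ P.ρ b x := sq_nonneg _

lemma ll (h : P.Ok K) (b : E3) : LL (P.ρ b) := by
  refine LL_of_bdd (M := K ^ 2) ((h.mux b).pow_const 2) ?_ ?_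
  · refine (h.int_mul b (h.int_u b)).congr (Eventually.of_forall fun x => ?_)
    simp only [At.ρ, sq]
  · filter_upwards [ae_ne b] with x hx
    rw [abs_of_nonneg (ρ_nonneg P b x)]
    exact pow_le_pow_left₀ (h.nn _) (h.le_K (h.ptx hx).r0) 2

lemma Hmass (h : P.Ok K) (b : E3) : HI (P.ρ b) P.z :=
  ⟨(h.ll b).int, by
    rw [← h.mass]; exact integral_sub_right_eq_self (fun x : E3 => P.u ‖x‖ ^ 2) b⟩

lemma Hk (h : P.Ok K) (b : E3) : HI (fun x : E3 => P.u ‖x - b‖ ^ (10 / 3 : ℝ)) P.k := by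
  refine ⟨?_, integral_sub_right_eq_self (fun x : E3 => P.u ‖x‖ ^ (10 / 3 : ℝ)) b⟩
  refine Integrable.mono' ((h.int_u b).const_mul (K ^ (7 / 3 : ℝ)))
    ((h.mux b).pow_const _).aestronglyMeasurable ?_
  filter_upwards [ae_ne b] with x hx
  rw [Real.norm_of_nonneg (Real.rpow_nonneg (h.nn _) _),
    show (10 / 3 : ℝ) = 7 / 3 + 1 by norm_num]
  exact rpow_le_mul (h.nn _) (h.le_K (h.ptx hx).r0) (by norm_num)

lemma k_nonneg (h : P.Ok K) : 0 ≤ P.k := integral_nonneg fun _ => Real.rpow_nonneg (h.nn _) _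

lemma psi_ρ (P : At) (b x : E3) : psi (P.ρ b) x = psi (P.ρ 0) (x - b) := by
  rw [← psi_shift]
  simp only [At.ρ, sub_zero]
  rfl

lemma DD_ρ (P : At) (b : E3) : DD (P.ρ b) (P.ρ b) = P.D := by
  unfold At.D DD
  rw [← integral_sub_right_eq_self (fun x : E3 => P.ρ 0 x * psi (P.ρ 0) x) b]
  congr 1; ext x
  rw [psi_ρ]
  simp only [At.ρ, sub_zero]

lemma psi_bdd (h : P.Ok K) : ∃ C, 0 ≤ C ∧ ∀ b x, psi (P.ρ b) x ≤ C := by
  obtain ⟨C, hC⟩ := (h.ll 0).psi_bdd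
  simp only [abs_of_nonneg (ρ_nonneg P 0 _)] at hC
  exact ⟨C, (psi_nonneg (ρ_nonneg P 0) 0).trans (hC 0), fun b x => by rw [psi_ρ]; exact hC _⟩

/-- The screened potential of one atom integrated against a density. -/
lemma Hφ (h : P.Ok K) (b : E3) {σ : E3 → ℝ} (hσ : LL σ) :
    HI (fun x => σ x * P.φ ‖x - b‖) (P.z * psi σ b - DD σ (P.ρ b)) := by
  refine ((HI_nuc hσ P.z b).sub (hσ.HD (h.ll b))).congr ?_
  filter_upwards [ae_ne b] with x hx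
  rw [h.newton b x hx]; ring

/-- Nuclear repulsion against the repulsion of the two clouds. -/
lemma nuc (h : P.Ok K) (h' : Q.Ok K) {b₁ b₂ : E3} (hb : b₁ ≠ b₂) :
    P.z * Q.z / ‖b₁ - b₂‖ - DD (P.ρ b₁) (Q.ρ b₂) =
      P.z * Q.φ ‖b₁ - b₂‖ + ∫ x, Q.ρ b₂ x * P.φ ‖x - b₁‖ := by
  rw [(h.Hφ b₁ (h'.ll b₂)).2, h'.newton b₂ b₁ hb, DD_symm (h.ll b₁) (h'.ll b₂)]
  ring

lemma DD_le (h : P.Ok K) (h' : Q.Ok K) {b₁ b₂ : E3} (hb : b₁ ≠ b₂) :
    DD (P.ρ b₁) (Q.ρ b₂) ≤ P.z * Q.z / ‖b₁ - b₂‖ := by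
  have h1 := h.nuc h' hb
  have h2 : 0 ≤ ∫ x, Q.ρ b₂ x * P.φ ‖x - b₁‖ := by
    refine integral_nonneg_of_ae ?_
    filter_upwards [ae_ne b₁] with x hx
    exact mul_nonneg (ρ_nonneg Q b₂ x) (h.ptx hx).p0
  have h3 := mul_nonneg h.hz.le (h'.ptx hb).p0
  linarith

end At.Ok

lemma At.G_one (P : At) : P.G 1 = P.e := by
  unfold At.G At.e; rw [Real.one_rpow]; ring

lemma At.G_deriv (P : At) : HasDerivAt P.G (-(A * P.κ ^ 2 * P.z)) 1 := by
  have h1 : HasDerivAt (fun t : ℝ => t ^ (5 / 3 : ℝ)) (5 / 3) 1 := by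
    simpa using Real.hasDerivAt_rpow_const (x := 1) (p := 5 / 3) (Or.inl one_ne_zero)
  have h2 := ((((hasDerivAt_id (1 : ℝ)).mul_const (P.k + A * P.κ ^ 2 * P.z + P.D)).neg).add
    ((h1.const_mul (3 / 5)).mul_const P.k)).add
    (((hasDerivAt_pow 2 (1 : ℝ)).div_const 2).mul_const P.D)
  refine (h2.congr_deriv ?_).congr_of_eventuallyEq (Eventually.of_forall fun t => rfl)
  norm_num; ring

end Pool.Agent.Lib.TFW
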