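import Pool.Agent.Lib.TFW.Defs
import Pool.Agent.Lib.MP_689e73_mp.Stab
import Pool.Agent.Lib.MP_689e73_mp.Newton
import Pool.Agent.Lib.MP_6c3a95_mp.Fields

open MeasureTheory Filter Topology Set Real

namespace Pool.Agent.Lib.TFW

open Pool.Agent.Lib.MP_689e73_mp (psi DD LL HI e0)
open Pool.Agent.Lib.MP_6c3a95_mp (WD bv)

noncomputable section

/-! ### The atom in one variable -/

def Y (g : ℝ → ℝ) (r : ℝ) : ℝ := ∫ s in (0 : ℝ)..r, g s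

def mass (y : ℝ → ℝ) : ℝ := 4 * π * ∫ r in Ioi (0 : ℝ), y r ^ 2

def Wp (y : ℝ → ℝ) (r : ℝ) : ℝ := ∫ s in Ioi (0 : ℝ), y s ^ 2 / max r s

def ph (z : ℝ) (y : ℝ → ℝ) (r : ℝ) : ℝ := z / r - 4 * π * Wp y r

def qq (z μ : ℝ) (y : ℝ → ℝ) (r : ℝ) : ℝ := (|y r| / r) ^ (4 / 3 : ℝ) - ph z y r + μ

structure Cl (y : ℝ → ℝ) : Prop where
  cont : ContinuousOn y (Ici 0)
  sq : ∃ M, ∀ r, 0 ≤ r → y r ^ 2 ≤ M * r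
  int : IntegrableOn (fun r => y r ^ 2) (Ioi 0)

structure K1 (z : ℝ) (g : ℝ → ℝ) : Prop where
  l2 : MemLp g 2 (volume.restrict (Ioi 0))
  int : IntegrableOn (fun r => Y g r ^ 2) (Ioi 0)
  le : mass (Y g) ≤ z

def J (z : ℝ) (g : ℝ → ℝ) : ℝ :=
  A * (∫ r in Ioi (0 : ℝ), g r ^ 2)
    + 3 / 5 * (∫ r in Ioi (0 : ℝ), |Y g r| ^ (10 / 3 : ℝ) * r ^ (-(4 / 3) : ℝ))
    - z * (∫ r in Ioi (0 : ℝ), Y g r ^ 2 / r)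
    + 2 * π * ∫ r in Ioi (0 : ℝ), Y g r ^ 2 * Wp (Y g) r

def Min1 (z : ℝ) (g : ℝ → ℝ) : Prop := K1 z g ∧ ∀ h, K1 z h → J z g ≤ J z h

/-- Test directions: square integrable, supported in `(a, b]`, mean zero. -/
structure Dir (a b : ℝ) (h : ℝ → ℝ) : Prop where
  a0 : 0 < a
  ab : a < b
  l2 : MemLp h 2 (volume.restrict (Ioi 0))
  supp : ∀ r, r ∉ Ioc a b → h r = 0
  mean : ∫ r in a..b, h r = 0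

/-- Positive solution of the radial equation. -/
structure Rad0 (z μ : ℝ) (y y' : ℝ → ℝ) : Prop where
  cl : Cl y
  pos : ∀ r, 0 < r → 0 < y r
  d1 : ∀ r, 0 < r → HasDerivAt y (y' r) r
  d2 : ∀ r, 0 < r → HasDerivAt y' (qq z μ y r * y r / A) r
  le : mass y ≤ z
  compl : mass y < z → μ = 0

def St_B1 : Prop :=
  ∀ g : ℝ → ℝ, MemLp g 2 (volume.restrict (Ioi 0)) →
    (∀ a b, 0 ≤ a → 0 ≤ b → IntervalIntegrable g volume a b) ∧ ContinuousOn (Y g) (Ici 0) ∧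
      ∀ r, 0 ≤ r → Y g r ^ 2 ≤ (∫ s in Ioi (0 : ℝ), g s ^ 2) * r

def St_B2 : Prop :=
  ∀ y : ℝ → ℝ, Cl y →
    IntegrableOn (fun r => y r ^ 2 / r) (Ioi 0) ∧
    IntegrableOn (fun r => |y r| ^ (10 / 3 : ℝ) * r ^ (-(4 / 3) : ℝ)) (Ioi 0) ∧
    (∀ r, IntegrableOn (fun s => y s ^ 2 / max r s) (Ioi 0)) ∧
    ContinuousOn (Wp y) (Ioi 0) ∧
    IntegrableOn (fun r => y r ^ 2 * Wp y r) (Ioi 0) ∧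
    ∀ r, 0 < r → 0 ≤ Wp y r ∧ Wp y r ≤ (∫ s in Ioi (0 : ℝ), y s ^ 2 / s) ∧
      4 * π * Wp y r ≤ mass y / r ∧
      mass y / r - 4 * π / r * (∫ s in Ioi r, y s ^ 2) ≤ 4 * π * Wp y r

def St_EX : Prop := ∀ z, 0 < z → ∃ g, Min1 z g

def St_NEG : Prop := ∀ z, 0 < z → ∃ h, K1 z h ∧ J z h < 0

def St_EL1 : Prop :=
  ∀ z g, 0 < z → Min1 z g → ∃ μ : ℝ, (mass (Y g) < z → μ = 0) ∧ ∀ a b h, Dir a b h →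
    A * (∫ r in a..b, g r * h r) + ∫ r in a..b, qq z μ (Y g) r * Y g r * Y h r = 0

def St_EL2 : Prop :=
  ∀ g F : ℝ → ℝ, MemLp g 2 (volume.restrict (Ioi 0)) → ContinuousOn F (Ioi 0) →
    (∀ a b h, Dir a b h → (∫ r in a..b, g r * h r) + ∫ r in a..b, F r * Y h r = 0) →
    ∃ y' : ℝ → ℝ, ∀ r, 0 < r → HasDerivAt (Y g) (y' r) r ∧ HasDerivAt y' (F r) r

def St_POS : Prop := ∀ z, 0 < z → ∃ μ y y', Rad0 z μ y y'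

def St_MP : Prop :=
  ∀ (a : ℝ) (w w' w'' : ℝ → ℝ), (∀ r, a ≤ r → HasDerivAt w (w' r) r) →
    (∀ r, a ≤ r → HasDerivAt w' (w'' r) r) → w a ≤ 0 → (∀ r, a ≤ r → 0 < w r → 0 ≤ w'' r) →
    (∀ ε, 0 < ε → ∀ᶠ r in atTop, w r ≤ ε * r) → ∀ r, a ≤ r → w r ≤ 0

def St_MU : Prop := ∀ z μ y y', 0 < z → Rad0 z μ y y' → 0 < μ ∧ mass y = z

def St_DEC : Prop :=
  ∀ z κ y y', 0 < z → 0 < κ → Rad0 z (A * κ ^ 2) y y' → mass y = z → ∃ c, 0 < c ∧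
    Tendsto (fun r => exp (κ * r) * y r) atTop (𝓝 c) ∧
    Tendsto (fun r => exp (κ * r) * y' r) atTop (𝓝 (-(κ * c)))

def St_ZERO : Prop :=
  ∀ z μ y y', 0 < z → Rad0 z μ y y' → ∃ K, ∀ r, 0 < r → r ≤ 1 →
    y r ≤ K * r ∧ r ≤ K * y r ∧ |r * y' r - y r| ≤ K * r ^ 2

/-! ### The atom in space -/

/-- Pointwise bounds on the orbital `a` and the screened potential `p` at radius `r`. -/
structure Pt (κ K r a p : ℝ) : Prop where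
  r0 : 0 < r
  up : a ≤ K * exp (-(κ * r)) / (1 + r)
  lo : exp (-(κ * r)) / (1 + r) ≤ K * a
  p0 : 0 ≤ p
  p1 : p ≤ K * exp (-(κ * r)) ^ 2 / r

/-- Data of a neutral atom: charge, decay rate, tail constant, orbital, its derivative,
screened potential. -/
structure At where
  z : ℝ
  κ : ℝ
  c : ℝ
  u : ℝ → ℝ
  v : ℝ → ℝ
  φ : ℝ → ℝ

def At.ρ (P : At) (b x : E3) : ℝ := P.u ‖x - b‖ ^ 2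

/-- `A` times the Laplacian of the orbital. -/
def At.FL (P : At) (r : ℝ) : ℝ := (P.u r ^ (4 / 3 : ℝ) - P.φ r + A * P.κ ^ 2) * P.u r

/-- Gradient of the orbital centred at `b`. -/
def At.gr (P : At) (b : E3) (i : Fin 3) (x : E3) : ℝ := P.v ‖x - b‖ * ((x - b) i / ‖x - b‖)

def At.k (P : At) : ℝ := ∫ x : E3, P.u ‖x‖ ^ (10 / 3 : ℝ)

def At.D (P : At) : ℝ := DD (P.ρ 0) (P.ρ 0)

/-- The energy of the density `t` times the atomic density. -/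
def At.G (P : At) (t : ℝ) : ℝ :=
  -(t * (P.k + A * P.κ ^ 2 * P.z + P.D)) + 3 / 5 * t ^ (5 / 3 : ℝ) * P.k + t ^ 2 / 2 * P.D

def At.e (P : At) : ℝ := -(A * P.κ ^ 2 * P.z) - P.D / 2 - 2 / 5 * P.k

structure At.Ok (P : At) (K : ℝ) : Prop where
  hz : 0 < P.z
  hκ : 0 < P.κ
  hc : 0 < P.c
  hK : 1 ≤ K
  mu : Measurable P.u
  mv : Measurable P.v
  mφ : Measurable P.φ
  nn : ∀ r, 0 ≤ P.u r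
  d1 : ∀ r, 0 < r → HasDerivAt P.u (P.v r) r
  d2 : ∀ r, 0 < r → HasDerivAt P.v (P.FL r / A - 2 * P.v r / r) r
  cφ : ContinuousOn P.φ (Ioi 0)
  newton : ∀ b x : E3, x ≠ b → P.φ ‖x - b‖ = P.z / ‖x - b‖ - psi (P.ρ b) x
  mass : ∫ x : E3, P.u ‖x‖ ^ 2 = P.z
  pt : ∀ r, 0 < r → Pt P.κ K r (P.u r) (P.φ r)
  dv : ∀ r, 0 < r → |P.v r| ≤ K * P.u r
  lim : Tendsto (fun r => r * exp (P.κ * r) * P.u r) atTop (𝓝 P.c)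
  lim' : Tendsto (fun r => r * exp (P.κ * r) * P.v r) atTop (𝓝 (-(P.κ * P.c)))

def St_ATOM : Prop := ∀ z, 0 < z → ∃ (P : At) (K : ℝ), P.z = z ∧ P.Ok K

/-! ### Two centres -/

def Vm (z₁ z₂ : ℝ) (b₁ b₂ x : E3) : ℝ := z₁ / ‖x - b₁‖ + z₂ / ‖x - b₂‖

def Ps (P Q : At) (α β : ℝ) (b₁ b₂ x : E3) : ℝ := α * P.u ‖x - b₁‖ + β * Q.u ‖x - b₂‖

def Gr (P Q : At) (α β : ℝ) (b₁ b₂ : E3) (i : Fin 3) (x : E3) : ℝ :=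
  α * P.gr b₁ i x + β * Q.gr b₂ i x

def La (P Q : At) (α β : ℝ) (b₁ b₂ x : E3) : ℝ := α * P.FL ‖x - b₁‖ + β * Q.FL ‖x - b₂‖

def St_PIC : Prop :=
  ∀ (P Q : At) (K α β : ℝ) (b₁ b₂ : E3) (f : E3 → ℝ) (g : Fin 3 → E3 → ℝ),
    P.Ok K → Q.Ok K → 0 < α → 0 ≤ β → MemLp f 2 → (∀ i, MemLp (g i) 2) →
    (∀ i, WD volume f (g i) (bv i)) →
    Integrable (fun x => f x ^ 2 * (1 + ‖x - b₁‖⁻¹ + ‖x - b₂‖⁻¹)) →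
    Integrable (fun x => f x ^ 2 * (La P Q α β b₁ b₂ x / Ps P Q α β b₁ b₂ x)) ∧
      A * (∑ i, ∫ x, g i x ^ 2) + ∫ x, f x ^ 2 * (La P Q α β b₁ b₂ x / Ps P Q α β b₁ b₂ x) =
        A * ∑ i, ∫ x, (g i x - f x * (Gr P Q α β b₁ b₂ i x / Ps P Q α β b₁ b₂ x)) ^ 2

def St_TRI : Prop :=
  ∀ (P : At) (K : ℝ) (b : E3) (i : Fin 3), P.Ok K →
    MemLp (fun x : E3 => P.u ‖x - b‖) 2 ∧ MemLp (P.gr b i) 2 ∧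
      WD volume (fun x : E3 => P.u ‖x - b‖) (P.gr b i) (bv i)

def St_KIN : Prop :=
  ∀ (P Q : At) (K α β : ℝ) (b₁ b₂ : E3), P.Ok K → Q.Ok K → 0 < α → 0 ≤ β →
    (∀ lam ρ g, Adm lam ρ g →
      Integrable (fun x => ρ x * (La P Q α β b₁ b₂ x / Ps P Q α β b₁ b₂ x)) ∧
        -∫ x, ρ x * (La P Q α β b₁ b₂ x / Ps P Q α β b₁ b₂ x) ≤ A * ∑ i, ∫ x, g i x ^ 2) ∧
    ∀ t, 0 < t → ∃ g,
      Adm (t * ∫ x, Ps P Q α β b₁ b₂ x ^ 2) (fun x => t * Ps P Q α β b₁ b₂ x ^ 2) g ∧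
        A * ∑ i, ∫ x, g i x ^ 2 =
          -∫ x, t * Ps P Q α β b₁ b₂ x ^ 2 * (La P Q α β b₁ b₂ x / Ps P Q α β b₁ b₂ x)

def St_DUAL : Prop :=
  ∀ (z₁ z₂ μ lam : ℝ) (b₁ b₂ : E3) (W s τ ρ : E3 → ℝ) (g : Fin 3 → E3 → ℝ),
    LL τ → (∀ x, 0 ≤ τ x) → Measurable s → (∀ᵐ x, 0 ≤ s x) →
    Integrable (fun x => s x ^ (5 / 2 : ℝ)) →
    (∀ᵐ x, W x = s x + μ - Vm z₁ z₂ b₁ b₂ x + psi τ x) → Adm lam ρ g →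
    (-∫ x, ρ x * W x ≤ A * ∑ i, ∫ x, g i x ^ 2 →
      -(μ * lam) - DD τ τ / 2 - 2 / 5 * ∫ x, s x ^ (5 / 2 : ℝ) ≤ xi (Vm z₁ z₂ b₁ b₂) ρ g) ∧
    (LL ρ → A * ∑ i, ∫ x, g i x ^ 2 = -∫ x, ρ x * W x →
      Integrable (fun x => s x * ρ x) ∧
      xi (Vm z₁ z₂ b₁ b₂) ρ g = -(μ * lam) - DD τ τ / 2
        + DD (fun x => ρ x - τ x) (fun x => ρ x - τ x) / 2
        + (3 / 5 * (∫ x, ρ x ^ (5 / 3 : ℝ)) - ∫ x, s x * ρ x))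

def St_BDD : Prop :=
  ∀ (z₁ z₂ lam : ℝ) (b₁ b₂ : E3), 0 ≤ z₁ → 0 ≤ z₂ →
    BddBelow {e | ∃ ρ g, Adm lam ρ g ∧ e = xi (Vm z₁ z₂ b₁ b₂) ρ g}

def St_ATE : Prop :=
  ∀ (P : At) (K : ℝ), P.Ok K → Eat P.z P.z = P.e ∧ Tail P.z (A * P.κ ^ 2) P.c

/-! ### Pointwise inequalities -/

def hw (κ r : ℝ) : ℝ := exp (-(2 / 3 * κ * r)) * (1 + r⁻¹) ^ (5 / 2 : ℝ)

def ss (a b p q : ℝ) : ℝ := ((a ^ (4 / 3 : ℝ) + q) * a + (b ^ (4 / 3 : ℝ) + p) * b) / (a + b)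

def TT (a b p q : ℝ) : ℝ := a * b * (p + q - a ^ (4 / 3 : ℝ) - b ^ (4 / 3 : ℝ))

def St_LOWP : Prop :=
  ∀ κ K : ℝ, 0 < κ → 1 ≤ K → ∃ C, 0 ≤ C ∧ ∀ r₁ r₂ a b p q, Pt κ K r₁ a p → Pt κ K r₂ b q →
    2 / 5 * (ss a b p q ^ (5 / 2 : ℝ) - a ^ (10 / 3 : ℝ) - b ^ (10 / 3 : ℝ)) ≤
      TT a b p q + C * exp (-(4 / 3 * κ * (r₁ + r₂))) * (hw κ r₁ + hw κ r₂)

def St_UPP : Prop :=
  ∀ κ K : ℝ, 0 < κ → 1 ≤ K → ∃ C, 0 ≤ C ∧ ∀ r₁ r₂ a b p q t, Pt κ K r₁ a p → Pt κ K r₂ b q →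
    0 ≤ t → t ≤ 1 →
    3 / 5 * (t * (a + b) ^ 2) ^ (5 / 3 : ℝ) - ss a b p q * (t * (a + b) ^ 2)
        + 2 / 5 * (a ^ (10 / 3 : ℝ) + b ^ (10 / 3 : ℝ)) + TT a b p q ≤
      C * (exp (-(4 / 3 * κ * (r₁ + r₂))) + (1 - t) * exp (-(2 / 3 * κ * (r₁ + r₂)))
        + (1 - t) ^ 2) * (hw κ r₁ + hw κ r₂)

def St_PT : Prop :=
  ∀ κ K : ℝ, 0 < κ → 1 ≤ K → ∃ C, 0 ≤ C ∧ ∀ r₁ r₂ a b p q, Pt κ K r₁ a p → Pt κ K r₂ b q →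
    a * b ≤ C * exp (-(2 / 3 * κ * (r₁ + r₂))) *
      (exp (-(2 / 3 * κ * r₁)) + exp (-(2 / 3 * κ * r₂))) ∧
    b ^ 2 * p ≤ C * exp (-(4 / 3 * κ * (r₁ + r₂))) * hw κ r₁ ∧
    0 ≤ ss a b p q ∧ ss a b p q ^ (5 / 2 : ℝ) ≤ C * (hw κ r₁ + hw κ r₂) ∧
    |TT a b p q| ≤ C * (hw κ r₁ + hw κ r₂)

/-! ### The molecule -/

def IT (P Q : At) (R : ℝ) : ℝ :=
  ∫ x : E3, TT (P.u ‖x - 0‖) (Q.u ‖x - R • e0‖) (P.φ ‖x - 0‖) (Q.φ ‖x - R • e0‖)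

def St_LOWA : Prop :=
  ∀ (P Q : At) (K : ℝ), P.Ok K → Q.Ok K → P.κ = Q.κ → ∃ C, ∀ R, 1 ≤ R →
    -IT P Q R - C * exp (-(4 / 3 * P.κ * R)) ≤ Emol P.z Q.z R - P.e - Q.e

def St_UPA : Prop :=
  ∀ (P Q : At) (K : ℝ), P.Ok K → Q.Ok K → P.κ = Q.κ → ∃ C, ∀ R, 1 ≤ R →
    Emol P.z Q.z R - P.e - Q.e ≤ -IT P Q R + C * exp (-(4 / 3 * P.κ * R))

def St_SPH : Prop :=
  ∀ (P : At) (K : ℝ), P.Ok K →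
    ∫ x : E3, P.u ‖x‖ * (P.φ ‖x‖ - P.u ‖x‖ ^ (4 / 3 : ℝ)) * exp (P.κ * x 0) = 4 * π * A * P.c

def St_LIM : Prop :=
  ∀ (P Q : At) (K : ℝ), P.Ok K → Q.Ok K → P.κ = Q.κ →
    Tendsto (fun R => R * exp (P.κ * R) * IT P Q R) atTop (𝓝 (8 * π * A * P.c * Q.c))

def St_CB1 : Prop :=
  ∀ (P Q : At) (K α β η : ℝ), P.Ok K → Q.Ok K → 0 < α → 0 < β →
    α ^ 2 * P.z + β ^ 2 * Q.z = P.z + Q.z → 0 < η →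
    ∀ᶠ R in atTop, Emol P.z Q.z R ≤ P.G (α ^ 2) + Q.G (β ^ 2) + η

def St_CB : Prop :=
  ∀ (P Q : At) (K : ℝ), P.Ok K → Q.Ok K → P.κ ≠ Q.κ →
    ∃ δ, 0 < δ ∧ ∀ᶠ R in atTop, Emol P.z Q.z R ≤ P.e + Q.e - δ

def St_MAIN : Prop :=
  ∃ μ c : ℝ → ℝ, (∀ z, 0 < z → Tail z (μ z) (c z)) ∧ ∀ z₁ z₂, 0 < z₁ → 0 < z₂ →
    (μ z₁ = μ z₂ → Tendsto
      (fun R => R * exp (√(μ z₁ / A) * R) * (Emol z₁ z₂ R - Eat z₁ z₁ - Eat z₂ z₂)) atTop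
      (𝓝 (-(8 * π * A * c z₁ * c z₂)))) ∧
    (μ z₁ ≠ μ z₂ → ∃ δ, 0 < δ ∧ ∀ᶠ R in atTop, Emol z₁ z₂ R ≤ Eat z₁ z₁ + Eat z₂ z₂ - δ)

lemma A_pos : 0 < A := by unfold A; positivity

end

end Pool.Agent.Lib.TFW
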