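import Mathlib

open MeasureTheory Filter Topology Set
open scoped ContDiff

namespace Pool.Agent.Lib.TFW

noncomputable section

/-- Physical space. -/
abbrev E3 := EuclideanSpace ℝ (Fin 3)

/-- The coefficient of the gradient term. -/
def A : ℝ := (3 * Real.pi ^ 2) ^ (-(2 / 3) : ℝ)

/-- `ρ` is an admissible density of mass `lam` and `g` is the weak gradient of its square root. -/
structure Adm (lam : ℝ) (ρ : E3 → ℝ) (g : Fin 3 → E3 → ℝ) : Prop where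
  nonneg : ∀ᵐ x, 0 ≤ ρ x
  int : Integrable ρ
  lp : MemLp ρ (5 / 3)
  l2 : ∀ i, MemLp (g i) 2
  weak : ∀ i, ∀ φ : E3 → ℝ, ContDiff ℝ ∞ φ → HasCompactSupport φ →
    ∫ x, √(ρ x) * fderiv ℝ φ x (EuclideanSpace.single i 1) = -∫ x, g i x * φ x
  mass : ∫ x, ρ x = lam

/-- The Thomas-Fermi-von Weizsaecker functional. -/
def xi (V ρ : E3 → ℝ) (g : Fin 3 → E3 → ℝ) : ℝ :=
  A * (∑ i, ∫ x, g i x ^ 2) + 3 / 5 * (∫ x, ρ x ^ (5 / 3 : ℝ)) - (∫ x, V x * ρ x)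
    + 1 / 2 * ∫ x, ∫ y, ρ x * ρ y / ‖x - y‖

/-- The ground state energy with `lam` electrons in the potential `V`. -/
def EV (V : E3 → ℝ) (lam : ℝ) : ℝ := sInf {e | ∃ ρ g, Adm lam ρ g ∧ e = xi V ρ g}

/-- The energy of the atom or ion with nuclear charge `z` and `lam` electrons. -/
def Eat (z lam : ℝ) : ℝ := EV (fun x => z / ‖x‖) lam

/-- The energy of the neutral diatomic molecule with nuclei at distance `R`. -/
def Emol (z₁ z₂ R : ℝ) : ℝ :=
  EV (fun x => z₁ / ‖x‖ + z₂ / ‖x - EuclideanSpace.single 0 R‖) (z₁ + z₂) + z₁ * z₂ / R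

/-- `μ` is the chemical potential of the neutral atom of charge `z` and `c` is the tail constant
of a radial minimiser. -/
def Tail (z μ c : ℝ) : Prop :=
  0 < μ ∧ 0 < c ∧ HasDerivAt (Eat z) (-μ) z ∧
    ∃ (u : ℝ → ℝ) (g : Fin 3 → E3 → ℝ), (∀ r, 0 ≤ u r) ∧ Adm z (fun x => u ‖x‖ ^ 2) g ∧
      xi (fun x => z / ‖x‖) (fun x => u ‖x‖ ^ 2) g = Eat z z ∧
      Tendsto (fun r => r * Real.exp (√(μ / A) * r) * u r) atTop (𝓝 c)

end

end Pool.Agent.Lib.TFW
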